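import Mathlib

set_option autoImplicit false

open Complex Metric Set Filter Topology

namespace Pool.Agent.Lib.Pd7a79b

/-- An injective holomorphic function on an open set has nonvanishing derivative. -/
theorem deriv_ne_zero_of_injOn {h : ℂ → ℂ} {U : Set ℂ} (hU : IsOpen U)
    (hd : DifferentiableOn ℂ h U) (hi : InjOn h U) {z : ℂ} (hz : z ∈ U) : deriv h z ≠ 0 := by
  have ha : AnalyticAt ℂ h z := (hd.analyticOnNhd hU) z hz
  have hne : ¬ ∀ᶠ w in 𝓝 z, h w - h z = 0 := by
    intro hev
    have hUn : ∀ᶠ w in 𝓝 z, w ∈ U := hU.mem_nhds hz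
    have h1 : ∀ᶠ w in 𝓝[≠] z, h w - h z = 0 ∧ w ∈ U :=
      (hev.and hUn).filter_mono nhdsWithin_le_nhds
    have h2 : ∀ᶠ w in 𝓝[≠] z, w ≠ z := eventually_mem_nhdsWithin
    obtain ⟨w, ⟨hw1, hw2⟩, hw3⟩ := (h1.and h2).exists
    exact hw3 (hi hw2 hz (sub_eq_zero.mp hw1))
  obtain ⟨n, g, hg, hgz, hgeq⟩ :=
    (AnalyticAt.exists_eventuallyEq_pow_smul_nonzero_iff
      (ha.sub (analyticAt_const (v := h z)))).mpr hne
  simp only [smul_eq_mul, Pi.sub_apply] at hgeq
  rcases Nat.lt_or_ge n 2 with hn | hn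
  · interval_cases n
    · exfalso
      have := hgeq.self_of_nhds
      simp at this
      exact hgz this.symm
    · have h3 : h =ᶠ[𝓝 z] fun w => h z + (w - z) * g w := by
        filter_upwards [hgeq] with w hw
        rw [pow_one] at hw
        rw [← hw]; ring
      have h4 : HasDerivAt (fun w => h z + (w - z) * g w) (g z) z := by
        have h5 := (((hasDerivAt_id z).sub_const z).mul hg.differentiableAt.hasDerivAt).const_add
          (h z)
        simpa using h5
      have h6 := h4.congr_of_eventuallyEq h3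
      rw [h6.deriv]
      exact hgz
  · intro _
    have hn0 : (n : ℂ) ≠ 0 := by
      have : n ≠ 0 := by omega
      exact_mod_cast this
    set u : ℂ → ℂ := fun w => (w - z) * Complex.exp (Complex.log (g w / g z) / n) with hu
    have hga : AnalyticAt ℂ (fun w => g w / g z) z := hg.div_const
    have hlog : AnalyticAt ℂ (fun w => Complex.log (g w / g z)) z := by
      apply hga.clog
      simp [hgz]
    have hE : AnalyticAt ℂ (fun w => Complex.exp (Complex.log (g w / g z) / n)) z :=
      (hlog.div_const).cexp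
    have hua : AnalyticAt ℂ u z := (analyticAt_id.sub analyticAt_const).mul hE
    have hud : HasDerivAt u 1 z := by
      have h5 := (((hasDerivAt_id z).sub_const z).mul hE.differentiableAt.hasDerivAt)
      simp only [id, sub_self, zero_mul, add_zero, one_mul, div_self hgz, Complex.log_one,
        zero_div, Complex.exp_zero] at h5
      exact h5
    have hus : HasStrictDerivAt u 1 z := by
      have := hua.hasStrictDerivAt
      rwa [hud.deriv] at this
    have hmap : map u (𝓝 z) = 𝓝 (u z) := hus.map_nhds_eq one_ne_zero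
    have huz : u z = 0 := by simp [hu]
    rw [huz] at hmap
    -- good neighbourhood
    have hgnz : ∀ᶠ w in 𝓝 z, g w ≠ 0 := hg.continuousAt.eventually_ne hgz
    have hS : ∀ᶠ w in 𝓝 z, w ∈ U ∧ h w - h z = g z * u w ^ n := by
      filter_upwards [hU.mem_nhds hz, hgeq, hgnz] with w hw1 hw2 hw3
      refine ⟨hw1, ?_⟩
      rw [hw2, hu]
      simp only
      rw [mul_pow, ← Complex.exp_nat_mul, mul_div_cancel₀ _ hn0,
        Complex.exp_log (div_ne_zero hw3 hgz)]
      field_simp
    set S : Set ℂ := {w | w ∈ U ∧ h w - h z = g z * u w ^ n} with hSdef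
    have hSn : u '' S ∈ 𝓝 (0 : ℂ) := by
      rw [← hmap]
      exact image_mem_map hS
    set ω : ℂ := Complex.exp (2 * Real.pi * I / n) with hω
    have hprim : IsPrimitiveRoot ω n := Complex.isPrimitiveRoot_exp n (by omega)
    have hω1 : ω ≠ 1 := hprim.ne_one (by omega)
    have hωn : ω ^ n = 1 := hprim.pow_eq_one
    have hmul : Tendsto (fun e : ℂ => ω * e) (𝓝 0) (𝓝 0) := by
      have : ContinuousAt (fun e : ℂ => ω * e) 0 := by fun_prop
      simpa using this.tendsto
    have hboth : ∀ᶠ e in 𝓝[≠] (0 : ℂ), e ∈ u '' S ∧ ω * e ∈ u '' S :=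
      ((show ∀ᶠ e in 𝓝 (0 : ℂ), e ∈ u '' S from hSn).and (hmul.eventually hSn)).filter_mono
        nhdsWithin_le_nhds
    have hne2 : ∀ᶠ e in 𝓝[≠] (0 : ℂ), e ≠ 0 := eventually_mem_nhdsWithin
    obtain ⟨e, ⟨⟨w1, hw1, he1⟩, ⟨w2, hw2, he2⟩⟩, he0⟩ := (hboth.and hne2).exists
    have h7 : h w1 = h w2 := by
      have a1 := hw1.2
      have a2 := hw2.2
      rw [he1] at a1
      rw [he2, mul_pow, hωn, one_mul, ← a1] at a2
      linear_combination -a2
    have h8 : w1 = w2 := hi hw1.1 hw2.1 h7
    rw [h8] at he1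
    rw [he1] at he2
    have : (ω - 1) * e = 0 := by linear_combination -he2
    rcases mul_eq_zero.mp this with h9 | h9
    · exact hω1 (sub_eq_zero.mp h9)
    · exact he0 h9

end Pool.Agent.Lib.Pd7a79b
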