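import Pool.Agent.Lib.Pd7a79b.Pos

set_option autoImplicit false

open Complex Metric Set Filter Topology MeasureTheory

namespace Pool.Agent.Lib.Pd7a79b

variable {h : ℂ → ℂ} {R : ℝ}

theorem BB_congr {G G₁ F F₁ : ℂ → ℂ} (h1 : ∀ z ∈ sphere (0 : ℂ) 1, G z = G₁ z)
    (h2 : ∀ z ∈ sphere (0 : ℂ) 1, F z = F₁ z) : BB G F = BB G₁ F₁ := by
  unfold BB
  apply Real.circleAverage_congr_sphere
  intro z hz
  rw [abs_one] at hz
  simp only
  rw [h1 z hz, h2 z hz]

theorem BB_sub_left {G₁ G₂ F : ℂ → ℂ} (h1 : ContinuousOn G₁ (sphere 0 1))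
    (h2 : ContinuousOn G₂ (sphere 0 1)) (hF : ContinuousOn F (sphere 0 1)) :
    BB (fun z => G₁ z - G₂ z) F = BB G₁ F - BB G₂ F := by
  unfold BB
  rw [← Real.circleAverage_fun_sub (BB_integrable h1 hF) (BB_integrable h2 hF)]
  congr 1
  funext z
  rw [map_sub]
  ring

theorem BB_sub_right {G F₁ F₂ : ℂ → ℂ} (h1 : ContinuousOn F₁ (sphere 0 1))
    (h2 : ContinuousOn F₂ (sphere 0 1)) (hG : ContinuousOn G (sphere 0 1)) :
    BB G (fun z => F₁ z - F₂ z) = BB G F₁ - BB G F₂ := by
  unfold BB
  rw [← Real.circleAverage_fun_sub (BB_integrable hG h1) (BB_integrable hG h2)]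
  congr 1
  funext z
  ring

theorem BB_smul_left (c : ℂ) (G F : ℂ → ℂ) :
    BB (fun z => c * G z) F = (starRingEnd ℂ) c * BB G F := by
  unfold BB
  rw [← smul_eq_mul ((starRingEnd ℂ) c), ← Real.circleAverage_fun_smul]
  congr 1
  funext z
  rw [map_mul, smul_eq_mul]
  ring

theorem BB_smul_right (c : ℂ) (G F : ℂ → ℂ) :
    BB G (fun z => c * F z) = c * BB G F := by
  unfold BB
  rw [← smul_eq_mul c, ← Real.circleAverage_fun_smul]
  congr 1
  funext z
  rw [smul_eq_mul]
  ring

/-- average of `z g(z)` is a circle integral -/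
theorem cavg_z_mul (g : ℂ → ℂ) : Real.circleAverage (fun z => z * g z) 0 1 =
    (2 * Real.pi * I)⁻¹ * ∮ z in C(0, 1), g z := by
  rw [Real.circleAverage_eq_circleIntegral one_ne_zero, smul_eq_mul]
  congr 1
  apply circleIntegral.integral_congr zero_le_one
  intro z hz
  have hz0 : z ≠ 0 := by
    rintro rfl
    simp at hz
  simp only [sub_zero, smul_eq_mul]
  field_simp

theorem mean_zero {ρ : ℝ} (hρ : 1 < ρ) {P : ℂ → ℂ} (hP : DifferentiableOn ℂ P (ball 0 ρ)) :
    Real.circleAverage (fun z => z * P z) 0 1 = 0 := by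
  rw [cavg_z_mul, circle_int_zero hρ hP, mul_zero]

theorem cavg4 {f₁ f₂ f₃ f₄ : ℂ → ℂ} (h1 : ContinuousOn f₁ (sphere 0 1))
    (h2 : ContinuousOn f₂ (sphere 0 1)) (h3 : ContinuousOn f₃ (sphere 0 1))
    (h4 : ContinuousOn f₄ (sphere 0 1)) :
    Real.circleAverage (fun z => (f₁ z + f₂ z) + (f₃ z - f₄ z)) 0 1 =
      (Real.circleAverage f₁ 0 1 + Real.circleAverage f₂ 0 1) +
      (Real.circleAverage f₃ 0 1 - Real.circleAverage f₄ 0 1) := by
  have i12 : CircleIntegrable (fun z => f₁ z + f₂ z) 0 1 := (h1.add h2).circleIntegrable zero_le_one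
  have i34 : CircleIntegrable (fun z => f₃ z - f₄ z) 0 1 := (h3.sub h4).circleIntegrable zero_le_one
  rw [Real.circleAverage_fun_add i12 i34,
    Real.circleAverage_fun_add (h1.circleIntegrable zero_le_one) (h2.circleIntegrable zero_le_one),
    Real.circleAverage_fun_sub (h3.circleIntegrable zero_le_one) (h4.circleIntegrable zero_le_one)]

/-- The abstract Goluzin inequality. -/
theorem abstract_ineq (hR : 1 < R) (hd : DifferentiableOn ℂ h (ball 0 R))
    (hi : InjOn h (ball 0 R)) {ρ : ℝ} (hρ : 1 < ρ) {A q p p' : ℂ → ℂ}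
    (hA : DifferentiableOn ℂ A (ball 0 ρ)) (hq : DifferentiableOn ℂ q (ball 0 ρ))
    (hp : ∀ z ∈ sphere (0 : ℂ) 1, HasDerivAt p (p' z) z)
    (hpq : ∀ z ∈ sphere (0 : ℂ) 1, p z = (starRingEnd ℂ) (q z))
    (hpq' : ∀ z ∈ sphere (0 : ℂ) 1, z * p' z = -(starRingEnd ℂ) (z * deriv q z))
    (happ : Appr h (fun z => p' z + deriv A z)) :
    ‖Real.circleAverage (fun z => A z * (starRingEnd ℂ) (z * deriv q z)) 0 1‖ ≤
      (BB q (deriv q)).re := by
  have hsub := sphere_sub_ball hρ
  have hAc : ContinuousOn A (sphere (0 : ℂ) 1) := hA.continuousOn.mono hsub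
  have hqc : ContinuousOn q (sphere (0 : ℂ) 1) := hq.continuousOn.mono hsub
  have hA' : DifferentiableOn ℂ (deriv A) (ball 0 ρ) := hA.deriv isOpen_ball
  have hq' : DifferentiableOn ℂ (deriv q) (ball 0 ρ) := hq.deriv isOpen_ball
  have hA'c : ContinuousOn (deriv A) (sphere (0 : ℂ) 1) := hA'.continuousOn.mono hsub
  have hq'c : ContinuousOn (deriv q) (sphere (0 : ℂ) 1) := hq'.continuousOn.mono hsub
  have hz0 : ∀ z ∈ sphere (0 : ℂ) 1, z ≠ 0 := by
    rintro z hz rfl
    simp at hz
  have hp'eq : ∀ z ∈ sphere (0 : ℂ) 1, p' z = z⁻¹ * -(starRingEnd ℂ) (z * deriv q z) := by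
    intro z hz
    rw [← hpq' z hz, ← mul_assoc, inv_mul_cancel₀ (hz0 z hz), one_mul]
  have hconj : ContinuousOn (fun z => (starRingEnd ℂ) (z * deriv q z)) (sphere (0 : ℂ) 1) :=
    Complex.continuous_conj.comp_continuousOn (continuousOn_id.mul hq'c)
  have hp'c : ContinuousOn p' (sphere (0 : ℂ) 1) := by
    have h1 : ContinuousOn (fun z => z⁻¹ * -(starRingEnd ℂ) (z * deriv q z))
        (sphere (0 : ℂ) 1) := by
      apply ContinuousOn.mul
      · exact continuousOn_id.inv₀ hz0
      · exact hconj.neg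
    exact h1.congr hp'eq
  have hpc : ContinuousOn p (sphere (0 : ℂ) 1) :=
    fun z hz => (hp z hz).continuousAt.continuousWithinAt
  -- step 1
  have hFd : ∀ z ∈ sphere (0 : ℂ) 1, HasDerivAt (fun z => p z + A z) (p' z + deriv A z) z := by
    intro z hz
    exact (hp z hz).add (hA.differentiableAt (isOpen_ball.mem_nhds (hsub hz))).hasDerivAt
  have h1 := BB_nonpos_of_appr hR hd hi hFd (hp'c.add hA'c) happ
  -- step 2
  have h2 : BB (fun z => p z + A z) (fun z => p' z + deriv A z) =
      -(starRingEnd ℂ) (BB q (deriv q)) + BB A (deriv A) := by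
    have e1 : BB (fun z => p z + A z) (fun z => p' z + deriv A z) =
        Real.circleAverage (fun z => ((-1 : ℂ) • (starRingEnd ℂ) ((starRingEnd ℂ) (q z) *
            (z * deriv q z)) + (starRingEnd ℂ) (A z) * (z * deriv A z)) +
          (z * (q z * deriv A z) - (starRingEnd ℂ) (z * (A z * deriv q z)))) 0 1 := by
      unfold BB
      apply Real.circleAverage_congr_sphere
      intro z hz
      rw [abs_one] at hz
      simp only [smul_eq_mul]
      rw [mul_add, hpq' z hz, hpq z hz]
      simp only [map_add, map_mul, Complex.conj_conj]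
      ring
    have i1 : ContinuousOn (fun z => (-1 : ℂ) • (starRingEnd ℂ) ((starRingEnd ℂ) (q z) *
            (z * deriv q z))) (sphere (0 : ℂ) 1) := by
      apply ContinuousOn.mul continuousOn_const
      apply Complex.continuous_conj.comp_continuousOn
      exact (Complex.continuous_conj.comp_continuousOn hqc).mul (continuousOn_id.mul hq'c)
    have i2 : ContinuousOn (fun z => (starRingEnd ℂ) (A z) * (z * deriv A z))
        (sphere (0 : ℂ) 1) :=
      (Complex.continuous_conj.comp_continuousOn hAc).mul (continuousOn_id.mul hA'c)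
    have i3 : ContinuousOn (fun z => z * (q z * deriv A z)) (sphere (0 : ℂ) 1) :=
      continuousOn_id.mul (hqc.mul hA'c)
    have i4 : ContinuousOn (fun z => (starRingEnd ℂ) (z * (A z * deriv q z)))
        (sphere (0 : ℂ) 1) := by
      apply Complex.continuous_conj.comp_continuousOn
      exact continuousOn_id.mul (hAc.mul hq'c)
    rw [e1, cavg4 i1 i2 i3 i4,
      Real.circleAverage_fun_smul, ← conj_cavg, ← conj_cavg]
    have m1 : Real.circleAverage (fun z => z * (q z * deriv A z)) 0 1 = 0 :=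
      mean_zero hρ (hq.mul hA')
    have m2 : Real.circleAverage (fun z => z * (A z * deriv q z)) 0 1 = 0 :=
      mean_zero hρ (hA.mul hq')
    rw [m1, m2]
    simp only [map_zero, sub_zero, add_zero, smul_eq_mul, neg_one_mul]
    rfl
  have h3 : (BB A (deriv A)).re ≤ (BB q (deriv q)).re := by
    rw [h2, Complex.add_re, Complex.neg_re, Complex.conj_re] at h1
    linarith
  -- step 3
  have h4 : BB q (deriv A) = (starRingEnd ℂ) (BB A (deriv q)) := by
    have e1 : (starRingEnd ℂ) (BB A (deriv q)) =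
        Real.circleAverage (fun z => A z * (starRingEnd ℂ) (z * deriv q z)) 0 1 := by
      unfold BB
      rw [conj_cavg]
      congr 1
      funext z
      rw [map_mul, map_mul, Complex.conj_conj]
    rw [e1, ← sub_eq_zero]
    have i1 : CircleIntegrable (fun z => A z * (starRingEnd ℂ) (z * deriv q z)) 0 1 := by
      apply ContinuousOn.circleIntegrable zero_le_one
      exact hAc.mul hconj
    unfold BB
    rw [← Real.circleAverage_fun_sub (BB_integrable hqc hA'c) i1]
    have e2 : Real.circleAverage (fun z => (starRingEnd ℂ) (q z) * (z * deriv A z) -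
        A z * (starRingEnd ℂ) (z * deriv q z)) 0 1 =
        Real.circleAverage (fun z => z * (p' z * A z + p z * deriv A z)) 0 1 := by
      apply Real.circleAverage_congr_sphere
      intro z hz
      rw [abs_one] at hz
      simp only
      rw [← hpq z hz]
      linear_combination (-A z) * hpq' z hz
    rw [e2, cavg_z_mul]
    have e3 : ∮ z in C(0, 1), (p' z * A z + p z * deriv A z) = 0 := by
      apply circleIntegral.integral_eq_zero_of_hasDerivWithinAt (f := fun z => p z * A z)
        zero_le_one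
      intro z hz
      exact ((hp z hz).mul (hA.differentiableAt
        (isOpen_ball.mem_nhds (hsub hz))).hasDerivAt).hasDerivWithinAt
    rw [e3, mul_zero]
  have h5 : Real.circleAverage (fun z => A z * (starRingEnd ℂ) (z * deriv q z)) 0 1 =
      (starRingEnd ℂ) (BB A (deriv q)) := by
    unfold BB
    rw [conj_cavg]
    congr 1
    funext z
    simp only [map_mul, Complex.conj_conj]
  rw [h5, Complex.norm_conj]
  -- step 4
  have h6 : ∀ s : ℂ, ‖s‖ = 1 → (s * BB A (deriv q)).re ≤ (BB q (deriv q)).re := by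
    intro s hs
    have hG : DifferentiableOn ℂ (fun z => A z - s * q z) (ball 0 ρ) :=
      hA.sub (hq.const_mul s)
    have hpos := BB_nonneg hρ hG
    have e1 : BB (fun z => A z - s * q z) (deriv (fun z => A z - s * q z)) =
        BB (fun z => A z - s * q z) (fun z => deriv A z - s * deriv q z) := by
      apply BB_congr (fun z _ => rfl)
      intro z hz
      have d1 := (hA.differentiableAt (isOpen_ball.mem_nhds (hsub hz))).hasDerivAt
      have d2 := (hq.differentiableAt (isOpen_ball.mem_nhds (hsub hz))).hasDerivAt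
      exact (d1.sub (d2.const_mul s)).deriv
    have c1 : ContinuousOn (fun z => s * q z) (sphere (0 : ℂ) 1) := hqc.const_smul s
    have c2 : ContinuousOn (fun z => s * deriv q z) (sphere (0 : ℂ) 1) := hq'c.const_smul s
    have c3 : ContinuousOn (fun z => deriv A z - s * deriv q z) (sphere (0 : ℂ) 1) :=
      hA'c.sub c2
    rw [e1, BB_sub_left hAc c1 c3, BB_sub_right hA'c c2 hAc,
      BB_sub_right hA'c c2 c1, BB_smul_left, BB_smul_left, BB_smul_right, BB_smul_right,
      h4] at hpos
    have e2 : (starRingEnd ℂ) s * (s * BB q (deriv q)) = BB q (deriv q) := by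
      rw [← mul_assoc, mul_comm ((starRingEnd ℂ) s) s, Complex.mul_conj, Complex.normSq_eq_norm_sq,
        hs]
      simp
    rw [e2] at hpos
    have e3 : ((starRingEnd ℂ) s * (starRingEnd ℂ) (BB A (deriv q))).re =
        (s * BB A (deriv q)).re := by
      rw [← map_mul, Complex.conj_re]
    simp only [Complex.sub_re] at hpos
    rw [e3] at hpos
    linarith
  by_cases hB : BB A (deriv q) = 0
  · have := h6 1 (by simp)
    rw [hB] at this ⊢
    simpa using this
  · have hn : ‖BB A (deriv q)‖ ≠ 0 := by simpa using hB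
    have := h6 ((starRingEnd ℂ) (BB A (deriv q)) / ‖BB A (deriv q)‖) (by
      rw [norm_div, Complex.norm_conj, Complex.norm_real, norm_norm, div_self hn])
    have e4 : ((starRingEnd ℂ) (BB A (deriv q)) / ‖BB A (deriv q)‖ * BB A (deriv q)) =
        (‖BB A (deriv q)‖ : ℂ) := by
      rw [div_mul_eq_mul_div, mul_comm ((starRingEnd ℂ) (BB A (deriv q))), Complex.mul_conj,
        Complex.normSq_eq_norm_sq]
      have : (‖BB A (deriv q)‖ : ℂ) ≠ 0 := by exact_mod_cast hn
      push_cast
      field_simp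
    rw [e4, Complex.ofReal_re] at this
    exact this

end Pool.Agent.Lib.Pd7a79b
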