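import Mathlib

set_option autoImplicit false

open Complex Metric Set Filter Topology MeasureTheory

namespace Pool.Agent.Lib.Pd7a79b

theorem kernel_integrable (M : ℝ) :
    Integrable (fun x : ℂ => (ball (0 : ℂ) M).indicator (fun x => ‖x‖⁻¹) x) volume := by
  rw [integrable_indicator_iff measurableSet_ball]
  have h1 := (integrableOn_fun_norm_addHaar (μ := (volume : Measure ℂ))
    (f := fun y : ℝ => y⁻¹) (r := M)).mpr
  apply h1
  have h2 : IntegrableOn (fun _ : ℝ => (1 : ℝ)) (Ioo 0 M) := by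
    have hs : volume (Ioo (0 : ℝ) M) ≠ ⊤ := by simp
    have hC : ‖(1 : ℝ)‖ₑ ≠ ⊤ := by simp
    exact integrableOn_const hs hC
  apply h2.congr_fun _ measurableSet_Ioo
  intro y hy
  have : y ≠ 0 := hy.1.ne'
  simp only [Complex.finrank_real_complex]
  norm_num
  rw [mul_inv_cancel₀ this]

/-- uniform bound for the kernel integral -/
theorem kernel_bound (M A : ℝ) : ∃ C : ℝ, 0 ≤ C ∧ ∀ a : ℂ, ‖a‖ ≤ A →
    IntegrableOn (fun c : ℂ => (a - c)⁻¹) (ball 0 M) volume ∧
    ∫ c in ball (0 : ℂ) M, ‖(a - c)⁻¹‖ ≤ C := by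
  set g : ℂ → ℝ := fun x => (ball (0 : ℂ) (M + A)).indicator (fun x => ‖x‖⁻¹) x with hg
  have hgi : Integrable g volume := kernel_integrable (M + A)
  have hg0 : ∀ x, 0 ≤ g x := by
    intro x
    rw [hg]
    apply indicator_nonneg
    intro x _
    positivity
  refine ⟨∫ x, g x, integral_nonneg hg0, ?_⟩
  intro a ha
  have h1 : Integrable (fun c => g (a - c)) volume := hgi.comp_sub_left a
  have h2 : ∀ c ∈ ball (0 : ℂ) M, g (a - c) = ‖(a - c)⁻¹‖ := by
    intro c hc
    rw [hg]
    simp only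
    rw [indicator_of_mem, norm_inv]
    rw [mem_ball_zero_iff] at hc ⊢
    calc ‖a - c‖ ≤ ‖a‖ + ‖c‖ := norm_sub_le a c
      _ < M + A := by linarith
  have h3 : IntegrableOn (fun c : ℂ => ‖(a - c)⁻¹‖) (ball 0 M) volume :=
    (h1.integrableOn (s := ball 0 M)).congr_fun h2 measurableSet_ball
  constructor
  · rw [IntegrableOn, ← integrable_norm_iff]
    · exact h3
    · have : Measurable (fun c : ℂ => (a - c)⁻¹) := by fun_prop
      exact this.aestronglyMeasurable
  · calc ∫ c in ball (0 : ℂ) M, ‖(a - c)⁻¹‖ = ∫ c in ball (0 : ℂ) M, g (a - c) :=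
        (setIntegral_congr_fun measurableSet_ball h2).symm
      _ ≤ ∫ c, g (a - c) := setIntegral_le_integral h1 (Eventually.of_forall fun c => hg0 _)
      _ = ∫ x, g x := integral_sub_left_eq_self g volume a

theorem prod_integrable {a b : ℝ → ℂ} (ha : Continuous a) (hb : Continuous b) (M A : ℝ)
    (hA : ∀ t, ‖a t‖ ≤ A) :
    Integrable (fun p : ℝ × ℂ => b p.1 / (a p.1 - p.2))
      ((volume.restrict (Ioc 0 (2 * Real.pi))).prod (volume.restrict (ball (0 : ℂ) M))) := by
  obtain ⟨C, hC0, hC⟩ := kernel_bound M A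
  have hmeas : Measurable (fun p : ℝ × ℂ => b p.1 / (a p.1 - p.2)) := by
    have h1 : Measurable a := ha.measurable
    have h2 : Measurable b := hb.measurable
    fun_prop
  have haes : AEStronglyMeasurable (fun p : ℝ × ℂ => b p.1 / (a p.1 - p.2))
      ((volume.restrict (Ioc 0 (2 * Real.pi))).prod (volume.restrict (ball (0 : ℂ) M))) :=
    hmeas.aestronglyMeasurable
  rw [integrable_prod_iff haes]
  constructor
  · apply Eventually.of_forall
    intro t
    simp only [div_eq_mul_inv]
    exact (hC (a t) (hA t)).1.const_mul (b t)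
  · have hbi : IntegrableOn (fun t => ‖b t‖ * C) (Ioc 0 (2 * Real.pi)) volume := by
      have : Continuous (fun t => ‖b t‖ * C) := by fun_prop
      exact (this.integrableOn_Icc).mono_set Ioc_subset_Icc_self
    apply Integrable.mono' hbi
    · exact haes.norm.integral_prod_right'
    · apply Eventually.of_forall
      intro t
      simp only [div_eq_mul_inv, norm_mul]
      rw [integral_const_mul]
      rw [Real.norm_of_nonneg]
      · exact mul_le_mul_of_nonneg_left (hC (a t) (hA t)).2 (norm_nonneg _)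
      · apply mul_nonneg (norm_nonneg _)
        apply integral_nonneg
        intro c
        positivity

theorem swap {a b : ℝ → ℂ} (ha : Continuous a) (hb : Continuous b) (M A : ℝ)
    (hA : ∀ t, ‖a t‖ ≤ A) :
    ∫ t in (0 : ℝ)..(2 * Real.pi), ∫ c in ball (0 : ℂ) M, b t / (a t - c) =
      ∫ c in ball (0 : ℂ) M, ∫ t in (0 : ℝ)..(2 * Real.pi), b t / (a t - c) := by
  simp only [intervalIntegral.integral_of_le Real.two_pi_pos.le]
  exact integral_integral_swap (prod_integrable ha hb M A hA)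

/-- rotation covariance of the Cauchy transform of a disc -/
theorem rot_cov (M : ℝ) (a u : ℂ) (hu : ‖u‖ = 1) :
    u * ∫ c in ball (0 : ℂ) M, (u * a - c)⁻¹ = ∫ c in ball (0 : ℂ) M, (a - c)⁻¹ := by
  have hu0 : u ≠ 0 := by
    intro h; rw [h] at hu; simp at hu
  let L : ℂ ≃ₗᵢ[ℝ] ℂ := rotation ⟨u, by simp [Submonoid.unitSphere, hu]⟩
  have hL : ∀ c, L c = u * c := by intro c; rfl
  have hmp : MeasurePreserving L volume volume := L.measurePreserving
  have hpre : L ⁻¹' ball (0 : ℂ) M = ball (0 : ℂ) M := by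
    ext c
    simp [hL]
  have h1 := hmp.setIntegral_preimage_emb L.toHomeomorph.measurableEmbedding
    (fun c => (u * a - c)⁻¹) (ball 0 M)
  rw [hpre] at h1
  rw [← h1, ← integral_const_mul]
  apply setIntegral_congr_fun measurableSet_ball
  intro c _
  simp only [hL]
  rw [← mul_sub, mul_inv, ← mul_assoc, mul_inv_cancel₀ hu0, one_mul]

theorem circ_avg (a c : ℂ) (hac : ‖a‖ ≠ ‖c‖) :
    Real.circleAverage (fun z : ℂ => (a - z * c)⁻¹) 0 1 = if ‖c‖ < ‖a‖ then a⁻¹ else 0 := by
  split_ifs with h1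
  · have : DiffContOnCl ℂ (fun z : ℂ => (a - z * c)⁻¹) (ball 0 |1|) := by
      apply DifferentiableOn.diffContOnCl
      rw [abs_one, closure_ball _ one_ne_zero]
      apply DifferentiableOn.inv
      · fun_prop
      · intro z hz h0
        rw [mem_closedBall_zero_iff] at hz
        have : ‖a‖ ≤ ‖c‖ := by
          rw [sub_eq_zero.mp h0, norm_mul]
          exact mul_le_of_le_one_left (norm_nonneg _) hz
        linarith
    rw [this.circleAverage]
    simp
  · have h2 : ‖a‖ < ‖c‖ := lt_of_le_of_ne (not_lt.mp h1) hac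
    rw [← Real.circleAverage_zero_one_congr_inv]
    have h3 : Real.circleAverage (fun z : ℂ => (a - z⁻¹ * c)⁻¹) 0 1 =
        Real.circleAverage (fun z : ℂ => z * (z * a - c)⁻¹) 0 1 := by
      apply Real.circleAverage_congr_sphere
      intro z hz
      have hz0 : z ≠ 0 := by
        rintro rfl
        simp at hz
      simp only
      rw [show a - z⁻¹ * c = z⁻¹ * (z * a - c) by field_simp, mul_inv, inv_inv]
    rw [h3]
    have : DiffContOnCl ℂ (fun z : ℂ => z * (z * a - c)⁻¹) (ball 0 |1|) := by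
      apply DifferentiableOn.diffContOnCl
      rw [abs_one, closure_ball _ one_ne_zero]
      apply DifferentiableOn.mul
      · fun_prop
      apply DifferentiableOn.inv
      · fun_prop
      · intro z hz h0
        rw [mem_closedBall_zero_iff] at hz
        have : ‖c‖ ≤ ‖a‖ := by
          rw [← sub_eq_zero.mp h0, norm_mul]
          exact mul_le_of_le_one_left (norm_nonneg _) hz
        linarith
    rw [this.circleAverage]
    simp

theorem cauchy_disc (M : ℝ) (a : ℂ) (ha : ‖a‖ < M) :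
    ∫ c in ball (0 : ℂ) M, (a - c)⁻¹ = Real.pi * (starRingEnd ℂ) a := by
  set J := ∫ c in ball (0 : ℂ) M, (a - c)⁻¹ with hJ
  have hM : 0 < M := (norm_nonneg a).trans_lt ha
  -- the rotated family
  have h1 : ∀ t : ℝ, ∫ c in ball (0 : ℂ) M,
      circleMap 0 1 t / (circleMap 0 1 t * a - c) = J := by
    intro t
    have hu : ‖circleMap 0 1 t‖ = 1 := by simp
    have := rot_cov M a (circleMap 0 1 t) hu
    rw [hJ, ← this, ← integral_const_mul]
    simp only [div_eq_mul_inv]
  have hsw := swap (a := fun t => circleMap 0 1 t * a) (b := fun t => circleMap 0 1 t)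
    (by fun_prop) (by fun_prop) M ‖a‖ (by intro t; simp)
  simp only [h1] at hsw
  rw [intervalIntegral.integral_const, sub_zero] at hsw
  -- inner integral
  have h2 : ∀ c : ℂ, ‖a‖ ≠ ‖c‖ → ∫ t in (0 : ℝ)..(2 * Real.pi),
      circleMap 0 1 t / (circleMap 0 1 t * a - c) =
        if ‖c‖ < ‖a‖ then (2 * Real.pi) * a⁻¹ else 0 := by
    intro c hc
    have h3 := circ_avg a c hc
    rw [← Real.circleAverage_zero_one_congr_inv, Real.circleAverage_def] at h3
    have h4 : ∀ t : ℝ, circleMap 0 1 t / (circleMap 0 1 t * a - c) =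
        (a - (circleMap 0 1 t)⁻¹ * c)⁻¹ := by
      intro t
      have hz0 : circleMap 0 1 t ≠ 0 := by
        intro h
        have : ‖circleMap 0 1 t‖ = 1 := by simp
        rw [h] at this
        simp at this
      rw [show a - (circleMap 0 1 t)⁻¹ * c = (circleMap 0 1 t)⁻¹ * (circleMap 0 1 t * a - c) by
        field_simp, mul_inv, inv_inv, div_eq_mul_inv]
    simp only [h4]
    have h5 : ∫ t in (0 : ℝ)..(2 * Real.pi), (a - (circleMap 0 1 t)⁻¹ * c)⁻¹ =
        (2 * Real.pi) * (if ‖c‖ < ‖a‖ then a⁻¹ else 0) := by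
      rw [← h3]
      have : (2 * Real.pi : ℂ) ≠ 0 := by
        exact_mod_cast Real.two_pi_pos.ne'
      rw [Complex.real_smul]
      push_cast
      rw [← mul_assoc, mul_inv_cancel₀ this, one_mul]
    rw [h5]
    split_ifs <;> simp
  have h3 : ∫ c in ball (0 : ℂ) M, ∫ t in (0 : ℝ)..(2 * Real.pi),
      circleMap 0 1 t / (circleMap 0 1 t * a - c) =
      ∫ c in ball (0 : ℂ) M, (ball (0 : ℂ) ‖a‖).indicator (fun _ => (2 * Real.pi) * a⁻¹) c := by
    apply integral_congr_ae
    have hs : volume (sphere (0 : ℂ) ‖a‖) = 0 := Measure.addHaar_sphere _ _ _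
    have hs2 : ∀ᵐ c ∂(volume.restrict (ball (0 : ℂ) M)), c ∉ sphere (0 : ℂ) ‖a‖ := by
      apply ae_restrict_of_ae
      exact measure_eq_zero_iff_ae_notMem.mp hs
    filter_upwards [hs2] with c hc
    rw [h2 c (by
      intro h
      apply hc
      simp [h])]
    by_cases hca : ‖c‖ < ‖a‖
    · rw [if_pos hca, indicator_of_mem]
      simpa using hca
    · rw [if_neg hca, indicator_of_notMem]
      simpa using hca
  rw [h3, setIntegral_indicator measurableSet_ball] at hsw
  have h4 : ball (0 : ℂ) M ∩ ball (0 : ℂ) ‖a‖ = ball (0 : ℂ) ‖a‖ := by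
    apply inter_eq_self_of_subset_right
    exact ball_subset_ball ha.le
  rw [h4, setIntegral_const] at hsw
  have h5 : (volume : Measure ℂ).real (ball (0 : ℂ) ‖a‖) = ‖a‖ ^ 2 * Real.pi := by
    rw [Measure.real, Complex.volume_ball]
    simp
  rw [h5] at hsw
  have h6 : (2 * Real.pi : ℂ) ≠ 0 := by
    exact_mod_cast Real.two_pi_pos.ne'
  rw [Complex.real_smul, Complex.real_smul] at hsw
  push_cast at hsw
  have h7 : J = (‖a‖ : ℂ) ^ 2 * Real.pi * a⁻¹ := by
    have : (2 * Real.pi : ℂ) * J = (2 * Real.pi) * ((‖a‖ : ℂ) ^ 2 * Real.pi * a⁻¹) := by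
      rw [hsw]; ring
    exact mul_left_cancel₀ h6 this
  rw [h7]
  by_cases ha0 : a = 0
  · simp [ha0]
  · have h8 : (‖a‖ : ℂ) ^ 2 = a * (starRingEnd ℂ) a := by
      rw [Complex.mul_conj, Complex.normSq_eq_norm_sq]
      push_cast
      ring
    rw [h8]
    field_simp

/-- Area formula: integral of the winding function over a large disc. -/
theorem area_formula {Γ Γ' : ℝ → ℂ} (hΓ : Continuous Γ) (hΓ' : Continuous Γ') (M A : ℝ)
    (hA : ∀ t, ‖Γ t‖ ≤ A) (hAM : A < M) :
    ∫ c in ball (0 : ℂ) M, ∫ t in (0 : ℝ)..(2 * Real.pi), Γ' t / (Γ t - c) =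
      Real.pi * ∫ t in (0 : ℝ)..(2 * Real.pi), (starRingEnd ℂ) (Γ t) * Γ' t := by
  rw [← swap hΓ hΓ' M A hA, ← intervalIntegral.integral_const_mul]
  apply intervalIntegral.integral_congr
  intro t _
  simp only [div_eq_mul_inv]
  rw [integral_const_mul, cauchy_disc M (Γ t) ((hA t).trans_lt hAM)]
  ring

end Pool.Agent.Lib.Pd7a79b
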