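import Pool.Agent.Lib.Pd7a79b.Rat
import Pool.Agent.Lib.Pd7a79b.Kernel

set_option autoImplicit false

open Complex Metric Set Filter Topology MeasureTheory Polynomial

namespace Pool.Agent.Lib.Pd7a79b

variable {h : ℂ → ℂ} {R : ℝ}

/-- The Dirichlet-type pairing on the unit circle. -/
noncomputable def BB (G F' : ℂ → ℂ) : ℂ :=
  Real.circleAverage (fun z => (starRingEnd ℂ) (G z) * (z * F' z)) 0 1

theorem circleIntegral_eq_interval (f : ℂ → ℂ) :
    ∮ z in C(0, 1), f z = ∫ t in (0 : ℝ)..(2 * Real.pi), (circleMap 0 1 t * I) *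
      f (circleMap 0 1 t) := by
  simp only [circleIntegral, deriv_circleMap, smul_eq_mul]

theorem BB_eq (G F' : ℂ → ℂ) :
    ∫ t in (0 : ℝ)..(2 * Real.pi), (starRingEnd ℂ) (G (circleMap 0 1 t)) *
      (circleMap 0 1 t * I * F' (circleMap 0 1 t)) = 2 * Real.pi * I * BB G F' := by
  rw [BB, Real.circleAverage_def, Complex.real_smul]
  have h6 : (2 * Real.pi : ℂ) ≠ 0 := by
    exact_mod_cast Real.two_pi_pos.ne'
  push_cast
  rw [show (2 * Real.pi * I : ℂ) * ((2 * (Real.pi : ℂ))⁻¹ *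
    ∫ (θ : ℝ) in (0 : ℝ)..2 * Real.pi, (starRingEnd ℂ) (G (circleMap 0 1 θ)) *
      (circleMap 0 1 θ * F' (circleMap 0 1 θ))) = I *
    ∫ (θ : ℝ) in (0 : ℝ)..2 * Real.pi, (starRingEnd ℂ) (G (circleMap 0 1 θ)) *
      (circleMap 0 1 θ * F' (circleMap 0 1 θ)) by field_simp]
  rw [← intervalIntegral.integral_const_mul]
  apply intervalIntegral.integral_congr
  intro t _
  simp only
  ring

/-- Negativity of the pairing for functions whose winding numbers are nonpositive. -/
theorem BB_nonpos_of_wind {F : ℂ → ℂ} {U : Set ℂ} (hU : IsOpen U) (hsU : sphere (0 : ℂ) 1 ⊆ U)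
    (hF : DifferentiableOn ℂ F U)
    (hw : ∀ c : ℂ, (∀ z ∈ sphere (0 : ℂ) 1, F z ≠ c) →
      ∃ k : ℕ, ∮ z in C(0, 1), deriv F z / (F z - c) = - (2 * Real.pi * I * (k : ℕ))) :
    (BB F (deriv F)).re ≤ 0 := by
  have hcs : ∀ t : ℝ, circleMap 0 1 t ∈ sphere (0 : ℂ) 1 := fun t => by simp
  set Γ : ℝ → ℂ := fun t => F (circleMap 0 1 t) with hΓ
  set Γ' : ℝ → ℂ := fun t => circleMap 0 1 t * I * deriv F (circleMap 0 1 t) with hΓ'
  have hΓc : Continuous Γ :=
    (hF.continuousOn.mono hsU).comp_continuous (continuous_circleMap 0 1) hcs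
  have hΓ'c : Continuous Γ' := by
    apply Continuous.mul (by fun_prop)
    exact ((hF.deriv hU).continuousOn.mono hsU).comp_continuous (continuous_circleMap 0 1) hcs
  obtain ⟨A, hA⟩ : ∃ A, ∀ t, ‖Γ t‖ ≤ A := by
    obtain ⟨A, hA⟩ := (isCompact_sphere (0 : ℂ) 1).exists_bound_of_continuousOn
      (hF.continuousOn.mono hsU)
    exact ⟨A, fun t => hA _ (hcs t)⟩
  have hform := area_formula hΓc hΓ'c (A + 1) A hA (by linarith)
  rw [show (∫ t in (0 : ℝ)..(2 * Real.pi), (starRingEnd ℂ) (Γ t) * Γ' t) =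
    2 * Real.pi * I * BB F (deriv F) from BB_eq F (deriv F)] at hform
  have hint : Integrable (fun c => ∫ t in (0 : ℝ)..(2 * Real.pi), Γ' t / (Γ t - c))
      (volume.restrict (ball (0 : ℂ) (A + 1))) := by
    simp only [intervalIntegral.integral_of_le Real.two_pi_pos.le]
    exact (prod_integrable hΓc hΓ'c (A + 1) A hA).integral_prod_right
  have him : (∫ c in ball (0 : ℂ) (A + 1), ∫ t in (0 : ℝ)..(2 * Real.pi),
      Γ' t / (Γ t - c)).im ≤ 0 := by
    have h1 := Complex.imCLM.integral_comp_comm hint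
    simp only [Complex.imCLM_apply] at h1
    rw [← h1]
    apply integral_nonpos_of_ae
    have hnull : volume (F '' sphere (0 : ℂ) 1) = 0 := by
      apply addHaar_image_eq_zero_of_differentiableOn_of_addHaar_eq_zero
      · exact (hF.mono hsU).restrictScalars ℝ
      · exact Measure.addHaar_sphere _ _ _
    have hae : ∀ᵐ c ∂(volume.restrict (ball (0 : ℂ) (A + 1))), c ∉ F '' sphere (0 : ℂ) 1 :=
      ae_restrict_of_ae (measure_eq_zero_iff_ae_notMem.mp hnull)
    filter_upwards [hae] with c hc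
    obtain ⟨k, hk⟩ := hw c (fun z hz hzc => hc ⟨z, hz, hzc⟩)
    have h2 : ∫ t in (0 : ℝ)..(2 * Real.pi), Γ' t / (Γ t - c) =
        - (2 * Real.pi * I * (k : ℕ)) := by
      rw [← hk, circleIntegral_eq_interval]
      apply intervalIntegral.integral_congr
      intro t _
      simp only [hΓ, hΓ']
      ring
    rw [h2]
    have h3 : (-(2 * (Real.pi : ℂ) * I * (k : ℕ))).im = -(2 * Real.pi * k) := by
      simp
    rw [h3]
    simp only [Pi.zero_apply]
    have := Real.pi_pos
    have hk0 : (0 : ℝ) ≤ k := Nat.cast_nonneg k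
    nlinarith [mul_nonneg this.le hk0]
  rw [hform] at him
  have h4 : ((Real.pi : ℂ) * (2 * Real.pi * I * BB F (deriv F))).im =
      2 * Real.pi ^ 2 * (BB F (deriv F)).re := by
    rw [show (Real.pi : ℂ) * (2 * Real.pi * I * BB F (deriv F)) =
      ((2 * Real.pi ^ 2 : ℝ) : ℂ) * (I * BB F (deriv F)) by push_cast; ring]
    rw [Complex.im_ofReal_mul]
    simp
  rw [h4] at him
  by_contra hcon
  push Not at hcon
  have : 0 < 2 * Real.pi ^ 2 * (BB F (deriv F)).re := by positivity
  linarith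

/-- Area theorem for rational functions of `h` with poles in the image of the disc. -/
theorem BB_rat_nonpos (hR : 1 < R) (hd : DifferentiableOn ℂ h (ball 0 R))
    (hi : InjOn h (ball 0 R)) (N M : ℂ[X]) (hM : RootsIn h M)
    (hdeg : N.natDegree ≤ M.natDegree) :
    (BB (fun w => N.eval (h w) / M.eval (h w))
      (deriv (fun w => N.eval (h w) / M.eval (h w)))).re ≤ 0 := by
  have hopen : IsOpen (ball (0 : ℂ) R ∩ h ⁻¹' {w | M.eval w ≠ 0}) := by
    apply hd.continuousOn.isOpen_inter_preimage isOpen_ball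
    exact isOpen_ne_fun M.continuous continuous_const
  apply BB_nonpos_of_wind hopen
  · intro z hz
    exact ⟨sphere_sub_ball hR hz, hM.eval_ne hR hi hz⟩
  · intro z hz
    have hzd : HasDerivAt h (deriv h z) z :=
      (hd.differentiableAt (isOpen_ball.mem_nhds hz.1)).hasDerivAt
    exact (rat_hasDerivAt hzd N M hz.2).differentiableAt.differentiableWithinAt
  · intro c hc
    exact rat_wind hR hd hi N M hM hdeg c hc

end Pool.Agent.Lib.Pd7a79b
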