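import Pool.Agent.Lib.Pd7a79b.Closure

set_option autoImplicit false

open Complex Metric Set Filter Topology MeasureTheory Polynomial

namespace Pool.Agent.Lib.Pd7a79b

variable {h : ℂ → ℂ} {R : ℝ}

theorem norm_cavg_le {f : ℂ → ℂ} {C : ℝ} (hf : ∀ z ∈ sphere (0 : ℂ) 1, ‖f z‖ ≤ C) :
    ‖Real.circleAverage f 0 1‖ ≤ C := by
  rw [Real.circleAverage_def, norm_smul]
  have h1 := intervalIntegral.norm_integral_le_of_norm_le_const (a := (0 : ℝ))
    (b := 2 * Real.pi) (C := C) (f := fun t => f (circleMap 0 1 t))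
    (fun t _ => hf _ (by simp))
  rw [sub_zero, abs_of_pos Real.two_pi_pos] at h1
  have h2 : ‖(2 * Real.pi)⁻¹‖ = (2 * Real.pi)⁻¹ := Real.norm_of_nonneg (by positivity)
  rw [h2]
  calc (2 * Real.pi)⁻¹ * ‖∫ t in (0 : ℝ)..(2 * Real.pi), f (circleMap 0 1 t)‖
      ≤ (2 * Real.pi)⁻¹ * (C * (2 * Real.pi)) :=
        mul_le_mul_of_nonneg_left h1 (by positivity)
    _ = C := by
        have := Real.pi_pos
        field_simp

theorem BB_integrable {G F' : ℂ → ℂ} (hG : ContinuousOn G (sphere 0 1))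
    (hF : ContinuousOn F' (sphere 0 1)) :
    CircleIntegrable (fun z => (starRingEnd ℂ) (G z) * (z * F' z)) 0 1 := by
  apply ContinuousOn.circleIntegrable zero_le_one
  apply ContinuousOn.mul
  · exact Complex.continuous_conj.comp_continuousOn hG
  · exact continuousOn_id.mul hF

theorem BB_close {G G₁ g g₁ : ℂ → ℂ} {a b c d : ℝ}
    (hG : ContinuousOn G (sphere 0 1)) (hG₁ : ContinuousOn G₁ (sphere 0 1))
    (hg : ContinuousOn g (sphere 0 1)) (hg₁ : ContinuousOn g₁ (sphere 0 1))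
    (h1 : ∀ z ∈ sphere (0 : ℂ) 1, ‖G z - G₁ z‖ ≤ a)
    (h2 : ∀ z ∈ sphere (0 : ℂ) 1, ‖g z - g₁ z‖ ≤ b)
    (h3 : ∀ z ∈ sphere (0 : ℂ) 1, ‖g z‖ ≤ c)
    (h4 : ∀ z ∈ sphere (0 : ℂ) 1, ‖G₁ z‖ ≤ d) :
    ‖BB G g - BB G₁ g₁‖ ≤ a * c + d * b := by
  rw [BB, BB, ← Real.circleAverage_fun_sub (BB_integrable hG hg) (BB_integrable hG₁ hg₁)]
  apply norm_cavg_le
  intro z hz
  have hz1 : ‖z‖ = 1 := by simpa using hz
  have e1 : (starRingEnd ℂ) (G z) * (z * g z) - (starRingEnd ℂ) (G₁ z) * (z * g₁ z) =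
      z * ((starRingEnd ℂ) (G z - G₁ z) * g z + (starRingEnd ℂ) (G₁ z) * (g z - g₁ z)) := by
    rw [map_sub]
    ring
  rw [e1, norm_mul, hz1, one_mul]
  apply (norm_add_le _ _).trans
  rw [norm_mul, norm_mul, Complex.norm_conj, Complex.norm_conj]
  have hc0 : 0 ≤ ‖g z‖ := norm_nonneg _
  have ha0 : 0 ≤ a := (norm_nonneg _).trans (h1 z hz)
  have hd0 : 0 ≤ d := (norm_nonneg _).trans (h4 z hz)
  apply add_le_add
  · exact mul_le_mul (h1 z hz) (h3 z hz) (norm_nonneg _) ha0
  · exact mul_le_mul (h4 z hz) (h2 z hz) (norm_nonneg _) hd0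

theorem near_on_circle {F G F' G' : ℂ → ℂ} {ε : ℝ}
    (hF : ∀ z ∈ sphere (0 : ℂ) 1, HasDerivAt F (F' z) z)
    (hG : ∀ z ∈ sphere (0 : ℂ) 1, HasDerivAt G (G' z) z)
    (h1 : F 1 = G 1) (hε : ∀ z ∈ sphere (0 : ℂ) 1, ‖F' z - G' z‖ ≤ ε) :
    ∀ z ∈ sphere (0 : ℂ) 1, ‖F z - G z‖ ≤ ε * (2 * Real.pi) := by
  intro z hz
  have hz' : z ∈ circleMap 0 1 '' Ioc 0 (2 * Real.pi) := by
    rw [image_circleMap_Ioc, abs_one]
    exact hz
  obtain ⟨t, ht, rfl⟩ := hz'
  have hder : ∀ s : ℝ, HasDerivAt (fun s => F (circleMap 0 1 s) - G (circleMap 0 1 s))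
      ((F' (circleMap 0 1 s) - G' (circleMap 0 1 s)) * (circleMap 0 1 s * I)) s := by
    intro s
    have hs : circleMap 0 1 s ∈ sphere (0 : ℂ) 1 := by simp
    have h2 := HasDerivAt.comp s (hF _ hs) (hasDerivAt_circleMap 0 1 s)
    have h3 := HasDerivAt.comp s (hG _ hs) (hasDerivAt_circleMap 0 1 s)
    exact (h2.sub h3).congr_deriv (by ring)
  have hbound : ∀ s : ℝ, ‖(F' (circleMap 0 1 s) - G' (circleMap 0 1 s)) *
      (circleMap 0 1 s * I)‖ ≤ ε := by
    intro s
    have hs : circleMap 0 1 s ∈ sphere (0 : ℂ) 1 := by simp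
    rw [norm_mul, norm_mul]
    simpa using hε _ hs
  have h4 := Convex.norm_image_sub_le_of_norm_hasDerivWithin_le
    (f := fun s => F (circleMap 0 1 s) - G (circleMap 0 1 s)) (s := univ) (C := ε)
    (x := 0) (y := t) (fun s _ => (hder s).hasDerivWithinAt) (fun s _ => hbound s)
    convex_univ (mem_univ _) (mem_univ _)
  have h5 : F (circleMap 0 1 0) - G (circleMap 0 1 0) = 0 := by
    have : circleMap 0 1 0 = 1 := by simp [circleMap]
    rw [this, h1, sub_self]
  rw [h5, sub_zero, sub_zero] at h4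
  apply h4.trans
  have hε0 : 0 ≤ ε := (norm_nonneg _).trans (hbound 0)
  apply mul_le_mul_of_nonneg_left _ hε0
  rw [Real.norm_of_nonneg ht.1.le]
  exact ht.2

/-- Area theorem for functions whose derivative is a limit of rational ones. -/
theorem BB_nonpos_of_appr (hR : 1 < R) (hd : DifferentiableOn ℂ h (ball 0 R))
    (hi : InjOn h (ball 0 R)) {F F' : ℂ → ℂ}
    (hF : ∀ z ∈ sphere (0 : ℂ) 1, HasDerivAt F (F' z) z)
    (hF'c : ContinuousOn F' (sphere (0 : ℂ) 1)) (happ : Appr h F') : (BB F F').re ≤ 0 := by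
  have hFc : ContinuousOn F (sphere (0 : ℂ) 1) :=
    fun z hz => (hF z hz).continuousAt.continuousWithinAt
  obtain ⟨D, hD⟩ := (isCompact_sphere (0 : ℂ) 1).exists_bound_of_continuousOn hF'c
  obtain ⟨E, hE⟩ := (isCompact_sphere (0 : ℂ) 1).exists_bound_of_continuousOn hFc
  have hkey : ∀ ε : ℝ, 0 < ε → ε ≤ 1 →
      (BB F F').re ≤ ε * (2 * Real.pi * D + E + 2 * Real.pi) := by
    intro ε hε hε1
    obtain ⟨N, M, hM, hdeg, happ'⟩ := happ ε hε
    set c : ℂ := F 1 - N.eval (h 1) / M.eval (h 1) with hc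
    set N' : ℂ[X] := N + C c * M with hN'
    have hdeg' : N'.natDegree ≤ M.natDegree := by
      apply (natDegree_add_le _ _).trans
      exact max_le hdeg (natDegree_C_mul_le _ _)
    have hneg := BB_rat_nonpos hR hd hi N' M hM hdeg'
    set G : ℂ → ℂ := fun w => N'.eval (h w) / M.eval (h w) with hGdef
    have h1mem : (1 : ℂ) ∈ sphere (0 : ℂ) 1 := by simp
    have hG1 : F 1 = G 1 := by
      simp only [hGdef, hN', eval_add, eval_mul, eval_C, hc]
      have := hM.eval_ne hR hi h1mem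
      field_simp
      ring
    have hGd : ∀ z ∈ sphere (0 : ℂ) 1, HasDerivAt G (rder h N M z) z := by
      intro z hz
      have hzd : HasDerivAt h (deriv h z) z :=
        (hd.differentiableAt (isOpen_ball.mem_nhds (sphere_sub_ball hR hz))).hasDerivAt
      have hMz := hM.eval_ne hR hi hz
      have := rat_hasDerivAt hzd N' M hMz
      apply this.congr_deriv
      simp only [hN', derivative_add, derivative_mul, derivative_C, zero_mul, zero_add,
        eval_add, eval_mul, eval_C, rder]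
      ring
    have hGc : ContinuousOn G (sphere (0 : ℂ) 1) :=
      fun z hz => (hGd z hz).continuousAt.continuousWithinAt
    have hG'c : ContinuousOn (rder h N M) (sphere (0 : ℂ) 1) := by
      have hh : ContinuousOn h (sphere (0 : ℂ) 1) := hd.continuousOn.mono (sphere_sub_ball hR)
      have hh' : ContinuousOn (deriv h) (sphere (0 : ℂ) 1) :=
        (hd.deriv isOpen_ball).continuousOn.mono (sphere_sub_ball hR)
      have hP : ∀ P : ℂ[X], ContinuousOn (fun z => P.eval (h z)) (sphere (0 : ℂ) 1) :=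
        fun P => P.continuous.comp_continuousOn hh
      unfold rder
      apply ContinuousOn.div
      · exact hh'.mul (((hP _).mul (hP _)).sub ((hP _).mul (hP _)))
      · exact (hP _).pow 2
      · intro z hz
        exact pow_ne_zero 2 (hM.eval_ne hR hi hz)
    have hBBG : BB G (deriv G) = BB G (rder h N M) := by
      unfold BB
      apply Real.circleAverage_congr_sphere
      intro z hz
      rw [abs_one] at hz
      simp only
      rw [(hGd z hz).deriv]
    rw [hBBG] at hneg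
    have hFG' : ∀ z ∈ sphere (0 : ℂ) 1, ‖F' z - rder h N M z‖ ≤ ε := by
      intro z hz
      rw [norm_sub_rev]
      exact happ' z hz
    have hFG := near_on_circle hF hGd hG1 hFG'
    have hGb : ∀ z ∈ sphere (0 : ℂ) 1, ‖G z‖ ≤ E + ε * (2 * Real.pi) := by
      intro z hz
      calc ‖G z‖ = ‖F z - (F z - G z)‖ := by congr 1; ring
        _ ≤ ‖F z‖ + ‖F z - G z‖ := norm_sub_le _ _
        _ ≤ E + ε * (2 * Real.pi) := add_le_add (hE z hz) (hFG z hz)
    have hclose := BB_close hFc hGc hF'c hG'c hFG hFG' hD hGb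
    have h5 : (BB F F').re - (BB G (rder h N M)).re ≤
        ε * (2 * Real.pi) * D + (E + ε * (2 * Real.pi)) * ε := by
      rw [← Complex.sub_re]
      exact (Complex.re_le_norm _).trans hclose
    have hpi := Real.pi_pos
    have h6 : ε * (2 * Real.pi) * ε ≤ ε * (2 * Real.pi) :=
      mul_le_of_le_one_right (by positivity) hε1
    nlinarith
  by_contra hcon
  push Not at hcon
  set T : ℝ := 2 * Real.pi * D + E + 2 * Real.pi with hT
  have hT1 : T ≤ |T| + 1 := by
    have := le_abs_self T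
    linarith
  have hT0 : 0 < |T| + 1 := by positivity
  set ε : ℝ := min 1 ((BB F F').re / (2 * (|T| + 1))) with hε
  have hε0 : 0 < ε := lt_min one_pos (by positivity)
  have h7 := hkey ε hε0 (min_le_left _ _)
  have h8 : ε * T ≤ (BB F F').re / 2 := by
    calc ε * T ≤ ε * (|T| + 1) := mul_le_mul_of_nonneg_left hT1 hε0.le
      _ ≤ (BB F F').re / (2 * (|T| + 1)) * (|T| + 1) :=
          mul_le_mul_of_nonneg_right (min_le_right _ _) hT0.le
      _ = (BB F F').re / 2 := by field_simp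
  linarith

end Pool.Agent.Lib.Pd7a79b
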