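import Mathlib

/-!
# Fixed point Gaussian arithmetic and first-order Taylor models in two complex variables
-/

set_option autoImplicit false

open Complex

namespace Pool.Agent.Lib.Pd7a79b

/-- the scale `2^40` -/
def SC : Int := 1099511627776

/-- division by the scale, rounded up -/
def cdiv (x : Int) : Int := -((-x) / SC)

/-- Gaussian integers -/
structure Z2 where
  re : Int
  im : Int

namespace Z2

def add (x y : Z2) : Z2 := ⟨x.re + y.re, x.im + y.im⟩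
def sub (x y : Z2) : Z2 := ⟨x.re - y.re, x.im - y.im⟩
def mul (x y : Z2) : Z2 := ⟨x.re * y.re - x.im * y.im, x.re * y.im + x.im * y.re⟩
def ofInt (n : Int) : Z2 := ⟨n, 0⟩
def zero : Z2 := ⟨0, 0⟩
def smul (n : Int) (x : Z2) : Z2 := ⟨n * x.re, n * x.im⟩
/-- conj(x) * y -/
def cmul (x y : Z2) : Z2 := ⟨x.re * y.re + x.im * y.im, x.re * y.im - x.im * y.re⟩
def nsq (x : Z2) : Int := x.re * x.re + x.im * x.im
/-- rounded division by the scale -/
def shr (x : Z2) : Z2 := ⟨x.re / SC, x.im / SC⟩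
/-- first approximation of the modulus -/
def ub0 (x : Z2) : Int :=
  let a := (x.re.natAbs : Int)
  let b := (x.im.natAbs : Int)
  if a ≤ b then b + (29 * a) / 70 + 1 else a + (29 * b) / 70 + 1
/-- upper bound of the modulus (one Newton step) -/
def ub (x : Z2) : Int :=
  let y := x.ub0
  (y + x.nsq / y) / 2 + 1

/-- the complex number -/
noncomputable def toC (x : Z2) : ℂ := ⟨(x.re : ℝ), (x.im : ℝ)⟩

@[simp] theorem toC_re (x : Z2) : x.toC.re = x.re := rfl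
@[simp] theorem toC_im (x : Z2) : x.toC.im = x.im := rfl

theorem toC_add (x y : Z2) : (x.add y).toC = x.toC + y.toC := by
  apply Complex.ext <;> simp [add]
theorem toC_sub (x y : Z2) : (x.sub y).toC = x.toC - y.toC := by
  apply Complex.ext <;> simp [sub]
theorem toC_mul (x y : Z2) : (x.mul y).toC = x.toC * y.toC := by
  apply Complex.ext <;> simp [mul]
theorem toC_ofInt (n : Int) : (ofInt n).toC = (n : ℂ) := by
  apply Complex.ext <;> simp [ofInt]
theorem toC_zero : zero.toC = 0 := by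
  apply Complex.ext <;> simp [zero]
theorem toC_smul (n : Int) (x : Z2) : (smul n x).toC = (n : ℂ) * x.toC := by
  apply Complex.ext <;> simp [smul]
theorem toC_cmul (x y : Z2) : (x.cmul y).toC = (starRingEnd ℂ) x.toC * y.toC := by
  apply Complex.ext <;> simp [cmul]
  ring
theorem nsq_eq (x : Z2) : (x.nsq : ℝ) = ‖x.toC‖ ^ 2 := by
  rw [← Complex.normSq_eq_norm_sq, Complex.normSq_apply]; simp [nsq]

end Z2

theorem SC_pos : (0 : ℝ) < (SC : ℝ) := by norm_num [SC]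
theorem SC_ne : (SC : ℝ) ≠ 0 := SC_pos.ne'
theorem SC_posZ : (0 : Int) < SC := by decide

theorem floor_div (x : Int) : ((x / SC : Int) : ℝ) ≤ (x : ℝ) / SC ∧
    (x : ℝ) / SC ≤ ((x / SC : Int) : ℝ) + 1 := by
  have h1 := Int.emod_add_mul_ediv x SC
  have h2 := Int.emod_nonneg x SC_posZ.ne'
  have h3 := Int.emod_lt_of_pos x SC_posZ
  constructor
  · rw [le_div_iff₀ SC_pos]
    have : x / SC * SC ≤ x := by nlinarith
    exact_mod_cast this
  · rw [div_le_iff₀ SC_pos]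
    have : x ≤ (x / SC + 1) * SC := by nlinarith
    exact_mod_cast this

theorem le_cdiv (x : Int) : (x : ℝ) / SC ≤ (cdiv x : ℝ) := by
  have := (floor_div (-x)).1
  unfold cdiv
  push_cast at this ⊢
  rw [neg_div] at this
  linarith

namespace Z2

theorem shr_err (x : Z2) : ‖x.toC / (SC : ℂ) - x.shr.toC‖ ≤ 2 := by
  have h1 := floor_div x.re
  have h2 := floor_div x.im
  have hre : (x.toC / (SC : ℂ) - x.shr.toC).re = (x.re : ℝ) / SC - ((x.re / SC : Int) : ℝ) := by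
    have : ((SC : Int) : ℂ) = (((SC : Int) : ℝ) : ℂ) := by push_cast; rfl
    rw [this, Complex.sub_re, Complex.div_ofReal_re]; simp [shr]
  have him : (x.toC / (SC : ℂ) - x.shr.toC).im = (x.im : ℝ) / SC - ((x.im / SC : Int) : ℝ) := by
    have : ((SC : Int) : ℂ) = (((SC : Int) : ℝ) : ℂ) := by push_cast; rfl
    rw [this, Complex.sub_im, Complex.div_ofReal_im]; simp [shr]
  calc _ ≤ |(x.toC / (SC : ℂ) - x.shr.toC).re| + |(x.toC / (SC : ℂ) - x.shr.toC).im| :=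
        Complex.norm_le_abs_re_add_abs_im _
    _ ≤ 1 + 1 := by
        rw [hre, him]
        apply add_le_add
        · rw [abs_le]; constructor <;> linarith [h1.1, h1.2]
        · rw [abs_le]; constructor <;> linarith [h2.1, h2.2]
    _ = 2 := by norm_num

theorem ub0_pos (x : Z2) : 0 < x.ub0 := by
  unfold ub0
  simp only
  split <;> positivity

theorem norm_le_ub (x : Z2) : ‖x.toC‖ ≤ (x.ub : ℝ) := by
  have hy := x.ub0_pos
  have hyR : (0 : ℝ) < x.ub0 := by exact_mod_cast hy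
  have hn : (x.nsq : ℝ) = ‖x.toC‖ ^ 2 := x.nsq_eq
  unfold ub
  simp only
  set y := x.ub0
  have h1 := Int.emod_add_mul_ediv x.nsq y
  have h3 := Int.emod_lt_of_pos x.nsq hy
  have h4 : x.nsq ≤ y * (x.nsq / y + 1) := by nlinarith
  have h5 : (x.nsq : ℝ) ≤ (y : ℝ) * (((x.nsq / y : Int) : ℝ) + 1) := by exact_mod_cast h4
  set q := x.nsq / y
  have h6 := Int.emod_add_mul_ediv (y + q) 2
  have h7 := Int.emod_lt_of_pos (y + q) (by norm_num : (0 : Int) < 2)
  have h8 : y + q + 1 ≤ 2 * ((y + q) / 2 + 1) := by omega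
  have h9 : (y : ℝ) + (q : ℝ) + 1 ≤ 2 * ((((y + q) / 2 + 1 : Int)) : ℝ) := by exact_mod_cast h8
  have h10 : 2 * ‖x.toC‖ ≤ (y : ℝ) + (q : ℝ) + 1 := by
    rw [hn] at h5
    have h11 : 2 * ‖x.toC‖ * y ≤ ((y : ℝ) + (q : ℝ) + 1) * y := by
      nlinarith [sq_nonneg (‖x.toC‖ - (y : ℝ))]
    exact le_of_mul_le_mul_right h11 hyR
  linarith

theorem ub_nonneg (x : Z2) : (0 : ℝ) ≤ (x.ub : ℝ) := le_trans (norm_nonneg _) x.norm_le_ub

end Z2

/-- First-order Taylor model `a + b v + c w + error`, all in units of `1/SC`. -/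
structure TM where
  a : Z2
  b : Z2
  c : Z2
  e : Int

/-- `t` represents the complex number `f` at the point `(v, w)`. -/
def Rep (v w : ℂ) (t : TM) (f : ℂ) : Prop :=
  ‖(SC : ℂ) * f - (t.a.toC + t.b.toC * v + t.c.toC * w)‖ ≤ (t.e : ℝ)

namespace TM

def add (s t : TM) : TM := ⟨s.a.add t.a, s.b.add t.b, s.c.add t.c, s.e + t.e⟩
def sub (s t : TM) : TM := ⟨s.a.sub t.a, s.b.sub t.b, s.c.sub t.c, s.e + t.e⟩
def addc (z : Z2) (t : TM) : TM := ⟨t.a.add z, t.b, t.c, t.e⟩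
def scal (z : Z2) (t : TM) : TM := ⟨z.mul t.a, z.mul t.b, z.mul t.c, z.ub * t.e⟩
def const (z : Z2) : TM := ⟨z, Z2.zero, Z2.zero, 0⟩
/-- bound of the linear part -/
def lin (R1 R2 : Int) (t : TM) : Int := cdiv (t.b.ub * R1 + t.c.ub * R2)
def mag (R1 R2 : Int) (t : TM) : Int := t.a.ub + t.lin R1 R2 + t.e
def mul (R1 R2 : Int) (s t : TM) : TM :=
  let ls := s.lin R1 R2
  let lt := t.lin R1 R2
  ⟨(s.a.mul t.a).shr, ((s.a.mul t.b).add (s.b.mul t.a)).shr,
    ((s.a.mul t.c).add (s.c.mul t.a)).shr,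
    cdiv (ls * lt + s.e * (t.a.ub + lt) + t.e * (s.a.ub + ls) + s.e * t.e) + 6⟩
/-- division by the scale -/
def shr (t : TM) : TM := ⟨t.a.shr, t.b.shr, t.c.shr, cdiv t.e + 6⟩

end TM

section
variable {v w : ℂ} {R1 R2 : Int}

theorem Rep.e_nonneg {t : TM} {f : ℂ} (h : Rep v w t f) : (0 : ℝ) ≤ (t.e : ℝ) :=
  le_trans (norm_nonneg _) h

theorem Rep.add {s t : TM} {f g : ℂ} (hf : Rep v w s f) (hg : Rep v w t g) :
    Rep v w (s.add t) (f + g) := by
  unfold Rep at *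
  simp only [TM.add, Z2.toC_add]
  have : (SC : ℂ) * (f + g) - (s.a.toC + t.a.toC + (s.b.toC + t.b.toC) * v
      + (s.c.toC + t.c.toC) * w)
      = ((SC : ℂ) * f - (s.a.toC + s.b.toC * v + s.c.toC * w))
        + ((SC : ℂ) * g - (t.a.toC + t.b.toC * v + t.c.toC * w)) := by ring
  rw [this]
  refine (norm_add_le _ _).trans ?_
  push_cast
  linarith

theorem Rep.sub {s t : TM} {f g : ℂ} (hf : Rep v w s f) (hg : Rep v w t g) :
    Rep v w (s.sub t) (f - g) := by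
  unfold Rep at *
  simp only [TM.sub, Z2.toC_sub]
  have : (SC : ℂ) * (f - g) - (s.a.toC - t.a.toC + (s.b.toC - t.b.toC) * v
      + (s.c.toC - t.c.toC) * w)
      = ((SC : ℂ) * f - (s.a.toC + s.b.toC * v + s.c.toC * w))
        - ((SC : ℂ) * g - (t.a.toC + t.b.toC * v + t.c.toC * w)) := by ring
  rw [this]
  refine (norm_sub_le _ _).trans ?_
  push_cast
  linarith

theorem Rep.addc {t : TM} {f : ℂ} (z : Z2) (hf : Rep v w t f) :
    Rep v w (t.addc z) (f + z.toC / SC) := by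
  unfold Rep at *
  simp only [TM.addc, Z2.toC_add]
  have hS : (SC : ℂ) ≠ 0 := by exact_mod_cast SC_posZ.ne'
  have : (SC : ℂ) * (f + z.toC / SC) - (t.a.toC + z.toC + t.b.toC * v + t.c.toC * w)
      = ((SC : ℂ) * f - (t.a.toC + t.b.toC * v + t.c.toC * w)) := by
    field_simp; ring
  rw [this]
  exact hf

theorem Rep.const (z : Z2) : Rep v w (TM.const z) (z.toC / SC) := by
  unfold Rep
  have hS : (SC : ℂ) ≠ 0 := by exact_mod_cast SC_posZ.ne'
  simp only [TM.const, Z2.toC_zero, zero_mul, add_zero]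
  rw [mul_div_cancel₀ _ hS]
  simp

theorem Rep.scal {t : TM} {f : ℂ} (z : Z2) (hf : Rep v w t f) :
    Rep v w (t.scal z) (z.toC * f) := by
  have h0 := hf.e_nonneg
  unfold Rep at *
  simp only [TM.scal, Z2.toC_mul]
  have : (SC : ℂ) * (z.toC * f) - (z.toC * t.a.toC + z.toC * t.b.toC * v + z.toC * t.c.toC * w)
      = z.toC * ((SC : ℂ) * f - (t.a.toC + t.b.toC * v + t.c.toC * w)) := by ring
  rw [this, norm_mul]
  push_cast
  exact mul_le_mul z.norm_le_ub hf (norm_nonneg _) z.ub_nonneg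

/-- Hypotheses on the radii. -/
structure Rad (v w : ℂ) (R1 R2 : Int) : Prop where
  hv : (SC : ℝ) * ‖v‖ ≤ R1
  hw : (SC : ℝ) * ‖w‖ ≤ R2
  v1 : ‖v‖ ≤ 1
  w1 : ‖w‖ ≤ 1

theorem Rad.R1_nonneg (h : Rad v w R1 R2) : (0 : ℝ) ≤ R1 :=
  le_trans (mul_nonneg SC_pos.le (norm_nonneg _)) h.hv
theorem Rad.R2_nonneg (h : Rad v w R1 R2) : (0 : ℝ) ≤ R2 :=
  le_trans (mul_nonneg SC_pos.le (norm_nonneg _)) h.hw

theorem lin_bound (hR : Rad v w R1 R2) (t : TM) :
    ‖t.b.toC * v + t.c.toC * w‖ ≤ (t.lin R1 R2 : ℝ) := by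
  have h1 : ‖t.b.toC * v‖ * SC ≤ (t.b.ub : ℝ) * R1 := by
    rw [norm_mul, mul_assoc]
    refine mul_le_mul t.b.norm_le_ub ?_ (mul_nonneg (norm_nonneg _) SC_pos.le) t.b.ub_nonneg
    rw [mul_comm]; exact hR.hv
  have h2 : ‖t.c.toC * w‖ * SC ≤ (t.c.ub : ℝ) * R2 := by
    rw [norm_mul, mul_assoc]
    refine mul_le_mul t.c.norm_le_ub ?_ (mul_nonneg (norm_nonneg _) SC_pos.le) t.c.ub_nonneg
    rw [mul_comm]; exact hR.hw
  have h3 := le_cdiv (t.b.ub * R1 + t.c.ub * R2)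
  push_cast at h3
  rw [div_le_iff₀ SC_pos] at h3
  have h4 := norm_add_le (t.b.toC * v) (t.c.toC * w)
  have h5 : ‖t.b.toC * v + t.c.toC * w‖ * SC ≤ (t.lin R1 R2 : ℝ) * SC := by
    unfold TM.lin
    nlinarith [SC_pos]
  exact le_of_mul_le_mul_right h5 SC_pos

theorem lin_nonneg (hR : Rad v w R1 R2) (t : TM) : (0 : ℝ) ≤ (t.lin R1 R2 : ℝ) :=
  le_trans (norm_nonneg _) (lin_bound hR t)

theorem mag_bound (hR : Rad v w R1 R2) {t : TM} {f : ℂ} (hf : Rep v w t f) :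
    (SC : ℝ) * ‖f‖ ≤ (t.mag R1 R2 : ℝ) := by
  have h1 := lin_bound hR t
  have h2 := t.a.norm_le_ub
  unfold Rep at hf
  have h3 : (SC : ℝ) * ‖f‖ = ‖(SC : ℂ) * f‖ := by
    rw [norm_mul]; congr 1
    have : ((SC : Int) : ℂ) = (((SC : Int) : ℝ) : ℂ) := by push_cast; rfl
    rw [this, Complex.norm_real, Real.norm_of_nonneg SC_pos.le]
  rw [h3]
  have h4 : (SC : ℂ) * f = ((SC : ℂ) * f - (t.a.toC + t.b.toC * v + t.c.toC * w))
      + (t.a.toC + (t.b.toC * v + t.c.toC * w)) := by ring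
  rw [h4]
  refine (norm_add_le _ _).trans ?_
  have h5 := norm_add_le t.a.toC (t.b.toC * v + t.c.toC * w)
  unfold TM.mag
  push_cast
  linarith

theorem SC_normC : ‖((SC : Int) : ℂ)‖ = (SC : ℝ) := by
  have : ((SC : Int) : ℂ) = (((SC : Int) : ℝ) : ℂ) := by push_cast; rfl
  rw [this, Complex.norm_real, Real.norm_of_nonneg SC_pos.le]

/-- generic rounding lemma -/
theorem shr_three (hv : ‖v‖ ≤ 1) (hw : ‖w‖ ≤ 1) (x y z : Z2) :
    ‖(x.toC + y.toC * v + z.toC * w) / (SC : ℂ)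
      - (x.shr.toC + y.shr.toC * v + z.shr.toC * w)‖ ≤ 6 := by
  have e : (x.toC + y.toC * v + z.toC * w) / (SC : ℂ)
      - (x.shr.toC + y.shr.toC * v + z.shr.toC * w)
      = (x.toC / (SC : ℂ) - x.shr.toC) + (y.toC / (SC : ℂ) - y.shr.toC) * v
        + (z.toC / (SC : ℂ) - z.shr.toC) * w := by
    have hS : (SC : ℂ) ≠ 0 := by exact_mod_cast SC_posZ.ne'
    field_simp
    ring
  rw [e]
  have h1 := x.shr_err
  have h2 : ‖(y.toC / (SC : ℂ) - y.shr.toC) * v‖ ≤ 2 := by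
    rw [norm_mul]
    have := mul_le_mul y.shr_err hv (norm_nonneg _) (by norm_num : (0 : ℝ) ≤ 2)
    linarith
  have h3 : ‖(z.toC / (SC : ℂ) - z.shr.toC) * w‖ ≤ 2 := by
    rw [norm_mul]
    have := mul_le_mul z.shr_err hw (norm_nonneg _) (by norm_num : (0 : ℝ) ≤ 2)
    linarith
  have h4 := norm_add_le (x.toC / (SC : ℂ) - x.shr.toC + (y.toC / (SC : ℂ) - y.shr.toC) * v)
    ((z.toC / (SC : ℂ) - z.shr.toC) * w)
  have h5 := norm_add_le (x.toC / (SC : ℂ) - x.shr.toC) ((y.toC / (SC : ℂ) - y.shr.toC) * v)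
  linarith

theorem Rep.shr (hR : Rad v w R1 R2) {t : TM} {f : ℂ} (hf : Rep v w t f) :
    Rep v w t.shr (f / SC) := by
  unfold Rep at *
  have h1 := shr_three hR.v1 hR.w1 t.a t.b t.c
  have hS : (SC : ℂ) ≠ 0 := by exact_mod_cast SC_posZ.ne'
  have e : (SC : ℂ) * (f / SC) - (t.a.shr.toC + t.b.shr.toC * v + t.c.shr.toC * w)
      = ((SC : ℂ) * f - (t.a.toC + t.b.toC * v + t.c.toC * w)) / (SC : ℂ)
        + ((t.a.toC + t.b.toC * v + t.c.toC * w) / (SC : ℂ)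
          - (t.a.shr.toC + t.b.shr.toC * v + t.c.shr.toC * w)) := by
    field_simp
    ring
  simp only [TM.shr]
  rw [e]
  refine (norm_add_le _ _).trans ?_
  rw [norm_div, SC_normC]
  have h2 := le_cdiv t.e
  have h3 : ‖(SC : ℂ) * f - (t.a.toC + t.b.toC * v + t.c.toC * w)‖ / (SC : ℝ)
      ≤ (t.e : ℝ) / SC := div_le_div_of_nonneg_right hf SC_pos.le
  push_cast
  linarith

theorem Rep.mul (hR : Rad v w R1 R2) {s t : TM} {f g : ℂ} (hf : Rep v w s f)
    (hg : Rep v w t g) : Rep v w (s.mul R1 R2 t) (f * g) := by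
  have hse := hf.e_nonneg
  have hte := hg.e_nonneg
  have ls := lin_bound hR s
  have lt := lin_bound hR t
  have ls0 := lin_nonneg hR s
  have lt0 := lin_nonneg hR t
  have hS : (SC : ℂ) ≠ 0 := by exact_mod_cast SC_posZ.ne'
  have h1 := shr_three hR.v1 hR.w1 (s.a.mul t.a) ((s.a.mul t.b).add (s.b.mul t.a))
    ((s.a.mul t.c).add (s.c.mul t.a))
  unfold Rep at *
  simp only [TM.mul]
  set E1 := (SC : ℂ) * f - (s.a.toC + s.b.toC * v + s.c.toC * w) with hE1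
  set E2 := (SC : ℂ) * g - (t.a.toC + t.b.toC * v + t.c.toC * w) with hE2
  set L1 := s.b.toC * v + s.c.toC * w with hL1
  set L2 := t.b.toC * v + t.c.toC * w with hL2
  have hf' : (SC : ℂ) * f = s.a.toC + L1 + E1 := by rw [hE1, hL1]; ring
  have hg' : (SC : ℂ) * g = t.a.toC + L2 + E2 := by rw [hE2, hL2]; ring
  have e : (SC : ℂ) * (f * g) - ((s.a.mul t.a).shr.toC
        + ((s.a.mul t.b).add (s.b.mul t.a)).shr.toC * v
        + ((s.a.mul t.c).add (s.c.mul t.a)).shr.toC * w)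
      = (L1 * L2 + E1 * (t.a.toC + L2) + E2 * (s.a.toC + L1) + E1 * E2) / (SC : ℂ)
        + (((s.a.mul t.a).toC + ((s.a.mul t.b).add (s.b.mul t.a)).toC * v
            + ((s.a.mul t.c).add (s.c.mul t.a)).toC * w) / (SC : ℂ)
          - ((s.a.mul t.a).shr.toC + ((s.a.mul t.b).add (s.b.mul t.a)).shr.toC * v
            + ((s.a.mul t.c).add (s.c.mul t.a)).shr.toC * w)) := by
    have e1 : (SC : ℂ) * (f * g) = ((SC : ℂ) * f) * ((SC : ℂ) * g) / (SC : ℂ) := by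
      field_simp
    rw [e1, hf', hg']
    simp only [Z2.toC_add, Z2.toC_mul]
    rw [hL1, hL2]
    field_simp
    ring
  rw [e]
  refine (norm_add_le _ _).trans ?_
  rw [norm_div, SC_normC]
  have hsa := s.a.norm_le_ub
  have hta := t.a.norm_le_ub
  have hsa0 := s.a.ub_nonneg
  have hta0 := t.a.ub_nonneg
  have n1 : ‖L1 * L2‖ ≤ (s.lin R1 R2 : ℝ) * (t.lin R1 R2 : ℝ) := by
    rw [norm_mul]; exact mul_le_mul ls lt (norm_nonneg _) ls0
  have n2 : ‖E1 * (t.a.toC + L2)‖ ≤ (s.e : ℝ) * ((t.a.ub : ℝ) + (t.lin R1 R2 : ℝ)) := by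
    rw [norm_mul]
    refine mul_le_mul hf ?_ (norm_nonneg _) hse
    exact (norm_add_le _ _).trans (add_le_add hta lt)
  have n3 : ‖E2 * (s.a.toC + L1)‖ ≤ (t.e : ℝ) * ((s.a.ub : ℝ) + (s.lin R1 R2 : ℝ)) := by
    rw [norm_mul]
    refine mul_le_mul hg ?_ (norm_nonneg _) hte
    exact (norm_add_le _ _).trans (add_le_add hsa ls)
  have n4 : ‖E1 * E2‖ ≤ (s.e : ℝ) * (t.e : ℝ) := by
    rw [norm_mul]; exact mul_le_mul hf hg (norm_nonneg _) hse
  have n5 : ‖L1 * L2 + E1 * (t.a.toC + L2) + E2 * (s.a.toC + L1) + E1 * E2‖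
      ≤ ((s.lin R1 R2 * t.lin R1 R2 + s.e * (t.a.ub + t.lin R1 R2)
          + t.e * (s.a.ub + s.lin R1 R2) + s.e * t.e : Int) : ℝ) := by
    push_cast
    refine (norm_add_le _ _).trans (add_le_add ?_ n4)
    refine (norm_add_le _ _).trans (add_le_add ?_ n3)
    exact (norm_add_le _ _).trans (add_le_add n1 n2)
  have n6 := div_le_div_of_nonneg_right n5 SC_pos.le
  have n7 := le_cdiv (s.lin R1 R2 * t.lin R1 R2 + s.e * (t.a.ub + t.lin R1 R2)
          + t.e * (s.a.ub + s.lin R1 R2) + s.e * t.e)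
  push_cast at n6 n7 ⊢
  linarith

end

end Pool.Agent.Lib.Pd7a79b
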