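import Mathlib

/-!
# Square root transform
-/

set_option autoImplicit false

open Complex Metric Set Filter Topology

namespace Pool.Agent.Lib.Pd7a79b

/-- logarithm of a nonvanishing holomorphic function on a disc centred at the origin -/
theorem exists_log_ball {G : ℂ → ℂ} {r : ℝ} (hr : 0 < r) (hG : DifferentiableOn ℂ G (ball 0 r))
    (hne : ∀ z ∈ ball (0 : ℂ) r, G z ≠ 0) (h1 : G 0 = 1) :
    ∃ L : ℂ → ℂ, DifferentiableOn ℂ L (ball 0 r) ∧ L 0 = 0 ∧
      ∀ z ∈ ball (0 : ℂ) r, Complex.exp (L z) = G z := by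
  have h0 : (0 : ℂ) ∈ ball (0 : ℂ) r := mem_ball_self hr
  have hG' : DifferentiableOn ℂ (fun z => deriv G z / G z) (ball 0 r) :=
    (hG.deriv isOpen_ball).div hG hne
  obtain ⟨L₀, hL₀⟩ := hG'.isExactOn_ball
  refine ⟨fun z => L₀ z - L₀ 0, ?_, by simp, ?_⟩
  · intro z hz
    exact ((hL₀ z hz).differentiableAt.sub_const _).differentiableWithinAt
  · intro z hz
    have hd : ∀ w ∈ ball (0 : ℂ) r,
        HasDerivAt (fun w => G w * Complex.exp (-(L₀ w - L₀ 0))) 0 w := by
      intro w hw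
      have hGw : HasDerivAt G (deriv G w) w :=
        (hG.differentiableAt (isOpen_ball.mem_nhds hw)).hasDerivAt
      have hLw : HasDerivAt (fun w => -(L₀ w - L₀ 0)) (-(deriv G w / G w)) w :=
        ((hL₀ w hw).sub_const _).neg
      have := hGw.mul hLw.cexp
      convert! this using 1
      have := hne w hw
      field_simp
      ring
    have hconst : G z * Complex.exp (-(L₀ z - L₀ 0)) = G 0 * Complex.exp (-(L₀ 0 - L₀ 0)) :=
      isOpen_ball.is_const_of_deriv_eq_zero (convex_ball (0 : ℂ) r).isPreconnected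
        (f := fun w => G w * Complex.exp (-(L₀ w - L₀ 0)))
        (fun w hw => (hd w hw).differentiableAt.differentiableWithinAt)
        (fun w hw => (hd w hw).deriv) hz h0
    rw [h1] at hconst
    simp only [sub_self, neg_zero, Complex.exp_zero, mul_one] at hconst
    rw [Complex.exp_neg] at hconst
    have hne' := Complex.exp_ne_zero (L₀ z - L₀ 0)
    field_simp at hconst
    exact hconst.symm

/-- The odd square root transform. -/
theorem exists_sqrt_transform {F : ℂ → ℂ} {R : ℝ} (hR : 1 < R)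
    (hF : DifferentiableOn ℂ F (ball 0 (R ^ 2))) (hinj : InjOn F (ball 0 (R ^ 2)))
    (h0 : F 0 = 0) (h1 : deriv F 0 = 1) :
    ∃ h : ℂ → ℂ, DifferentiableOn ℂ h (ball 0 R) ∧ InjOn h (ball 0 R) ∧
      (∀ ζ ∈ ball (0 : ℂ) R, h (-ζ) = -h ζ) ∧ deriv h 0 = 1 ∧
      ∀ ζ ∈ ball (0 : ℂ) R, h ζ ^ 2 = F (ζ ^ 2) := by
  have hR2 : 0 < R ^ 2 := by positivity
  have hR0 : 0 < R := by linarith
  have hm0 : (0 : ℂ) ∈ ball (0 : ℂ) (R ^ 2) := mem_ball_self hR2
  have hsq : ∀ ζ ∈ ball (0 : ℂ) R, ζ ^ 2 ∈ ball (0 : ℂ) (R ^ 2) := by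
    intro ζ hζ
    rw [mem_ball_zero_iff] at hζ ⊢
    rw [norm_pow]
    exact pow_lt_pow_left₀ hζ (norm_nonneg _) (by norm_num)
  -- the quotient
  have hG : DifferentiableOn ℂ (dslope F 0) (ball 0 (R ^ 2)) :=
    (Complex.differentiableOn_dslope (isOpen_ball.mem_nhds hm0)).2 hF
  have hG1 : dslope F 0 0 = 1 := by rw [dslope_same, h1]
  have hGz : ∀ z : ℂ, F z = z * dslope F 0 z := by
    intro z
    have := sub_smul_dslope F 0 z
    simp only [sub_zero, smul_eq_mul, h0] at this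
    exact this.symm
  have hGne : ∀ z ∈ ball (0 : ℂ) (R ^ 2), dslope F 0 z ≠ 0 := by
    intro z hz hz0
    rcases eq_or_ne z 0 with rfl | hne
    · rw [hG1] at hz0; exact one_ne_zero hz0
    · have h2 := hGz z
      rw [hz0, mul_zero, ← h0] at h2
      exact hne (hinj hz hm0 h2)
  obtain ⟨L, hL, hL0, hLe⟩ := exists_log_ball hR2 hG hGne hG1
  set h : ℂ → ℂ := fun ζ => ζ * Complex.exp (L (ζ ^ 2) / 2) with hh
  have hsqh : ∀ ζ ∈ ball (0 : ℂ) R, h ζ ^ 2 = F (ζ ^ 2) := by
    intro ζ hζ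
    rw [hh]
    simp only
    rw [mul_pow, ← Complex.exp_nat_mul]
    push_cast
    rw [mul_div_cancel₀ _ (two_ne_zero), hLe _ (hsq ζ hζ), ← hGz]
  have hodd : ∀ ζ ∈ ball (0 : ℂ) R, h (-ζ) = -h ζ := by
    intro ζ _
    rw [hh]
    simp only [neg_sq]
    ring
  have hdiff : DifferentiableOn ℂ h (ball 0 R) := by
    apply DifferentiableOn.mul differentiableOn_id
    apply DifferentiableOn.cexp
    apply DifferentiableOn.div_const
    exact hL.comp (differentiableOn_pow 2) (fun ζ hζ => hsq ζ hζ)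
  refine ⟨h, hdiff, ?_, hodd, ?_, hsqh⟩
  · intro a ha b hb hab
    have h2 : F (a ^ 2) = F (b ^ 2) := by rw [← hsqh a ha, ← hsqh b hb, hab]
    have h3 := hinj (hsq a ha) (hsq b hb) h2
    rcases sq_eq_sq_iff_eq_or_eq_neg.1 h3 with h4 | h4
    · exact h4
    · -- a = -b
      have h5 : h a = -h b := by rw [h4]; exact hodd b hb
      have h6 : h b = 0 := by
        rw [hab] at h5
        have : (2 : ℂ) * h b = 0 := by linear_combination h5
        simpa using this
      have h7 : F (b ^ 2) = F 0 := by rw [← hsqh b hb, h6, h0]; ring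
      have h8 := hinj (hsq b hb) hm0 h7
      have h9 : b = 0 := by simpa using h8
      rw [h4, h9, neg_zero]
  · have hLd : DifferentiableAt ℂ (fun ζ => Complex.exp (L (ζ ^ 2) / 2)) 0 := by
      apply DifferentiableAt.cexp
      apply DifferentiableAt.div_const
      apply DifferentiableAt.comp
      · rw [zero_pow (by norm_num)]
        exact hL.differentiableAt (isOpen_ball.mem_nhds hm0)
      · exact differentiableAt_pow 2
    have hd := (hasDerivAt_id (0 : ℂ)).mul hLd.hasDerivAt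
    have h2 : deriv h 0 = _ := hd.deriv
    rw [h2]
    simp [hL0]

/-- second order Taylor expansion at the origin -/
theorem taylor_two {f : ℂ → ℂ} {r : ℝ} (hr : 0 < r) (hf : DifferentiableOn ℂ f (ball 0 r)) :
    Tendsto (fun z => (f z - f 0 - deriv f 0 * z - iteratedDeriv 2 f 0 / 2 * z ^ 2) / z ^ 2)
      (𝓝[≠] 0) (𝓝 0) := by
  have ha : AnalyticAt ℂ f 0 := hf.analyticAt (isOpen_ball.mem_nhds (mem_ball_self hr))
  have hps := ha.hasFPowerSeriesAt
  have hO := hps.isBigO_sub_partialSum_pow 3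
  have e : ∀ y : ℂ, f (0 + y) - (FormalMultilinearSeries.ofScalars ℂ
      (fun n ↦ iteratedDeriv n f 0 / (n.factorial : ℂ))).partialSum 3 y
      = f y - f 0 - deriv f 0 * y - iteratedDeriv 2 f 0 / 2 * y ^ 2 := by
    intro y
    simp only [FormalMultilinearSeries.partialSum, Finset.sum_range_succ, Finset.sum_range_zero,
      FormalMultilinearSeries.ofScalars_apply_eq]
    simp [iteratedDeriv_one, Nat.factorial]
    ring
  have hO' : (fun y : ℂ => f y - f 0 - deriv f 0 * y - iteratedDeriv 2 f 0 / 2 * y ^ 2)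
      =O[𝓝 0] fun y => ‖y‖ ^ 3 := by
    refine hO.congr_left ?_
    intro y
    exact e y
  have h3 : (fun y : ℂ => ‖y‖ ^ 3) =o[𝓝 0] fun y : ℂ => y ^ 2 := by
    have h4 : (fun y : ℂ => ‖y‖ ^ 3) =O[𝓝 0] fun y : ℂ => y ^ 3 := by
      apply Asymptotics.IsBigO.of_bound 1
      filter_upwards with y
      simp
    refine h4.trans_isLittleO ?_
    exact Asymptotics.isLittleO_pow_pow (by norm_num)
  have h5 := (hO'.trans_isLittleO h3).mono (nhdsWithin_le_nhds (s := {0}ᶜ))
  exact h5.tendsto_div_nhds_zero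

end Pool.Agent.Lib.Pd7a79b
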