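import Pool.Agent.Lib.Pd7a79b.Iface

/-!
# Transfer of the coefficients to the inverse function
-/

set_option autoImplicit false

open Complex Metric Set Filter Topology

namespace Pool.Agent.Lib.Pd7a79b

/-- `f = o(ζ³)` -/
def O3 (f : ℂ → ℂ) : Prop := Tendsto (fun ζ => f ζ / ζ ^ 3) (𝓝[≠] 0) (𝓝 0)

theorem O3.add {f g : ℂ → ℂ} (hf : O3 f) (hg : O3 g) : O3 (fun ζ => f ζ + g ζ) := by
  unfold O3 at *
  have := hf.add hg
  rw [add_zero] at this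
  refine this.congr (fun ζ => ?_)
  ring

theorem O3.sub {f g : ℂ → ℂ} (hf : O3 f) (hg : O3 g) : O3 (fun ζ => f ζ - g ζ) := by
  unfold O3 at *
  have := hf.sub hg
  rw [sub_zero] at this
  refine this.congr (fun ζ => ?_)
  ring

theorem O3.const_mul {f : ℂ → ℂ} (a : ℂ) (hf : O3 f) : O3 (fun ζ => a * f ζ) := by
  unfold O3 at *
  have := hf.const_mul a
  rw [mul_zero] at this
  refine this.congr (fun ζ => ?_)
  ring

theorem O3.congr' {f g : ℂ → ℂ} (hf : O3 f) (h : ∀ᶠ ζ in 𝓝[≠] (0 : ℂ), f ζ = g ζ) : O3 g := by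
  unfold O3 at *
  refine hf.congr' ?_
  filter_upwards [h] with ζ hζ
  rw [hζ]

theorem tendsto_id_punctured : Tendsto (fun ζ : ℂ => ζ) (𝓝[≠] 0) (𝓝 0) :=
  tendsto_id.mono_left nhdsWithin_le_nhds

theorem O3.uniq {a b : ℂ} (h : O3 (fun ζ => a * ζ + b * ζ ^ 3)) : a = 0 ∧ b = 0 := by
  have hz := tendsto_id_punctured
  have h1 : Tendsto (fun ζ : ℂ => (a * ζ + b * ζ ^ 3) / ζ ^ 3 * ζ ^ 2) (𝓝[≠] 0) (𝓝 (0 * 0 ^ 2)) :=
    Tendsto.mul h (hz.pow 2)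
  have h2 : Tendsto (fun ζ : ℂ => a + b * ζ ^ 2) (𝓝[≠] 0) (𝓝 (0 * 0 ^ 2)) := by
    refine h1.congr' ?_
    filter_upwards [self_mem_nhdsWithin] with ζ hζ
    have : ζ ≠ 0 := hζ
    field_simp
  have h3 : Tendsto (fun ζ : ℂ => a + b * ζ ^ 2) (𝓝[≠] 0) (𝓝 (a + b * 0 ^ 2)) :=
    tendsto_const_nhds.add ((hz.pow 2).const_mul b)
  have ha : a + b * 0 ^ 2 = 0 * 0 ^ 2 := tendsto_nhds_unique h3 h2
  have ha0 : a = 0 := by simpa using ha
  refine ⟨ha0, ?_⟩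
  subst ha0
  have h4 : Tendsto (fun _ : ℂ => b) (𝓝[≠] (0 : ℂ)) (𝓝 0) := by
    refine Tendsto.congr' ?_ h
    filter_upwards [self_mem_nhdsWithin] with ζ hζ
    have : ζ ≠ 0 := hζ
    field_simp
    ring
  exact tendsto_nhds_unique tendsto_const_nhds h4

/-- basic local facts about `h` -/
structure Loc (h : ℂ → ℂ) : Prop where
  ratio : Tendsto (fun ζ => h ζ / ζ) (𝓝[≠] 0) (𝓝 1)

theorem Loc.of_deriv {h : ℂ → ℂ} (hd : DifferentiableAt ℂ h 0) (h0 : h 0 = 0)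
    (h1 : deriv h 0 = 1) : Loc h := by
  constructor
  have := hd.hasDerivAt.tendsto_slope
  rw [h1] at this
  refine this.congr (fun ζ => ?_)
  rw [slope_def_field, h0, sub_zero, sub_zero]

theorem Loc.tendsto_zero {h : ℂ → ℂ} (L : Loc h) : Tendsto h (𝓝[≠] 0) (𝓝 0) := by
  have := L.ratio.mul tendsto_id_punctured
  rw [mul_zero] at this
  refine this.congr' ?_
  filter_upwards [self_mem_nhdsWithin] with ζ hζ
  have : ζ ≠ 0 := hζ
  field_simp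

theorem Loc.ne {h : ℂ → ℂ} (L : Loc h) : ∀ᶠ ζ in 𝓝[≠] (0 : ℂ), h ζ ≠ 0 := by
  have := L.ratio.eventually_ne one_ne_zero
  filter_upwards [this] with ζ hζ h0
  rw [h0, zero_div] at hζ
  exact hζ rfl

theorem Loc.tendsto_punctured {h : ℂ → ℂ} (L : Loc h) : Tendsto h (𝓝[≠] 0) (𝓝[≠] 0) :=
  tendsto_nhdsWithin_iff.2 ⟨L.tendsto_zero, L.ne⟩

theorem Loc.cube {h : ℂ → ℂ} (L : Loc h) : O3 (fun ζ => h ζ ^ 3 - ζ ^ 3) := by
  unfold O3
  have := (L.ratio.pow 3).sub_const 1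
  rw [one_pow, sub_self] at this
  refine this.congr' ?_
  filter_upwards [self_mem_nhdsWithin] with ζ hζ
  have : ζ ≠ 0 := hζ
  field_simp

theorem Loc.expand {h : ℂ → ℂ} (L : Loc h) {c m : ℂ}
    (ha : O3 (fun ζ => 2 / ζ - 2 / h ζ - 2 * c * ζ - m * ζ ^ 3)) :
    O3 (fun ζ => h ζ - ζ - c * ζ ^ 3) := by
  have hz := tendsto_id_punctured
  unfold O3 at *
  have h1 : Tendsto (fun ζ : ℂ => c * (h ζ / ζ - 1) + m * (ζ ^ 2 * (h ζ / ζ)) / 2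
      + (h ζ / ζ) * (ζ ^ 2 * ((2 / ζ - 2 / h ζ - 2 * c * ζ - m * ζ ^ 3) / ζ ^ 3)) / 2)
      (𝓝[≠] 0) (𝓝 (c * (1 - 1) + m * (0 ^ 2 * 1) / 2 + 1 * (0 ^ 2 * 0) / 2)) := by
    apply Tendsto.add
    · apply Tendsto.add
      · exact (L.ratio.sub_const 1).const_mul c
      · exact (((hz.pow 2).mul L.ratio).const_mul m).div_const 2
    · exact (L.ratio.mul ((hz.pow 2).mul ha)).div_const 2
  have e : (c * (1 - 1) + m * (0 ^ 2 * 1) / 2 + 1 * (0 ^ 2 * 0) / 2 : ℂ) = 0 := by ring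
  rw [e] at h1
  refine h1.congr' ?_
  filter_upwards [self_mem_nhdsWithin, L.ne] with ζ hζ hh
  have : ζ ≠ 0 := hζ
  field_simp
  ring

theorem O3.comp {f h : ℂ → ℂ} (L : Loc h) (hf : O3 f) : O3 (fun ζ => f (h ζ)) := by
  unfold O3 at *
  have h1 := (hf.comp L.tendsto_punctured).mul (L.ratio.pow 3)
  rw [zero_mul] at h1
  refine h1.congr' ?_
  filter_upwards [self_mem_nhdsWithin, L.ne] with ζ hζ hh
  have : ζ ≠ 0 := hζ
  simp only [Function.comp]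
  field_simp

/-- The coefficients of the inverse function. -/
theorem transfer_coeffs {h k : ℂ → ℂ} (Lh : Loc h) (hkh : ∀ᶠ ζ in 𝓝[≠] (0 : ℂ), k (h ζ) = ζ)
    {c m13 m33 c' m13' m33' : ℂ} {D D' : ℂ → ℂ → ℂ}
    (Gh : GolData h c m13 m33 D) (Gk : GolData k c' m13' m33' D') :
    c' = -c ∧ m13' = -m13 + 2 * c ^ 2 ∧ m33' = -m33 + 2 * c * m13 - 2 * c ^ 3 := by
  have a1 : O3 (fun ζ => 2 / ζ - 2 / h ζ - 2 * c * ζ - m13 * ζ ^ 3) := Gh.asym1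
  have a3 : O3 (fun ζ => 2 / 3 * (1 / ζ ^ 3 - 1 / h ζ ^ 3) - 2 * c / h ζ - m13 * ζ
    - m33 * ζ ^ 3) := Gh.asym3
  have b1 : O3 (fun ζ => 2 / ζ - 2 / k ζ - 2 * c' * ζ - m13' * ζ ^ 3) := Gk.asym1
  have b3 : O3 (fun ζ => 2 / 3 * (1 / ζ ^ 3 - 1 / k ζ ^ 3) - 2 * c' / k ζ - m13' * ζ
    - m33' * ζ ^ 3) := Gk.asym3
  have e1 := Lh.expand a1
  have e3 := Lh.cube
  have d1 : O3 (fun ζ => 2 / h ζ - 2 / ζ - 2 * c' * h ζ - m13' * h ζ ^ 3) := by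
    refine (O3.comp Lh b1).congr' ?_
    filter_upwards [hkh] with ζ hζ
    rw [hζ]
  have d3 : O3 (fun ζ => 2 / 3 * (1 / h ζ ^ 3 - 1 / ζ ^ 3) - 2 * c' / ζ - m13' * h ζ
    - m33' * h ζ ^ 3) := by
    refine (O3.comp Lh b3).congr' ?_
    filter_upwards [hkh] with ζ hζ
    rw [hζ]
  -- first order
  have s1 : O3 (fun ζ => (-2 * c' - 2 * c) * ζ + (-2 * c' * c - m13' - m13) * ζ ^ 3) := by
    have := (((a1.add d1).add (e1.const_mul (2 * c'))).add (e3.const_mul m13'))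
    refine this.congr' (Eventually.of_forall fun ζ => ?_)
    ring
  obtain ⟨u1, u2⟩ := s1.uniq
  have hc : c' = -c := by linear_combination (-1 / 2 : ℂ) * u1
  have hm : m13' = -m13 + 2 * c ^ 2 := by
    rw [hc] at u2
    linear_combination -u2
  refine ⟨hc, hm, ?_⟩
  have s3 : O3 (fun ζ => (2 * c ^ 2 - m13 - m13') * ζ
      + (c * m13 - m33 - m13' * c - m33') * ζ ^ 3) := by
    have := ((((a3.add d3).sub (a1.const_mul c)).add (e1.const_mul m13')).add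
      (e3.const_mul m33'))
    refine this.congr' (Eventually.of_forall fun ζ => ?_)
    rw [hc]
    ring
  obtain ⟨v1, v2⟩ := s3.uniq
  rw [hm] at v2
  linear_combination -v2

/-- The quadratic form of the inverse. -/
theorem QF_transfer (c m13 m33 p q wp wq Dpp Dqq Dpq y1 y3 yp yq : ℂ) :
    QF (-c) (-m13 + 2 * c ^ 2) (-m33 + 2 * c * m13 - 2 * c ^ 3) wp wq p q (-Dpp) (-Dqq) (-Dpq)
      (y1 + c * y3) y3 yp yq = -QF c m13 m33 p q wp wq Dpp Dqq Dpq y1 y3 yp yq := by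
  unfold QF phi1 phi3
  ring

end Pool.Agent.Lib.Pd7a79b
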