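import Pool.Agent.Lib.Pd7a79b.Sound5
import Pool.Agent.Lib.Pd7a79b.Transfer
import Pool.Agent.Lib.Pd7a79b.Sqrt

/-!
# Assembly: from the Goluzin-type inequality to the contradiction
-/

set_option autoImplicit false

open Complex Metric Set Filter Topology

namespace Pool.Agent.Lib.Pd7a79b

/-- comparison of the coefficients of `h` and `F`, `h(ζ)² = F(ζ²)` -/
theorem coeff_of_sq {h F : ℂ → ℂ} (L : Loc h) {c b : ℂ}
    (he : O3 (fun ζ => h ζ - ζ - c * ζ ^ 3)) (hsq : ∀ᶠ ζ in 𝓝[≠] (0 : ℂ), h ζ ^ 2 = F (ζ ^ 2))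
    (hF : Tendsto (fun z => (F z - z - b * z ^ 2) / z ^ 2) (𝓝[≠] 0) (𝓝 0)) : 2 * c = b := by
  have h1 : Tendsto (fun ζ : ℂ => ((h ζ - ζ - c * ζ ^ 3) / ζ ^ 3 + c) * (h ζ / ζ + 1))
      (𝓝[≠] 0) (𝓝 ((0 + c) * (1 + 1))) :=
    (Tendsto.add_const c he).mul (L.ratio.add_const 1)
  have hsqt : Tendsto (fun ζ : ℂ => ζ ^ 2) (𝓝[≠] 0) (𝓝[≠] 0) := by
    apply tendsto_nhdsWithin_iff.2
    constructor
    · have := tendsto_id_punctured.pow 2
      simpa using this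
    · filter_upwards [self_mem_nhdsWithin] with ζ hζ
      exact pow_ne_zero 2 hζ
  have h2 : Tendsto (fun ζ : ℂ => (F (ζ ^ 2) - ζ ^ 2 - b * (ζ ^ 2) ^ 2) / (ζ ^ 2) ^ 2 + b)
      (𝓝[≠] 0) (𝓝 (0 + b)) := (hF.comp hsqt).add_const b
  have h3 : Tendsto (fun ζ : ℂ => ((h ζ - ζ - c * ζ ^ 3) / ζ ^ 3 + c) * (h ζ / ζ + 1))
      (𝓝[≠] 0) (𝓝 (0 + b)) := by
    refine h2.congr' ?_
    filter_upwards [self_mem_nhdsWithin, hsq] with ζ hζ hq
    have : ζ ≠ 0 := hζ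
    rw [← hq]
    field_simp
    ring
  have := tendsto_nhds_unique h1 h3
  linear_combination this

/-- the pair of functions -/
structure Setup (h k : ℂ → ℂ) (R : ℝ) : Prop where
  hR : 1 < R
  hd : DifferentiableOn ℂ h (ball 0 R)
  hi : InjOn h (ball 0 R)
  ho : ∀ ζ ∈ ball (0 : ℂ) R, h (-ζ) = -h ζ
  h1 : deriv h 0 = 1
  kd : DifferentiableOn ℂ k (ball 0 R)
  ki : InjOn k (ball 0 R)
  ko : ∀ ζ ∈ ball (0 : ℂ) R, k (-ζ) = -k ζ
  k1 : deriv k 0 = 1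
  hkh : ∀ᶠ ζ in 𝓝 (0 : ℂ), k (h ζ) = ζ

theorem Setup.mem0 {h k : ℂ → ℂ} {R : ℝ} (S : Setup h k R) : (0 : ℂ) ∈ ball (0 : ℂ) R :=
  mem_ball_self (by linarith [S.hR])

theorem Setup.h0 {h k : ℂ → ℂ} {R : ℝ} (S : Setup h k R) : h 0 = 0 := by
  have := S.ho 0 S.mem0
  rw [neg_zero] at this
  have h2 : (2 : ℂ) * h 0 = 0 := by linear_combination this
  simpa using h2

theorem Setup.locH {h k : ℂ → ℂ} {R : ℝ} (S : Setup h k R) : Loc h :=
  Loc.of_deriv (S.hd.differentiableAt (isOpen_ball.mem_nhds S.mem0)) S.h0 S.h1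

theorem Setup.ball_sub {h k : ℂ → ℂ} {R : ℝ} (S : Setup h k R) {p : ℂ} (hp : ‖p‖ ≤ 1) :
    p ∈ ball (0 : ℂ) R := by
  rw [mem_ball_zero_iff]; linarith [S.hR]

/-- continuation along the radius -/
theorem Setup.cont {h k : ℂ → ℂ} {R : ℝ} (S : Setup h k R) {p : ℂ} (hp : ‖p‖ < 1)
    (hpath : ∀ t : ℝ, 0 ≤ t → t ≤ 1 → ‖h (t * p)‖ < 1) : ∀ᶠ ζ in 𝓝 p, k (h ζ) = ζ := by
  set Ω : Set ℂ := ball (0 : ℂ) R ∩ h ⁻¹' ball (0 : ℂ) R with hΩ
  have hΩo : IsOpen Ω := S.hd.continuousOn.isOpen_inter_preimage isOpen_ball isOpen_ball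
  have hseg : segment ℝ (0 : ℂ) p ⊆ Ω := by
    intro z hz
    rw [segment_eq_image] at hz
    obtain ⟨t, ht, rfl⟩ := hz
    have e : (1 - t) • (0 : ℂ) + t • p = t * p := by simp
    simp only [e]
    have h1 := hpath t ht.1 ht.2
    have h2 : ‖(t : ℂ) * p‖ < 1 := by
      rw [norm_mul, Complex.norm_real, Real.norm_of_nonneg ht.1]
      nlinarith [norm_nonneg p, ht.1, ht.2]
    refine ⟨?_, ?_⟩
    · exact S.ball_sub h2.le
    · rw [mem_preimage]
      exact S.ball_sub h1.le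
  have hcomp : IsCompact (segment ℝ (0 : ℂ) p) := by
    rw [segment_eq_image]
    exact isCompact_Icc.image (by fun_prop)
  obtain ⟨δ, hδ, hsub⟩ := hcomp.exists_thickening_subset_open hΩo hseg
  set T := Metric.thickening δ (segment ℝ (0 : ℂ) p) with hT
  have hTo : IsOpen T := Metric.isOpen_thickening
  have hTc : Convex ℝ T := (convex_segment (0 : ℂ) p).thickening δ
  have hdiff : DifferentiableOn ℂ (fun ζ => k (h ζ)) T := by
    apply S.kd.comp (S.hd.mono fun ζ hζ => (hsub hζ).1)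
    intro ζ hζ
    exact (hsub hζ).2
  have ha : AnalyticOnNhd ℂ (fun ζ => k (h ζ)) T := hdiff.analyticOnNhd hTo
  have hb : AnalyticOnNhd ℂ (fun ζ : ℂ => ζ) T := analyticOnNhd_id
  have h0T : (0 : ℂ) ∈ T := Metric.self_subset_thickening hδ _ (left_mem_segment ℝ 0 p)
  have hpT : p ∈ T := Metric.self_subset_thickening hδ _ (right_mem_segment ℝ 0 p)
  have heq := ha.eqOn_of_preconnected_of_eventuallyEq hb hTc.isPreconnected h0T S.hkh
  filter_upwards [hTo.mem_nhds hpT] with ζ hζ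
  exact heq hζ

theorem KF_conj (x1 x3 xp xq p q : ℂ) :
    KF ((starRingEnd ℂ) x1) ((starRingEnd ℂ) x3) ((starRingEnd ℂ) xp) ((starRingEnd ℂ) xq)
      ((starRingEnd ℂ) p) ((starRingEnd ℂ) q) = KF x1 x3 xp xq p q := by
  unfold KF
  apply tsum_congr
  intro k
  congr 2
  rw [← Complex.norm_conj ((if k = 0 then x1 else 0) + (if k = 1 then x3 else 0)
      + xp * p ^ (2 * k + 1) + xq * q ^ (2 * k + 1))]
  congr 1
  simp only [map_add, map_mul, map_pow]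
  split_ifs <;> simp

theorem QF_conj (m13 m33 p q hp hq Dpp Dqq Dpq x1 x3 xp xq : ℂ) :
    QF c0 ((starRingEnd ℂ) m13) ((starRingEnd ℂ) m33) ((starRingEnd ℂ) p) ((starRingEnd ℂ) q)
      ((starRingEnd ℂ) hp) ((starRingEnd ℂ) hq) ((starRingEnd ℂ) Dpp) ((starRingEnd ℂ) Dqq)
      ((starRingEnd ℂ) Dpq) ((starRingEnd ℂ) x1) ((starRingEnd ℂ) x3) ((starRingEnd ℂ) xp)
      ((starRingEnd ℂ) xq)
      = (starRingEnd ℂ) (QF c0 m13 m33 p q hp hq Dpp Dqq Dpq x1 x3 xp xq) := by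
  have h2 : (starRingEnd ℂ) (2 : ℂ) = 2 := Complex.conj_ofNat 2
  have h3 : (starRingEnd ℂ) (3 : ℂ) = 3 := Complex.conj_ofNat 3
  unfold QF phi1 phi3
  simp only [map_add, map_mul, map_pow, map_sub, map_div₀, map_one, Complex.conj_ofReal, h2, h3]

theorem Sys0.conj {z w m13 m33 D : ℂ} (h : Sys0 z w m13 m33 D) :
    Sys0 ((starRingEnd ℂ) z) ((starRingEnd ℂ) w) ((starRingEnd ℂ) m13) ((starRingEnd ℂ) m33)
      ((starRingEnd ℂ) D) := by
  constructor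
  · intro x1 x3 xp
    have h1 := h.f ((starRingEnd ℂ) x1) ((starRingEnd ℂ) x3) ((starRingEnd ℂ) xp)
    have h2 := QF_conj m13 m33 z z w w D D D ((starRingEnd ℂ) x1) ((starRingEnd ℂ) x3)
      ((starRingEnd ℂ) xp) 0
    have h3 := KF_conj ((starRingEnd ℂ) x1) ((starRingEnd ℂ) x3) ((starRingEnd ℂ) xp) 0 z z
    simp only [Complex.conj_conj, map_zero] at h2 h3
    rw [h2, Complex.norm_conj, h3]
    exact h1
  · intro y1 y3
    have h1 := h.g ((starRingEnd ℂ) y1) ((starRingEnd ℂ) y3)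
    have h2 : (starRingEnd ℂ) (2 : ℂ) = 2 := Complex.conj_ofNat 2
    rw [← Complex.norm_conj, ← Complex.norm_conj ((starRingEnd ℂ) y1 + _),
      Complex.norm_conj y3] at h1
    simpa only [map_add, map_mul, map_pow, Complex.conj_conj, h2, Complex.conj_ofReal] using h1

theorem Sys1.conj {z w m13 m33 D : ℂ} (h : Sys1 z w m13 m33 D) :
    Sys1 ((starRingEnd ℂ) z) ((starRingEnd ℂ) w) ((starRingEnd ℂ) m13) ((starRingEnd ℂ) m33)
      ((starRingEnd ℂ) D) := by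
  constructor
  · intro x1 x3 xp
    have h1 := h.f ((starRingEnd ℂ) x1) ((starRingEnd ℂ) x3) ((starRingEnd ℂ) xp)
    have h2 := QF_conj m13 m33 z z w w D D D ((starRingEnd ℂ) x1) ((starRingEnd ℂ) x3)
      ((starRingEnd ℂ) xp) 0
    have h3 := KF_conj ((starRingEnd ℂ) x1) ((starRingEnd ℂ) x3) ((starRingEnd ℂ) xp) 0 z z
    simp only [Complex.conj_conj, map_zero] at h2 h3
    rw [h2, Complex.norm_conj, h3]
    exact h1
  · intro y1 y3 yp
    have h1 := h.g ((starRingEnd ℂ) y1) ((starRingEnd ℂ) y3) ((starRingEnd ℂ) yp)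
    have h2 := QF_conj m13 m33 z z w w D D D ((starRingEnd ℂ) y1) ((starRingEnd ℂ) y3)
      ((starRingEnd ℂ) yp) 0
    have h3 := KF_conj ((starRingEnd ℂ) y1 + c0 * (starRingEnd ℂ) y3) ((starRingEnd ℂ) y3)
      ((starRingEnd ℂ) yp) 0 w w
    simp only [Complex.conj_conj, map_zero, map_add, map_mul, Complex.conj_ofReal] at h2 h3
    rw [h2, Complex.norm_conj, h3]
    exact h1

/-- the diagonal kernel at points of modulus at most `64/65` -/
theorem KF_diag_log {w : ℂ} (hw : ‖w‖ ≤ 64 / 65) : KF 0 0 1 0 w w ≤ 17 / 4 := by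
  set ρ : ℝ := ‖w‖ ^ 2 with hρ
  have hρ0 : 0 ≤ ρ := by positivity
  have hρ1 : ρ ≤ 4096 / 4225 := by
    have : ρ ≤ (64 / 65) ^ 2 := pow_le_pow_left₀ (norm_nonneg _) hw 2
    norm_num at this ⊢
    exact this
  have hlt : |ρ| < 1 := by rw [abs_of_nonneg hρ0]; linarith
  have hs := Real.hasSum_log_sub_log_of_abs_lt_one hlt
  have hK : KF 0 0 1 0 w w = Real.log (1 + ρ) - Real.log (1 - ρ) := by
    rw [← hs.tsum_eq]
    unfold KF
    apply tsum_congr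
    intro k
    have : (if k = 0 then (0 : ℂ) else 0) + (if k = 1 then (0 : ℂ) else 0)
        + 1 * w ^ (2 * k + 1) + 0 * w ^ (2 * k + 1) = w ^ (2 * k + 1) := by
      simp
    rw [this, norm_pow, hρ, ← pow_mul, ← pow_mul, mul_comm (2 * k + 1) 2]
    ring
  rw [hK]
  have h1 : Real.log (1 + ρ) ≤ Real.log (1 + 4096 / 4225) :=
    Real.log_le_log (by linarith) (by linarith)
  have h2 : Real.log (1 - 4096 / 4225) ≤ Real.log (1 - ρ) :=
    Real.log_le_log (by norm_num) (by linarith)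
  have h3 : Real.log (1 + 4096 / 4225) - Real.log (1 - 4096 / 4225) = Real.log (8321 / 129) := by
    rw [← Real.log_div (by norm_num) (by norm_num)]
    norm_num
  have h4 : Real.log (8321 / 129) ≤ 17 / 4 := by
    have h5 : Real.log ((8321 / 129) ^ 4) ≤ 17 := by
      rw [Real.log_le_iff_le_exp (by positivity)]
      have h6 : Real.exp 17 = Real.exp 1 ^ 17 := by
        rw [← Real.exp_nat_mul]; norm_num
      rw [h6]
      have h7 := Real.exp_one_gt_d9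
      have h8 : (2.7182818283 : ℝ) ^ 17 ≤ Real.exp 1 ^ 17 := by
        gcongr
      refine le_trans ?_ h8
      norm_num
    rw [Real.log_pow] at h5
    push_cast at h5
    linarith
  linarith

/-- bound of the off-diagonal entry -/
theorem off_diag_bound {c m13 m33 p q hp hq Dpp Dqq Dpq : ℂ} {A B : ℝ}
    (hp1 : ‖p‖ < 1) (hq1 : ‖q‖ < 1)
    (hA : KF 0 0 1 0 p p ≤ A) (hB : KF 0 0 1 0 q q ≤ B)
    (h : ∀ x1 x3 xp xq : ℂ, ‖QF c m13 m33 p q hp hq Dpp Dqq Dpq x1 x3 xp xq‖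
      ≤ KF x1 x3 xp xq p q) : ‖Dpq‖ ≤ (A + B) / 2 := by
  have h1 := h 0 0 1 1
  have h2 := h 0 0 1 (-1)
  have e : (4 : ℂ) * Dpq = QF c m13 m33 p q hp hq Dpp Dqq Dpq 0 0 1 1
      - QF c m13 m33 p q hp hq Dpp Dqq Dpq 0 0 1 (-1) := by unfold QF; ring
  have h3 : KF 0 0 1 1 p q + KF 0 0 1 (-1) p q = 2 * KF 0 0 1 0 p p + 2 * KF 0 0 1 0 q q := by
    have s1 := summable_zc 0 0 1 1 p q hp1 hq1 0
    have s2 := summable_zc 0 0 1 (-1) p q hp1 hq1 0
    have s3 := summable_zc 0 0 1 0 p p hp1 hp1 0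
    have s4 := summable_zc 0 0 1 0 q q hq1 hq1 0
    rw [KF_eq_TS, KF_eq_TS, KF_eq_TS, KF_eq_TS]
    unfold TS
    rw [← tsum_mul_left, ← tsum_mul_left, ← s1.tsum_add s2,
      ← (s3.mul_left 2).tsum_add (s4.mul_left 2)]
    apply tsum_congr
    intro j
    have e1 : zc 0 0 1 1 p q (j + 0) = p ^ (2 * (j + 0) + 1) + q ^ (2 * (j + 0) + 1) := by
      simp [zc]
    have e2 : zc 0 0 1 (-1) p q (j + 0) = p ^ (2 * (j + 0) + 1) - q ^ (2 * (j + 0) + 1) := by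
      simp [zc]; ring
    have e3 : zc 0 0 1 0 p p (j + 0) = p ^ (2 * (j + 0) + 1) := by simp [zc]
    have e4 : zc 0 0 1 0 q q (j + 0) = q ^ (2 * (j + 0) + 1) := by simp [zc]
    rw [e1, e2, e3, e4]
    have par := parallelogram_law_with_norm ℝ (p ^ (2 * (j + 0) + 1)) (q ^ (2 * (j + 0) + 1))
    have par' : ‖p ^ (2 * (j + 0) + 1) + q ^ (2 * (j + 0) + 1)‖ ^ 2
        + ‖p ^ (2 * (j + 0) + 1) - q ^ (2 * (j + 0) + 1)‖ ^ 2
        = 2 * (‖p ^ (2 * (j + 0) + 1)‖ ^ 2 + ‖q ^ (2 * (j + 0) + 1)‖ ^ 2) := by nlinarith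
    rw [← mul_add, par']
    ring
  have h4 : ‖(4 : ℂ) * Dpq‖ ≤ 2 * A + 2 * B := by
    rw [e]
    refine (norm_sub_le _ _).trans ?_
    linarith
  rw [norm_mul] at h4
  have : ‖(4 : ℂ)‖ = 4 := by norm_num
  rw [this] at h4
  linarith

theorem neg_of_exp {a b : ℂ} (h : Complex.exp a * Complex.exp b = 1) (ha : ‖a‖ ≤ 2)
    (hb : ‖b‖ ≤ 17 / 4) : b = -a := by
  rw [← Complex.exp_add, Complex.exp_eq_one_iff] at h
  obtain ⟨n, hn⟩ := h
  have h1 : ‖a + b‖ ≤ 25 / 4 := (norm_add_le _ _).trans (by linarith)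
  rw [hn] at h1
  have h2 : ‖(n : ℂ) * (2 * Real.pi * Complex.I)‖ = |(n : ℝ)| * (2 * Real.pi) := by
    rw [norm_mul, norm_mul, norm_mul, Complex.norm_I, Complex.norm_real,
      Real.norm_of_nonneg Real.pi_pos.le, Complex.norm_intCast]
    simp
  rw [h2] at h1
  have h3 := Real.pi_gt_d2
  have h4 : |(n : ℝ)| < 1 := by
    by_contra hcon
    push Not at hcon
    nlinarith
  have h5 : n = 0 := by
    have : |n| < 1 := by exact_mod_cast h4
    exact Int.abs_lt_one_iff.1 this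
  rw [h5] at hn
  simp only [Int.cast_zero, zero_mul] at hn
  linear_combination hn

end Pool.Agent.Lib.Pd7a79b
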