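import Pool.Agent.Lib.Pd7a79b.Arith

/-!
# The checker: definitions (soundness is proved elsewhere)
-/

set_option autoImplicit false

namespace Pool.Agent.Lib.Pd7a79b

/-- division rounded up -/
def cdg (x y : Int) : Int := -((-x) / y)

namespace TM

def one : TM := ⟨⟨SC, 0⟩, Z2.zero, Z2.zero, 0⟩
def zero : TM := ⟨Z2.zero, Z2.zero, Z2.zero, 0⟩

/-- `1 - (i / SC) f` -/
def invd (i : Z2) (t : TM) : TM := one.sub ((t.scal i).shr)

/-- inverse, `i` an approximate inverse of the centre -/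
def inv (R1 R2 : Int) (i : Z2) (t : TM) : TM :=
  let d := invd i t
  let m := d.mag R1 R2
  let r := (d.scal i).shr
  ⟨r.a.add i, r.b, r.c, r.e + cdg (i.ub * (m * m)) (SC * (SC - m))⟩

/-- the condition under which `inv` is sound -/
def invOK (R1 R2 : Int) (i : Z2) (t : TM) : Bool :=
  decide ((invd i t).mag R1 R2 < SC)

/-- Horner scheme for `log (1 + u) = u (1 - u (1/2 - u (1/3 - ...)))` -/
def logH (R1 R2 : Int) (u : TM) : List Nat → TM
  | [] => TM.zero
  | j :: l => TM.sub ⟨⟨SC / (j : Int), 0⟩, Z2.zero, Z2.zero, 1⟩ (u.mul R1 R2 (logH R1 R2 u l))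

def log1p (R1 R2 : Int) (u : TM) : TM :=
  let t := u.mul R1 R2 (logH R1 R2 u [1, 2, 3, 4, 5, 6, 7, 8])
  ⟨t.a, t.b, t.c, t.e + 700000⟩

end TM

/-- integer vectors -/
structure V4 where
  a1 : Z2
  a3 : Z2
  ap : Z2
  aq : Z2

/-- one-sided real Taylor model -/
structure RT where
  A : Int
  G : Z2
  H : Z2
  E : Int

namespace RT
def zero : RT := ⟨0, Z2.zero, Z2.zero, 0⟩
def add (s t : RT) : RT := ⟨s.A + t.A, s.G.add t.G, s.H.add t.H, s.E + t.E⟩
def smul (n : Int) (s : RT) : RT := ⟨n * s.A, Z2.smul n s.G, Z2.smul n s.H, n * s.E⟩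
def cst (n : Int) : RT := ⟨n, Z2.zero, Z2.zero, 0⟩
end RT

/-- squared modulus of a TM -/
def sqTM (R1 R2 : Int) (t : TM) : RT :=
  let l := t.lin R1 R2
  ⟨t.a.nsq, Z2.smul 2 (t.a.cmul t.b), Z2.smul 2 (t.a.cmul t.c),
    l * l + 2 * (t.a.ub + l) * t.e + t.e * t.e⟩

/-- the entries of order one and three -/
def hdc (k : Nat) (x : V4) : Z2 :=
  match k with
  | 0 => x.a1
  | 1 => x.a3
  | _ => Z2.zero

/-- value of the test functional on the `k`-th coordinate -/
def coord (k : Nat) (x : V4) (pp pq : TM) : TM :=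
  ((pp.scal x.ap).add (pq.scal x.aq)).addc (Z2.smul SC (hdc k x))

def sumVec (R1 R2 : Int) (k : Nat) (pp pq : TM) : List V4 → RT
  | [] => RT.zero
  | x :: l => (sqTM R1 R2 (coord k x pp pq)).add (sumVec R1 R2 k pp pq l)

/-- weights: `wt k ≥ 6/(2k+1) * 2^20` -/
def wt (k : Nat) : Int := cdg 6291456 (2 * k + 1)

def sqp (X : List V4) : Int := (X.map fun x => x.ap.nsq).sum
def sqq (X : List V4) : Int := (X.map fun x => x.aq.nsq).sum

def SC4 : Int := SC * SC * (SC * SC)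

/-- tail from `k` on; `M` bounds the `k`-th odd power, `m` the point -/
def tail1 (k : Nat) (s M m : Int) : Int :=
  cdg (6291456 * s * (M * M) * SC4) ((2 * k + 1) * (SC4 - m * m * (m * m)))

/-- `n` terms, starting with index `k`, then the tail -/
def kern (R1 R2 : Int) (X : List V4) (mp mq : Int) (p2 q2 : TM) : Nat → Nat → TM → TM → RT
  | 0, k, pp, pq =>
    RT.cst (2 * (tail1 k (sqp X) (pp.mag R1 R2) mp + tail1 k (sqq X) (pq.mag R1 R2) mq))
  | n + 1, k, pp, pq =>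
    (RT.smul (wt k) (sumVec R1 R2 k pp pq X)).add
      (kern R1 R2 X mp mq p2 q2 n (k + 1) (pp.mul R1 R2 p2) (pq.mul R1 R2 q2))

/-- full kernel form with `n` explicit terms -/
def kernF (R1 R2 : Int) (n : Nat) (X : List V4) (p q : TM) : RT :=
  kern R1 R2 X (p.mag R1 R2) (q.mag R1 R2) (p.mul R1 R2 p) (q.mul R1 R2 q) n 0 p q

/-- value of a one-point test functional on the `k`-th coordinate -/
def coord1 (k : Nat) (x : V4) (pp : TM) : TM :=
  (pp.scal x.ap).addc (Z2.smul SC (hdc k x))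

def sumVec1 (R1 R2 : Int) (k : Nat) (pp : TM) : List V4 → RT
  | [] => RT.zero
  | x :: l => (sqTM R1 R2 (coord1 k x pp)).add (sumVec1 R1 R2 k pp l)

/-- one-point version: `n` terms, starting with index `k`, then the tail -/
def kern1 (R1 R2 : Int) (X : List V4) (mp : Int) (p2 : TM) : Nat → Nat → TM → RT
  | 0, k, pp => RT.cst (tail1 k (sqp X) (pp.mag R1 R2) mp)
  | n + 1, k, pp =>
    (RT.smul (wt k) (sumVec1 R1 R2 k pp X)).add
      (kern1 R1 R2 X mp p2 n (k + 1) (pp.mul R1 R2 p2))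

/-- one-point kernel form with `n` explicit terms -/
def kernS (R1 R2 : Int) (n : Nat) (X : List V4) (p : TM) : RT :=
  kern1 R1 R2 X (p.mag R1 R2) (p.mul R1 R2 p) n 0 p

/-- all the `q` entries vanish -/
def noq (X : List V4) : Bool := X.all fun x => decide (x.aq.re = 0) && decide (x.aq.im = 0)

/-- all the `p` entries vanish -/
def nop (X : List V4) : Bool := X.all fun x => decide (x.ap.re = 0) && decide (x.ap.im = 0)

/-- condition for `kernF` to be sound -/
def kernOK (R1 R2 : Int) (p q : TM) : Bool :=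
  decide (p.mag R1 R2 < SC) && decide (q.mag R1 R2 < SC)

/-- kernel form of the inverse restricted to orders 1, 3 -/
def kernE (Y : List V4) : RT :=
  RT.cst (1048576 * (SC * SC) *
    (Y.map fun y => 6 * y.a1.nsq + 2 * y.a3.nsq).sum)

/-- the symmetric sums -/
structure Sym where
  s11 : Z2
  s13 : Z2
  s33 : Z2
  s1p : Z2
  s3p : Z2
  s1q : Z2
  s3q : Z2
  spp : Z2
  sqq : Z2
  spq : Z2

namespace Sym
def zero : Sym := ⟨Z2.zero, Z2.zero, Z2.zero, Z2.zero, Z2.zero, Z2.zero, Z2.zero, Z2.zero,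
  Z2.zero, Z2.zero⟩
def add (s t : Sym) : Sym := ⟨s.s11.add t.s11, s.s13.add t.s13, s.s33.add t.s33,
  s.s1p.add t.s1p, s.s3p.add t.s3p, s.s1q.add t.s1q, s.s3q.add t.s3q, s.spp.add t.spp,
  s.sqq.add t.sqq, s.spq.add t.spq⟩
def outer (x : V4) : Sym := ⟨x.a1.mul x.a1, x.a1.mul x.a3, x.a3.mul x.a3, x.a1.mul x.ap,
  x.a3.mul x.ap, x.a1.mul x.aq, x.a3.mul x.aq, x.ap.mul x.ap, x.aq.mul x.aq, x.ap.mul x.aq⟩
end Sym

/-- `256 x` -/
def fvec (x : V4) : V4 := ⟨Z2.smul 256 x.a1, Z2.smul 256 x.a3, Z2.smul 256 x.ap,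
  Z2.smul 256 x.aq⟩
/-- `256 (b₁ - c b₃, b₃, bp, bq)` -/
def gvec (x : V4) : V4 := ⟨(Z2.smul 256 x.a1).sub (Z2.smul 181 x.a3), Z2.smul 256 x.a3,
  Z2.smul 256 x.ap, Z2.smul 256 x.aq⟩

def symF : List V4 → Sym
  | [] => Sym.zero
  | x :: l => (Sym.outer (fvec x)).add (symF l)
def symG : List V4 → Sym
  | [] => Sym.zero
  | x :: l => (Sym.outer (gvec x)).add (symG l)

/-- `2 (U - V)` -/
def tphi1 (U V : TM) : TM := (U.sub V).scal ⟨2, 0⟩
/-- `3 φ₃ = 2 (U³ - V³) - 6 c V` -/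
def tphi3 (R1 R2 : Int) (U V : TM) : TM :=
  (((U.mul R1 R2 (U.mul R1 R2 U)).sub (V.mul R1 R2 (V.mul R1 R2 V))).scal ⟨2, 0⟩).sub
    ((V.scal ⟨4664334483456, 0⟩).shr)

/-- the quadratic form part (times 3) -/
def mpart (s : Sym) (f1p f3p f1q f3q lg : TM) : TM :=
  (((((f1p.scal (Z2.smul 6 s.s1p)).add (f3p.scal (Z2.smul 2 s.s3p))).add
    (f1q.scal (Z2.smul 6 s.s1q))).add (f3q.scal (Z2.smul 2 s.s3q))).add
    (lg.scal (Z2.smul 6 s.spq))).addc (Z2.smul 4664334483456 s.s11)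

/-- residual of the free entries (times 3) -/
def resid (s : Sym) : Int := 3 * (3 * s.s13.ub + s.s33.ub + 2 * s.spp.ub + 2 * s.sqq.ub)

/-- real part of a TM as RT -/
def reRT (t : TM) : RT := ⟨t.a.re, t.b, t.c, t.e⟩

/-- the total -/
def total (s : Sym) (m : TM) (kf kg : RT) : RT :=
  (RT.smul (16 * SC) ((reRT m).add (RT.cst (resid s * SC)))).add (kf.add kg)

/-- boxes: real and imaginary parts of two complex variables, and radii, in units `1/SC` -/
structure Bx where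
  x1 : Int
  x2 : Int
  x3 : Int
  x4 : Int
  r1 : Int
  r2 : Int
  r3 : Int
  r4 : Int

namespace Bx
def R1 (b : Bx) : Int := (Z2.mk b.r1 b.r2).ub
def R2 (b : Bx) : Int := (Z2.mk b.r3 b.r4).ub
/-- the radii are admissible -/
def ok (b : Bx) : Bool := decide (0 ≤ b.r1) && decide (0 ≤ b.r2) && decide (0 ≤ b.r3)
  && decide (0 ≤ b.r4) && decide (b.R1 ≤ SC) && decide (b.R2 ≤ SC)
/-- final sign check -/
def neg (b : Bx) (t : RT) : Bool :=
  decide ((t.A + t.E) * SC + ((t.G.re.natAbs : Int) * b.r1 + (t.G.im.natAbs : Int) * b.r2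
    + (t.H.re.natAbs : Int) * b.r3 + (t.H.im.natAbs : Int) * b.r4) < 0)

def half (r : Int) : Int := (r + 1) / 2

def lo (d : Nat) (b : Bx) : Bx :=
  match d with
  | 0 => ⟨b.x1 - half b.r1, b.x2, b.x3, b.x4, half b.r1, b.r2, b.r3, b.r4⟩
  | 1 => ⟨b.x1, b.x2 - half b.r2, b.x3, b.x4, b.r1, half b.r2, b.r3, b.r4⟩
  | 2 => ⟨b.x1, b.x2, b.x3 - half b.r3, b.x4, b.r1, b.r2, half b.r3, b.r4⟩
  | _ => ⟨b.x1, b.x2, b.x3, b.x4 - half b.r4, b.r1, b.r2, b.r3, half b.r4⟩

def hi (d : Nat) (b : Bx) : Bx :=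
  match d with
  | 0 => ⟨b.x1 + half b.r1, b.x2, b.x3, b.x4, half b.r1, b.r2, b.r3, b.r4⟩
  | 1 => ⟨b.x1, b.x2 + half b.r2, b.x3, b.x4, b.r1, half b.r2, b.r3, b.r4⟩
  | 2 => ⟨b.x1, b.x2, b.x3 + half b.r3, b.x4, b.r1, b.r2, half b.r3, b.r4⟩
  | _ => ⟨b.x1, b.x2, b.x3, b.x4 + half b.r4, b.r1, b.r2, b.r3, half b.r4⟩

end Bx

/-- approximate inverse (units) -/
def ainv (z : Z2) : Z2 := ⟨z.re * (SC * SC) / z.nsq, -(z.im * (SC * SC)) / z.nsq⟩

/-- `U₀ = (62 + 41 i)/64` -/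
def U0z : Z2 := ⟨1065151889408, 704374636544⟩
def U0zc : Z2 := ⟨1065151889408, -704374636544⟩

/-- variables -/
def varV (x y : Int) : TM := ⟨⟨x, y⟩, ⟨SC, 0⟩, Z2.zero, 0⟩
def varW (x y : Int) : TM := ⟨⟨x, y⟩, Z2.zero, ⟨SC, 0⟩, 0⟩

/-- number of explicit terms -/
def KF0 : Nat := 12
def KG0 : Nat := 12

/-- Leaf check for stage 0 (and 0a): box variables are `V` and `s` (real), `U = s U₀`. -/
def leaf0 (b : Bx) (X Y : List V4) : Bool :=
  let R1 := b.R1
  let R2 := b.R2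
  let V := varV b.x1 b.x2
  let S := varW b.x3 b.x4
  let U := (S.scal U0z).shr
  let i := ainv U.a
  let z := U.inv R1 R2 i
  let s := (symF X).add (symG Y)
  let f1 := tphi1 U V
  let f3 := tphi3 R1 R2 U V
  let m := mpart s f1 f3 f1 f3 TM.zero
  b.ok && U.invOK R1 R2 i && decide (z.mag R1 R2 < SC) && noq X && noq Y && nop Y
    && b.neg (total s m (kernS R1 R2 KF0 X z) (kernE Y))

/-- Leaf check for stage 1; `ex` = exit type -/
def leaf1 (b : Bx) (ex : Bool) (X Y : List V4) : Bool :=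
  let R1 := b.R1
  let R2 := b.R2
  let V := varV b.x1 b.x2
  let U := TM.const U0z
  let i := ainv U.a
  let z := U.inv R1 R2 i
  let s := (symF X).add (symG Y)
  let f1 := tphi1 U V
  let f3 := tphi3 R1 R2 U V
  let m := mpart s f1 f3 f1 f3 TM.zero
  b.ok && U.invOK R1 R2 i && decide (z.mag R1 R2 < SC) && noq X && noq Y
    && (match ex with
      | true => nop Y && b.neg (total s m (kernS R1 R2 KF0 X z) (kernE Y))
      | false =>
        let j := ainv V.a
        let h := V.inv R1 R2 j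
        V.invOK R1 R2 j && decide (h.mag R1 R2 < SC) &&
          b.neg (total s m (kernS R1 R2 KF0 X z) (kernS R1 R2 KG0 Y h)))

/-- approximation of `log (124/41)` -/
def LK : Int := 1216839962612

/-- Leaf check for stage 2. -/
def leaf2 (b : Bx) (X Y : List V4) : Bool :=
  let R1 := b.R1
  let R2 := b.R2
  let V := varV b.x1 b.x2
  let W := varW b.x3 b.x4
  let U := TM.const U0z
  let Uc := TM.const U0zc
  let z := U.inv R1 R2 (ainv U.a)
  let zc := Uc.inv R1 R2 (ainv Uc.a)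
  let hp := V.inv R1 R2 (ainv V.a)
  let hq := W.inv R1 R2 (ainv W.a)
  let d := V.add W
  let u := ((((V.sub W).mul R1 R2 (d.inv R1 R2 (ainv d.a))).scal ⟨0, -549755813888⟩).shr).sub
    TM.one
  let lg0 := TM.log1p R1 R2 u
  let lg := TM.mk (lg0.a.add ⟨LK, 0⟩) lg0.b lg0.c (lg0.e + 1048576)
  let s := (symF X).add (symG Y)
  let m := mpart s (tphi1 U V) (tphi3 R1 R2 U V) (tphi1 Uc W) (tphi3 R1 R2 Uc W) lg
  b.ok && U.invOK R1 R2 (ainv U.a) && Uc.invOK R1 R2 (ainv Uc.a)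
    && V.invOK R1 R2 (ainv V.a) && W.invOK R1 R2 (ainv W.a) && d.invOK R1 R2 (ainv d.a)
    && kernOK R1 R2 z zc && kernOK R1 R2 hp hq && decide (u.mag R1 R2 * 4 ≤ SC)
    && b.neg (total s m (kernF R1 R2 KF0 X z zc) (kernF R1 R2 KG0 Y hp hq))

/-- bisection trees -/
inductive Tree where
  | skip : Tree
  | leaf (ex : Bool) (X Y : List V4) : Tree
  | node (d : Nat) (l r : Tree) : Tree

/-- generic tree check -/
def Tree.check (sk : Bx → Bool) (lf : Bx → Bool → List V4 → List V4 → Bool) : Tree → Bx → Bool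
  | .skip, b => sk b
  | .leaf ex X Y, b => lf b ex X Y
  | .node d l r, b => l.check sk lf (b.lo d) && r.check sk lf (b.hi d)

/-- squared upper bound of `|V|` on the box -/
def Bx.fmax (b : Bx) : Int :=
  let u := (b.x1.natAbs : Int) + b.r1
  let v := (b.x2.natAbs : Int) + b.r2
  u * u + v * v

/-- squared lower bound of `|V|` on the box -/
def Bx.fmin (b : Bx) : Int :=
  let u := max 0 ((b.x1.natAbs : Int) - b.r1)
  let v := max 0 ((b.x2.natAbs : Int) - b.r2)
  u * u + v * v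

/-- `RO = 65/64` in units -/
def RO : Int := 1116691496960

def skip0 (b : Bx) : Bool := decide (b.fmax < SC * SC) || decide (SC * SC < b.fmin)
def skip0a (b : Bx) : Bool := decide (b.fmax < SC * SC) || decide (RO * RO < b.fmin)

/-- the rectangle `[67/128, 5/8] × [33/32, 37/32]` in units -/
def inRect (b : Bx) : Bool :=
  decide (575525617664 ≤ b.x1 - b.r1) && decide (b.x1 + b.r1 ≤ 687194767360)
  && decide (1133871366144 ≤ b.x2 - b.r2) && decide (b.x2 + b.r2 ≤ 1271310319616)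

def skip1 (b : Bx) : Bool := decide (b.fmax < RO * RO) || inRect b

def skipN (_ : Bx) : Bool := false

def root0 : Bx := ⟨0, 0, 1374389534720, 0, SC, SC, 274877906944, 0⟩
def root0a : Bx := ⟨0, 0, SC, 0, RO, RO, 0, 0⟩
def root1 : Bx := ⟨1065151889408, 704374636544, 0, 0, SC, SC, 0, 0⟩
/-- centre and radii of the rectangle (and of its conjugate) -/
def root2 : Bx := ⟨631360192512, 1202590842880, 631360192512, -1202590842880,
  55834574848, 68719476736, 55834574848, 68719476736⟩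
def lf0 (b : Bx) (_ : Bool) (X Y : List V4) : Bool := leaf0 b X Y
def lf1 (b : Bx) (ex : Bool) (X Y : List V4) : Bool := leaf1 b ex X Y
def lf2 (b : Bx) (_ : Bool) (X Y : List V4) : Bool := leaf2 b X Y

end Pool.Agent.Lib.Pd7a79b
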