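import Pool.Agent.Lib.Pd7a79b.Area

set_option autoImplicit false

open Complex Metric Set Filter Topology MeasureTheory Polynomial

namespace Pool.Agent.Lib.Pd7a79b

variable {h : ℂ → ℂ} {R : ℝ}

/-- derivative of the rational function `N/M` composed with `h`. -/
noncomputable def rder (h : ℂ → ℂ) (N M : ℂ[X]) (z : ℂ) : ℂ :=
  deriv h z * (N.derivative.eval (h z) * M.eval (h z) - N.eval (h z) * M.derivative.eval (h z)) /
        M.eval (h z) ^ 2

/-- `g` is a uniform limit on the circle of derivatives of rational functions of `h`, finite at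
infinity, with poles in the image of the disc. -/
def Appr (h g : ℂ → ℂ) : Prop := ∀ ε : ℝ, 0 < ε → ∃ N M : ℂ[X], RootsIn h M ∧
  N.natDegree ≤ M.natDegree ∧ ∀ z ∈ sphere (0 : ℂ) 1, ‖rder h N M z - g z‖ ≤ ε

theorem RootsIn.one (h : ℂ → ℂ) : RootsIn h 1 := by
  refine ⟨one_ne_zero, fun r hr => ?_⟩
  simp [IsRoot.def] at hr

theorem rder_add (hR : 1 < R) (hi : InjOn h (ball 0 R)) {N₁ M₁ N₂ M₂ : ℂ[X]}
    (h1 : RootsIn h M₁) (h2 : RootsIn h M₂) {z : ℂ} (hz : z ∈ sphere (0 : ℂ) 1) :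
    rder h (N₁ * M₂ + N₂ * M₁) (M₁ * M₂) z = rder h N₁ M₁ z + rder h N₂ M₂ z := by
  have e1 := h1.eval_ne hR hi hz
  have e2 := h2.eval_ne hR hi hz
  simp only [rder, derivative_add, derivative_mul, eval_add, eval_mul]
  field_simp
  ring

theorem deg_add {N₁ M₁ N₂ M₂ : ℂ[X]} (hM1 : M₁ ≠ 0) (hM2 : M₂ ≠ 0)
    (h1 : N₁.natDegree ≤ M₁.natDegree)
    (h2 : N₂.natDegree ≤ M₂.natDegree) :
    (N₁ * M₂ + N₂ * M₁).natDegree ≤ (M₁ * M₂).natDegree := by
  rw [natDegree_mul hM1 hM2]
  apply (natDegree_add_le _ _).trans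
  apply max_le
  · apply natDegree_mul_le.trans
    omega
  · apply natDegree_mul_le.trans
    omega

theorem Appr.add (hR : 1 < R) (hi : InjOn h (ball 0 R)) {f g : ℂ → ℂ} (hf : Appr h f)
    (hg : Appr h g) : Appr h (fun z => f z + g z) := by
  intro ε hε
  obtain ⟨N₁, M₁, a1, a2, a3⟩ := hf (ε / 2) (by positivity)
  obtain ⟨N₂, M₂, b1, b2, b3⟩ := hg (ε / 2) (by positivity)
  refine ⟨N₁ * M₂ + N₂ * M₁, M₁ * M₂, a1.mul b1, deg_add a1.1 b1.1 a2 b2, ?_⟩
  intro z hz
  rw [rder_add hR hi a1 b1 hz]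
  calc ‖rder h N₁ M₁ z + rder h N₂ M₂ z - (f z + g z)‖
      = ‖(rder h N₁ M₁ z - f z) + (rder h N₂ M₂ z - g z)‖ := by congr 1; ring
    _ ≤ ε / 2 + ε / 2 := (norm_add_le _ _).trans (add_le_add (a3 z hz) (b3 z hz))
    _ = ε := by ring

theorem rder_smul (c : ℂ) (N M : ℂ[X]) (z : ℂ) : rder h (C c * N) M z = c * rder h N M z := by
  simp only [rder, derivative_mul, derivative_C, zero_mul, zero_add, eval_mul, eval_C]
  ring

theorem Appr.const_mul {f : ℂ → ℂ} (hf : Appr h f) (c : ℂ) :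
    Appr h (fun z => c * f z) := by
  intro ε hε
  obtain ⟨N, M, a1, a2, a3⟩ := hf (ε / (‖c‖ + 1)) (by positivity)
  refine ⟨C c * N, M, a1, (natDegree_C_mul_le _ _).trans a2, ?_⟩
  intro z hz
  rw [rder_smul, ← mul_sub, norm_mul]
  calc ‖c‖ * ‖rder h N M z - f z‖ ≤ (‖c‖ + 1) * (ε / (‖c‖ + 1)) := by
        apply mul_le_mul (by linarith) (a3 z hz) (norm_nonneg _) (by positivity)
    _ = ε := by field_simp

theorem Appr.zero (h : ℂ → ℂ) : Appr h (fun _ => 0) := by
  intro ε hε
  refine ⟨0, 1, RootsIn.one h, by simp, ?_⟩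
  intro z _
  simp [rder, hε.le]

theorem Appr.congr {f g : ℂ → ℂ} (hf : Appr h f) (hfg : ∀ z ∈ sphere (0 : ℂ) 1, f z = g z) :
    Appr h g := by
  intro ε hε
  obtain ⟨N, M, a1, a2, a3⟩ := hf ε hε
  refine ⟨N, M, a1, a2, fun z hz => ?_⟩
  rw [← hfg z hz]
  exact a3 z hz

theorem Appr.sum (hR : 1 < R) (hi : InjOn h (ball 0 R)) {ι : Type*} (s : Finset ι)
    {f : ι → ℂ → ℂ} (hf : ∀ i ∈ s, Appr h (f i)) : Appr h (fun z => ∑ i ∈ s, f i z) := by
  classical
  induction s using Finset.induction_on with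
  | empty => simpa using Appr.zero h
  | insert a s ha ih =>
    simp only [Finset.sum_insert ha]
    exact Appr.add hR hi (hf a (Finset.mem_insert_self a s))
      (ih fun i hi' => hf i (Finset.mem_insert_of_mem hi'))

/-- exact rational functions are approximable -/
theorem Appr.of_rat {N M : ℂ[X]} (hM : RootsIn h M) (hdeg : N.natDegree ≤ M.natDegree) :
    Appr h (rder h N M) := by
  intro ε hε
  exact ⟨N, M, hM, hdeg, fun z _ => by simp [hε.le]⟩

/-- powers of `1/h` -/
theorem Appr.inv_pow (hR : 1 < R) (hi : InjOn h (ball 0 R)) (h0 : h 0 = 0) (k : ℕ) :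
    Appr h (fun z => deriv h z / h z ^ (k + 2)) := by
  have hM : RootsIn h (X ^ (k + 1) : ℂ[X]) := by
    refine ⟨pow_ne_zero _ X_ne_zero, fun r hr => ?_⟩
    rw [IsRoot.def, eval_pow, eval_X] at hr
    have : r = 0 := by simpa using hr
    exact ⟨0, by simp, by rw [h0, this]⟩
  have h1 := (Appr.of_rat (h := h) (N := C (-(1 / ((k : ℂ) + 1)))) hM (by simp))
  apply h1.congr
  intro z hz
  have hz0 := hM.eval_ne hR hi hz
  rw [eval_pow, eval_X] at hz0
  have hz1 : h z ≠ 0 := by
    intro h2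
    apply hz0
    rw [h2]
    simp
  have hk : (k : ℂ) + 1 ≠ 0 := by exact_mod_cast Nat.succ_ne_zero k
  simp only [rder, derivative_C, eval_zero, zero_mul, eval_C, derivative_X_pow, eval_mul,
    eval_pow, eval_X, zero_sub, Nat.add_sub_cancel]
  simp only [Nat.cast_add, Nat.cast_one]
  field_simp
  ring

/-- simple poles at `h τ` squared -/
theorem Appr.double_pole {τ : ℂ} (hτ : τ ∈ ball (0 : ℂ) 1) (c : ℂ) (hR : 1 < R)
    (hi : InjOn h (ball 0 R)) :
    RootsIn h (X - C (h τ)) ∧ ∀ z ∈ sphere (0 : ℂ) 1,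
      rder h (C (-c)) (X - C (h τ)) z = deriv h z * c / (h z - h τ) ^ 2 := by
  have hM : RootsIn h (X - C (h τ)) := by
    refine ⟨X_sub_C_ne_zero _, fun r hr => ?_⟩
    rw [IsRoot.def, eval_sub, eval_X, eval_C, sub_eq_zero] at hr
    exact ⟨τ, hτ, hr.symm⟩
  refine ⟨hM, fun z hz => ?_⟩
  have := hM.eval_ne hR hi hz
  simp only [rder, derivative_C, eval_zero, zero_mul, eval_C, derivative_sub, derivative_X,
    eval_sub, eval_X, eval_one, zero_sub, sub_zero, mul_one, neg_neg]

theorem Appr.pole (hR : 1 < R) (hd : DifferentiableOn ℂ h (ball 0 R))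
    (hi : InjOn h (ball 0 R)) {τ : ℂ} (hτ : τ ∈ ball (0 : ℂ) 1) :
    Appr h (fun z => deriv h z / (h z - h τ) - deriv h z / (h z - h 0)) := by
  set p : ℝ → ℂ := fun s => τ * ((projIcc (0 : ℝ) 1 zero_le_one s : ℝ) : ℂ) with hp
  have hpc : Continuous p := by
    have : Continuous (projIcc (0 : ℝ) 1 zero_le_one) := continuous_projIcc
    fun_prop
  have hp1 : ∀ s, p s ∈ ball (0 : ℂ) 1 := by
    intro s
    rw [mem_ball_zero_iff] at hτ ⊢
    have h1 := (projIcc (0 : ℝ) 1 zero_le_one s).2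
    rw [hp, norm_mul, Complex.norm_real, Real.norm_of_nonneg h1.1]
    calc ‖τ‖ * _ ≤ ‖τ‖ * 1 := mul_le_mul_of_nonneg_left h1.2 (norm_nonneg _)
      _ < 1 := by linarith
  have hsub : ball (0 : ℂ) 1 ⊆ ball 0 R := ball_subset_ball hR.le
  have hne : ∀ s : ℝ, ∀ z ∈ sphere (0 : ℂ) 1, h z - h (p s) ≠ 0 := by
    intro s z hz h0
    have : z = p s := hi (sphere_sub_ball hR hz) (hsub (hp1 s)) (sub_eq_zero.mp h0)
    have h2 := hp1 s
    rw [← this] at h2
    simp at hz h2
    linarith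
  have hdc : ContinuousOn (deriv h) (ball 0 R) := (hd.deriv isOpen_ball).continuousOn
  let κ : C(ℝ × sphere (0 : ℂ) 1, ℂ) := ⟨fun q => deriv h q.2 * (deriv h (p q.1) * τ) /
      (h q.2 - h (p q.1)) ^ 2, by
    have c1 : Continuous (fun q : ℝ × sphere (0 : ℂ) 1 => h (q.2 : ℂ)) :=
      hd.continuousOn.comp_continuous (by fun_prop) fun q => sphere_sub_ball hR q.2.2
    have c2 : Continuous (fun q : ℝ × sphere (0 : ℂ) 1 => h (p q.1)) :=
      hd.continuousOn.comp_continuous (by fun_prop) fun q => hsub (hp1 q.1)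
    have c3 : Continuous (fun q : ℝ × sphere (0 : ℂ) 1 => deriv h (q.2 : ℂ)) :=
      hdc.comp_continuous (by fun_prop) fun q => sphere_sub_ball hR q.2.2
    have c4 : Continuous (fun q : ℝ × sphere (0 : ℂ) 1 => deriv h (p q.1)) :=
      hdc.comp_continuous (by fun_prop) fun q => hsub (hp1 q.1)
    apply Continuous.div (c3.mul (c4.mul continuous_const)) ((c1.sub c2).pow 2)
    intro q
    exact pow_ne_zero 2 (hne q.1 q.2 q.2.2)⟩
  -- the submodule
  let S : Submodule ℂ C(sphere (0 : ℂ) 1, ℂ) :=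
    { carrier := {g | ∃ N M : ℂ[X], RootsIn h M ∧ N.natDegree ≤ M.natDegree ∧
        ∀ z : sphere (0 : ℂ) 1, g z = rder h N M z}
      add_mem' := by
        rintro f g ⟨N₁, M₁, a1, a2, a3⟩ ⟨N₂, M₂, b1, b2, b3⟩
        refine ⟨N₁ * M₂ + N₂ * M₁, M₁ * M₂, a1.mul b1, deg_add a1.1 b1.1 a2 b2, ?_⟩
        intro z
        rw [rder_add hR hi a1 b1 z.2, ContinuousMap.add_apply, a3, b3]
      zero_mem' := ⟨0, 1, RootsIn.one h, by simp, fun z => by simp [rder]⟩
      smul_mem' := by
        rintro c f ⟨N₁, M₁, a1, a2, a3⟩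
        refine ⟨C c * N₁, M₁, a1, (natDegree_C_mul_le _ _).trans a2, ?_⟩
        intro z
        rw [rder_smul, ContinuousMap.smul_apply, a3, smul_eq_mul] }
  have hκmem : ∀ s, κ.curry s ∈ S := by
    intro s
    obtain ⟨a1, a2⟩ := Appr.double_pole (h := h) (hp1 s) (deriv h (p s) * τ) hR hi
    refine ⟨C (-(deriv h (p s) * τ)), X - C (h (p s)), a1,
      (natDegree_C _).le.trans (Nat.zero_le _), ?_⟩
    intro z
    rw [a2 z z.2]
    rfl
  have hint : Integrable (fun s => κ.curry s) (volume.restrict (Ioc (0 : ℝ) 1)) := by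
    have : Continuous (fun s => κ.curry s) := κ.curry.continuous
    exact this.integrableOn_Icc.mono_set Ioc_subset_Icc_self
  have : IsProbabilityMeasure (volume.restrict (Ioc (0 : ℝ) 1)) := ⟨by simp⟩
  have hconv : Convex ℝ (closure (S : Set C(sphere (0 : ℂ) 1, ℂ))) :=
    ((S.restrictScalars ℝ).convex).closure
  have hmem : ∫ s, κ.curry s ∂(volume.restrict (Ioc (0 : ℝ) 1)) ∈
      closure (S : Set C(sphere (0 : ℂ) 1, ℂ)) :=
    hconv.integral_mem isClosed_closure
      (Eventually.of_forall fun s => subset_closure (hκmem s)) hint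
  have hval : ∀ z : sphere (0 : ℂ) 1, (∫ s, κ.curry s ∂(volume.restrict (Ioc (0 : ℝ) 1))) z =
      deriv h z / (h z - h τ) - deriv h z / (h z - h 0) := by
    intro z
    rw [ContinuousMap.integral_apply hint]
    have h1 : ∫ s, κ.curry s z ∂(volume.restrict (Ioc (0 : ℝ) 1)) =
        ∫ s in (0 : ℝ)..1, deriv h z * (deriv h (p s) * τ) / (h z - h (p s)) ^ 2 := by
      rw [intervalIntegral.integral_of_le zero_le_one]
      rfl
    rw [h1]
    have h2 : ∀ s ∈ Icc (0 : ℝ) 1, p s = τ * s := by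
      intro s hs
      simp only [hp]
      rw [projIcc_of_mem zero_le_one hs]
    have h3 : ∫ s in (0 : ℝ)..1, deriv h z * (deriv h (p s) * τ) / (h z - h (p s)) ^ 2 =
        (fun s : ℝ => deriv h z / (h z - h (p s))) 1 -
          (fun s : ℝ => deriv h z / (h z - h (p s))) 0 := by
      refine intervalIntegral.integral_eq_sub_of_hasDerivAt_of_le
        (f := fun s : ℝ => deriv h z / (h z - h (p s)))
        (f' := fun s : ℝ => deriv h z * (deriv h (p s) * τ) / (h z - h (p s)) ^ 2)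
        zero_le_one ?_ ?_ ?_
      · apply Continuous.continuousOn
        have c2 : Continuous (fun s : ℝ => h (p s)) :=
          hd.continuousOn.comp_continuous hpc fun s => hsub (hp1 s)
        apply Continuous.div continuous_const (continuous_const.sub c2)
        intro s
        exact hne s z z.2
      · intro s hs
        have h4 : HasDerivAt (fun s : ℝ => τ * (s : ℂ)) τ s := by
          have := (Complex.ofRealCLM.hasDerivAt (x := s)).const_mul τ
          simpa using this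
        have hmem' : τ * (s : ℂ) ∈ ball (0 : ℂ) R := by
          rw [← h2 s ⟨hs.1.le, hs.2.le⟩]
          exact hsub (hp1 s)
        have h5 : HasDerivAt h (deriv h (τ * s)) (τ * s) :=
          (hd.differentiableAt (isOpen_ball.mem_nhds hmem')).hasDerivAt
        have h6 : HasDerivAt (fun s : ℝ => h (τ * s)) (deriv h (τ * s) * τ) s :=
          HasDerivAt.comp s h5 h4
        have hnz : h z - h (τ * s) ≠ 0 := by
          rw [← h2 s ⟨hs.1.le, hs.2.le⟩]
          exact hne s z z.2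
        have h7 : HasDerivAt (fun s : ℝ => deriv h z / (h z - h (τ * s)))
            (deriv h z * (deriv h (p s) * τ) / (h z - h (p s)) ^ 2) s := by
          have h8 := (h6.const_sub (h z)).fun_inv hnz |>.const_mul (deriv h z)
          rw [h2 s ⟨hs.1.le, hs.2.le⟩]
          simp only [div_eq_mul_inv]
          exact h8.congr_deriv (by ring)
        apply h7.congr_of_eventuallyEq
        filter_upwards [Ioo_mem_nhds hs.1 hs.2] with t ht
        rw [h2 t ⟨ht.1.le, ht.2.le⟩]
      · apply Continuous.intervalIntegrable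
        have c2 : Continuous (fun s : ℝ => h (p s)) :=
          hd.continuousOn.comp_continuous hpc fun s => hsub (hp1 s)
        have c4 : Continuous (fun s : ℝ => deriv h (p s)) :=
          hdc.comp_continuous hpc fun s => hsub (hp1 s)
        apply Continuous.div (continuous_const.mul (c4.mul continuous_const))
          ((continuous_const.sub c2).pow 2)
        intro s
        exact pow_ne_zero 2 (hne s z z.2)
    rw [h3]
    simp only
    rw [h2 1 (by simp), h2 0 (by simp)]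
    simp
  intro ε hε
  obtain ⟨g, ⟨N, M, a1, a2, a3⟩, hg⟩ := Metric.mem_closure_iff.mp hmem ε hε
  refine ⟨N, M, a1, a2, ?_⟩
  intro z hz
  have h1 : dist ((∫ s, κ.curry s ∂(volume.restrict (Ioc (0 : ℝ) 1))) ⟨z, hz⟩) (g ⟨z, hz⟩) ≤
      dist (∫ s, κ.curry s ∂(volume.restrict (Ioc (0 : ℝ) 1))) g :=
    ContinuousMap.dist_apply_le_dist _
  rw [hval, a3, dist_comm, dist_eq_norm] at h1
  exact h1.trans hg.le

end Pool.Agent.Lib.Pd7a79b
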