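import Pool.Agent.Lib.Pd7a79b.Check

/-!
# Certificate 0 (generated)
-/

set_option autoImplicit false
set_option maxRecDepth 100000

namespace Pool.Agent.Lib.Pd7a79b

def tree0 : Tree :=
(.node 0
(.node 1
(.leaf true [⟨⟨-10376,11744⟩,⟨1796,4005⟩,⟨16498,-3801⟩,⟨0,0⟩⟩] [])
 (.node 2
(.node 0
(.leaf true [⟨⟨-12716,6453⟩,⟨801,5325⟩,⟨14682,1877⟩,⟨0,0⟩⟩, ⟨⟨-4320,-7457⟩,⟨-6802,-257⟩,⟨-1877,14682⟩,⟨0,0⟩⟩] [])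
 (.leaf true [⟨⟨-10567,4496⟩,⟨1005,5099⟩,⟨11367,2395⟩,⟨0,0⟩⟩, ⟨⟨-3066,-5127⟩,⟨-6197,-612⟩,⟨-2395,11367⟩,⟨0,0⟩⟩] [⟨⟨226,1903⟩,⟨2127,-4192⟩,⟨0,0⟩,⟨0,0⟩⟩])
) (.leaf true [⟨⟨-29619,10677⟩,⟨-733,9849⟩,⟨44490,10944⟩,⟨0,0⟩⟩, ⟨⟨-9107,-24671⟩,⟨-10971,-1460⟩,⟨-10944,44490⟩,⟨0,0⟩⟩] [])
)) (.node 1
(.leaf true [⟨⟨-5789,10256⟩,⟨1856,2701⟩,⟨10951,-4879⟩,⟨0,0⟩⟩, ⟨⟨-5600,-3112⟩,⟨-2541,1550⟩,⟨4866,10915⟩,⟨0,0⟩⟩] [])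
 (.node 1
(.node 2
(.leaf true [⟨⟨-5179,8957⟩,⟨2713,4134⟩,⟨8810,-3650⟩,⟨0,0⟩⟩, ⟨⟨456,613⟩,⟨-2278,1454⟩,⟨-726,-939⟩,⟨0,0⟩⟩, ⟨⟨-5169,-2159⟩,⟨-5262,1743⟩,⟨3591,8765⟩,⟨0,0⟩⟩] [⟨⟨481,2228⟩,⟨-299,-4252⟩,⟨0,0⟩,⟨0,0⟩⟩])
 (.leaf true [⟨⟨-11514,21332⟩,⟨4033,6109⟩,⟨30116,-15558⟩,⟨0,0⟩⟩, ⟨⟨-17276,-9131⟩,⟨-6855,3869⟩,⟨15551,30111⟩,⟨0,0⟩⟩] [])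
) (.node 1
(.node 2
(.node 0
.skip (.leaf true [⟨⟨-4510,7980⟩,⟨2506,4281⟩,⟨7194,-2394⟩,⟨0,0⟩⟩, ⟨⟨-4093,-1690⟩,⟨-5450,2028⟩,⟨2394,7194⟩,⟨0,0⟩⟩] [⟨⟨242,2760⟩,⟨-89,-3682⟩,⟨0,0⟩,⟨0,0⟩⟩])
) (.leaf true [⟨⟨-10040,15243⟩,⟨3381,5434⟩,⟨23487,-9618⟩,⟨0,0⟩⟩, ⟨⟨-12415,-7646⟩,⟨-5918,2273⟩,⟨9595,23479⟩,⟨0,0⟩⟩] [⟨⟨586,2170⟩,⟨-845,-4927⟩,⟨0,0⟩,⟨0,0⟩⟩])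
) (.node 2
(.node 1
(.node 0
(.node 2
(.node 0
.skip (.leaf true [⟨⟨-3574,6949⟩,⟨2377,3990⟩,⟨5601,-1778⟩,⟨0,0⟩⟩, ⟨⟨-3207,-1069⟩,⟨-4996,1966⟩,⟨1778,5601⟩,⟨0,0⟩⟩] [⟨⟨148,3177⟩,⟨-103,-3292⟩,⟨0,0⟩,⟨0,0⟩⟩])
) (.leaf true [⟨⟨-11910,9292⟩,⟨2021,6730⟩,⟨17507,-445⟩,⟨0,0⟩⟩, ⟨⟨-6791,-7827⟩,⟨-7813,1135⟩,⟨445,17507⟩,⟨0,0⟩⟩] [⟨⟨331,2523⟩,⟨1068,-4438⟩,⟨0,0⟩,⟨0,0⟩⟩])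
) (.node 2
(.node 0
(.leaf true [⟨⟨-3540,6983⟩,⟨2380,3984⟩,⟨5587,-1814⟩,⟨0,0⟩⟩, ⟨⟨-3222,-1061⟩,⟨-4992,1979⟩,⟨1814,5587⟩,⟨0,0⟩⟩] [⟨⟨146,3173⟩,⟨-122,-3289⟩,⟨0,0⟩,⟨0,0⟩⟩])
 .skip) (.leaf true [⟨⟨-7992,11901⟩,⟨3293,6104⟩,⟨14913,-4948⟩,⟨0,0⟩⟩, ⟨⟨-8302,-5021⟩,⟨-7297,2856⟩,⟨4948,14913⟩,⟨0,0⟩⟩] [⟨⟨424,2525⟩,⟨-173,-4325⟩,⟨0,0⟩,⟨0,0⟩⟩])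
)) (.node 2
(.node 0
(.node 0
(.leaf true [⟨⟨-6524,3810⟩,⟨2078,4275⟩,⟨7107,1028⟩,⟨0,0⟩⟩, ⟨⟨-2281,-1929⟩,⟨-4887,614⟩,⟨-1028,7107⟩,⟨0,0⟩⟩] [⟨⟨346,2897⟩,⟨1673,-3514⟩,⟨0,0⟩,⟨0,0⟩⟩])
 (.node 2
(.node 1
(.node 0
(.leaf true [⟨⟨2392,1104⟩,⟨4815,-1403⟩,⟨-285,-5727⟩,⟨0,0⟩⟩, ⟨⟨-4574,5208⟩,⟨2244,4000⟩,⟨5727,-285⟩,⟨0,0⟩⟩] [⟨⟨212,3254⟩,⟨679,-3273⟩,⟨0,0⟩,⟨0,0⟩⟩])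
 (.node 2
(.node 1
(.leaf true [⟨⟨-3281,6612⟩,⟨2280,3850⟩,⟨5117,-1587⟩,⟨0,0⟩⟩, ⟨⟨-2908,-891⟩,⟨-4803,1897⟩,⟨1587,5117⟩,⟨0,0⟩⟩] [⟨⟨121,3289⟩,⟨-107,-3140⟩,⟨0,0⟩,⟨0,0⟩⟩])
 (.node 0
(.node 0
(.leaf true [⟨⟨2367,952⟩,⟨4729,-1507⟩,⟨-515,-5355⟩,⟨0,0⟩⟩, ⟨⟨-4118,5403⟩,⟨2215,3897⟩,⟨5355,-515⟩,⟨0,0⟩⟩] [⟨⟨178,3320⟩,⟨475,-3169⟩,⟨0,0⟩,⟨0,0⟩⟩])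
 (.node 1
(.leaf true [⟨⟨2559,948⟩,⟨4786,-1648⟩,⟨-888,-5291⟩,⟨0,0⟩⟩, ⟨⟨-3839,5856⟩,⟨2237,3901⟩,⟨5291,-888⟩,⟨0,0⟩⟩] [⟨⟨156,3320⟩,⟨264,-3170⟩,⟨0,0⟩,⟨0,0⟩⟩])
 .skip)) .skip)) (.leaf true [⟨⟨-4356,6576⟩,⟨2405,4217⟩,⟨6472,-1326⟩,⟨0,0⟩⟩, ⟨⟨-3298,-1506⟩,⟨-5117,1860⟩,⟨1326,6472⟩,⟨0,0⟩⟩] [⟨⟨163,3330⟩,⟨190,-3280⟩,⟨0,0⟩,⟨0,0⟩⟩])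
)) (.node 0
(.node 1
(.node 2
(.node 0
(.leaf true [⟨⟨-5262,4360⟩,⟨2172,3999⟩,⟨6066,344⟩,⟨0,0⟩⟩, ⟨⟨-2201,-1292⟩,⟨-4686,1059⟩,⟨-344,6066⟩,⟨0,0⟩⟩] [⟨⟨271,3071⟩,⟨1131,-3294⟩,⟨0,0⟩,⟨0,0⟩⟩])
 (.node 1
(.leaf true [⟨⟨2224,986⟩,⟨4672,-1361⟩,⟨-165,-5486⟩,⟨0,0⟩⟩, ⟨⟨-4445,4959⟩,⟨2205,3898⟩,⟨5486,-165⟩,⟨0,0⟩⟩] [⟨⟨206,3281⟩,⟨703,-3183⟩,⟨0,0⟩,⟨0,0⟩⟩])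
 .skip)) (.leaf true [⟨⟨-6204,4941⟩,⟨2170,4454⟩,⟨7597,317⟩,⟨0,0⟩⟩, ⟨⟨-2830,-2254⟩,⟨-5181,1084⟩,⟨-317,7597⟩,⟨0,0⟩⟩] [⟨⟨295,3060⟩,⟨1173,-3453⟩,⟨0,0⟩,⟨0,0⟩⟩])
) .skip) .skip)) (.node 0
(.leaf true [⟨⟨-8585,4690⟩,⟨1761,5150⟩,⟨10296,1498⟩,⟨0,0⟩⟩, ⟨⟨-3230,-4205⟩,⟨-5838,442⟩,⟨-1498,10296⟩,⟨0,0⟩⟩] [⟨⟨371,2848⟩,⟨1761,-3685⟩,⟨0,0⟩,⟨0,0⟩⟩])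
 (.node 1
(.leaf true [⟨⟨-6235,6949⟩,⟨2477,4883⟩,⟨8989,-1041⟩,⟨0,0⟩⟩, ⟨⟨-4111,-2840⟩,⟨-5786,1728⟩,⟨1041,8989⟩,⟨0,0⟩⟩] [⟨⟨249,3178⟩,⟨579,-3622⟩,⟨0,0⟩,⟨0,0⟩⟩])
 .skip)))) .skip) (.node 0
(.leaf true [⟨⟨-11559,6219⟩,⟨1549,6284⟩,⟨15261,2136⟩,⟨0,0⟩⟩, ⟨⟨-4620,-7189⟩,⟨-7089,365⟩,⟨-2136,15261⟩,⟨0,0⟩⟩] [⟨⟨385,2911⟩,⟨1776,-4024⟩,⟨0,0⟩,⟨0,0⟩⟩])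
 .skip))) (.node 0
(.leaf true [⟨⟨-26108,7974⟩,⟨-1031,8911⟩,⟨37191,11388⟩,⟨0,0⟩⟩, ⟨⟨-6686,-20920⟩,⟨-9950,-2018⟩,⟨-11388,37191⟩,⟨0,0⟩⟩] [⟨⟨33,1714⟩,⟨2323,-4688⟩,⟨0,0⟩,⟨0,0⟩⟩])
 (.node 0
(.leaf true [⟨⟨-15940,11191⟩,⟨1856,7664⟩,⟨26463,476⟩,⟨0,0⟩⟩, ⟨⟨-8874,-11965⟩,⟨-8627,1105⟩,⟨-476,26463⟩,⟨0,0⟩⟩] [⟨⟨396,2857⟩,⟨1074,-4368⟩,⟨0,0⟩,⟨0,0⟩⟩])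
 .skip)))))))

theorem tree0_ok : tree0.check skip0 lf0 root0 = true := by decide +kernel

end Pool.Agent.Lib.Pd7a79b
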