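import Pool.Agent.Lib.Pd7a79b.Check

/-!
# Certificate 0a (generated)
-/

set_option autoImplicit false
set_option maxRecDepth 100000

namespace Pool.Agent.Lib.Pd7a79b

def tree0a : Tree :=
(.node 0
(.node 1
(.leaf true [⟨⟨-6218,8147⟩,⟨1935,3560⟩,⟨8409,-2345⟩,⟨0,0⟩⟩, ⟨⟨-4352,-2825⟩,⟨-4954,1556⟩,⟨2345,8409⟩,⟨0,0⟩⟩] [])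
 (.node 0
(.leaf true [⟨⟨8677,-4794⟩,⟨-1048,-4114⟩,⟨-8884,-911⟩,⟨0,0⟩⟩, ⟨⟨-2906,-3967⟩,⟨-5408,-128⟩,⟨-911,8884⟩,⟨0,0⟩⟩] [⟨⟨-91,1095⟩,⟨1290,-3882⟩,⟨0,0⟩,⟨0,0⟩⟩])
 (.leaf true [⟨⟨7797,-3458⟩,⟨-1285,-4285⟩,⟨-7901,-1527⟩,⟨0,0⟩⟩, ⟨⟨-2369,-3094⟩,⟨-5081,-289⟩,⟨-1527,7901⟩,⟨0,0⟩⟩] [⟨⟨277,1895⟩,⟨1949,-3580⟩,⟨0,0⟩,⟨0,0⟩⟩])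
)) (.node 1
(.leaf true [⟨⟨-4260,7801⟩,⟨2001,2935⟩,⟨6781,-2944⟩,⟨0,0⟩⟩, ⟨⟨-3912,-1918⟩,⟨-3269,1607⟩,⟨2915,6674⟩,⟨0,0⟩⟩] [])
 (.node 1
(.leaf true [⟨⟨-4295,7815⟩,⟨2560,3841⟩,⟨6891,-2898⟩,⟨0,0⟩⟩, ⟨⟨-4192,-1505⟩,⟨-4979,1762⟩,⟨2841,6845⟩,⟨0,0⟩⟩] [⟨⟨427,2145⟩,⟨-214,-3888⟩,⟨0,0⟩,⟨0,0⟩⟩])
 (.node 1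
(.node 0
.skip (.leaf true [⟨⟨-3783,-1390⟩,⟨-5210,2048⟩,⟨2291,6356⟩,⟨0,0⟩⟩, ⟨⟨-3984,7605⟩,⟨2470,4087⟩,⟨6356,-2291⟩,⟨0,0⟩⟩] [⟨⟨210,2747⟩,⟨-163,-3519⟩,⟨0,0⟩,⟨0,0⟩⟩])
) (.node 1
(.node 0
(.node 0
.skip (.leaf true [⟨⟨-3312,6802⟩,⟨2316,3871⟩,⟨5258,-1752⟩,⟨0,0⟩⟩, ⟨⟨-3063,-948⟩,⟨-4850,1946⟩,⟨1752,5258⟩,⟨0,0⟩⟩] [⟨⟨129,3195⟩,⟨-150,-3184⟩,⟨0,0⟩,⟨0,0⟩⟩])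
) (.node 0
(.leaf true [⟨⟨-3304,6810⟩,⟨2316,3870⟩,⟨5255,-1760⟩,⟨0,0⟩⟩, ⟨⟨-3067,-946⟩,⟨-4849,1949⟩,⟨1760,5255⟩,⟨0,0⟩⟩] [⟨⟨129,3194⟩,⟨-154,-3183⟩,⟨0,0⟩,⟨0,0⟩⟩])
 .skip)) (.node 0
(.node 0
(.leaf true [⟨⟨-5842,3377⟩,⟨1994,3908⟩,⟨6261,970⟩,⟨0,0⟩⟩, ⟨⟨-1983,-1526⟩,⟨-4425,612⟩,⟨-970,6261⟩,⟨0,0⟩⟩] [⟨⟨326,2801⟩,⟨1577,-3224⟩,⟨0,0⟩,⟨0,0⟩⟩])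
 (.node 1
(.node 0
(.leaf true [⟨⟨2204,950⟩,⟨4621,-1371⟩,⟨-212,-5371⟩,⟨0,0⟩⟩, ⟨⟨-4320,4965⟩,⟨2181,3848⟩,⟨5371,-212⟩,⟨0,0⟩⟩] [⟨⟨198,3267⟩,⟨655,-3139⟩,⟨0,0⟩,⟨0,0⟩⟩])
 (.node 1
(.node 0
(.leaf true [⟨⟨2567,928⟩,⟨4752,-1663⟩,⟨-951,-5216⟩,⟨0,0⟩⟩, ⟨⟨-3739,5891⟩,⟨2222,3865⟩,⟨5216,-951⟩,⟨0,0⟩⟩] [⟨⟨150,3301⟩,⟨219,-3140⟩,⟨0,0⟩,⟨0,0⟩⟩])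
 (.node 1
(.leaf true [⟨⟨-3198,6664⟩,⟨2275,3821⟩,⟨5069,-1664⟩,⟨0,0⟩⟩, ⟨⟨-2936,-877⟩,⟨-4776,1916⟩,⟨1664,5069⟩,⟨0,0⟩⟩] [⟨⟨117,3262⟩,⟨-148,-3121⟩,⟨0,0⟩,⟨0,0⟩⟩])
 (.node 0
(.node 0
(.leaf true [⟨⟨2611,891⟩,⟨4738,-1717⟩,⟨-1096,-5113⟩,⟨0,0⟩⟩, ⟨⟨-3565,6040⟩,⟨2220,3839⟩,⟨5113,-1096⟩,⟨0,0⟩⟩] [⟨⟨137,3320⟩,⟨125,-3115⟩,⟨0,0⟩,⟨0,0⟩⟩])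
 (.node 0
(.leaf true [⟨⟨2637,874⟩,⟨4731,-1744⟩,⟨-1172,-5065⟩,⟨0,0⟩⟩, ⟨⟨-3479,6118⟩,⟨2220,3827⟩,⟨5065,-1172⟩,⟨0,0⟩⟩] [⟨⟨131,3327⟩,⟨78,-3103⟩,⟨0,0⟩,⟨0,0⟩⟩])
 .skip)) .skip))) (.node 0
(.node 1
(.node 0
(.leaf true [⟨⟨2362,927⟩,⟨4689,-1519⟩,⟨-569,-5263⟩,⟨0,0⟩⟩, ⟨⟨-4008,5425⟩,⟨2196,3856⟩,⟨5263,-569⟩,⟨0,0⟩⟩] [⟨⟨171,3304⟩,⟨429,-3134⟩,⟨0,0⟩,⟨0,0⟩⟩])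
 (.node 1
(.node 0
(.leaf true [⟨⟨2459,925⟩,⟨4721,-1591⟩,⟨-757,-5232⟩,⟨0,0⟩⟩, ⟨⟨-3869,5657⟩,⟨2207,3861⟩,⟨5232,-758⟩,⟨0,0⟩⟩] [⟨⟨160,3307⟩,⟨322,-3136⟩,⟨0,0⟩,⟨0,0⟩⟩])
 (.node 0
(.leaf true [⟨⟨2475,904⟩,⟨4714,-1618⟩,⟨-826,-5173⟩,⟨0,0⟩⟩, ⟨⟨-3777,5729⟩,⟨2205,3847⟩,⟨5173,-826⟩,⟨0,0⟩⟩] [⟨⟨153,3322⟩,⟨274,-3121⟩,⟨0,0⟩,⟨0,0⟩⟩])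
 .skip)) .skip)) (.node 0
(.node 0
(.node 1
(.leaf true [⟨⟨2276,934⟩,⟨4655,-1446⟩,⟨-387,-5309⟩,⟨0,0⟩⟩, ⟨⟨-4159,5194⟩,⟨2188,3851⟩,⟨5309,-387⟩,⟨0,0⟩⟩] [⟨⟨184,3290⟩,⟨541,-3135⟩,⟨0,0⟩,⟨0,0⟩⟩])
 .skip) .skip) .skip)) .skip))) (.node 0
(.node 1
(.node 0
(.leaf true [⟨⟨-5053,4103⟩,⟨2137,3858⟩,⟨5758,422⟩,⟨0,0⟩⟩, ⟨⟨-2032,-1135⟩,⟨-4494,1035⟩,⟨-422,5758⟩,⟨0,0⟩⟩] [⟨⟨263,3081⟩,⟨1131,-3178⟩,⟨0,0⟩,⟨0,0⟩⟩])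
 (.node 1
(.node 0
(.leaf true [⟨⟨-4671,4522⟩,⟨2167,3848⟩,⟨5540,117⟩,⟨0,0⟩⟩, ⟨⟨-2096,-1015⟩,⟨-4554,1213⟩,⟨-117,5540⟩,⟨0,0⟩⟩] [⟨⟨229,3190⟩,⟨891,-3155⟩,⟨0,0⟩,⟨0,0⟩⟩])
 (.node 0
(.leaf true [⟨⟨-4458,4632⟩,⟨2166,3812⟩,⟨5367,18⟩,⟨0,0⟩⟩, ⟨⟨-2074,-927⟩,⟨-4533,1277⟩,⟨-18,5366⟩,⟨0,0⟩⟩] [⟨⟨212,3256⟩,⟨792,-3116⟩,⟨0,0⟩,⟨0,0⟩⟩])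
 .skip)) .skip)) .skip) .skip))) .skip))))))

theorem tree0a_ok : tree0a.check skip0a lf0 root0a = true := by decide +kernel

end Pool.Agent.Lib.Pd7a79b
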