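import Pool.Agent.Lib.Pd7a79b.Check

/-!
# Certificate 1 (generated)
-/

set_option autoImplicit false
set_option maxRecDepth 100000

namespace Pool.Agent.Lib.Pd7a79b

def tree1 : Tree :=
(.node 1
(.node 0
(.leaf true [⟨⟨-4161,7571⟩,⟨2732,3903⟩,⟨6671,-2767⟩,⟨0,0⟩⟩, ⟨⟨627,581⟩,⟨-1556,1334⟩,⟨-731,-772⟩,⟨0,0⟩⟩, ⟨⟨-4081,-1318⟩,⟨-5093,1868⟩,⟨2696,6638⟩,⟨0,0⟩⟩] [⟨⟨417,2216⟩,⟨-236,-3922⟩,⟨0,0⟩,⟨0,0⟩⟩])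
 (.node 1
(.leaf true [⟨⟨-1834,3869⟩,⟨3551,1266⟩,⟨4288,-1428⟩,⟨0,0⟩⟩, ⟨⟨1332,3053⟩,⟨-3241,1689⟩,⟨-1428,-4288⟩,⟨0,0⟩⟩] [⟨⟨457,1801⟩,⟨-227,-4326⟩,⟨0,0⟩,⟨0,0⟩⟩])
 (.node 0
(.leaf true [⟨⟨-1543,2700⟩,⟨4578,-818⟩,⟨4043,-1440⟩,⟨0,0⟩⟩, ⟨⟨1737,3641⟩,⟨-1069,2757⟩,⟨-1440,-4043⟩,⟨0,0⟩⟩] [⟨⟨471,1906⟩,⟨-1646,-4066⟩,⟨0,0⟩,⟨0,0⟩⟩])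
 (.leaf false [⟨⟨7494,6568⟩,⟨10903,-3894⟩,⟨-1558,-10847⟩,⟨0,0⟩⟩] [⟨⟨-20380,14658⟩,⟨-1213,9756⟩,⟨40771,-16198⟩,⟨0,0⟩⟩, ⟨⟨-12550,-19524⟩,⟨-7036,-7715⟩,⟨16337,39390⟩,⟨0,0⟩⟩])
))) (.node 0
(.node 1
(.node 1
(.node 0
.skip (.node 0
(.leaf true [⟨⟨-3346,6770⟩,⟨2319,3883⟩,⟨5276,-1718⟩,⟨0,0⟩⟩, ⟨⟨-3048,-951⟩,⟨-4863,1937⟩,⟨1718,5276⟩,⟨0,0⟩⟩] [⟨⟨134,3186⟩,⟨-130,-3197⟩,⟨0,0⟩,⟨0,0⟩⟩])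
 (.leaf true [⟨⟨-1670,1591⟩,⟨4017,-1142⟩,⟨3335,-1255⟩,⟨0,0⟩⟩, ⟨⟨1924,4320⟩,⟨-229,2402⟩,⟨-1254,-3335⟩,⟨0,0⟩⟩] [⟨⟨120,2795⟩,⟨-1520,-3381⟩,⟨0,0⟩,⟨0,0⟩⟩])
)) (.node 1
(.node 0
(.node 0
(.leaf true [⟨⟨-6235,3302⟩,⟨1891,3996⟩,⟨6597,1109⟩,⟨0,0⟩⟩, ⟨⟨-2061,-1816⟩,⟨-4528,427⟩,⟨-1109,6597⟩,⟨0,0⟩⟩] [⟨⟨342,2639⟩,⟨1707,-3293⟩,⟨0,0⟩,⟨0,0⟩⟩])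
 (.node 0
(.node 1
.skip (.node 0
(.leaf true [⟨⟨-5501,3461⟩,⟨2061,3830⟩,⟨5963,851⟩,⟨0,0⟩⟩, ⟨⟨-1911,-1290⟩,⟨-4347,760⟩,⟨-851,5963⟩,⟨0,0⟩⟩] [⟨⟨306,2936⟩,⟨1452,-3162⟩,⟨0,0⟩,⟨0,0⟩⟩])
 (.node 1
(.leaf true [⟨⟨-4691,4252⟩,⟨2152,3788⟩,⟨5448,279⟩,⟨0,0⟩⟩, ⟨⟨-1970,-951⟩,⟨-4446,1154⟩,⟨-279,5448⟩,⟨0,0⟩⟩] [⟨⟨235,3205⟩,⟨973,-3108⟩,⟨0,0⟩,⟨0,0⟩⟩])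
 (.leaf false [⟨⟨-2391,3477⟩,⟨249,2901⟩,⟨4076,-2241⟩,⟨0,0⟩⟩, ⟨⟨-1608,-412⟩,⟨-2814,1194⟩,⟨314,2881⟩,⟨0,0⟩⟩] [⟨⟨866,1104⟩,⟨-3142,-2198⟩,⟨-573,-1221⟩,⟨0,0⟩⟩, ⟨⟨-2960,4992⟩,⟨1722,-2479⟩,⟨2549,2954⟩,⟨0,0⟩⟩])
))) (.node 1
(.node 1
(.node 0
.skip (.node 0
(.leaf true [⟨⟨2537,937⟩,⟨4749,-1636⟩,⟨-881,-5245⟩,⟨0,0⟩⟩, ⟨⟨-3806,5812⟩,⟨2219,3871⟩,⟨5245,-881⟩,⟨0,0⟩⟩] [⟨⟨155,3297⟩,⟨261,-3146⟩,⟨0,0⟩,⟨0,0⟩⟩])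
 (.node 0
(.leaf true [⟨⟨2577,899⟩,⟨4736,-1690⟩,⟨-1021,-5139⟩,⟨0,0⟩⟩, ⟨⟨-3631,5957⟩,⟨2217,3845⟩,⟨5139,-1021⟩,⟨0,0⟩⟩] [⟨⟨142,3319⟩,⟨168,-3120⟩,⟨0,0⟩,⟨0,0⟩⟩])
 (.node 1
(.leaf true [⟨⟨-3572,6267⟩,⟨2257,3877⟩,⟨5238,-1269⟩,⟨0,0⟩⟩, ⟨⟨-2766,-945⟩,⟨-4804,1777⟩,⟨1269,5238⟩,⟨0,0⟩⟩] [⟨⟨140,3266⟩,⟨67,-3161⟩,⟨0,0⟩,⟨0,0⟩⟩])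
 (.leaf false [⟨⟨-3507,5105⟩,⟨1560,4096⟩,⟨4774,-978⟩,⟨0,0⟩⟩, ⟨⟨2272,814⟩,⟨4645,-1215⟩,⟨-690,-4949⟩,⟨0,0⟩⟩] [⟨⟨-1164,4553⟩,⟨326,-2454⟩,⟨1653,754⟩,⟨0,0⟩⟩])
)))) (.node 0
(.node 0
(.leaf true [⟨⟨2197,970⟩,⟨4621,-1347⟩,⟨-164,-5418⟩,⟨0,0⟩⟩, ⟨⟨-4390,4908⟩,⟨2181,3856⟩,⟨5418,-164⟩,⟨0,0⟩⟩] [⟨⟨204,3249⟩,⟨694,-3149⟩,⟨0,0⟩,⟨0,0⟩⟩])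
 (.node 1
(.leaf true [⟨⟨2344,940⟩,⟨4687,-1494⟩,⟨-510,-5302⟩,⟨0,0⟩⟩, ⟨⟨-4078,5356⟩,⟨2196,3862⟩,⟨5302,-510⟩,⟨0,0⟩⟩] [⟨⟨177,3292⟩,⟨470,-3142⟩,⟨0,0⟩,⟨0,0⟩⟩])
 (.node 0
(.leaf true [⟨⟨2192,902⟩,⟨4604,-1405⟩,⟨-274,-5264⟩,⟨0,0⟩⟩, ⟨⟨-4189,5029⟩,⟨2176,3825⟩,⟨5264,-274⟩,⟨0,0⟩⟩] [⟨⟨187,3303⟩,⟨595,-3113⟩,⟨0,0⟩,⟨0,0⟩⟩])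
 (.leaf false [⟨⟨-2833,3928⟩,⟨771,3497⟩,⟨3925,-1079⟩,⟨0,0⟩⟩, ⟨⟨-1790,-657⟩,⟨-3425,1012⟩,⟨252,4061⟩,⟨0,0⟩⟩] [⟨⟨454,352⟩,⟨-2763,-1165⟩,⟨-795,-536⟩,⟨0,0⟩⟩, ⟨⟨-1697,4894⟩,⟨976,-2510⟩,⟨1964,1418⟩,⟨0,0⟩⟩])
))) (.node 0
(.node 0
(.node 1
(.node 0
(.leaf true [⟨⟨2352,914⟩,⟨4680,-1521⟩,⟨-572,-5236⟩,⟨0,0⟩⟩, ⟨⟨-3983,5423⟩,⟨2193,3848⟩,⟨5236,-572⟩,⟨0,0⟩⟩] [⟨⟨169,3312⟩,⟨422,-3126⟩,⟨0,0⟩,⟨0,0⟩⟩])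
 (.leaf false [⟨⟨2197,955⟩,⟨4748,-1106⟩,⟨-355,-5223⟩,⟨0,0⟩⟩, ⟨⟨-3988,4745⟩,⟨1571,4215⟩,⟨5096,-621⟩,⟨0,0⟩⟩] [⟨⟨-1151,4431⟩,⟨546,-2517⟩,⟨1522,860⟩,⟨0,0⟩⟩])
) (.leaf false [⟨⟨-2085,3960⟩,⟨550,3150⟩,⟨3352,-1618⟩,⟨0,0⟩⟩, ⟨⟨-1701,-373⟩,⟨-2965,1165⟩,⟨438,3445⟩,⟨0,0⟩⟩] [⟨⟨598,440⟩,⟨-3071,-1404⟩,⟨-957,-655⟩,⟨0,0⟩⟩, ⟨⟨-1847,5089⟩,⟨1029,-2516⟩,⟨2195,1498⟩,⟨0,0⟩⟩])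
) (.leaf false [⟨⟨2051,801⟩,⟨4300,-1082⟩,⟨-382,-4755⟩,⟨0,0⟩⟩, ⟨⟨-3467,4551⟩,⟨1296,3960⟩,⟨4580,-826⟩,⟨0,0⟩⟩] [⟨⟨-1381,4697⟩,⟨598,-2484⟩,⟨1748,1044⟩,⟨0,0⟩⟩, ⟨⟨-246,-94⟩,⟨1688,597⟩,⟨531,268⟩,⟨0,0⟩⟩])
) (.leaf false [⟨⟨-2130,4315⟩,⟨674,3298⟩,⟨3377,-1518⟩,⟨0,0⟩⟩, ⟨⟨-1804,-437⟩,⟨-3198,1157⟩,⟨569,3648⟩,⟨0,0⟩⟩] [⟨⟨516,286⟩,⟨-2963,-1210⟩,⟨-999,-510⟩,⟨0,0⟩⟩, ⟨⟨-1624,5110⟩,⟨829,-2545⟩,⟨2136,1191⟩,⟨0,0⟩⟩])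
))) (.node 0
(.node 0
(.leaf false [⟨⟨-2679,3651⟩,⟨556,3338⟩,⟨3938,-1509⟩,⟨0,0⟩⟩, ⟨⟨-1778,-557⟩,⟨-3096,1110⟩,⟨243,3755⟩,⟨0,0⟩⟩] [⟨⟨595,638⟩,⟨-3144,-1591⟩,⟨-788,-771⟩,⟨0,0⟩⟩, ⟨⟨-2177,5068⟩,⟨1329,-2576⟩,⟨2198,2013⟩,⟨0,0⟩⟩])
 (.leaf false [⟨⟨-1881,3894⟩,⟨455,2966⟩,⟨3426,-2173⟩,⟨0,0⟩⟩, ⟨⟨-1629,-174⟩,⟨-2849,1344⟩,⟨448,3042⟩,⟨0,0⟩⟩] [⟨⟨799,697⟩,⟨-3210,-1773⟩,⟨-947,-933⟩,⟨0,0⟩⟩, ⟨⟨-2356,5283⟩,⟨1262,-2545⟩,⟨2511,2071⟩,⟨0,0⟩⟩])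
) (.leaf false [⟨⟨1166,-336⟩,⟨2910,-1598⟩,⟨-353,-2158⟩,⟨0,0⟩⟩, ⟨⟨-1361,4074⟩,⟨778,2459⟩,⟨3319,-2685⟩,⟨0,0⟩⟩] [⟨⟨1086,836⟩,⟨-2658,-1802⟩,⟨-987,-1239⟩,⟨0,0⟩⟩, ⟨⟨-2802,5218⟩,⟨907,-2263⟩,⟨2757,2513⟩,⟨0,0⟩⟩])
)))) (.node 0
(.node 0
(.node 0
(.node 1
(.node 0
(.node 1
(.node 1
(.leaf true [⟨⟨-3257,6573⟩,⟨2266,3827⟩,⟨5080,-1578⟩,⟨0,0⟩⟩, ⟨⟨-2888,-883⟩,⟨-4775,1886⟩,⟨1577,5080⟩,⟨0,0⟩⟩] [⟨⟨120,3272⟩,⟨-107,-3122⟩,⟨0,0⟩,⟨0,0⟩⟩])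
 (.leaf false [⟨⟨-2552,4859⟩,⟨1002,3621⟩,⟨3832,-1337⟩,⟨0,0⟩⟩, ⟨⟨-2071,-645⟩,⟨-3782,1163⟩,⟨786,4176⟩,⟨0,0⟩⟩] [⟨⟨369,82⟩,⟨-2462,-867⟩,⟨-892,-311⟩,⟨0,0⟩⟩, ⟨⟨-1304,4933⟩,⟨537,-2537⟩,⟨1966,796⟩,⟨0,0⟩⟩])
) (.leaf false [⟨⟨-922,4440⟩,⟨564,2720⟩,⟨2495,-2507⟩,⟨0,0⟩⟩, ⟨⟨-1511,191⟩,⟨-2790,1517⟩,⟨697,2606⟩,⟨0,0⟩⟩] [⟨⟨828,400⟩,⟨-3071,-1534⟩,⟨-1276,-745⟩,⟨0,0⟩⟩, ⟨⟨-1929,5365⟩,⟨813,-2479⟩,⟨2650,1316⟩,⟨0,0⟩⟩])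
) (.leaf false [⟨⟨-1160,4794⟩,⟨611,3019⟩,⟨2565,-2125⟩,⟨0,0⟩⟩, ⟨⟨-1812,-82⟩,⟨-2949,1348⟩,⟨989,3064⟩,⟨0,0⟩⟩] [⟨⟨550,180⟩,⟨-3070,-1206⟩,⟨-1253,-396⟩,⟨0,0⟩⟩, ⟨⟨-1473,5270⟩,⟨617,-2547⟩,⟨2366,814⟩,⟨0,0⟩⟩])
) (.leaf false [⟨⟨-629,4643⟩,⟨998,2364⟩,⟨2533,-2837⟩,⟨0,0⟩⟩, ⟨⟨-912,671⟩,⟨-2970,1765⟩,⟨256,1955⟩,⟨0,0⟩⟩] [⟨⟨1088,499⟩,⟨-2475,-1493⟩,⟨-1320,-1041⟩,⟨0,0⟩⟩, ⟨⟨-2419,5340⟩,⟨358,-2268⟩,⟨2861,1857⟩,⟨0,0⟩⟩])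
) (.node 1
(.leaf false [⟨⟨1559,-496⟩,⟨2815,-1716⟩,⟨-1022,-2333⟩,⟨0,0⟩⟩, ⟨⟨-119,5013⟩,⟨678,2608⟩,⟨1738,-3007⟩,⟨0,0⟩⟩] [⟨⟨856,233⟩,⟨-3086,-1479⟩,⟨-1586,-578⟩,⟨0,0⟩⟩, ⟨⟨-1600,5496⟩,⟨596,-2516⟩,⟨2944,653⟩,⟨0,0⟩⟩])
 (.leaf false [⟨⟨995,-816⟩,⟨3016,-1921⟩,⟨-445,-1944⟩,⟨0,0⟩⟩, ⟨⟨171,5230⟩,⟨1048,2359⟩,⟨1650,-3190⟩,⟨0,0⟩⟩] [⟨⟨1227,277⟩,⟨-2648,-1475⟩,⟨-1742,-1011⟩,⟨0,0⟩⟩, ⟨⟨-1822,5521⟩,⟨241,-2415⟩,⟨3121,845⟩,⟨0,0⟩⟩])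
)) (.node 1
(.leaf false [⟨⟨1567,-934⟩,⟨2918,-2122⟩,⟨-1187,-2073⟩,⟨0,0⟩⟩, ⟨⟨540,5364⟩,⟨1035,2378⟩,⟨1242,-3696⟩,⟨0,0⟩⟩] [⟨⟨1251,255⟩,⟨-3104,-1758⟩,⟨-2005,-849⟩,⟨0,0⟩⟩, ⟨⟨-1427,5679⟩,⟨680,-2538⟩,⟨3424,124⟩,⟨0,0⟩⟩])
 (.leaf false [⟨⟨1125,-999⟩,⟨3005,-2110⟩,⟨-687,-1882⟩,⟨0,0⟩⟩, ⟨⟨729,5530⟩,⟨1172,2266⟩,⟨1073,-3560⟩,⟨0,0⟩⟩] [⟨⟨1490,167⟩,⟨-2837,-1612⟩,⟨-2170,-1145⟩,⟨0,0⟩⟩, ⟨⟨-1326,5634⟩,⟨351,-2529⟩,⟨3346,13⟩,⟨0,0⟩⟩])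
)) (.leaf true [⟨⟨-2191,-4245⟩,⟨-279,-2192⟩,⟨1826,2786⟩,⟨0,0⟩⟩, ⟨⟨-1004,1114⟩,⟨3464,-1594⟩,⟨2786,-1827⟩,⟨0,0⟩⟩] [⟨⟨15,2533⟩,⟨-1757,-2796⟩,⟨0,0⟩,⟨0,0⟩⟩])
)) (.node 0
(.node 0
(.leaf true [⟨⟨6367,-2171⟩,⟨-1747,-3783⟩,⟨-6345,-1715⟩,⟨0,0⟩⟩, ⟨⟨-1684,-1795⟩,⟨-4050,66⟩,⟨-1715,6345⟩,⟨0,0⟩⟩] [⟨⟨389,2592⟩,⟨2067,-3069⟩,⟨0,0⟩,⟨0,0⟩⟩])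
 (.node 0
(.leaf false [⟨⟨-3081,4013⟩,⟨318,3006⟩,⟨5411,-2798⟩,⟨0,0⟩⟩, ⟨⟨1709,559⟩,⟨3437,-1204⟩,⟨-381,-2721⟩,⟨0,0⟩⟩] [⟨⟨1174,1770⟩,⟨-2906,-2852⟩,⟨-21,-1896⟩,⟨0,0⟩⟩, ⟨⟨-4245,5146⟩,⟨2075,-2459⟩,⟨3119,4508⟩,⟨0,0⟩⟩])
 (.leaf false [⟨⟨887,-65⟩,⟨2933,-1196⟩,⟨-119,-1823⟩,⟨0,0⟩⟩, ⟨⟨-2500,3435⟩,⟨712,2412⟩,⟨4677,-2083⟩,⟨0,0⟩⟩] [⟨⟨787,1110⟩,⟨-2010,-1652⟩,⟨-529,-1084⟩,⟨0,0⟩⟩, ⟨⟨-3754,4583⟩,⟨785,-1947⟩,⟨2120,4222⟩,⟨0,0⟩⟩])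
)) (.node 0
(.node 0
(.node 1
(.node 0
(.node 0
(.leaf false [⟨⟨-2135,3172⟩,⟨730,2175⟩,⟨4013,-1695⟩,⟨0,0⟩⟩, ⟨⟨-544,317⟩,⟨-2600,1185⟩,⟨-73,1505⟩,⟨0,0⟩⟩] [⟨⟨407,498⟩,⟨-1799,-1107⟩,⟨-953,-255⟩,⟨0,0⟩⟩, ⟨⟨-3365,4281⟩,⟨277,-1802⟩,⟨1733,3849⟩,⟨0,0⟩⟩])
 (.node 1
(.leaf false [⟨⟨-988,4156⟩,⟨852,2267⟩,⟨2765,-2253⟩,⟨0,0⟩⟩, ⟨⟨-504,631⟩,⟨-2792,1512⟩,⟨-143,1675⟩,⟨0,0⟩⟩] [⟨⟨626,369⟩,⟨-2122,-1156⟩,⟨-1211,-428⟩,⟨0,0⟩⟩, ⟨⟨-2706,4915⟩,⟨78,-2065⟩,⟨2334,2551⟩,⟨0,0⟩⟩])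
 (.node 0
(.leaf false [⟨⟨203,-172⟩,⟨2100,-902⟩,⟨386,-1251⟩,⟨0,0⟩⟩, ⟨⟨-1853,2887⟩,⟨81,2144⟩,⟨3326,-1084⟩,⟨0,0⟩⟩] [⟨⟨-3145,4158⟩,⟨236,-1781⟩,⟨1554,3661⟩,⟨0,0⟩⟩, ⟨⟨-62,-35⟩,⟨-2241,-955⟩,⟨-1818,880⟩,⟨0,0⟩⟩])
 (.node 0
(.leaf false [⟨⟨-1402,2637⟩,⟨-801,2200⟩,⟨2347,-430⟩,⟨0,0⟩⟩, ⟨⟨24,-75⟩,⟨-861,278⟩,⟨-350,579⟩,⟨0,0⟩⟩] [⟨⟨-2928,4179⟩,⟨392,-1753⟩,⟨1705,3291⟩,⟨0,0⟩⟩, ⟨⟨-464,-269⟩,⟨-2726,-986⟩,⟨-2456,1791⟩,⟨0,0⟩⟩])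
 .skip)))) (.node 1
(.node 1
(.leaf false [⟨⟨833,-791⟩,⟨2998,-1841⟩,⟨-261,-1880⟩,⟨0,0⟩⟩, ⟨⟨203,5214⟩,⟨992,2342⟩,⟨1557,-3033⟩,⟨0,0⟩⟩] [⟨⟨1132,230⟩,⟨-2533,-1362⟩,⟨-1717,-895⟩,⟨0,0⟩⟩, ⟨⟨-1819,5434⟩,⟨106,-2381⟩,⟨2985,904⟩,⟨0,0⟩⟩])
 .skip) .skip)) (.node 0
(.node 0
(.leaf false [⟨⟨497,-111⟩,⟨2504,-995⟩,⟨122,-1452⟩,⟨0,0⟩⟩, ⟨⟨-2560,2884⟩,⟨517,2216⟩,⟨4426,-1353⟩,⟨0,0⟩⟩] [⟨⟨170,273⟩,⟨-1838,-1002⟩,⟨-1227,217⟩,⟨0,0⟩⟩, ⟨⟨-3632,4086⟩,⟨281,-1758⟩,⟨1466,4389⟩,⟨0,0⟩⟩])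
 (.node 0
(.leaf false [⟨⟨-1822,2439⟩,⟨-863,2229⟩,⟨2859,-323⟩,⟨0,0⟩⟩] [⟨⟨-3195,4130⟩,⟨481,-1744⟩,⟨1602,3743⟩,⟨0,0⟩⟩, ⟨⟨-472,-342⟩,⟨-2792,-1026⟩,⟨-2650,1884⟩,⟨0,0⟩⟩])
 (.node 0
(.node 1
(.leaf false [⟨⟨-1561,2381⟩,⟨-953,2213⟩,⟨2413,-170⟩,⟨0,0⟩⟩] [⟨⟨-3044,4139⟩,⟨501,-1713⟩,⟨1680,3484⟩,⟨0,0⟩⟩, ⟨⟨-489,-327⟩,⟨-2789,-1067⟩,⟨-2736,1985⟩,⟨0,0⟩⟩])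
 (.leaf false [⟨⟨-2526,1429⟩,⟨-936,2107⟩,⟨3399,396⟩,⟨0,0⟩⟩] [⟨⟨3493,-3614⟩,⟨-654,1476⟩,⟨-1214,-4404⟩,⟨0,0⟩⟩, ⟨⟨-314,-610⟩,⟨-2572,-1142⟩,⟨-3273,2044⟩,⟨0,0⟩⟩])
) .skip))) .skip)) (.node 0
(.node 0
(.node 1
(.node 1
(.node 1
(.leaf false [⟨⟨1001,-976⟩,⟨3007,-2055⟩,⟨-538,-1848⟩,⟨0,0⟩⟩, ⟨⟨823,5585⟩,⟨1123,2263⟩,⟨926,-3460⟩,⟨0,0⟩⟩] [⟨⟨1462,102⟩,⟨-2786,-1527⟩,⟨-2203,-1101⟩,⟨0,0⟩⟩, ⟨⟨-1241,5607⟩,⟨243,-2540⟩,⟨3256,-66⟩,⟨0,0⟩⟩])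
 .skip) .skip) .skip) (.node 1
(.leaf false [⟨⟨2373,5832⟩,⟨1257,1850⟩,⟨-1054,-3828⟩,⟨0,0⟩⟩, ⟨⟨-899,1314⟩,⟨-2701,2254⟩,⟨617,1476⟩,⟨0,0⟩⟩] [⟨⟨1744,-368⟩,⟨-2992,-1562⟩,⟨-3316,-876⟩,⟨0,0⟩⟩, ⟨⟨375,5191⟩,⟨345,-2647⟩,⟨3289,-2388⟩,⟨0,0⟩⟩])
 (.leaf false [⟨⟨2760,5747⟩,⟨1247,1693⟩,⟨-1643,-3774⟩,⟨0,0⟩⟩, ⟨⟨-839,1354⟩,⟨-2529,2229⟩,⟨594,1354⟩,⟨0,0⟩⟩] [⟨⟨1652,-437⟩,⟨-2915,-1501⟩,⟨-3421,-674⟩,⟨0,0⟩⟩, ⟨⟨773,4839⟩,⟨334,-2545⟩,⟨3200,-2910⟩,⟨0,0⟩⟩])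
)) (.leaf false [⟨⟨1083,-1784⟩,⟨2715,-2744⟩,⟨-997,-1337⟩,⟨0,0⟩⟩, ⟨⟨2817,6041⟩,⟨1807,1685⟩,⟨-1368,-4550⟩,⟨0,0⟩⟩] [⟨⟨-2289,311⟩,⟨3149,1922⟩,⟨3868,1293⟩,⟨0,0⟩⟩, ⟨⟨616,5437⟩,⟨628,-2625⟩,⟨4015,-3127⟩,⟨0,0⟩⟩])
)) (.leaf false [⟨⟨1319,-2348⟩,⟨2946,-3585⟩,⟨-1383,-1192⟩,⟨0,0⟩⟩, ⟨⟨2896,6658⟩,⟨3020,1518⟩,⟨-740,-6154⟩,⟨0,0⟩⟩] [⟨⟨244,6453⟩,⟨1777,-2470⟩,⟨6112,-3846⟩,⟨0,0⟩⟩, ⟨⟨4284,486⟩,⟨-3243,-3196⟩,⟨-5085,-3403⟩,⟨0,0⟩⟩])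
)))) (.node 0
(.node 0
(.node 1
(.leaf true [⟨⟨6524,-1373⟩,⟨-1590,-3643⟩,⟨-6236,-2155⟩,⟨0,0⟩⟩, ⟨⟨-1451,-1904⟩,⟨-3729,-253⟩,⟨-2155,6236⟩,⟨0,0⟩⟩] [⟨⟨417,2505⟩,⟨2316,-2910⟩,⟨0,0⟩,⟨0,0⟩⟩])
 (.leaf false [⟨⟨7350,-259⟩,⟨2469,-3580⟩,⟨-7181,-3617⟩,⟨0,0⟩⟩] [⟨⟨14168,18337⟩,⟨-6992,-9406⟩,⟨28507,-26733⟩,⟨0,0⟩⟩, ⟨⟨-21579,18196⟩,⟨9199,-6189⟩,⟨25904,28416⟩,⟨0,0⟩⟩])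
) (.node 1
(.leaf false [⟨⟨1048,1593⟩,⟨3567,309⟩,⟨181,-2294⟩,⟨0,0⟩⟩, ⟨⟨-5768,2202⟩,⟨-16,3046⟩,⟨8081,-83⟩,⟨0,0⟩⟩] [⟨⟨264,1970⟩,⟨-313,-1462⟩,⟨1554,-1318⟩,⟨0,0⟩⟩, ⟨⟨-5657,2535⟩,⟨997,-1517⟩,⟨402,7804⟩,⟨0,0⟩⟩])
 (.leaf false [⟨⟨6687,2645⟩,⟨3959,-2277⟩,⟨-5076,-5782⟩,⟨0,0⟩⟩] [⟨⟨-24324,17084⟩,⟨10679,-2126⟩,⟨31309,27422⟩,⟨0,0⟩⟩, ⟨⟨-14257,-19765⟩,⟨2804,11308⟩,⟨-28007,31703⟩,⟨0,0⟩⟩])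
)) (.node 1
(.node 1
(.node 0
(.node 1
(.node 1
(.node 0
(.node 0
(.leaf false [⟨⟨-3860,-156⟩,⟨-844,1690⟩,⟨4749,1254⟩,⟨0,0⟩⟩] [⟨⟨3905,-2284⟩,⟨-703,1117⟩,⟨31,-5667⟩,⟨0,0⟩⟩, ⟨⟨-191,1310⟩,⟨2022,1092⟩,⟨3687,-1566⟩,⟨0,0⟩⟩])
 (.node 1
.skip (.leaf false [⟨⟨-5004,-3255⟩,⟨-1370,374⟩,⟨5368,2978⟩,⟨0,0⟩⟩, ⟨⟨-369,1936⟩,⟨-148,1941⟩,⟨763,-191⟩,⟨0,0⟩⟩] [⟨⟨-1482,1845⟩,⟨1636,338⟩,⟨3267,366⟩,⟨0,0⟩⟩, ⟨⟨-3183,-1334⟩,⟨307,805⟩,⟨-2743,6209⟩,⟨0,0⟩⟩])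
)) (.node 0
(.node 0
(.node 1
.skip (.leaf false [⟨⟨4934,4407⟩,⟨1844,90⟩,⟨-4741,-3858⟩,⟨0,0⟩⟩, ⟨⟨-616,2203⟩,⟨-879,2522⟩,⟨953,196⟩,⟨0,0⟩⟩] [⟨⟨-2394,1666⟩,⟨2376,1012⟩,⟨4096,1251⟩,⟨0,0⟩⟩, ⟨⟨-2781,-2933⟩,⟨-224,1573⟩,⟨-3816,6184⟩,⟨0,0⟩⟩])
) (.leaf false [⟨⟨4347,5422⟩,⟨2126,746⟩,⟨-3529,-4528⟩,⟨0,0⟩⟩, ⟨⟨-863,2250⟩,⟨-1758,2903⟩,⟨1044,705⟩,⟨0,0⟩⟩] [⟨⟨2038,4331⟩,⟨729,-2142⟩,⟨4490,-5438⟩,⟨0,0⟩⟩, ⟨⟨2844,-973⟩,⟨-2911,-1745⟩,⟨-4455,-1729⟩,⟨0,0⟩⟩])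
) (.leaf false [⟨⟨4471,5979⟩,⟨3019,655⟩,⟨-3083,-5709⟩,⟨0,0⟩⟩, ⟨⟨-1069,2743⟩,⟨-1918,3662⟩,⟨1420,675⟩,⟨0,0⟩⟩] [⟨⟨1706,5630⟩,⟨1416,-2341⟩,⟨6253,-5929⟩,⟨0,0⟩⟩, ⟨⟨4401,-751⟩,⟨-3305,-2530⟩,⟨-5411,-3422⟩,⟨0,0⟩⟩])
)) (.node 0
(.leaf false [⟨⟨-5555,-3176⟩,⟨-1909,854⟩,⟨5799,3586⟩,⟨0,0⟩⟩, ⟨⟨-379,2482⟩,⟨280,2506⟩,⟨1046,-528⟩,⟨0,0⟩⟩] [⟨⟨2111,-2592⟩,⟨-2032,-214⟩,⟨-4251,-749⟩,⟨0,0⟩⟩, ⟨⟨-3583,-1887⟩,⟨487,1018⟩,⟨-3312,7076⟩,⟨0,0⟩⟩])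
 (.leaf false [⟨⟨5575,4283⟩,⟨2499,-539⟩,⟨-5248,-4563⟩,⟨0,0⟩⟩, ⟨⟨-630,2761⟩,⟨-342,3116⟩,⟨1280,-206⟩,⟨0,0⟩⟩] [⟨⟨-3397,2425⟩,⟨2713,1029⟩,⟨5187,2091⟩,⟨0,0⟩⟩, ⟨⟨-3182,-3456⟩,⟨-228,1648⟩,⟨-4732,7296⟩,⟨0,0⟩⟩])
)) (.leaf false [⟨⟨6357,3460⟩,⟨2590,-1297⟩,⟨-6201,-4727⟩,⟨0,0⟩⟩, ⟨⟨-410,2898⟩,⟨626,3259⟩,⟨1382,-795⟩,⟨0,0⟩⟩] [⟨⟨-3174,3118⟩,⟨2527,233⟩,⟨5553,1617⟩,⟨0,0⟩⟩, ⟨⟨-3897,-2887⟩,⟨599,1217⟩,⟨-4563,8151⟩,⟨0,0⟩⟩])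
) (.leaf false [⟨⟨4269,7238⟩,⟨4292,799⟩,⟨-1787,-7604⟩,⟨0,0⟩⟩, ⟨⟨-1371,2874⟩,⟨-2182,4484⟩,⟨1879,764⟩,⟨0,0⟩⟩] [⟨⟨-6266,4630⟩,⟨4607,1986⟩,⟨12694,2120⟩,⟨0,0⟩⟩, ⟨⟨5826,6704⟩,⟨623,-4484⟩,⟨3833,-10939⟩,⟨0,0⟩⟩])
) (.leaf false [⟨⟨7322,4524⟩,⟨3682,-1726⟩,⟨-6057,-6875⟩,⟨0,0⟩⟩, ⟨⟨-534,3007⟩,⟨846,4352⟩,⟨1887,-892⟩,⟨0,0⟩⟩] [⟨⟨-6040,3562⟩,⟨3177,684⟩,⟨8437,4494⟩,⟨0,0⟩⟩, ⟨⟨-4083,-4991⟩,⟨347,1447⟩,⟨-7695,10119⟩,⟨0,0⟩⟩])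
) (.leaf false [⟨⟨4716,4833⟩,⟨3982,529⟩,⟨-2061,-6243⟩,⟨0,0⟩⟩] [⟨⟨-25429,7477⟩,⟨7140,3296⟩,⟨26426,29064⟩,⟨0,0⟩⟩, ⟨⟨-6868,-19400⟩,⟨-3163,8106⟩,⟨-29609,26374⟩,⟨0,0⟩⟩])
))) (.node 0
(.node 1
(.leaf false [⟨⟨69,8243⟩,⟨2904,2577⟩,⟨3808,-6628⟩,⟨0,0⟩⟩, ⟨⟨-2142,885⟩,⟨-3838,4606⟩,⟨1295,1931⟩,⟨0,0⟩⟩] [⟨⟨-3938,2142⟩,⟨-3579,-2849⟩,⟨6591,3450⟩,⟨0,0⟩⟩])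
 (.node 0
(.leaf false [⟨⟨-1324,6112⟩,⟨1583,4614⟩,⟨3789,-3766⟩,⟨0,0⟩⟩] [⟨⟨-7239,20568⟩,⟨9741,-439⟩,⟨40273,-13212⟩,⟨0,0⟩⟩, ⟨⟨-25374,-11036⟩,⟨-348,8720⟩,⟨13530,40381⟩,⟨0,0⟩⟩])
 (.leaf false [] [⟨⟨-21499,35534⟩,⟨12059,4593⟩,⟨83101,-18657⟩,⟨0,0⟩⟩, ⟨⟨-40039,-25971⟩,⟨-4950,10573⟩,⟨18634,83321⟩,⟨0,0⟩⟩])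
)) (.node 1
(.leaf false [] [⟨⟨-7499,20363⟩,⟨5710,7042⟩,⟨31773,-27826⟩,⟨0,0⟩⟩, ⟨⟨-18553,-7607⟩,⟨-7531,-2075⟩,⟨26797,30617⟩,⟨0,0⟩⟩])
 (.leaf false [] [⟨⟨-34833,26793⟩,⟨4819,7343⟩,⟨101459,1553⟩,⟨0,0⟩⟩, ⟨⟨-29968,-38194⟩,⟨-8614,4151⟩,⟨-1692,101785⟩,⟨0,0⟩⟩])
))))

theorem tree1_ok : tree1.check skip1 lf1 root1 = true := by decide +kernel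

end Pool.Agent.Lib.Pd7a79b
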