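import Pool.Agent.Lib.Pd7a79b.Check

/-!
# Certificate 2 (generated)
-/

set_option autoImplicit false
set_option maxRecDepth 100000

namespace Pool.Agent.Lib.Pd7a79b

def tree2 : Tree :=
(.node 1
(.node 3
(.node 0
(.leaf false [⟨⟨-1612,6320⟩,⟨227,1736⟩,⟨1039,-2847⟩,⟨1759,-2151⟩⟩, ⟨⟨-1424,-212⟩,⟨-1677,-211⟩,⟨-306,1291⟩,⟨782,-1121⟩⟩] [⟨⟨1435,556⟩,⟨-2075,-160⟩,⟨-1660,-1926⟩,⟨-3232,-2480⟩⟩, ⟨⟨877,5551⟩,⟨515,-2086⟩,⟨3095,52⟩,⟨-1571,2134⟩⟩])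
 (.leaf false [⟨⟨-1029,6633⟩,⟨408,1430⟩,⟨194,-3310⟩,⟨1978,-2253⟩⟩, ⟨⟨-963,7⟩,⟨-1150,92⟩,⟨47,887⟩,⟨272,-749⟩⟩] [⟨⟨-930,-507⟩,⟨2099,112⟩,⟨1872,1068⟩,⟨3260,2489⟩⟩, ⟨⟨1286,5351⟩,⟨357,-1989⟩,⟨3091,-452⟩,⟨-1531,2258⟩⟩])
) (.leaf false [⟨⟨2373,0⟩,⟨4857,0⟩,⟨635,-3566⟩,⟨635,3566⟩⟩, ⟨⟨0,9406⟩,⟨0,4158⟩,⟨2395,-3705⟩,⟨-2395,-3705⟩⟩] [⟨⟨0,9208⟩,⟨0,-2521⟩,⟨5020,2213⟩,⟨-5020,2213⟩⟩])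
) (.node 3
(.node 0
(.node 2
(.node 0
(.node 1
(.leaf false [⟨⟨-2030,3781⟩,⟨-1022,1473⟩,⟨864,-456⟩,⟨1058,-2015⟩⟩, ⟨⟨564,528⟩,⟨1139,1701⟩,⟨1980,-454⟩,⟨-1787,1103⟩⟩] [⟨⟨2197,280⟩,⟨-1957,-642⟩,⟨-1040,-4088⟩,⟨-2418,-2742⟩⟩, ⟨⟨-1023,6152⟩,⟨982,-1949⟩,⟨3904,219⟩,⟨-2202,-339⟩⟩, ⟨⟨902,851⟩,⟨-1470,-155⟩,⟨-1534,2485⟩,⟨-1547,2119⟩⟩])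
 (.leaf false [⟨⟨-92,293⟩,⟨827,1981⟩,⟨2732,-2⟩,⟨-1904,1066⟩⟩, ⟨⟨-1818,3149⟩,⟨-1236,1155⟩,⟨530,-128⟩,⟨889,-1978⟩⟩] [⟨⟨904,1070⟩,⟨-1583,-416⟩,⟨-1841,2467⟩,⟨-1846,1764⟩⟩, ⟨⟨-1681,5952⟩,⟨1278,-1784⟩,⟨4114,693⟩,⟨-1896,-543⟩⟩, ⟨⟨-2220,-632⟩,⟨1713,823⟩,⟨379,4650⟩,⟨2171,2769⟩⟩])
) (.node 2
(.node 1
(.leaf false [⟨⟨1624,3191⟩,⟨825,1787⟩,⟨66,-1617⟩,⟨-1463,-167⟩⟩, ⟨⟨82,-475⟩,⟨-687,763⟩,⟨693,939⟩,⟨-1413,40⟩⟩] [⟨⟨1251,-906⟩,⟨-2335,948⟩,⟨-2463,-1232⟩,⟨-3169,-2490⟩⟩, ⟨⟨2535,6208⟩,⟨-1262,-1860⟩,⟨2106,-367⟩,⟨-3669,2473⟩⟩, ⟨⟨1146,-755⟩,⟨-1026,1057⟩,⟨-1063,2639⟩,⟨253,3919⟩⟩])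
 (.leaf false [⟨⟨1810,3229⟩,⟨1286,919⟩,⟨-1207,-2132⟩,⟨-153,-204⟩⟩, ⟨⟨157,717⟩,⟨-742,2071⟩,⟨1794,850⟩,⟨-2651,-114⟩⟩] [⟨⟨2143,-521⟩,⟨-1818,688⟩,⟨-2303,2748⟩,⟨-574,4338⟩⟩, ⟨⟨1460,5816⟩,⟨-1141,-1820⟩,⟨1953,-549⟩,⟨-3849,545⟩⟩, ⟨⟨-930,989⟩,⟨1486,-316⟩,⟨1728,1913⟩,⟨1732,2455⟩⟩])
) (.node 3
(.node 1
(.leaf false [⟨⟨-131,-78⟩,⟨-135,-140⟩,⟨-106,84⟩,⟨171,-107⟩⟩, ⟨⟨-922,5042⟩,⟨97,1113⟩,⟨-591,-1926⟩,⟨1963,-1894⟩⟩] [⟨⟨1670,-592⟩,⟨-2071,-28⟩,⟨-2074,-1805⟩,⟨-2178,-1673⟩⟩, ⟨⟨223,5636⟩,⟨37,-1971⟩,⟨2946,-1112⟩,⟨-2882,-747⟩⟩, ⟨⟨1071,814⟩,⟨-916,122⟩,⟨-676,2363⟩,⟨-640,3223⟩⟩])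
 (.leaf false [⟨⟨0,4561⟩,⟨0,859⟩,⟨-1658,-1747⟩,⟨1658,-1747⟩⟩, ⟨⟨0,276⟩,⟨0,496⟩,⟨461,45⟩,⟨-461,45⟩⟩] [⟨⟨2008,0⟩,⟨-1983,0⟩,⟨-1975,-384⟩,⟨-1975,384⟩⟩, ⟨⟨0,5029⟩,⟨0,-1716⟩,⟨2796,-1313⟩,⟨-2796,-1313⟩⟩, ⟨⟨0,1238⟩,⟨0,-78⟩,⟨0,3124⟩,⟨0,3124⟩⟩])
) (.node 1
(.leaf false [⟨⟨0,6505⟩,⟨0,2111⟩,⟨-19,-2339⟩,⟨19,-2339⟩⟩, ⟨⟨-896,0⟩,⟨-1791,0⟩,⟨-140,1193⟩,⟨-140,-1193⟩⟩] [⟨⟨1734,0⟩,⟨-2780,0⟩,⟨-2466,41⟩,⟨-2466,-41⟩⟩, ⟨⟨0,7241⟩,⟨0,-2494⟩,⟨3414,70⟩,⟨-3414,70⟩⟩, ⟨⟨0,451⟩,⟨0,508⟩,⟨-4,3295⟩,⟨4,3295⟩⟩])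
 (.leaf false [⟨⟨-131,78⟩,⟨-135,140⟩,⟨171,107⟩,⟨-106,-84⟩⟩, ⟨⟨922,5042⟩,⟨-97,1113⟩,⟨-1963,-1894⟩,⟨591,-1926⟩⟩] [⟨⟨1670,592⟩,⟨-2071,28⟩,⟨-2178,1673⟩,⟨-2074,1805⟩⟩, ⟨⟨-223,5636⟩,⟨-37,-1971⟩,⟨2882,-747⟩,⟨-2946,-1112⟩⟩, ⟨⟨-1071,814⟩,⟨916,122⟩,⟨640,3223⟩,⟨676,2363⟩⟩])
)))) (.node 1
(.leaf false [⟨⟨-2294,7884⟩,⟨-942,2023⟩,⟨192,-2269⟩,⟨2169,-3825⟩⟩, ⟨⟨1531,983⟩,⟨2336,1219⟩,⟨1034,-1654⟩,⟨-1137,1566⟩⟩] [⟨⟨3268,83⟩,⟨-2607,-322⟩,⟨-1823,-3178⟩,⟨-2473,-704⟩⟩, ⟨⟨-1176,7169⟩,⟨634,-2805⟩,⟨3807,-955⟩,⟨-3391,-2459⟩⟩])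
 (.leaf false [⟨⟨-711,6109⟩,⟨-628,1000⟩,⟨-1731,-1864⟩,⟨1958,-3107⟩⟩, ⟨⟨375,496⟩,⟨727,779⟩,⟨653,-425⟩,⟨-569,525⟩⟩] [⟨⟨3016,-409⟩,⟨-2217,-470⟩,⟨-1562,-3582⟩,⟨-1614,-867⟩⟩, ⟨⟨-742,6058⟩,⟨536,-2189⟩,⟨3930,-1666⟩,⟨-2660,-2026⟩⟩, ⟨⟨-167,552⟩,⟨-750,-259⟩,⟨-1106,1809⟩,⟨-1051,387⟩⟩])
)) (.node 2
(.node 3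
(.leaf false [⟨⟨711,6109⟩,⟨628,1000⟩,⟨-1958,-3107⟩,⟨1731,-1864⟩⟩, ⟨⟨-375,496⟩,⟨-727,779⟩,⟨569,525⟩,⟨-653,-425⟩⟩] [⟨⟨3016,409⟩,⟨-2217,470⟩,⟨-1614,867⟩,⟨-1562,3582⟩⟩, ⟨⟨742,6058⟩,⟨-536,-2189⟩,⟨2660,-2026⟩,⟨-3930,-1666⟩⟩, ⟨⟨167,552⟩,⟨750,-259⟩,⟨1051,387⟩,⟨1106,1809⟩⟩])
 (.leaf false [⟨⟨1531,-983⟩,⟨2336,-1219⟩,⟨-1137,-1566⟩,⟨1034,1654⟩⟩, ⟨⟨2294,7884⟩,⟨942,2023⟩,⟨-2169,-3825⟩,⟨-192,-2269⟩⟩] [⟨⟨3268,-83⟩,⟨-2607,322⟩,⟨-2473,704⟩,⟨-1823,3178⟩⟩, ⟨⟨1176,7169⟩,⟨-634,-2805⟩,⟨3391,-2459⟩,⟨-3807,-955⟩⟩])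
) (.leaf false [⟨⟨0,7545⟩,⟨0,1092⟩,⟨-2039,-3241⟩,⟨2039,-3241⟩⟩, ⟨⟨852,0⟩,⟨1057,0⟩,⟨-145,-723⟩,⟨-145,723⟩⟩] [⟨⟨1745,0⟩,⟨-2108,0⟩,⟨-2016,-193⟩,⟨-2016,193⟩⟩, ⟨⟨0,5304⟩,⟨0,-2089⟩,⟨2941,-2414⟩,⟨-2941,-2414⟩⟩])
)) (.node 0
(.leaf false [⟨⟨1593,6303⟩,⟨-195,1778⟩,⟨-1691,-2137⟩,⟨-1054,-2797⟩⟩, ⟨⟨-1502,223⟩,⟨-1781,225⟩,⟨845,1184⟩,⟨-346,-1369⟩⟩] [⟨⟨-1163,659⟩,⟨1945,-98⟩,⟨3209,-2444⟩,⟨1484,-1602⟩⟩, ⟨⟨-659,5408⟩,⟨-466,-1997⟩,⟨1554,2074⟩,⟨-2997,350⟩⟩])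
 (.leaf false [⟨⟨3110,9279⟩,⟨1126,2708⟩,⟨-2300,-4428⟩,⟨-1327,-3113⟩⟩, ⟨⟨-2706,1327⟩,⟨-3137,1315⟩,⟨1688,2079⟩,⟨-799,-2603⟩⟩] [⟨⟨-2464,685⟩,⟨2195,-313⟩,⟨2643,-244⟩,⟨1644,-1510⟩⟩, ⟨⟨2588,7580⟩,⟨-656,-2682⟩,⟨4268,-3058⟩,⟨-3821,975⟩⟩])
)))

theorem tree2_ok : tree2.check skipN lf2 root2 = true := by decide +kernel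

end Pool.Agent.Lib.Pd7a79b
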