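import Pool.Agent.Lib.Pd7a79b.Logs

set_option autoImplicit false

open Complex Metric Set Filter Topology MeasureTheory

namespace Pool.Agent.Lib.Pd7a79b

variable {R : ℝ} {h : ℂ → ℂ}

/-- Expansion data of an odd univalent function. -/
structure Expansion (R : ℝ) (h : ℂ → ℂ) (c m13 m33 : ℂ) (H H2 Y1 Y3 : ℂ → ℂ) : Prop where
  hH : DifferentiableOn ℂ H (ball 0 R)
  hH2 : DifferentiableOn ℂ H2 (ball 0 R)
  hY1 : DifferentiableOn ℂ Y1 (ball 0 R)
  hY3 : DifferentiableOn ℂ Y3 (ball 0 R)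
  h_eq : ∀ z, h z = z * H z
  H_eq : ∀ z, H z = 1 + z ^ 2 * H2 z
  H2_zero : H2 0 = c
  h_ne : ∀ z ∈ ball (0 : ℂ) R, z ≠ 0 → h z ≠ 0
  phi1_eq : ∀ z ∈ ball (0 : ℂ) R, z ≠ 0 → 2 / z - 2 / h z = z * (2 * c + z ^ 2 * Y1 z)
  phi3_eq : ∀ z ∈ ball (0 : ℂ) R, z ≠ 0 →
    2 / 3 * (1 / z ^ 3 - 1 / h z ^ 3) - 2 * c / h z = z * (m13 + z ^ 2 * Y3 z)
  Y1_zero : Y1 0 = m13
  Y3_zero : Y3 0 = m33

theorem exists_expansion (hR : 0 < R) (hd : DifferentiableOn ℂ h (ball 0 R))
    (hi : InjOn h (ball 0 R)) (hodd : OddOn R h) (h1 : deriv h 0 = 1) :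
    ∃ (c m13 m33 : ℂ) (H H2 Y1 Y3 : ℂ → ℂ), Expansion R h c m13 m33 H H2 Y1 Y3 := by
  have h0 : (0 : ℂ) ∈ ball (0 : ℂ) R := mem_ball_self hR
  obtain ⟨H, hH, hHe, hhH, hH0⟩ := odd_factor hR hd hodd
  rw [h1] at hH0
  obtain ⟨H2, hH2, hH2e, hHH2⟩ := even_factor hR hH hHe
  rw [hH0] at hHH2
  have hh0 : h 0 = 0 := by rw [hhH]; simp
  have hne : ∀ z ∈ ball (0 : ℂ) R, z ≠ 0 → h z ≠ 0 := by
    intro z hz hz0 hz1
    apply hz0
    apply hi hz h0
    rw [hz1, hh0]
  have hHne : ∀ z ∈ ball (0 : ℂ) R, H z ≠ 0 := by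
    intro z hz hz1
    by_cases hz0 : z = 0
    · rw [hz0, hH0] at hz1
      exact one_ne_zero hz1
    · apply hne z hz hz0
      rw [hhH, hz1, mul_zero]
  set E0 : ℂ → ℂ := fun z => H2 z / H z with hE0
  have hE0d : DifferentiableOn ℂ E0 (ball 0 R) := hH2.div hH hHne
  have hE0e : EvenOn R E0 := by
    intro z hz
    simp only [hE0]
    rw [hH2e z hz, hHe z hz]
  have hE00 : E0 0 = H2 0 := by
    simp only [hE0]
    rw [hH0, div_one]
  obtain ⟨E1, hE1, hE1e, hE01⟩ := even_factor hR hE0d hE0e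
  obtain ⟨E2, hE2, hE2e, hE12⟩ := even_factor hR hE1 hE1e
  rw [hE00] at hE01
  have hinv : ∀ z ∈ ball (0 : ℂ) R, z ≠ 0 → (h z)⁻¹ = z⁻¹ - z * E0 z := by
    intro z hz hz0
    have n1 := hHne z hz
    simp only [hE0]
    rw [hhH, mul_inv]
    have h2 := hHH2 z
    have h3 : H z - 1 = z ^ 2 * H2 z := by rw [h2]; ring
    field_simp
    linear_combination -h3
  refine ⟨H2 0, 2 * E1 0, 2 * E2 0 - 2 * E0 0 * E1 0 + 2 / 3 * E0 0 ^ 3, H, H2,
    fun z => 2 * E1 z, fun z => 2 * E2 z - 2 * E0 z * E1 z + 2 / 3 * E0 z ^ 3, ?_⟩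
  constructor
  · exact hH
  · exact hH2
  · exact hE1.const_mul 2
  · exact ((hE2.const_mul 2).sub ((hE0d.const_mul 2).mul hE1)).add ((hE0d.pow 3).const_mul _)
  · exact hhH
  · exact hHH2
  · rfl
  · exact hne
  · intro z hz hz0
    rw [div_eq_mul_inv 2 (h z), hinv z hz hz0, hE01 z]
    field_simp
    ring
  · intro z hz hz0
    have e1 : 1 / h z ^ 3 = (z⁻¹ - z * E0 z) ^ 3 := by
      rw [← hinv z hz hz0, one_div, inv_pow]
    rw [e1, div_eq_mul_inv (2 * H2 0) (h z), hinv z hz hz0]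
    have e2 := hE01 z
    have e3 := hE12 z
    field_simp
    rw [show H2 0 = E0 z - z ^ 2 * E1 z by rw [e2]; ring]
    rw [show E1 0 = E1 z - z ^ 2 * E2 z by rw [e3]; ring]
    ring
  · rfl
  · rfl

theorem gA_eq (hd : DifferentiableOn ℂ h (ball 0 R)) (hi : InjOn h (ball 0 R))
    {a z : ℂ} (ha : a ∈ ball (0 : ℂ) R) (hz : z ∈ ball (0 : ℂ) R)
    (h1 : z ≠ a) (h2 : z ≠ -a) :
    gA h a z = deriv h z / (h z - h a) - 1 / (z - a) -
      (deriv h z / (h z - h (-a)) - 1 / (z + a)) := by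
  have key : ∀ b ∈ ball (0 : ℂ) R, z ≠ b → deriv (dslope h b) z / dslope h b z =
      deriv h z / (h z - h b) - 1 / (z - b) := by
    intro b hb hzb
    have n1 := dslope_ne_zero hd hi hb hz
    have n2 := sub_ne_zero.mpr hzb
    rw [deriv_eq_dslope hd hb hz, sub_eq_mul_dslope]
    field_simp
    ring
  unfold gA
  rw [key a ha h1, key (-a) (neg_mem_ball ha) h2]
  ring

/-- Expansion of the logarithms at zero. -/
theorem LA_expand (hR : 0 < R) (hd : DifferentiableOn ℂ h (ball 0 R))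
    (hi : InjOn h (ball 0 R)) (hodd : OddOn R h) {c m13 m33 : ℂ} {H H2 Y1 Y3 : ℂ → ℂ}
    (hE : Expansion R h c m13 m33 H H2 Y1 Y3) {a : ℂ} (ha : a ∈ ball (0 : ℂ) R) (ha0 : a ≠ 0) :
    ∃ Y : ℂ → ℂ, DifferentiableOn ℂ Y (ball 0 R) ∧
      (∀ z, LA R h a z = z * ((2 / a - 2 / h a) + z ^ 2 * Y z)) ∧
      Y 0 = 2 / 3 * (1 / a ^ 3 - 1 / h a ^ 3) - 2 * c / h a := by
  have h0 : (0 : ℂ) ∈ ball (0 : ℂ) R := mem_ball_self hR
  obtain ⟨s1, s2, s3⟩ := LA_spec hR hd hi hodd ha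
  have hLd : DifferentiableOn ℂ (LA R h a) (ball 0 R) :=
    fun w hw => (s2 w hw).differentiableAt.differentiableWithinAt
  have hLodd := LA_odd hR hd hi hodd ha
  obtain ⟨B, hB, hBe, hLB, hB0⟩ := odd_factor hR hLd hLodd
  obtain ⟨Y, hY, hYe, hBY⟩ := even_factor hR hB hBe
  have hha := hE.h_ne a ha ha0
  have hhneg : h (-a) = - h a := hodd a ha
  have hder1 : ∀ z ∈ ball (0 : ℂ) R, HasDerivAt h (1 + z ^ 2 * (3 * H2 z + z * deriv H2 z)) z := by
    intro z hz
    have d2 := (hE.hH2.differentiableAt (isOpen_ball.mem_nhds hz)).hasDerivAt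
    have hfun : h = fun z => z + z ^ 3 * H2 z := by
      funext z
      rw [hE.h_eq, hE.H_eq]
      ring
    rw [hfun]
    have d3 := (hasDerivAt_id' z).fun_add ((hasDerivAt_pow 3 z).fun_mul d2)
    apply d3.congr_deriv
    simp only [Nat.cast_ofNat, Nat.add_one_sub_one]
    ring
  have hh0 : h 0 = 0 := by rw [hE.h_eq]; simp
  have hB0' : B 0 = 2 / a - 2 / h a := by
    rw [hB0, (s2 0 h0).deriv, gA_eq hd hi ha h0 (Ne.symm ha0) (by
      intro h1
      apply ha0
      rw [← neg_eq_zero]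
      exact h1.symm), (hder1 0 h0).deriv, hh0, hhneg,
      show (1 + (0 : ℂ) ^ 2 * (3 * H2 0 + 0 * deriv H2 0)) = 1 by ring,
      zero_sub, zero_sub, sub_neg_eq_add, zero_add, zero_add]
    field_simp
    ring
  refine ⟨Y, hY, ?_, ?_⟩
  · intro z
    rw [hLB, hBY z, hB0']
  · -- limit argument
    have hLder : ∀ z ∈ ball (0 : ℂ) R, HasDerivAt (LA R h a)
        (B 0 + z ^ 2 * (3 * Y z + z * deriv Y z)) z := by
      intro z hz
      have d2 := (hY.differentiableAt (isOpen_ball.mem_nhds hz)).hasDerivAt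
      have hfun : LA R h a = fun z => B 0 * z + z ^ 3 * Y z := by
        funext z
        rw [hLB, hBY z]
        ring
      rw [hfun]
      have d3 := ((hasDerivAt_id' z).const_mul (B 0)).fun_add ((hasDerivAt_pow 3 z).fun_mul d2)
      apply d3.congr_deriv
      simp only [Nat.cast_ofNat, Nat.add_one_sub_one]
      ring
    set W : ℂ → ℂ := fun z => 2 * (h a ^ 2 * (3 * H2 z + z * deriv H2 z) + H z ^ 2) /
      (h a * (h z ^ 2 - h a ^ 2)) - 2 / (a * (z ^ 2 - a ^ 2)) with hW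
    have hdenz : ∀ᶠ z in 𝓝 (0 : ℂ), h z ^ 2 - h a ^ 2 ≠ 0 ∧ z ^ 2 - a ^ 2 ≠ 0 ∧
        z ∈ ball (0 : ℂ) R ∧ z ≠ a ∧ z ≠ -a := by
      have hc : ContinuousAt h 0 := hd.continuousOn.continuousAt (isOpen_ball.mem_nhds h0)
      have e1 : ∀ᶠ z in 𝓝 (0 : ℂ), h z ^ 2 - h a ^ 2 ≠ 0 := by
        have e0 : h 0 ^ 2 - h a ^ 2 ≠ 0 := by
          rw [hh0]
          simpa using hha
        exact ContinuousAt.eventually_ne ((hc.pow 2).sub continuousAt_const) e0
      have e2 : ∀ᶠ z in 𝓝 (0 : ℂ), z ^ 2 - a ^ 2 ≠ 0 := by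
        apply ContinuousAt.eventually_ne (by fun_prop)
        simpa using ha0
      have e3 : ∀ᶠ z in 𝓝 (0 : ℂ), z ∈ ball (0 : ℂ) R := isOpen_ball.mem_nhds h0
      filter_upwards [e1, e2, e3] with z w1 w2 w3
      refine ⟨w1, w2, w3, ?_, ?_⟩
      · rintro rfl
        exact w2 (sub_self _)
      · rintro rfl
        apply w2
        ring
    have heq : ∀ᶠ z in 𝓝[≠] (0 : ℂ), 3 * Y z + z * deriv Y z = W z := by
      filter_upwards [hdenz.filter_mono nhdsWithin_le_nhds, eventually_mem_nhdsWithin] with z hz hz0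
      obtain ⟨w1, w2, w3, w4, w5⟩ := hz
      have hz0' : z ≠ 0 := hz0
      have e1 := (s2 z w3).unique (hLder z w3)
      rw [gA_eq hd hi ha w3 w4 w5, (hder1 z w3).deriv, hhneg, hB0'] at e1
      have n1 : h z - h a ≠ 0 := by
        intro h2
        apply w1
        linear_combination (h z + h a) * h2
      have n2 : h z + h a ≠ 0 := by
        intro h2
        apply w1
        linear_combination (h z - h a) * h2
      have n3 : z - a ≠ 0 := sub_ne_zero.mpr w4
      have n4 : z + a ≠ 0 := by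
        intro h2
        apply w5
        linear_combination h2
      have e2 : z ^ 2 * (3 * Y z + z * deriv Y z) = z ^ 2 * W z := by
        rw [show z ^ 2 * (3 * Y z + z * deriv Y z) = 2 / a - 2 / h a +
          z ^ 2 * (3 * Y z + z * deriv Y z) - (2 / a - 2 / h a) by ring, ← e1]
        simp only [hW]
        have e3 : H z ^ 2 * z ^ 2 = h z ^ 2 := by rw [hE.h_eq z]; ring
        have f1 : (1 + z ^ 2 * (3 * H2 z + z * deriv H2 z)) / (h z - h a) - 1 / (z - a) -
          ((1 + z ^ 2 * (3 * H2 z + z * deriv H2 z)) / (h z - -h a) - 1 / (z + a)) -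
          (2 / a - 2 / h a) =
          (2 * h a * (1 + z ^ 2 * (3 * H2 z + z * deriv H2 z)) / (h z ^ 2 - h a ^ 2) + 2 / h a) -
          (2 * a / (z ^ 2 - a ^ 2) + 2 / a) := by
          rw [sub_neg_eq_add]
          rw [show h z ^ 2 - h a ^ 2 = (h z - h a) * (h z + h a) by ring,
            show z ^ 2 - a ^ 2 = (z - a) * (z + a) by ring]
          field_simp
          ring
        have f2 : z ^ 2 * (2 * (h a ^ 2 * (3 * H2 z + z * deriv H2 z) + H z ^ 2) /
            (h a * (h z ^ 2 - h a ^ 2)) - 2 / (a * (z ^ 2 - a ^ 2))) =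
            2 * (h a ^ 2 * (z ^ 2 * (3 * H2 z + z * deriv H2 z)) + h z ^ 2) /
            (h a * (h z ^ 2 - h a ^ 2)) - 2 * z ^ 2 / (a * (z ^ 2 - a ^ 2)) := by
          rw [← e3]
          ring
        rw [f1, f2]
        field_simp
        ring
      exact mul_left_cancel₀ (pow_ne_zero 2 hz0') e2
    have hYc : ContinuousAt (fun z => 3 * Y z + z * deriv Y z) 0 := by
      have c1 : ContinuousAt Y 0 := hY.continuousOn.continuousAt (isOpen_ball.mem_nhds h0)
      have c2 : ContinuousAt (deriv Y) 0 :=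
        (hY.deriv isOpen_ball).continuousOn.continuousAt (isOpen_ball.mem_nhds h0)
      exact (continuousAt_const.mul c1).add (continuousAt_id.mul c2)
    have hWc : ContinuousAt W 0 := by
      have c1 : ContinuousAt H2 0 := hE.hH2.continuousOn.continuousAt (isOpen_ball.mem_nhds h0)
      have c2 : ContinuousAt (deriv H2) 0 :=
        (hE.hH2.deriv isOpen_ball).continuousOn.continuousAt (isOpen_ball.mem_nhds h0)
      have c3 : ContinuousAt H 0 := hE.hH.continuousOn.continuousAt (isOpen_ball.mem_nhds h0)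
      have c4 : ContinuousAt h 0 := hd.continuousOn.continuousAt (isOpen_ball.mem_nhds h0)
      apply ContinuousAt.sub
      · apply ContinuousAt.div
        · exact continuousAt_const.mul ((continuousAt_const.mul
            ((continuousAt_const.mul c1).add (continuousAt_id.mul c2))).add (c3.pow 2))
        · exact continuousAt_const.mul ((c4.pow 2).sub continuousAt_const)
        · rw [hh0]
          simpa using hha
      · apply ContinuousAt.div (by fun_prop) (by fun_prop)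
        simpa using ha0
    have hlim1 : Tendsto (fun z => 3 * Y z + z * deriv Y z) (𝓝[≠] 0)
        (𝓝 (3 * Y 0 + 0 * deriv Y 0)) := hYc.tendsto.mono_left nhdsWithin_le_nhds
    have hlim2 : Tendsto W (𝓝[≠] 0) (𝓝 (W 0)) := hWc.tendsto.mono_left nhdsWithin_le_nhds
    have hlim3 := hlim2.congr' (heq.mono fun z hz => hz.symm)
    have hfin := tendsto_nhds_unique hlim1 hlim3
    simp only [hW] at hfin
    rw [hE.H2_zero, hh0] at hfin
    have hH0 : H 0 = 1 := by rw [hE.H_eq]; simp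
    rw [hH0] at hfin
    have : Y 0 = (2 * (h a ^ 2 * (3 * c + 0 * deriv H2 0) + 1 ^ 2) / (h a * (0 ^ 2 - h a ^ 2)) -
      2 / (a * (0 ^ 2 - a ^ 2))) / 3 := by
      rw [← hfin]
      ring
    rw [this]
    field_simp
    ring

end Pool.Agent.Lib.Pd7a79b
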