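import Pool.Agent.Lib.Pd7a79b.Assemble

/-!
# The contradiction, and the bound for the second coefficient
-/

set_option autoImplicit false

open Complex Metric Set Filter Topology

namespace Pool.Agent.Lib.Pd7a79b

/-- Goluzin data of `h` and of its inverse `k`, with the coefficient `c₀`. -/
structure Full (h k : ℂ → ℂ) (R : ℝ) (m13 m33 : ℂ) (D D' : ℂ → ℂ → ℂ) : Prop where
  S : Setup h k R
  Gh : GolData h c0 m13 m33 D
  Gk : GolData k (-(c0 : ℂ)) (-m13 + 2 * (c0 : ℂ) ^ 2)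
    (-m33 + 2 * (c0 : ℂ) * m13 - 2 * (c0 : ℂ) ^ 3) D'

section
variable {h k : ℂ → ℂ} {R : ℝ} {m13 m33 : ℂ} {D D' : ℂ → ℂ → ℂ}

theorem Full.sys0 (H : Full h k R m13 m33 D D') {z : ℂ} (hz : ‖z‖ < 1) (hz0 : z ≠ 0) :
    Sys0 z (h z) m13 m33 (D z z) := by
  have hzb : z ∈ ball (0 : ℂ) 1 := mem_ball_zero_iff.2 hz
  constructor
  · intro x1 x3 xp
    exact H.Gh.ineq z hzb z hzb hz0 hz0 x1 x3 xp 0
  · intro y1 y3
    have hh : ‖(1 / 2 : ℂ)‖ < 1 := by norm_num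
    have hb : (1 / 2 : ℂ) ∈ ball (0 : ℂ) 1 := mem_ball_zero_iff.2 hh
    have h1 := H.Gk.ineq (1 / 2) hb (1 / 2) hb (by norm_num) (by norm_num) (y1 + c0 * y3) y3 0 0
    rw [KF_two _ _ _ _ hh hh] at h1
    have e : QF (-(c0 : ℂ)) (-m13 + 2 * (c0 : ℂ) ^ 2)
        (-m33 + 2 * (c0 : ℂ) * m13 - 2 * (c0 : ℂ) ^ 3) (1 / 2) (1 / 2) (k (1 / 2)) (k (1 / 2))
        (D' (1 / 2) (1 / 2)) (D' (1 / 2) (1 / 2)) (D' (1 / 2) (1 / 2)) (y1 + c0 * y3) y3 0 0
        = -(y1 ^ 2 * (2 * (c0 : ℂ)) + 2 * y1 * y3 * m13 + y3 ^ 2 * m33) := by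
      unfold QF; ring
    rw [e, norm_neg] at h1
    exact h1

/-- the path stays in the disc of radius `64/65` at the end -/
theorem Full.path (H : Full h k R m13 m33 D D') {p : ℂ} (hp : p = p0 ∨ p = (starRingEnd ℂ) p0) :
    (∀ t : ℝ, 0 ≤ t → t ≤ 1 → ‖h (t * p)‖ < 1) ∧ ‖h p‖ < 64 / 65 := by
  have hp0n : ‖p0‖ ^ 2 = 4096 / 5525 := norm_p0_sq
  have hpn : ‖p‖ = ‖p0‖ := by
    rcases hp with rfl | rfl
    · rfl
    · exact Complex.norm_conj _
  have hp1 : ‖p‖ < 1 := by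
    by_contra hcon
    push Not at hcon
    have : 1 ≤ ‖p‖ ^ 2 := one_le_pow₀ hcon
    rw [hpn, hp0n] at this
    norm_num at this
  have hpne : p ≠ 0 := by
    intro h0
    rw [h0, norm_zero] at hpn
    rw [← hpn] at hp0n
    norm_num at hp0n
  -- exclusion of the circle
  have hcirc : ∀ t : ℝ, 0 < t → t ≤ 1 → ‖h (t * p)‖ ≠ 1 := by
    intro t ht0 ht1
    have hz1 : ‖(t : ℂ) * p‖ < 1 := by
      rw [norm_mul, Complex.norm_real, Real.norm_of_nonneg ht0.le]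
      nlinarith [norm_nonneg p]
    have hz0 : (t : ℂ) * p ≠ 0 := mul_ne_zero (by exact_mod_cast ht0.ne') hpne
    have hs := H.sys0 hz1 hz0
    rcases hp with rfl | rfl
    · exact stage0 t ht0 ht1 _ _ _ _ hs
    · have hs' := hs.conj
      rw [map_mul, Complex.conj_conj, Complex.conj_ofReal] at hs'
      have := stage0 t ht0 ht1 _ _ _ _ hs'
      rwa [Complex.norm_conj] at this
  have hcontOn : ContinuousOn (fun t : ℝ => ‖h (t * p)‖) (Icc 0 1) := by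
    apply ContinuousOn.norm
    apply H.S.hd.continuousOn.comp (by fun_prop)
    intro t ht
    apply H.S.ball_sub
    rw [norm_mul, Complex.norm_real, Real.norm_of_nonneg ht.1]
    nlinarith [norm_nonneg p, ht.1, ht.2]
  have hlt : ∀ t : ℝ, 0 ≤ t → t ≤ 1 → ‖h (t * p)‖ < 1 := by
    intro t ht0 ht1
    by_contra hcon
    push Not at hcon
    have hsub : Icc (0 : ℝ) t ⊆ Icc 0 1 := Icc_subset_Icc le_rfl ht1
    have hivt := intermediate_value_Icc ht0 (hcontOn.mono hsub)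
    have h0v : ‖h (((0 : ℝ) : ℂ) * p)‖ = 0 := by
      rw [Complex.ofReal_zero, zero_mul, H.S.h0, norm_zero]
    have hmem : (1 : ℝ) ∈ Icc ‖h (((0 : ℝ) : ℂ) * p)‖ ‖h ((t : ℂ) * p)‖ := by
      rw [h0v]; exact ⟨by norm_num, hcon⟩
    obtain ⟨s, hs, hs1⟩ := hivt hmem
    have hs0 : 0 < s := by
      rcases hs.1.lt_or_eq with h | h
      · exact h
      · exfalso
        simp only [← h] at hs1
        rw [h0v] at hs1
        norm_num at hs1
    exact hcirc s hs0 (hs.2.trans ht1) hs1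
  refine ⟨hlt, ?_⟩
  by_contra hcon
  push Not at hcon
  have hle : ‖h p‖ ≤ 1 := by
    have := hlt 1 (by norm_num) le_rfl
    rw [Complex.ofReal_one, one_mul] at this
    exact this.le
  have hs := H.sys0 hp1 hpne
  rcases hp with rfl | rfl
  · exact stage0a _ _ _ _ hs hcon hle
  · have hs' := hs.conj
    rw [Complex.conj_conj] at hs'
    exact stage0a _ _ _ _ hs' (by rwa [Complex.norm_conj]) (by rwa [Complex.norm_conj])

theorem Full.Dneg (H : Full h k R m13 m33 D D') {p : ℂ} (hp : ‖p‖ ^ 2 = 4096 / 5525)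
    (hw : ‖h p‖ ≤ 64 / 65) (hev : ∀ᶠ ζ in 𝓝 p, k (h ζ) = ζ) :
    h p ≠ 0 ∧ D' (h p) (h p) = -D p p := by
  obtain ⟨hp1, hKp⟩ := KF_two_of_p0 (le_of_eq hp)
  have hpb : p ∈ ball (0 : ℂ) 1 := mem_ball_zero_iff.2 hp1
  have hpR : p ∈ ball (0 : ℂ) R := H.S.ball_sub hp1.le
  have hp0 : p ≠ 0 := by
    rintro rfl
    norm_num at hp
  have hw1 : ‖h p‖ < 1 := lt_of_le_of_lt hw (by norm_num)
  have hwb : h p ∈ ball (0 : ℂ) 1 := mem_ball_zero_iff.2 hw1
  have hwR : h p ∈ ball (0 : ℂ) R := H.S.ball_sub hw1.le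
  have hw0 : h p ≠ 0 := by
    intro h0
    rw [← H.S.h0] at h0
    exact hp0 (H.S.hi hpR H.S.mem0 h0)
  refine ⟨hw0, ?_⟩
  have hkp : k (h p) = p := hev.self_of_nhds
  -- derivative of the composition
  have hdh : HasDerivAt h (deriv h p) p :=
    (H.S.hd.differentiableAt (isOpen_ball.mem_nhds hpR)).hasDerivAt
  have hdk : HasDerivAt k (deriv k (h p)) (h p) :=
    (H.S.kd.differentiableAt (isOpen_ball.mem_nhds hwR)).hasDerivAt
  have hcomp : HasDerivAt (fun ζ => k (h ζ)) (deriv k (h p) * deriv h p) p := hdk.comp p hdh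
  have hid : HasDerivAt (fun ζ => k (h ζ)) 1 p :=
    (hasDerivAt_id p).congr_of_eventuallyEq hev
  have hprod : deriv k (h p) * deriv h p = 1 := hcomp.unique hid
  have e1 := H.Gh.expDD p hpb hp0
  have e2 := H.Gk.expDD (h p) hwb hw0
  rw [hkp] at e2
  apply neg_of_exp
  · rw [e1, e2]
    field_simp
    linear_combination hprod
  · have h1 := H.Gh.ineq p hpb p hpb hp0 hp0 0 0 1 0
    have e : QF c0 m13 m33 p p (h p) (h p) (D p p) (D p p) (D p p) 0 0 1 0 = D p p := by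
      unfold QF; ring
    rw [e] at h1
    exact h1.trans hKp
  · have h1 := H.Gk.ineq (h p) hwb (h p) hwb hw0 hw0 0 0 1 0
    have e : QF (-(c0 : ℂ)) (-m13 + 2 * (c0 : ℂ) ^ 2)
        (-m33 + 2 * (c0 : ℂ) * m13 - 2 * (c0 : ℂ) ^ 3) (h p) (h p) (k (h p)) (k (h p))
        (D' (h p) (h p)) (D' (h p) (h p)) (D' (h p) (h p)) 0 0 1 0 = D' (h p) (h p) := by
      unfold QF; ring
    rw [e] at h1
    exact h1.trans (KF_diag_log hw)

theorem Full.sys1 (H : Full h k R m13 m33 D D') {p : ℂ} (hp : ‖p‖ ^ 2 = 4096 / 5525)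
    (hw : ‖h p‖ ≤ 64 / 65) (hev : ∀ᶠ ζ in 𝓝 p, k (h ζ) = ζ) :
    Sys1 p (h p) m13 m33 (D p p) := by
  obtain ⟨hp1, _⟩ := KF_two_of_p0 (le_of_eq hp)
  have hp0 : p ≠ 0 := by
    rintro rfl
    norm_num at hp
  obtain ⟨hw0, hD⟩ := H.Dneg hp hw hev
  have hw1 : ‖h p‖ < 1 := lt_of_le_of_lt hw (by norm_num)
  have hwb : h p ∈ ball (0 : ℂ) 1 := mem_ball_zero_iff.2 hw1
  constructor
  · exact (H.sys0 hp1 hp0).f
  · intro y1 y3 yp
    have h1 := H.Gk.ineq (h p) hwb (h p) hwb hw0 hw0 (y1 + c0 * y3) y3 yp 0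
    rw [hev.self_of_nhds, hD, QF_transfer, norm_neg] at h1
    exact h1

theorem Full.false (H : Full h k R m13 m33 D D') : False := by
  set q : ℂ := (starRingEnd ℂ) p0 with hq
  have hpn : ‖p0‖ ^ 2 = 4096 / 5525 := norm_p0_sq
  have hqn : ‖q‖ ^ 2 = 4096 / 5525 := by rw [hq, Complex.norm_conj, hpn]
  have hq0 : q = q0 := by
    rw [hq]
    unfold q0 p0
    rw [map_div₀, map_div₀, map_add, map_mul, Complex.conj_I, map_one]
    have a1 : (starRingEnd ℂ) (62 : ℂ) = 62 := Complex.conj_ofNat 62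
    have a2 : (starRingEnd ℂ) (41 : ℂ) = 41 := Complex.conj_ofNat 41
    have a3 : (starRingEnd ℂ) (64 : ℂ) = 64 := Complex.conj_ofNat 64
    rw [a1, a2, a3]
    ring
  obtain ⟨hp1, hKp⟩ := KF_two_of_p0 (le_of_eq hpn)
  obtain ⟨hq1, hKq⟩ := KF_two_of_p0 (le_of_eq hqn)
  have hpb : p0 ∈ ball (0 : ℂ) 1 := mem_ball_zero_iff.2 hp1
  have hqb : q ∈ ball (0 : ℂ) 1 := mem_ball_zero_iff.2 hq1
  have hpR : p0 ∈ ball (0 : ℂ) R := H.S.ball_sub hp1.le
  have hqR : q ∈ ball (0 : ℂ) R := H.S.ball_sub hq1.le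
  have hp0 : p0 ≠ 0 := by
    intro h0; rw [h0] at hpn; norm_num at hpn
  have hq0' : q ≠ 0 := by
    intro h0; rw [h0] at hqn; norm_num at hqn
  obtain ⟨hpp, hpw⟩ := H.path (Or.inl rfl)
  obtain ⟨hqp, hqw⟩ := H.path (p := q) (Or.inr rfl)
  have hevp := H.S.cont hp1 hpp
  have hevq := H.S.cont hq1 hqp
  obtain ⟨hwp0, hDp⟩ := H.Dneg hpn hpw.le hevp
  obtain ⟨hwq0, hDq⟩ := H.Dneg hqn hqw.le hevq
  have hwp1 : ‖h p0‖ < 1 := lt_of_lt_of_le hpw (by norm_num)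
  have hwq1 : ‖h q‖ < 1 := lt_of_lt_of_le hqw (by norm_num)
  have hwpb : h p0 ∈ ball (0 : ℂ) 1 := mem_ball_zero_iff.2 hwp1
  have hwqb : h q ∈ ball (0 : ℂ) 1 := mem_ball_zero_iff.2 hwq1
  -- p0 ≠ ± q
  have hre : ∀ z : ℂ, (1 / z).re ≠ 0 → (1 / z).im ≠ 0 → z ≠ (starRingEnd ℂ) z ∧
      z ≠ -(starRingEnd ℂ) z := by
    intro z h1 h2
    constructor
    · intro h3
      apply h2
      have h4 : (1 / z) = (starRingEnd ℂ) (1 / z) := by
        rw [map_div₀, map_one, ← h3]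
      have h5 := congrArg Complex.im h4
      rw [Complex.conj_im] at h5
      linarith
    · intro h3
      apply h1
      have h4 : (1 / z) = -(starRingEnd ℂ) (1 / z) := by
        rw [map_div₀, map_one]
        rw [← div_neg, ← h3]
      have h5 := congrArg Complex.re h4
      rw [Complex.neg_re, Complex.conj_re] at h5
      linarith
  have hne := hre p0 (by rw [one_div_p0, U0_val]; simp) (by rw [one_div_p0, U0_val]; simp)
  rw [← hq] at hne
  have hwne : h p0 ≠ h q := fun h1 => hne.1 (H.S.hi hpR hqR h1)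
  have hwne2 : h p0 ≠ -h q := by
    intro h1
    rw [← H.S.ho q hqR] at h1
    refine hne.2 (H.S.hi hpR ?_ h1)
    rw [mem_ball_zero_iff, norm_neg]
    exact mem_ball_zero_iff.1 hqR
  -- the off-diagonal entry
  have hD1 := H.Gh.expD p0 hpb q hqb hp0 hq0' hne.1 hne.2
  have hD2 := H.Gk.expD (h p0) hwpb (h q) hwqb hwp0 hwq0 hwne hwne2
  rw [hevp.self_of_nhds, hevq.self_of_nhds] at hD2
  have hb1 : ‖D p0 q‖ ≤ 2 := by
    have := off_diag_bound hp1 hq1 hKp hKq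
      (fun x1 x3 xp xq => H.Gh.ineq p0 hpb q hqb hp0 hq0' x1 x3 xp xq)
    linarith
  have hb2 : ‖D' (h p0) (h q)‖ ≤ 17 / 4 := by
    have := off_diag_bound hwp1 hwq1 (KF_diag_log hpw.le) (KF_diag_log hqw.le)
      (fun x1 x3 xp xq => H.Gk.ineq (h p0) hwpb (h q) hwqb hwp0 hwq0 x1 x3 xp xq)
    linarith
  have hs1 : h p0 - h q ≠ 0 := sub_ne_zero.2 hwne
  have hs2 : h p0 + h q ≠ 0 := fun h0 => hwne2 (by linear_combination h0)
  have hs3 : p0 - q ≠ 0 := sub_ne_zero.2 hne.1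
  have hs4 : p0 + q ≠ 0 := fun h0 => hne.2 (by linear_combination h0)
  have hDpq : D' (h p0) (h q) = -D p0 q := by
    apply neg_of_exp _ hb1 hb2
    rw [hD1, hD2]
    field_simp
  have hlog : D p0 q = Complex.log (((h p0 - h q) * (p0 + q)) / ((h p0 + h q) * (p0 - q))) := by
    rw [← hD1]
    have him : |(D p0 q).im| ≤ 2 := (abs_im_le_norm _).trans hb1
    have hpi := Real.pi_gt_d2
    rw [abs_le] at him
    rw [Complex.log_exp] <;> linarith [him.1, him.2]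
  -- localisation
  have hl1 := stage1 _ _ _ _ (H.sys1 hpn hpw.le hevp) hwp0 hpw.le
  have hs1' := (H.sys1 hqn hqw.le hevq).conj
  rw [hq, Complex.conj_conj, ← hq] at hs1'
  have hl2 := stage1 _ _ _ _ hs1' (by simpa using hwq0)
    (by rw [Complex.norm_conj]; exact hqw.le)
  have hconj : 1 / (starRingEnd ℂ) (h q) = (starRingEnd ℂ) (1 / h q) := by
    rw [map_div₀, map_one]
  rw [hconj, Complex.conj_re, Complex.conj_im] at hl2
  -- the pair system
  have hsys2 : Sys2 p0 q (h p0) (h q) m13 m33 (D p0 p0) (D q q) (D p0 q) := by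
    constructor
    · intro x1 x3 xp xq
      exact H.Gh.ineq p0 hpb q hqb hp0 hq0' x1 x3 xp xq
    · intro y1 y3 yp yq
      have h1 := H.Gk.ineq (h p0) hwpb (h q) hwqb hwp0 hwq0 (y1 + c0 * y3) y3 yp yq
      rw [hevp.self_of_nhds, hevq.self_of_nhds, hDp, hDq, hDpq, QF_transfer, norm_neg] at h1
      exact h1
  rw [hq0] at hsys2 hlog hl2
  exact stage2 _ _ _ _ _ _ _ hsys2 hlog hl1.1 hl1.2.1 hl1.2.2.1 hl1.2.2.2 hl2.1 hl2.2.1
    (by linarith [hl2.2.2.2]) (by linarith [hl2.2.2.1])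

end

/-- The bound for bi-univalent functions, assuming the Goluzin-type inequality. -/
theorem coeff_le (hG : GoluzinStatement) {f g : ℂ → ℂ}
    (hf : DifferentiableOn ℂ f (ball (0 : ℂ) 1)) (hfi : InjOn f (ball (0 : ℂ) 1))
    (hf0 : f 0 = 0) (hf1 : deriv f 0 = 1)
    (hg : DifferentiableOn ℂ g (ball (0 : ℂ) 1)) (hgi : InjOn g (ball (0 : ℂ) 1))
    (hgf : ∀ᶠ z in 𝓝 (0 : ℂ), g (f z) = z) : ‖iteratedDeriv 2 f 0‖ / 2 ≤ 181 / 128 := by
  by_contra hcon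
  push Not at hcon
  set a2 : ℂ := iteratedDeriv 2 f 0 / 2 with ha2
  have ha2n : ‖a2‖ = ‖iteratedDeriv 2 f 0‖ / 2 := by rw [ha2, norm_div]; norm_num
  have ha2b : 181 / 128 < ‖a2‖ := by rw [ha2n]; exact hcon
  have ha20 : a2 ≠ 0 := by
    intro h0; rw [h0, norm_zero] at ha2b; norm_num at ha2b
  set κ : ℂ := (181 / 128) / a2 with hκ
  have hκn : ‖κ‖ = (181 / 128) / ‖a2‖ := by rw [hκ, norm_div]; norm_num
  have hκ0 : κ ≠ 0 := by rw [hκ]; exact div_ne_zero (by norm_num) ha20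
  have hκpos : 0 < ‖κ‖ := norm_pos_iff.2 hκ0
  have hκ1 : ‖κ‖ < 1 := by
    rw [hκn, div_lt_one (norm_pos_iff.2 ha20)]; exact ha2b
  set R : ℝ := Real.sqrt (1 / ‖κ‖) with hR
  have hR2 : R ^ 2 = 1 / ‖κ‖ := Real.sq_sqrt (by positivity)
  have hR1 : 1 < R := by
    rw [hR, Real.lt_sqrt (by norm_num), one_pow, lt_div_iff₀ hκpos]
    linarith
  have hmap : ∀ z ∈ ball (0 : ℂ) (R ^ 2), κ * z ∈ ball (0 : ℂ) 1 := by
    intro z hz
    rw [mem_ball_zero_iff] at hz ⊢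
    rw [norm_mul]
    rw [hR2, lt_div_iff₀ hκpos] at hz
    linarith
  have hg0 : g 0 = 0 := by
    have := hgf.self_of_nhds
    rwa [hf0] at this
  have hm0 : (0 : ℂ) ∈ ball (0 : ℂ) 1 := mem_ball_self one_pos
  have hfd : HasDerivAt f 1 0 := by
    rw [← hf1]; exact (hf.differentiableAt (isOpen_ball.mem_nhds hm0)).hasDerivAt
  have hgd : HasDerivAt g (deriv g 0) 0 :=
    (hg.differentiableAt (isOpen_ball.mem_nhds hm0)).hasDerivAt
  have hg1 : deriv g 0 = 1 := by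
    have hgd' : HasDerivAt g (deriv g 0) (f 0) := by rw [hf0]; exact hgd
    have hc : HasDerivAt (fun z => g (f z)) (deriv g 0 * 1) 0 := hgd'.comp 0 hfd
    have hid : HasDerivAt (fun z => g (f z)) 1 0 := (hasDerivAt_id 0).congr_of_eventuallyEq hgf
    have := hc.unique hid
    simpa using this
  -- scaled functions
  have scaled : ∀ u : ℂ → ℂ, DifferentiableOn ℂ u (ball (0 : ℂ) 1) → InjOn u (ball (0 : ℂ) 1) →
      u 0 = 0 → deriv u 0 = 1 →
      DifferentiableOn ℂ (fun z => u (κ * z) / κ) (ball 0 (R ^ 2)) ∧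
        InjOn (fun z => u (κ * z) / κ) (ball 0 (R ^ 2)) ∧ u (κ * 0) / κ = 0 ∧
        deriv (fun z => u (κ * z) / κ) 0 = 1 := by
    intro u hu hui hu0 hu1
    refine ⟨?_, ?_, ?_, ?_⟩
    · apply DifferentiableOn.div_const
      exact hu.comp (by fun_prop) (fun z hz => hmap z hz)
    · intro a ha b hb hab
      simp only at hab
      have h1 : u (κ * a) = u (κ * b) := by
        have := congrArg (fun x => x * κ) hab
        simp only [div_mul_cancel₀ _ hκ0] at this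
        exact this
      exact mul_left_cancel₀ hκ0 (hui (hmap a ha) (hmap b hb) h1)
    · rw [mul_zero, hu0, zero_div]
    · have hud : HasDerivAt u 1 (κ * 0) := by
        rw [mul_zero, ← hu1]; exact (hu.differentiableAt (isOpen_ball.mem_nhds hm0)).hasDerivAt
      have hl : HasDerivAt (fun z : ℂ => κ * z) κ 0 := by
        simpa using (hasDerivAt_id (0 : ℂ)).const_mul κ
      have := (hud.comp (0 : ℂ) hl).div_const κ
      rw [one_mul, div_self hκ0] at this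
      exact this.deriv
  obtain ⟨F1, F2, F3, F4⟩ := scaled f hf hfi hf0 hf1
  obtain ⟨K1, K2, K3, K4⟩ := scaled g hg hgi hg0 hg1
  obtain ⟨h, hd, hi, ho, h1, hsq⟩ := exists_sqrt_transform hR1 F1 F2 F3 F4
  obtain ⟨k, kd, ki, ko, k1, ksq⟩ := exists_sqrt_transform hR1 K1 K2 K3 K4
  have hR0 : (0 : ℂ) ∈ ball (0 : ℂ) R := mem_ball_self (by linarith)
  have hh0 : h 0 = 0 := by
    have := ho 0 hR0
    rw [neg_zero] at this
    have h2 : (2 : ℂ) * h 0 = 0 := by linear_combination this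
    simpa using h2
  have hk0 : k 0 = 0 := by
    have := ko 0 hR0
    rw [neg_zero] at this
    have h2 : (2 : ℂ) * k 0 = 0 := by linear_combination this
    simpa using h2
  have Lh : Loc h := Loc.of_deriv (hd.differentiableAt (isOpen_ball.mem_nhds hR0)) hh0 h1
  have Lk : Loc k := Loc.of_deriv (kd.differentiableAt (isOpen_ball.mem_nhds hR0)) hk0 k1
  have hhc : ContinuousAt h 0 := (hd.differentiableAt (isOpen_ball.mem_nhds hR0)).continuousAt
  -- the composition is the identity near the origin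
  have hballR : ball (0 : ℂ) R ∈ 𝓝 (0 : ℂ) := isOpen_ball.mem_nhds hR0
  have hsqk : ∀ᶠ ζ in 𝓝 (0 : ℂ), k (h ζ) ^ 2 = ζ ^ 2 := by
    have e1 : ∀ᶠ ζ in 𝓝 (0 : ℂ), h ζ ∈ ball (0 : ℂ) R := by
      have : Tendsto h (𝓝 0) (𝓝 0) := by simpa [hh0] using hhc.tendsto
      exact this.eventually hballR
    have e2 : ∀ᶠ ζ in 𝓝 (0 : ℂ), g (f (κ * ζ ^ 2)) = κ * ζ ^ 2 := by
      have : Tendsto (fun ζ : ℂ => κ * ζ ^ 2) (𝓝 0) (𝓝 0) := by
        have : ContinuousAt (fun ζ : ℂ => κ * ζ ^ 2) 0 := by fun_prop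
        simpa [ContinuousAt] using this
      exact this.eventually hgf
    filter_upwards [e1, e2, hballR] with ζ h1 h2 h3
    rw [ksq _ h1, hsq _ h3]
    rw [mul_div_cancel₀ _ hκ0, h2, mul_div_cancel_left₀ _ hκ0]
  have hkh : ∀ᶠ ζ in 𝓝 (0 : ℂ), k (h ζ) = ζ := by
    have hr : Tendsto (fun ζ => k (h ζ) / ζ) (𝓝[≠] 0) (𝓝 1) := by
      have := (Lk.ratio.comp Lh.tendsto_punctured).mul Lh.ratio
      rw [one_mul] at this
      refine this.congr' ?_
      filter_upwards [self_mem_nhdsWithin, Lh.ne] with ζ hζ hh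
      have : ζ ≠ 0 := hζ
      simp only [Function.comp]
      field_simp
    have hne : ∀ᶠ ζ in 𝓝[≠] (0 : ℂ), k (h ζ) / ζ ≠ -1 :=
      hr.eventually_ne (by norm_num)
    have hp : ∀ᶠ ζ in 𝓝[≠] (0 : ℂ), k (h ζ) = ζ := by
      filter_upwards [hne, hsqk.filter_mono nhdsWithin_le_nhds, self_mem_nhdsWithin] with ζ a b c
      have hζ : ζ ≠ 0 := c
      rcases sq_eq_sq_iff_eq_or_eq_neg.1 b with h | h
      · exact h
      · exfalso
        apply a
        rw [h]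
        field_simp
    rw [← nhdsNE_sup_pure, Filter.eventually_sup]
    refine ⟨hp, ?_⟩
    simp [hh0, hk0]
  have S : Setup h k R := ⟨hR1, hd, hi, ho, h1, kd, ki, ko, k1, hkh⟩
  obtain ⟨c, m13, m33, D, Gh⟩ := hG R hR1 h hd hi ho h1
  obtain ⟨c', m13', m33', D', Gk⟩ := hG R hR1 k kd ki ko k1
  have hkh' : ∀ᶠ ζ in 𝓝[≠] (0 : ℂ), k (h ζ) = ζ := hkh.filter_mono nhdsWithin_le_nhds
  obtain ⟨t1, t2, t3⟩ := transfer_coeffs Lh hkh' Gh Gk
  -- the coefficient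
  have htay : Tendsto (fun z => (f (κ * z) / κ - z - (181 / 128) * z ^ 2) / z ^ 2)
      (𝓝[≠] 0) (𝓝 0) := by
    have hT := taylor_two one_pos hf
    rw [hf0, hf1] at hT
    have hsc : Tendsto (fun z : ℂ => κ * z) (𝓝[≠] 0) (𝓝[≠] 0) := by
      apply tendsto_nhdsWithin_iff.2
      constructor
      · have : ContinuousAt (fun z : ℂ => κ * z) 0 := by fun_prop
        have h2 : Tendsto (fun z : ℂ => κ * z) (𝓝 0) (𝓝 0) := by simpa [ContinuousAt] using this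
        exact h2.mono_left nhdsWithin_le_nhds
      · filter_upwards [self_mem_nhdsWithin] with z hz
        exact mul_ne_zero hκ0 hz
    have h2 := (hT.comp hsc).const_mul κ
    rw [mul_zero] at h2
    refine h2.congr' ?_
    filter_upwards [self_mem_nhdsWithin] with z hz
    have hz' : z ≠ 0 := hz
    simp only [Function.comp]
    have hκa : κ * a2 = 181 / 128 := by rw [hκ]; field_simp
    rw [← ha2, ← hκa]
    field_simp
    ring
  have hc2 : 2 * c = 181 / 128 := by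
    apply coeff_of_sq Lh (Lh.expand Gh.asym1) _ htay
    have : ∀ᶠ ζ in 𝓝 (0 : ℂ), ζ ∈ ball (0 : ℂ) R := hballR
    filter_upwards [this.filter_mono nhdsWithin_le_nhds] with ζ hζ
    exact hsq ζ hζ
  have hc : c = (c0 : ℂ) := by
    unfold c0
    push_cast
    linear_combination (1 / 2 : ℂ) * hc2
  rw [t1, t2, t3] at Gk
  rw [hc] at Gh Gk
  exact Full.false (h := h) (k := k) (R := R) ⟨S, Gh, Gk⟩

/-- Brannan's conjecture fails, assuming the Goluzin-type inequality. -/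
theorem not_brannan (hG : GoluzinStatement) :
    ¬ (IsLUB {r : ℝ | ∃ f : ℂ → ℂ,
      DifferentiableOn ℂ f (Metric.ball (0 : ℂ) 1) ∧
      Set.InjOn f (Metric.ball (0 : ℂ) 1) ∧
      f 0 = 0 ∧ deriv f 0 = 1 ∧
      (∃ g : ℂ → ℂ, DifferentiableOn ℂ g (Metric.ball (0 : ℂ) 1) ∧
        Set.InjOn g (Metric.ball (0 : ℂ) 1) ∧
        ∀ᶠ z in nhds (0 : ℂ), g (f z) = z) ∧
      r = ‖iteratedDeriv 2 f 0‖ / 2} (Real.sqrt 2)) := by
  intro hlub
  have hub : (181 / 128 : ℝ) ∈ upperBounds {r : ℝ | ∃ f : ℂ → ℂ,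
      DifferentiableOn ℂ f (Metric.ball (0 : ℂ) 1) ∧
      Set.InjOn f (Metric.ball (0 : ℂ) 1) ∧
      f 0 = 0 ∧ deriv f 0 = 1 ∧
      (∃ g : ℂ → ℂ, DifferentiableOn ℂ g (Metric.ball (0 : ℂ) 1) ∧
        Set.InjOn g (Metric.ball (0 : ℂ) 1) ∧
        ∀ᶠ z in nhds (0 : ℂ), g (f z) = z) ∧
      r = ‖iteratedDeriv 2 f 0‖ / 2} := by
    rintro r ⟨f, hf, hfi, hf0, hf1, ⟨g, hg, hgi, hgf⟩, rfl⟩
    exact coeff_le hG hf hfi hf0 hf1 hg hgi hgf
  have h1 := hlub.2 hub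
  rw [Real.sqrt_le_iff] at h1
  norm_num at h1

end Pool.Agent.Lib.Pd7a79b
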