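import Pool.Agent.Lib.Pd7a79b.Expand

set_option autoImplicit false

open Complex Metric Set Filter Topology MeasureTheory

namespace Pool.Agent.Lib.Pd7a79b

variable {R : ℝ} {h : ℂ → ℂ}

theorem odd_reindex {f : ℕ → ℂ} {a : ℂ} (hf : ∀ n, n % 2 = 0 → f n = 0) :
    HasSum (fun k => f (2 * k + 1)) a ↔ HasSum f a := by
  have hinj : Function.Injective (fun k : ℕ => 2 * k + 1) := by
    intro a b hab
    simp only at hab
    omega
  apply hinj.hasSum_iff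
  intro n hn
  apply hf
  by_contra hodd
  apply hn
  exact ⟨n / 2, by simp only; omega⟩

theorem odd_reindex_real {f : ℕ → ℝ} {a : ℝ} (hf : ∀ n, n % 2 = 0 → f n = 0) :
    HasSum (fun k => f (2 * k + 1)) a ↔ HasSum f a := by
  have hinj : Function.Injective (fun k : ℕ => 2 * k + 1) := by
    intro a b hab
    simp only at hab
    omega
  apply hinj.hasSum_iff
  intro n hn
  apply hf
  by_contra hodd
  apply hn
  exact ⟨n / 2, by simp only; omega⟩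

theorem log_odd_series {x : ℂ} (hx : ‖x‖ < 1) :
    HasSum (fun k : ℕ => -(2 / (2 * (k : ℂ) + 1)) * x ^ (2 * k + 1))
      (Complex.log (1 - x) - Complex.log (1 + x)) := by
  have h1 := Complex.hasSum_taylorSeries_neg_log hx
  have h2 := Complex.hasSum_taylorSeries_neg_log (z := -x) (by rwa [norm_neg])
  have h3 := h2.sub h1
  have h4 : HasSum (fun n : ℕ => (-x) ^ n / (n : ℂ) - x ^ n / n)
      (Complex.log (1 - x) - Complex.log (1 + x)) := by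
    rw [show Complex.log (1 - x) - Complex.log (1 + x) =
      -Complex.log (1 - -x) - -Complex.log (1 - x) by
        rw [show (1 : ℂ) - -x = 1 + x by ring]; ring]
    exact h3
  rw [← odd_reindex] at h4
  · apply h4.congr_fun
    intro k
    rw [Odd.neg_pow ⟨k, rfl⟩]
    push_cast
    ring
  · intro n hn
    rw [Even.neg_pow (Nat.even_iff.mpr hn), sub_self]

theorem geom_odd_series {x : ℂ} (hx : ‖x‖ < 1) :
    HasSum (fun k : ℕ => -2 * x ^ (2 * k + 1)) (-(x / (1 - x)) - x / (1 + x)) := by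
  have h1 : ‖x ^ 2‖ < 1 := by
    rw [norm_pow]
    exact pow_lt_one₀ (norm_nonneg _) hx two_ne_zero
  have h2 := (hasSum_geometric_of_norm_lt_one h1).mul_left (-2 * x)
  have n1 : (1 : ℂ) - x ≠ 0 := by
    intro h0
    rw [← sub_eq_zero.mp h0] at hx
    simp at hx
  have n2 : (1 : ℂ) + x ≠ 0 := by
    intro h0
    have : x = -1 := by linear_combination h0
    rw [this] at hx
    simp at hx
  have n3 : (1 : ℂ) - x ^ 2 ≠ 0 := by
    rw [show (1 : ℂ) - x ^ 2 = (1 - x) * (1 + x) by ring]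
    exact mul_ne_zero n1 n2
  have h3 : -(x / (1 - x)) - x / (1 + x) = -2 * x * (1 - x ^ 2)⁻¹ := by
    rw [show (1 : ℂ) - x ^ 2 = (1 - x) * (1 + x) by ring]
    field_simp
    ring
  rw [h3]
  apply h2.congr_fun
  intro k
  ring

/-- version of `BB_hasSum` with series converging on a larger ball -/
theorem BB_hasSum' {ρ : ℝ} (hρ : 1 < ρ) {p : ℕ → ℂ} {G G' : ℂ → ℂ}
    (hGc : ContinuousOn G (sphere (0 : ℂ) 1))
    (hser : ∀ z ∈ ball (0 : ℂ) ρ, HasSum (fun n => p n * z ^ n) (G z))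
    (hser'' : ∀ z ∈ ball (0 : ℂ) ρ, HasSum (fun n => n * p n * z ^ n) (z * G' z)) :
    HasSum (fun n : ℕ => n * ‖p n‖ ^ 2) (BB G G').re := by
  obtain ⟨r, hr1, hr2⟩ := exists_between hρ
  have hrb : (r : ℂ) ∈ ball (0 : ℂ) ρ := by
    rw [mem_ball_zero_iff, Complex.norm_real, Real.norm_of_nonneg (by linarith)]
    exact hr2
  have hs1 : Summable fun n => ‖p n‖ := by
    have h1 := (hser r hrb).summable.norm
    apply h1.of_nonneg_of_le (fun _ => norm_nonneg _)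
    intro n
    rw [norm_mul (p n), norm_pow, Complex.norm_real, Real.norm_of_nonneg (by linarith)]
    exact le_mul_of_one_le_right (norm_nonneg _) (one_le_pow₀ hr1.le)
  have hs2 : Summable fun n : ℕ => (n : ℝ) * ‖p n‖ := by
    have h1 := (hser'' r hrb).summable.norm
    apply h1.of_nonneg_of_le (fun _ => by positivity)
    intro n
    rw [norm_mul ((n : ℂ) * p n), norm_mul (n : ℂ), norm_pow, Complex.norm_real,
      Real.norm_of_nonneg (by linarith), Complex.norm_natCast]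
    exact le_mul_of_one_le_right (by positivity) (one_le_pow₀ hr1.le)
  have hsub := sphere_sub_ball hρ
  have h1 := BB_hasSum hs1 hs2 hGc (fun z hz => hser z (hsub hz))
    (fun z hz => hser'' z (hsub hz))
  have h2 := Complex.reCLM.hasSum h1
  simp only [Complex.reCLM_apply, Complex.ofReal_re] at h2
  exact h2

variable {ι : Type*} [Fintype ι]

/-- the moment sequence -/
noncomputable def mom (α₁ α₃ : ℂ) (γ ζ : ι → ℂ) (k : ℕ) : ℂ :=
  (if k = 0 then α₁ else 0) + (if k = 1 then α₃ else 0) + ∑ i, γ i * ζ i ^ (2 * k + 1)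

/-- the conjugate principal part -/
noncomputable def qq (α₁ α₃ : ℂ) (γ ζ : ι → ℂ) (z : ℂ) : ℂ :=
  (∑ i, (starRingEnd ℂ) (γ i) * (Complex.log (1 - (starRingEnd ℂ) (ζ i) * z) -
    Complex.log (1 + (starRingEnd ℂ) (ζ i) * z))) - 2 * (starRingEnd ℂ) α₁ * z -
    2 / 3 * (starRingEnd ℂ) α₃ * z ^ 3

/-- its derivative -/
noncomputable def qq' (α₁ α₃ : ℂ) (γ ζ : ι → ℂ) (z : ℂ) : ℂ :=
  (∑ i, (starRingEnd ℂ) (γ i) * (-((starRingEnd ℂ) (ζ i) / (1 - (starRingEnd ℂ) (ζ i) * z)) -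
    (starRingEnd ℂ) (ζ i) / (1 + (starRingEnd ℂ) (ζ i) * z))) - 2 * (starRingEnd ℂ) α₁ -
    2 * (starRingEnd ℂ) α₃ * z ^ 2

theorem slit_one_sub {x : ℂ} (hx : ‖x‖ < 1) : 1 - x ∈ slitPlane := by
  rw [sub_eq_add_neg]
  exact mem_slitPlane_of_norm_lt_one (by rwa [norm_neg])

theorem slit_one_add {x : ℂ} (hx : ‖x‖ < 1) : 1 + x ∈ slitPlane :=
  mem_slitPlane_of_norm_lt_one hx

theorem small_mul {ρ : ℝ} {w z : ℂ} (hw : ρ * ‖w‖ < 1) (hz : z ∈ ball (0 : ℂ) ρ) :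
    ‖w * z‖ < 1 := by
  rw [mem_ball_zero_iff] at hz
  rw [norm_mul]
  calc ‖w‖ * ‖z‖ ≤ ‖w‖ * ρ := mul_le_mul_of_nonneg_left hz.le (norm_nonneg _)
    _ < 1 := by rwa [mul_comm]

theorem qq_hasDeriv (α₁ α₃ : ℂ) (γ ζ : ι → ℂ) {ρ : ℝ} (hρζ : ∀ i, ρ * ‖ζ i‖ < 1) {z : ℂ}
    (hz : z ∈ ball (0 : ℂ) ρ) : HasDerivAt (qq α₁ α₃ γ ζ) (qq' α₁ α₃ γ ζ z) z := by
  unfold qq qq'
  apply HasDerivAt.fun_sub
  · apply HasDerivAt.fun_sub
    · apply HasDerivAt.fun_sum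
      intro i _
      apply HasDerivAt.const_mul
      have hs : ‖(starRingEnd ℂ) (ζ i) * z‖ < 1 := by
        apply small_mul _ hz
        rw [Complex.norm_conj]
        exact hρζ i
      have d0 : HasDerivAt (fun z => (starRingEnd ℂ) (ζ i) * z) ((starRingEnd ℂ) (ζ i)) z := by
        simpa using (hasDerivAt_id' z).const_mul ((starRingEnd ℂ) (ζ i))
      have d1 := (d0.const_sub 1).clog (slit_one_sub hs)
      have d2 := (d0.const_add 1).clog (slit_one_add hs)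
      apply (d1.fun_sub d2).congr_deriv
      ring
    · simpa using (hasDerivAt_id' z).const_mul (2 * (starRingEnd ℂ) α₁)
  · have := (hasDerivAt_pow 3 z).const_mul (2 / 3 * (starRingEnd ℂ) α₃)
    apply this.congr_deriv
    simp only [Nat.cast_ofNat, Nat.add_one_sub_one]
    ring

theorem qq_series (α₁ α₃ : ℂ) (γ ζ : ι → ℂ) {ρ : ℝ} (hρζ : ∀ i, ρ * ‖ζ i‖ < 1) {z : ℂ}
    (hz : z ∈ ball (0 : ℂ) ρ) :
    HasSum (fun k : ℕ => (-(2 / (2 * (k : ℂ) + 1)) * (starRingEnd ℂ) (mom α₁ α₃ γ ζ k)) *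
      z ^ (2 * k + 1)) (qq α₁ α₃ γ ζ z) := by
  have h1 : HasSum (fun k : ℕ => ∑ i, (starRingEnd ℂ) (γ i) * (-(2 / (2 * (k : ℂ) + 1)) *
      ((starRingEnd ℂ) (ζ i) * z) ^ (2 * k + 1)))
      (∑ i, (starRingEnd ℂ) (γ i) * (Complex.log (1 - (starRingEnd ℂ) (ζ i) * z) -
    Complex.log (1 + (starRingEnd ℂ) (ζ i) * z))) := by
    apply hasSum_sum
    intro i _
    apply HasSum.mul_left
    apply log_odd_series
    apply small_mul _ hz
    rw [Complex.norm_conj]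
    exact hρζ i
  have h2 : HasSum (fun k : ℕ => if k = 0 then 2 * (starRingEnd ℂ) α₁ * z else 0)
      (2 * (starRingEnd ℂ) α₁ * z) := hasSum_ite_eq 0 _
  have h3 : HasSum (fun k : ℕ => if k = 1 then 2 / 3 * (starRingEnd ℂ) α₃ * z ^ 3 else 0)
      (2 / 3 * (starRingEnd ℂ) α₃ * z ^ 3) := hasSum_ite_eq 1 _
  have h4 := (h1.sub h2).sub h3
  unfold qq
  apply h4.congr_fun
  intro k
  simp only [mom, map_add, map_sum, map_mul, map_pow]
  rw [mul_add, add_mul, Finset.mul_sum, Finset.sum_mul]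
  have e1 : ∀ i : ι, -(2 / (2 * (k : ℂ) + 1)) * ((starRingEnd ℂ) (γ i) *
      (starRingEnd ℂ) (ζ i) ^ (2 * k + 1)) * z ^ (2 * k + 1) =
      (starRingEnd ℂ) (γ i) * (-(2 / (2 * (k : ℂ) + 1)) *
      ((starRingEnd ℂ) (ζ i) * z) ^ (2 * k + 1)) := by
    intro i
    rw [mul_pow]
    ring
  simp only [e1]
  rcases k with _ | _ | k
  · simp
    ring
  · simp
    ring
  · simp

theorem qq'_series (α₁ α₃ : ℂ) (γ ζ : ι → ℂ) {ρ : ℝ} (hρζ : ∀ i, ρ * ‖ζ i‖ < 1) {z : ℂ}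
    (hz : z ∈ ball (0 : ℂ) ρ) :
    HasSum (fun k : ℕ => (-2 * (starRingEnd ℂ) (mom α₁ α₃ γ ζ k)) *
      z ^ (2 * k + 1)) (z * qq' α₁ α₃ γ ζ z) := by
  have h1 : HasSum (fun k : ℕ => ∑ i, (starRingEnd ℂ) (γ i) * (-2 *
      ((starRingEnd ℂ) (ζ i) * z) ^ (2 * k + 1)))
      (∑ i, (starRingEnd ℂ) (γ i) * (-((starRingEnd ℂ) (ζ i) * z /
        (1 - (starRingEnd ℂ) (ζ i) * z)) -
    (starRingEnd ℂ) (ζ i) * z / (1 + (starRingEnd ℂ) (ζ i) * z))) := by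
    apply hasSum_sum
    intro i _
    apply HasSum.mul_left
    apply geom_odd_series
    apply small_mul _ hz
    rw [Complex.norm_conj]
    exact hρζ i
  have h2 : HasSum (fun k : ℕ => if k = 0 then 2 * (starRingEnd ℂ) α₁ * z else 0)
      (2 * (starRingEnd ℂ) α₁ * z) := hasSum_ite_eq 0 _
  have h3 : HasSum (fun k : ℕ => if k = 1 then 2 * (starRingEnd ℂ) α₃ * z ^ 3 else 0)
      (2 * (starRingEnd ℂ) α₃ * z ^ 3) := hasSum_ite_eq 1 _
  have h4 := (h1.sub h2).sub h3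
  have h5 : z * qq' α₁ α₃ γ ζ z = (∑ i, (starRingEnd ℂ) (γ i) * (-((starRingEnd ℂ) (ζ i) * z /
        (1 - (starRingEnd ℂ) (ζ i) * z)) -
    (starRingEnd ℂ) (ζ i) * z / (1 + (starRingEnd ℂ) (ζ i) * z))) -
      2 * (starRingEnd ℂ) α₁ * z - 2 * (starRingEnd ℂ) α₃ * z ^ 3 := by
    unfold qq'
    rw [mul_sub, mul_sub, Finset.mul_sum]
    congr 1
    · congr 1
      · apply Finset.sum_congr rfl
        intro i _
        ring
      · ring
    · ring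
  rw [h5]
  apply h4.congr_fun
  intro k
  simp only [mom, map_add, map_sum, map_mul, map_pow]
  rw [mul_add, add_mul, Finset.mul_sum, Finset.sum_mul]
  have e1 : ∀ i : ι, -2 * ((starRingEnd ℂ) (γ i) *
      (starRingEnd ℂ) (ζ i) ^ (2 * k + 1)) * z ^ (2 * k + 1) =
      (starRingEnd ℂ) (γ i) * (-2 *
      ((starRingEnd ℂ) (ζ i) * z) ^ (2 * k + 1)) := by
    intro i
    rw [mul_pow]
    ring
  simp only [e1]
  rcases k with _ | _ | k
  · simp
    ring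
  · simp
    ring
  · simp

/-- Value of the positive form. -/
theorem BB_qq (α₁ α₃ : ℂ) (γ ζ : ι → ℂ) {ρ : ℝ} (hρ : 1 < ρ) (hρζ : ∀ i, ρ * ‖ζ i‖ < 1) :
    HasSum (fun k : ℕ => 2 * (2 / (2 * (k : ℝ) + 1) * ‖mom α₁ α₃ γ ζ k‖ ^ 2))
      (BB (qq α₁ α₃ γ ζ) (deriv (qq α₁ α₃ γ ζ))).re := by
  have hsub := sphere_sub_ball hρ
  have hder : ∀ z ∈ ball (0 : ℂ) ρ, deriv (qq α₁ α₃ γ ζ) z = qq' α₁ α₃ γ ζ z :=
    fun z hz => (qq_hasDeriv α₁ α₃ γ ζ hρζ hz).deriv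
  set p : ℕ → ℂ := fun n => if n % 2 = 0 then 0 else
    (-(2 / (n : ℂ)) * (starRingEnd ℂ) (mom α₁ α₃ γ ζ (n / 2))) with hp
  have hpodd : ∀ k : ℕ, p (2 * k + 1) =
      -(2 / (2 * (k : ℂ) + 1)) * (starRingEnd ℂ) (mom α₁ α₃ γ ζ k) := by
    intro k
    simp only [hp]
    rw [if_neg (by omega), show (2 * k + 1) / 2 = k by omega]
    push_cast
    ring
  have hpeven : ∀ n, n % 2 = 0 → p n = 0 := by
    intro n hn
    simp only [hp]
    rw [if_pos hn]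
  have hser : ∀ z ∈ ball (0 : ℂ) ρ, HasSum (fun n => p n * z ^ n) (qq α₁ α₃ γ ζ z) := by
    intro z hz
    rw [← odd_reindex (fun n hn => by rw [hpeven n hn, zero_mul])]
    simp only [hpodd]
    exact qq_series α₁ α₃ γ ζ hρζ hz
  have hser' : ∀ z ∈ ball (0 : ℂ) ρ, HasSum (fun n => n * p n * z ^ n)
      (z * qq' α₁ α₃ γ ζ z) := by
    intro z hz
    rw [← odd_reindex (fun n hn => by rw [hpeven n hn, mul_zero, zero_mul])]
    apply (qq'_series α₁ α₃ γ ζ hρζ hz).congr_fun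
    intro k
    simp only [hpodd]
    have : (2 * (k : ℂ) + 1) ≠ 0 := by exact_mod_cast Nat.succ_ne_zero (2 * k)
    push_cast
    field_simp
  have hcont : ContinuousOn (qq α₁ α₃ γ ζ) (sphere (0 : ℂ) 1) :=
    fun z hz => (qq_hasDeriv α₁ α₃ γ ζ hρζ (hsub hz)).continuousAt.continuousWithinAt
  have h1 := BB_hasSum' hρ hcont hser hser'
  have h2 : BB (qq α₁ α₃ γ ζ) (deriv (qq α₁ α₃ γ ζ)) = BB (qq α₁ α₃ γ ζ) (qq' α₁ α₃ γ ζ) :=
    BB_congr (fun _ _ => rfl) (fun z hz => hder z (hsub hz))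
  rw [h2]
  rw [← odd_reindex_real (fun n hn => by rw [hpeven n hn]; simp)] at h1
  apply h1.congr_fun
  intro k
  simp only [hpodd]
  rw [norm_mul, Complex.norm_conj, norm_neg, norm_div]
  have e1 : ‖(2 * (k : ℂ) + 1)‖ = 2 * (k : ℝ) + 1 := by
    have : (2 * (k : ℂ) + 1) = ((2 * (k : ℝ) + 1 : ℝ) : ℂ) := by push_cast; ring
    rw [this, Complex.norm_real, Real.norm_of_nonneg (by positivity)]
  rw [e1]
  have e2 : (2 * (k : ℝ) + 1) ≠ 0 := by positivity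
  push_cast
  simp only [Complex.norm_ofNat]
  field_simp

/-- the principal part -/
noncomputable def pp (α₁ α₃ : ℂ) (γ ζ : ι → ℂ) (z : ℂ) : ℂ :=
  (∑ i, γ i * (Complex.log (1 - ζ i * z⁻¹) - Complex.log (1 + ζ i * z⁻¹))) -
    2 * α₁ * z⁻¹ - 2 / 3 * α₃ * (z⁻¹) ^ 3

/-- its derivative -/
noncomputable def pp' (α₁ α₃ : ℂ) (γ ζ : ι → ℂ) (z : ℂ) : ℂ :=
  (∑ i, γ i * (1 / (z - ζ i) - 1 / (z + ζ i))) + 2 * α₁ / z ^ 2 + 2 * α₃ / z ^ 4

theorem norm_mul_inv_lt {w z : ℂ} (hw : w ∈ ball (0 : ℂ) 1) (hz : z ∈ sphere (0 : ℂ) 1) :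
    ‖w * z⁻¹‖ < 1 := by
  rw [mem_ball_zero_iff] at hw
  rw [mem_sphere_zero_iff_norm] at hz
  rw [norm_mul, norm_inv, hz, inv_one, mul_one]
  exact hw

theorem sphere_ne_zero {z : ℂ} (hz : z ∈ sphere (0 : ℂ) 1) : z ≠ 0 := by
  rintro rfl
  simp at hz

theorem sphere_sub_ne {w z : ℂ} (hw : w ∈ ball (0 : ℂ) 1) (hz : z ∈ sphere (0 : ℂ) 1) :
    z - w ≠ 0 := by
  intro h0
  rw [sub_eq_zero.mp h0] at hz
  simp at hz hw
  linarith

theorem sphere_add_ne {w z : ℂ} (hw : w ∈ ball (0 : ℂ) 1) (hz : z ∈ sphere (0 : ℂ) 1) :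
    z + w ≠ 0 := by
  have := sphere_sub_ne (neg_mem_ball hw) hz
  rwa [sub_neg_eq_add] at this

theorem pp_hasDeriv (α₁ α₃ : ℂ) (γ : ι → ℂ) {ζ : ι → ℂ} (hζ : ∀ i, ζ i ∈ ball (0 : ℂ) 1) {z : ℂ}
    (hz : z ∈ sphere (0 : ℂ) 1) : HasDerivAt (pp α₁ α₃ γ ζ) (pp' α₁ α₃ γ ζ z) z := by
  have hz0 := sphere_ne_zero hz
  have dinv : HasDerivAt (fun z : ℂ => z⁻¹) (-(z ^ 2)⁻¹) z := hasDerivAt_inv hz0
  have key : HasDerivAt (pp α₁ α₃ γ ζ) ((∑ i, γ i * (1 / (z - ζ i) - 1 / (z + ζ i))) -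
      (2 * α₁) * (-(z ^ 2)⁻¹) - 2 / 3 * α₃ * (3 * (z⁻¹) ^ 2 * (-(z ^ 2)⁻¹))) z := by
    unfold pp
    apply HasDerivAt.fun_sub
    · apply HasDerivAt.fun_sub
      · apply HasDerivAt.fun_sum
        intro i _
        apply HasDerivAt.const_mul
        have hs := norm_mul_inv_lt (hζ i) hz
        have d0 := dinv.const_mul (ζ i)
        have d1 := (d0.const_sub 1).clog (slit_one_sub hs)
        have d2 := (d0.const_add 1).clog (slit_one_add hs)
        apply (d1.fun_sub d2).congr_deriv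
        have n1 := sphere_sub_ne (hζ i) hz
        have n2 := sphere_add_ne (hζ i) hz
        have n3 : 1 - ζ i * z⁻¹ = (z - ζ i) / z := by field_simp
        have n4 : 1 + ζ i * z⁻¹ = (z + ζ i) / z := by field_simp
        rw [n3, n4]
        field_simp
        ring
      · exact dinv.const_mul (2 * α₁)
    · have := (dinv.fun_pow 3).const_mul (2 / 3 * α₃)
      apply this.congr_deriv
      simp only [Nat.cast_ofNat, Nat.add_one_sub_one]
  apply key.congr_deriv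
  unfold pp'
  field_simp
  ring

theorem conj_log_of_slit {x : ℂ} (hx : x ∈ slitPlane) :
    Complex.log ((starRingEnd ℂ) x) = (starRingEnd ℂ) (Complex.log x) := by
  apply Complex.log_conj
  exact (Complex.mem_slitPlane_iff_arg.mp hx).1

theorem pp_eq_conj (α₁ α₃ : ℂ) (γ : ι → ℂ) {ζ : ι → ℂ} (hζ : ∀ i, ζ i ∈ ball (0 : ℂ) 1) {z : ℂ}
    (hz : z ∈ sphere (0 : ℂ) 1) : pp α₁ α₃ γ ζ z = (starRingEnd ℂ) (qq α₁ α₃ γ ζ z) := by
  unfold pp qq
  have hc := conj_eq_inv_of_sphere hz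
  have c2 : (starRingEnd ℂ) 2 = 2 := map_ofNat (starRingEnd ℂ) 2
  have c3 : (starRingEnd ℂ) 3 = 3 := map_ofNat (starRingEnd ℂ) 3
  simp only [map_sub, map_sum, map_mul, map_pow, map_div₀, c2, c3, Complex.conj_conj, hc]
  have e1 : ∀ i : ι, γ i * (Complex.log (1 - ζ i * z⁻¹) - Complex.log (1 + ζ i * z⁻¹)) =
      γ i * ((starRingEnd ℂ) (Complex.log (1 - (starRingEnd ℂ) (ζ i) * z)) -
        (starRingEnd ℂ) (Complex.log (1 + (starRingEnd ℂ) (ζ i) * z))) := by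
    intro i
    have hn : ‖(starRingEnd ℂ) (ζ i) * z‖ < 1 := by
      rw [norm_mul, Complex.norm_conj, (mem_sphere_zero_iff_norm.mp hz), mul_one]
      exact mem_ball_zero_iff.mp (hζ i)
    rw [← conj_log_of_slit (slit_one_sub hn), ← conj_log_of_slit (slit_one_add hn)]
    simp only [map_sub, map_add, map_one, map_mul, Complex.conj_conj, hc]
  rw [Finset.sum_congr rfl fun i _ => e1 i]

theorem conj_zqq' (α₁ α₃ : ℂ) (γ : ι → ℂ) {ζ : ι → ℂ} (hζ : ∀ i, ζ i ∈ ball (0 : ℂ) 1) {z : ℂ}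
    (hz : z ∈ sphere (0 : ℂ) 1) :
    (starRingEnd ℂ) (z * qq' α₁ α₃ γ ζ z) =
      (∑ i, γ i * (z / (z + ζ i) - z / (z - ζ i))) - 2 * α₁ * z⁻¹ - 2 * α₃ * (z⁻¹) ^ 3 := by
  have hc := conj_eq_inv_of_sphere hz
  have hz0 := sphere_ne_zero hz
  unfold qq'
  have c2 : (starRingEnd ℂ) 2 = 2 := map_ofNat (starRingEnd ℂ) 2
  simp only [map_sub, map_sum, map_mul, map_pow, Complex.conj_conj, hc, map_div₀, map_add,
    map_one, map_neg, c2]
  rw [mul_sub, mul_sub, Finset.mul_sum]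
  congr 1
  · congr 1
    · apply Finset.sum_congr rfl
      intro i _
      have n1 := sphere_sub_ne (hζ i) hz
      have n2 := sphere_add_ne (hζ i) hz
      have n3 : 1 - ζ i * z⁻¹ = (z - ζ i) / z := by field_simp
      have n4 : 1 + ζ i * z⁻¹ = (z + ζ i) / z := by field_simp
      rw [n3, n4]
      field_simp
      ring
    · ring
  · ring

theorem zpp' (α₁ α₃ : ℂ) (γ : ι → ℂ) {ζ : ι → ℂ} (hζ : ∀ i, ζ i ∈ ball (0 : ℂ) 1) {z : ℂ}
    (hz : z ∈ sphere (0 : ℂ) 1) :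
    z * pp' α₁ α₃ γ ζ z = -(starRingEnd ℂ) (z * qq' α₁ α₃ γ ζ z) := by
  rw [conj_zqq' α₁ α₃ γ hζ hz]
  have hz0 := sphere_ne_zero hz
  unfold pp'
  rw [mul_add, mul_add, Finset.mul_sum]
  have e1 : ∑ i, z * (γ i * (1 / (z - ζ i) - 1 / (z + ζ i))) =
      - ∑ i, γ i * (z / (z + ζ i) - z / (z - ζ i)) := by
    rw [← Finset.sum_neg_distrib]
    apply Finset.sum_congr rfl
    intro i _
    ring
  rw [e1]
  field_simp
  ring_nf

end Pool.Agent.Lib.Pd7a79b
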