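import Pool.Agent.Lib.Pd7a79b.Goluzin

set_option autoImplicit false

open Complex Metric Set Filter Topology MeasureTheory

namespace Pool.Agent.Lib.Pd7a79b

variable {R : ℝ} {h : ℂ → ℂ}

variable {ι : Type*} [Fintype ι]

theorem exists_rho (hR : 1 < R) {ζ : ι → ℂ} (hζ : ∀ i, ζ i ∈ ball (0 : ℂ) 1) :
    ∃ ρ : ℝ, 1 < ρ ∧ ρ ≤ R ∧ ∀ i, ρ * ‖ζ i‖ < 1 := by
  have h1 : ∀ᶠ ρ : ℝ in 𝓝 1, ρ < R ∧ ∀ i, ρ * ‖ζ i‖ < 1 := by
    apply Filter.Eventually.and
    · exact Iio_mem_nhds hR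
    · rw [eventually_all]
      intro i
      have hc : Continuous (fun ρ : ℝ => ρ * ‖ζ i‖) := by fun_prop
      apply hc.continuousAt.eventually_lt continuousAt_const
      rw [one_mul]
      exact mem_ball_zero_iff.mp (hζ i)
  have h2 : ∀ᶠ ρ : ℝ in 𝓝[>] 1, (ρ < R ∧ ∀ i, ρ * ‖ζ i‖ < 1) ∧ 1 < ρ :=
    (h1.filter_mono nhdsWithin_le_nhds).and eventually_mem_nhdsWithin
  obtain ⟨ρ, ⟨a1, a2⟩, a3⟩ := h2.exists
  exact ⟨ρ, a3, a1.le, a2⟩

/-- Goluzin-type inequality for odd univalent functions, with order 1 and 3 terms at the origin,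
for an arbitrary finite family of points. -/
theorem goluzin_general (hR : 1 < R) (hd : DifferentiableOn ℂ h (ball 0 R))
    (hi : InjOn h (ball 0 R)) (hodd : OddOn R h) {c m13 m33 : ℂ} {H H2 Y1 Y3 : ℂ → ℂ}
    (hE : Expansion R h c m13 m33 H H2 Y1 Y3) (α₁ α₃ : ℂ) (γ : ι → ℂ) {ζ : ι → ℂ}
    (hζ : ∀ i, ζ i ∈ ball (0 : ℂ) 1) (hζ0 : ∀ i, ζ i ≠ 0) :
    ‖α₁ ^ 2 * (2 * c) + 2 * α₁ * α₃ * m13 + α₃ ^ 2 * m33 +
      2 * α₁ * ∑ i, γ i * (2 / ζ i - 2 / h (ζ i)) +
      2 * α₃ * ∑ i, γ i * (2 / 3 * (1 / ζ i ^ 3 - 1 / h (ζ i) ^ 3) - 2 * c / h (ζ i)) +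
      ∑ i, ∑ j, γ i * γ j * LA R h (ζ i) (ζ j)‖ ≤
      ∑' k : ℕ, 2 / (2 * (k : ℝ) + 1) * ‖mom α₁ α₃ γ ζ k‖ ^ 2 := by
  have hR0 : 0 < R := by linarith
  have h0 : (0 : ℂ) ∈ ball (0 : ℂ) R := mem_ball_self hR0
  obtain ⟨ρ, hρ, hρR, hρζ⟩ := exists_rho hR hζ
  have hζR : ∀ i, ζ i ∈ ball (0 : ℂ) R := fun i => ball_subset_ball hR.le (hζ i)
  have hsubR := sphere_sub_ball hR
  have hh0 : h 0 = 0 := by rw [hE.h_eq]; simp
  -- expansions of logs
  choose Y hYd hYeq hY0 using fun i => LA_expand hR0 hd hi hodd hE (hζR i) (hζ0 i)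
  set A : ℂ → ℂ := fun z => (∑ j, γ j * LA R h (ζ j) z) + α₁ * (z * (2 * c + z ^ 2 * Y1 z)) +
    α₃ * (z * (m13 + z ^ 2 * Y3 z)) with hAdef
  have hYY1 : DifferentiableOn ℂ Y1 (ball 0 R) := hE.hY1
  have hYY3 : DifferentiableOn ℂ Y3 (ball 0 R) := hE.hY3
  have hd1 : DifferentiableOn ℂ (fun z => z * (2 * c + z ^ 2 * Y1 z)) (ball 0 R) := by fun_prop
  have hd3 : DifferentiableOn ℂ (fun z => z * (m13 + z ^ 2 * Y3 z)) (ball 0 R) := by fun_prop
  have hLAd : ∀ j, ∀ z ∈ ball (0 : ℂ) R, HasDerivAt (LA R h (ζ j)) (gA h (ζ j) z) z :=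
    fun j => (LA_spec hR0 hd hi hodd (hζR j)).2.1
  have hLAdiff : ∀ j, DifferentiableOn ℂ (LA R h (ζ j)) (ball 0 R) :=
    fun j z hz => (hLAd j z hz).differentiableAt.differentiableWithinAt
  have hAd : DifferentiableOn ℂ A (ball 0 R) := by
    apply DifferentiableOn.add
    · apply DifferentiableOn.add
      · apply DifferentiableOn.fun_sum
        intro j _
        exact (hLAdiff j).const_mul (γ j)
      · exact hd1.const_mul α₁
    · exact hd3.const_mul α₃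
  -- derivative on the sphere
  have hder1 : ∀ z ∈ sphere (0 : ℂ) 1, HasDerivAt (fun z => z * (2 * c + z ^ 2 * Y1 z))
      (-2 / z ^ 2 + 2 * deriv h z / h z ^ 2) z := by
    intro z hz
    have hz0 := sphere_ne_zero hz
    have hzR := hsubR hz
    have hhz := hE.h_ne z hzR hz0
    have hhd : HasDerivAt h (deriv h z) z :=
      (hd.differentiableAt (isOpen_ball.mem_nhds hzR)).hasDerivAt
    have e1 : HasDerivAt (fun z => 2 * z⁻¹ - 2 * (h z)⁻¹)
        (2 * (-(z ^ 2)⁻¹) - 2 * (-deriv h z / h z ^ 2)) z :=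
      ((hasDerivAt_inv hz0).const_mul 2).fun_sub ((hhd.fun_inv hhz).const_mul 2)
    have e2 : (fun z => z * (2 * c + z ^ 2 * Y1 z)) =ᶠ[𝓝 z]
        fun z => 2 * z⁻¹ - 2 * (h z)⁻¹ := by
      filter_upwards [isOpen_ball.mem_nhds hzR, isOpen_ne.mem_nhds hz0] with w hw hw0
      rw [← hE.phi1_eq w hw hw0]
      ring
    apply (e1.congr_of_eventuallyEq e2).congr_deriv
    field_simp
    ring
  have hder3 : ∀ z ∈ sphere (0 : ℂ) 1, HasDerivAt (fun z => z * (m13 + z ^ 2 * Y3 z))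
      (-2 / z ^ 4 + 2 * deriv h z / h z ^ 4 + 2 * c * deriv h z / h z ^ 2) z := by
    intro z hz
    have hz0 := sphere_ne_zero hz
    have hzR := hsubR hz
    have hhz := hE.h_ne z hzR hz0
    have hhd : HasDerivAt h (deriv h z) z :=
      (hd.differentiableAt (isOpen_ball.mem_nhds hzR)).hasDerivAt
    have e1 : HasDerivAt (fun z => 2 / 3 * ((z⁻¹) ^ 3 - ((h z)⁻¹) ^ 3) - 2 * c * (h z)⁻¹)
        (2 / 3 * (3 * (z⁻¹) ^ 2 * (-(z ^ 2)⁻¹) -
          3 * ((h z)⁻¹) ^ 2 * (-deriv h z / h z ^ 2)) -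
          2 * c * (-deriv h z / h z ^ 2)) z := by
      have f1 := (hasDerivAt_inv hz0).fun_pow 3
      have f2 := (hhd.fun_inv hhz).fun_pow 3
      have f3 := ((f1.fun_sub f2).const_mul (2 / 3)).fun_sub ((hhd.fun_inv hhz).const_mul (2 * c))
      apply f3.congr_deriv
      simp only [Nat.cast_ofNat, Nat.add_one_sub_one]
    have e2 : (fun z => z * (m13 + z ^ 2 * Y3 z)) =ᶠ[𝓝 z]
        fun z => 2 / 3 * ((z⁻¹) ^ 3 - ((h z)⁻¹) ^ 3) - 2 * c * (h z)⁻¹ := by
      filter_upwards [isOpen_ball.mem_nhds hzR, isOpen_ne.mem_nhds hz0] with w hw hw0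
      rw [← hE.phi3_eq w hw hw0]
      simp only [inv_pow, div_eq_mul_inv, one_mul]
    apply (e1.congr_of_eventuallyEq e2).congr_deriv
    field_simp
    ring
  have hAder : ∀ z ∈ sphere (0 : ℂ) 1, deriv A z = (∑ j, γ j * gA h (ζ j) z) +
      α₁ * (-2 / z ^ 2 + 2 * deriv h z / h z ^ 2) +
      α₃ * (-2 / z ^ 4 + 2 * deriv h z / h z ^ 4 + 2 * c * deriv h z / h z ^ 2) := by
    intro z hz
    have hzR := hsubR hz
    have f1 : HasDerivAt (fun z => ∑ j, γ j * LA R h (ζ j) z) (∑ j, γ j * gA h (ζ j) z) z := by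
      apply HasDerivAt.fun_sum
      intro j _
      exact (hLAd j z hzR).const_mul (γ j)
    exact ((f1.fun_add ((hder1 z hz).const_mul α₁)).fun_add ((hder3 z hz).const_mul α₃)).deriv
  -- approximability
  have happ : Appr h (fun z => pp' α₁ α₃ γ ζ z + deriv A z) := by
    have a1 : Appr h (fun z => ∑ j, γ j * ((deriv h z / (h z - h (ζ j)) -
        deriv h z / (h z - h 0)) + (-1) * (deriv h z / (h z - h (-ζ j)) -
        deriv h z / (h z - h 0)))) := by
      apply Appr.sum hR hi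
      intro j _
      apply Appr.const_mul
      apply Appr.add hR hi (Appr.pole hR hd hi (hζ j))
      exact Appr.const_mul (Appr.pole hR hd hi (neg_mem_ball (hζ j))) (-1)
    have a2 := (Appr.inv_pow hR hi hh0 0).const_mul (2 * α₁ + 2 * c * α₃)
    have a3 := (Appr.inv_pow hR hi hh0 2).const_mul (2 * α₃)
    apply ((a1.add hR hi a2).add hR hi a3).congr
    intro z hz
    have hz0 := sphere_ne_zero hz
    have hzR := hsubR hz
    have hhz := hE.h_ne z hzR hz0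
    rw [hAder z hz]
    unfold pp'
    have e1 : ∀ j, γ j * gA h (ζ j) z = γ j * ((deriv h z / (h z - h (ζ j)) -
        deriv h z / (h z - h 0)) + (-1) * (deriv h z / (h z - h (-ζ j)) -
        deriv h z / (h z - h 0))) - γ j * (1 / (z - ζ j) - 1 / (z + ζ j)) := by
      intro j
      rw [gA_eq hd hi (hζR j) hzR (sub_ne_zero.mp (sphere_sub_ne (hζ j) hz)) (by
        intro h1
        apply sphere_add_ne (hζ j) hz
        rw [h1]
        ring)]
      ring
    rw [Finset.sum_congr rfl fun j _ => e1 j, Finset.sum_sub_distrib]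
    simp only [zero_add]
    generalize (∑ j, γ j * ((deriv h z / (h z - h (ζ j)) -
        deriv h z / (h z - h 0)) + (-1) * (deriv h z / (h z - h (-ζ j)) -
        deriv h z / (h z - h 0)))) = S1
    generalize (∑ j, γ j * (1 / (z - ζ j) - 1 / (z + ζ j))) = S2
    field_simp
    ring
  -- the inequality
  have hqd : DifferentiableOn ℂ (qq α₁ α₃ γ ζ) (ball 0 ρ) :=
    fun z hz => (qq_hasDeriv α₁ α₃ γ ζ hρζ hz).differentiableAt.differentiableWithinAt
  have hsubρ := sphere_sub_ball hρ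
  have hqder : ∀ z ∈ sphere (0 : ℂ) 1, deriv (qq α₁ α₃ γ ζ) z = qq' α₁ α₃ γ ζ z :=
    fun z hz => (qq_hasDeriv α₁ α₃ γ ζ hρζ (hsubρ hz)).deriv
  have hmain := abstract_ineq hR hd hi hρ (hAd.mono (ball_subset_ball hρR)) hqd
    (fun z hz => pp_hasDeriv α₁ α₃ γ hζ hz) (fun z hz => pp_eq_conj α₁ α₃ γ hζ hz)
    (fun z hz => by rw [hqder z hz]; exact zpp' α₁ α₃ γ hζ hz) happ
  -- right-hand side
  have hrhs := BB_qq α₁ α₃ γ ζ hρ hρζ
  have hrhs2 : (BB (qq α₁ α₃ γ ζ) (deriv (qq α₁ α₃ γ ζ))).re =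
      2 * ∑' k : ℕ, 2 / (2 * (k : ℝ) + 1) * ‖mom α₁ α₃ γ ζ k‖ ^ 2 := by
    rw [← hrhs.tsum_eq, tsum_mul_left]
  rw [hrhs2] at hmain
  -- oddness and expansion of A
  have hAodd : ∀ z ∈ ball (0 : ℂ) R, A z = z * ((∑ j, γ j * (2 / ζ j - 2 / h (ζ j)) +
      α₁ * (2 * c) + α₃ * m13) + z ^ 2 * (∑ j, γ j * Y j z + α₁ * Y1 z + α₃ * Y3 z)) := by
    intro z _
    simp only [hAdef, hYeq]
    have : ∑ j, γ j * (z * (2 / ζ j - 2 / h (ζ j) + z ^ 2 * Y j z)) =
        z * (∑ j, γ j * (2 / ζ j - 2 / h (ζ j))) + z * (z ^ 2 * ∑ j, γ j * Y j z) := by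
      rw [Finset.mul_sum, Finset.mul_sum, Finset.mul_sum, ← Finset.sum_add_distrib]
      apply Finset.sum_congr rfl
      intro j _
      ring
    rw [this]
    ring
  have hAodd' : ∀ z, A z = z * ((∑ j, γ j * (2 / ζ j - 2 / h (ζ j)) +
      α₁ * (2 * c) + α₃ * m13) + z ^ 2 * (∑ j, γ j * Y j z + α₁ * Y1 z + α₃ * Y3 z)) := by
    intro z
    simp only [hAdef, hYeq]
    have : ∑ j, γ j * (z * (2 / ζ j - 2 / h (ζ j) + z ^ 2 * Y j z)) =
        z * (∑ j, γ j * (2 / ζ j - 2 / h (ζ j))) + z * (z ^ 2 * ∑ j, γ j * Y j z) := by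
      rw [Finset.mul_sum, Finset.mul_sum, Finset.mul_sum, ← Finset.sum_add_distrib]
      apply Finset.sum_congr rfl
      intro j _
      ring
    rw [this]
    ring
  have hYYd : DifferentiableOn ℂ (fun z => ∑ j, γ j * Y j z + α₁ * Y1 z + α₃ * Y3 z)
      (ball 0 R) := by
    apply DifferentiableOn.fun_add
    · apply DifferentiableOn.fun_add
      · apply DifferentiableOn.fun_sum
        intro j _
        exact (hYd j).const_mul (γ j)
      · exact hYY1.const_mul α₁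
    · exact hYY3.const_mul α₃
  have hco1 := coeff_one hR hYYd hAodd'
  have hco3 := coeff_three hR hYYd hAodd'
  have hA0 : A 0 = 0 := by rw [hAodd']; simp
  have hAneg : ∀ z ∈ ball (0 : ℂ) R, A (-z) = - A z := by
    intro z hz
    have e1 : ∀ z ∈ ball (0 : ℂ) R, z ≠ 0 → (-z) * (2 * c + (-z) ^ 2 * Y1 (-z)) =
        - (z * (2 * c + z ^ 2 * Y1 z)) := by
      intro z hz hz0
      rw [← hE.phi1_eq z hz hz0, ← hE.phi1_eq (-z) (neg_mem_ball hz) (neg_ne_zero.mpr hz0),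
        hodd z hz]
      ring
    have e3 : ∀ z ∈ ball (0 : ℂ) R, z ≠ 0 → (-z) * (m13 + (-z) ^ 2 * Y3 (-z)) =
        - (z * (m13 + z ^ 2 * Y3 z)) := by
      intro z hz hz0
      rw [← hE.phi3_eq z hz hz0, ← hE.phi3_eq (-z) (neg_mem_ball hz) (neg_ne_zero.mpr hz0),
        hodd z hz]
      have : h z ≠ 0 := hE.h_ne z hz hz0
      field_simp
      ring
    by_cases hz0 : z = 0
    · rw [hz0, neg_zero, hA0, neg_zero]
    · simp only [hAdef]
      rw [e1 z hz hz0, e3 z hz hz0]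
      have e4 : ∀ j, γ j * LA R h (ζ j) (-z) = - (γ j * LA R h (ζ j) z) := by
        intro j
        rw [LA_odd hR0 hd hi hodd (hζR j) z hz]
        ring
      rw [Finset.sum_congr rfl fun j _ => e4 j, Finset.sum_neg_distrib]
      ring
  -- evaluation of the pairing
  have hAc : ContinuousOn A (sphere (0 : ℂ) 1) := hAd.continuousOn.mono hsubR
  have hAdc : DiffContOnCl ℂ A (ball 0 |1|) := by
    apply DifferentiableOn.diffContOnCl
    rw [abs_one, closure_ball _ one_ne_zero]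
    exact hAd.mono (closedBall_sub_ball hR)
  have hval : ∀ w ∈ ball (0 : ℂ) 1, Real.circleAverage (fun z => z / (z - w) * A z) 0 1 = A w := by
    intro w hw
    have := hAdc.circleAverage_smul_div (w := w) (by rwa [abs_one])
    simpa using this
  have hpair : Real.circleAverage (fun z => A z * (starRingEnd ℂ) (z * deriv (qq α₁ α₃ γ ζ) z))
      0 1 = -2 * ((∑ i, γ i * A (ζ i)) +
        α₁ * (∑ j, γ j * (2 / ζ j - 2 / h (ζ j)) + α₁ * (2 * c) + α₃ * m13) +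
        α₃ * (∑ j, γ j * Y j 0 + α₁ * Y1 0 + α₃ * Y3 0)) := by
    have e1 : Real.circleAverage (fun z => A z * (starRingEnd ℂ) (z * deriv (qq α₁ α₃ γ ζ) z))
        0 1 = Real.circleAverage (fun z => (∑ i, γ i * (z / (z - (-ζ i)) * A z -
          z / (z - ζ i) * A z) + (-2 * α₁) * (A z * z⁻¹)) +
          ((-2 * α₃) * (A z * (z⁻¹) ^ 3) - 0)) 0 1 := by
      apply Real.circleAverage_congr_sphere
      intro z hz
      rw [abs_one] at hz
      simp only
      rw [hqder z hz, conj_zqq' α₁ α₃ γ hζ hz, mul_sub, mul_sub, Finset.mul_sum]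
      have : ∀ i, A z * (γ i * (z / (z + ζ i) - z / (z - ζ i))) =
          γ i * (z / (z - (-ζ i)) * A z - z / (z - ζ i) * A z) := by
        intro i
        rw [sub_neg_eq_add]
        ring
      rw [Finset.sum_congr rfl fun i _ => this i]
      ring
    have cinv : ContinuousOn (fun z : ℂ => z⁻¹) (sphere (0 : ℂ) 1) :=
      continuousOn_id.inv₀ fun z hz => sphere_ne_zero hz
    have cdiv : ∀ w ∈ ball (0 : ℂ) 1, ContinuousOn (fun z : ℂ => z / (z - w) * A z)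
        (sphere (0 : ℂ) 1) := by
      intro w hw
      apply ContinuousOn.mul _ hAc
      apply ContinuousOn.div continuousOn_id (by fun_prop)
      intro z hz
      exact sphere_sub_ne hw hz
    have c1 : ∀ i ∈ (Finset.univ : Finset ι), ContinuousOn (fun z => γ i *
        (z / (z - (-ζ i)) * A z - z / (z - ζ i) * A z)) (sphere (0 : ℂ) 1) := by
      intro i _
      exact continuousOn_const.mul ((cdiv _ (neg_mem_ball (hζ i))).sub (cdiv _ (hζ i)))
    have c1' : ContinuousOn (fun z => ∑ i, γ i *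
        (z / (z - (-ζ i)) * A z - z / (z - ζ i) * A z)) (sphere (0 : ℂ) 1) :=
      continuousOn_finsetSum _ c1
    have c2 : ContinuousOn (fun z => (-2 * α₁) * (A z * z⁻¹)) (sphere (0 : ℂ) 1) :=
      continuousOn_const.mul (hAc.mul cinv)
    have c3 : ContinuousOn (fun z => (-2 * α₃) * (A z * (z⁻¹) ^ 3)) (sphere (0 : ℂ) 1) :=
      continuousOn_const.mul (hAc.mul (cinv.pow 3))
    rw [e1, cavg4 c1' c2 c3 continuousOn_const]
    have s1 : Real.circleAverage (fun z => ∑ i, γ i *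
        (z / (z - (-ζ i)) * A z - z / (z - ζ i) * A z)) 0 1 = ∑ i, γ i * (-2 * A (ζ i)) := by
      rw [Real.circleAverage_fun_sum (fun i hi' => (c1 i hi').circleIntegrable zero_le_one)]
      apply Finset.sum_congr rfl
      intro i _
      have t1 := Real.circleAverage_fun_smul (a := γ i) (f := fun z =>
        (z / (z - (-ζ i)) * A z - z / (z - ζ i) * A z)) (c := 0) (R := 1)
      simp only [smul_eq_mul] at t1
      rw [t1, Real.circleAverage_fun_sub
        ((cdiv _ (neg_mem_ball (hζ i))).circleIntegrable zero_le_one)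
        ((cdiv _ (hζ i)).circleIntegrable zero_le_one), hval _ (neg_mem_ball (hζ i)),
        hval _ (hζ i), hAneg _ (hζR i)]
      ring
    have s2 : Real.circleAverage (fun z => (-2 * α₁) * (A z * z⁻¹)) 0 1 =
        (-2 * α₁) * (∑ j, γ j * (2 / ζ j - 2 / h (ζ j)) + α₁ * (2 * c) + α₃ * m13) := by
      have t1 := Real.circleAverage_fun_smul (a := -2 * α₁) (f := fun z =>
        A z * z⁻¹) (c := 0) (R := 1)
      simp only [smul_eq_mul] at t1
      rw [t1, hco1]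
    have s3 : Real.circleAverage (fun z => (-2 * α₃) * (A z * (z⁻¹) ^ 3)) 0 1 =
        (-2 * α₃) * (∑ j, γ j * Y j 0 + α₁ * Y1 0 + α₃ * Y3 0) := by
      have t1 := Real.circleAverage_fun_smul (a := -2 * α₃) (f := fun z =>
        A z * (z⁻¹) ^ 3) (c := 0) (R := 1)
      simp only [smul_eq_mul] at t1
      rw [t1, hco3]
    rw [s1, s2, s3, Real.circleAverage_const]
    have s4 : ∑ i, γ i * (-2 * A (ζ i)) = -2 * ∑ i, γ i * A (ζ i) := by
      rw [Finset.mul_sum]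
      apply Finset.sum_congr rfl
      intro i _
      ring
    rw [s4]
    ring
  rw [hpair, norm_mul] at hmain
  have hn2 : ‖(-2 : ℂ)‖ = 2 := by simp
  rw [hn2] at hmain
  have hfinal : (∑ i, γ i * A (ζ i)) +
        α₁ * (∑ j, γ j * (2 / ζ j - 2 / h (ζ j)) + α₁ * (2 * c) + α₃ * m13) +
        α₃ * (∑ j, γ j * Y j 0 + α₁ * Y1 0 + α₃ * Y3 0) =
      α₁ ^ 2 * (2 * c) + 2 * α₁ * α₃ * m13 + α₃ ^ 2 * m33 +
      2 * α₁ * ∑ i, γ i * (2 / ζ i - 2 / h (ζ i)) +
      2 * α₃ * ∑ i, γ i * (2 / 3 * (1 / ζ i ^ 3 - 1 / h (ζ i) ^ 3) - 2 * c / h (ζ i)) +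
      ∑ i, ∑ j, γ i * γ j * LA R h (ζ i) (ζ j) := by
    rw [hE.Y1_zero, hE.Y3_zero]
    simp only [hY0]
    have e1 : ∀ i, γ i * A (ζ i) = (∑ j, γ i * γ j * LA R h (ζ i) (ζ j)) +
        α₁ * (γ i * (2 / ζ i - 2 / h (ζ i))) +
        α₃ * (γ i * (2 / 3 * (1 / ζ i ^ 3 - 1 / h (ζ i) ^ 3) - 2 * c / h (ζ i))) := by
      intro i
      simp only [hAdef]
      rw [← hE.phi1_eq _ (hζR i) (hζ0 i), ← hE.phi3_eq _ (hζR i) (hζ0 i)]
      have : ∑ j, γ j * LA R h (ζ j) (ζ i) = ∑ j, γ j * LA R h (ζ i) (ζ j) := by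
        apply Finset.sum_congr rfl
        intro j _
        rw [LA_symm hR0 hd hi hodd (hζR j) (hζR i)]
      rw [this]
      have e2 : ∑ j, γ i * γ j * LA R h (ζ i) (ζ j) = γ i * ∑ j, γ j * LA R h (ζ i) (ζ j) := by
        rw [Finset.mul_sum]
        apply Finset.sum_congr rfl
        intro j _
        ring
      rw [e2]
      ring
    rw [Finset.sum_congr rfl fun i _ => e1 i, Finset.sum_add_distrib, Finset.sum_add_distrib,
      ← Finset.mul_sum, ← Finset.mul_sum]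
    ring
  rw [hfinal] at hmain
  linarith

end Pool.Agent.Lib.Pd7a79b
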