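import Mathlib

/-!
# Interface for the proof that `a₂* < √2` for bi-univalent functions (MP_d7a79b_an, S06336)

`h` is an odd univalent function on a disc of radius `R > 1`, `h(ζ) = ζ + c ζ³ + ⋯`
(the odd square-root transform of a normalised univalent function).
-/

set_option autoImplicit false

open Filter Topology Metric Set

namespace Pool.Agent.Lib.Pd7a79b

noncomputable section

/-- Module A (area theorem for `P ∘ (1/h)`, `P` a polynomial). -/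
def AreaStatement : Prop :=
  ∀ (R : ℝ), 1 < R → ∀ h : ℂ → ℂ, DifferentiableOn ℂ h (ball (0 : ℂ) R) →
    InjOn h (ball (0 : ℂ) R) → h 0 = 0 → deriv h 0 = 1 →
    ∀ (P : Polynomial ℂ) (N : ℕ) (a r : ℕ → ℂ),
      (∀ ζ ∈ ball (0 : ℂ) R, ζ ≠ 0 →
        HasSum (fun k => r k * ζ ^ k)
          (P.eval (h ζ)⁻¹ - ∑ k ∈ Finset.range (N + 1), a k * (ζ⁻¹) ^ k)) →
      ∀ M : ℕ, ∑ k ∈ Finset.range M, (k : ℝ) * ‖r k‖ ^ 2
        ≤ ∑ k ∈ Finset.range (N + 1), (k : ℝ) * ‖a k‖ ^ 2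

/-- `φ₁ = 2/z - 2/w`, with `w = h z`. -/
def phi1 (z w : ℂ) : ℂ := 2 / z - 2 / w

/-- `φ₃ = (2/3)(1/z³ - 1/w³) - 2c/w`, with `w = h z`. -/
def phi3 (c z w : ℂ) : ℂ := 2 / 3 * (1 / z ^ 3 - 1 / w ^ 3) - 2 * c / w

/-- The quadratic form on the test functionals `x₁ [order 1 at 0] + x₃ [order 3 at 0]
`+ xp δ_p + xq δ_q`. -/
def QF (c m13 m33 p q hp hq Dpp Dqq Dpq x1 x3 xp xq : ℂ) : ℂ :=
  x1 ^ 2 * (2 * c) + 2 * x1 * x3 * m13 + x3 ^ 2 * m33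
    + 2 * x1 * (xp * phi1 p hp + xq * phi1 q hq)
    + 2 * x3 * (xp * phi3 c p hp + xq * phi3 c q hq)
    + xp ^ 2 * Dpp + xq ^ 2 * Dqq + 2 * xp * xq * Dpq

/-- The positive Hermitian form. -/
def KF (x1 x3 xp xq p q : ℂ) : ℝ :=
  ∑' k : ℕ, 2 / (2 * (k : ℝ) + 1) *
    ‖(if k = 0 then x1 else 0) + (if k = 1 then x3 else 0)
      + xp * p ^ (2 * k + 1) + xq * q ^ (2 * k + 1)‖ ^ 2

/-- The data attached to an odd univalent function `h` (Goluzin-type inequality). -/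
structure GolData (h : ℂ → ℂ) (c m13 m33 : ℂ) (D : ℂ → ℂ → ℂ) : Prop where
  asym1 : Tendsto (fun ζ : ℂ => (2 / ζ - 2 / h ζ - 2 * c * ζ - m13 * ζ ^ 3) / ζ ^ 3)
    (𝓝[≠] 0) (𝓝 0)
  asym3 : Tendsto (fun ζ : ℂ =>
      (2 / 3 * (1 / ζ ^ 3 - 1 / h ζ ^ 3) - 2 * c / h ζ - m13 * ζ - m33 * ζ ^ 3) / ζ ^ 3)
    (𝓝[≠] 0) (𝓝 0)
  expD : ∀ p ∈ ball (0 : ℂ) 1, ∀ q ∈ ball (0 : ℂ) 1, p ≠ 0 → q ≠ 0 → p ≠ q → p ≠ -q →
    Complex.exp (D p q) = ((h p - h q) * (p + q)) / ((h p + h q) * (p - q))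
  expDD : ∀ p ∈ ball (0 : ℂ) 1, p ≠ 0 → Complex.exp (D p p) = p * deriv h p / h p
  ineq : ∀ p ∈ ball (0 : ℂ) 1, ∀ q ∈ ball (0 : ℂ) 1, p ≠ 0 → q ≠ 0 → ∀ x1 x3 xp xq : ℂ,
    ‖QF c m13 m33 p q (h p) (h q) (D p p) (D q q) (D p q) x1 x3 xp xq‖ ≤ KF x1 x3 xp xq p q

/-- Module B: the Goluzin-type inequality for odd univalent functions on a disc of radius `> 1`. -/
def GoluzinStatement : Prop :=
  ∀ (R : ℝ), 1 < R → ∀ h : ℂ → ℂ, DifferentiableOn ℂ h (ball (0 : ℂ) R) →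
    InjOn h (ball (0 : ℂ) R) → (∀ ζ ∈ ball (0 : ℂ) R, h (-ζ) = -h ζ) → deriv h 0 = 1 →
    ∃ (c m13 m33 : ℂ) (D : ℂ → ℂ → ℂ), GolData h c m13 m33 D

/-- `c₀ = 181/256` (so `2 c₀ = 1.4140625 < √2`). -/
def c0 : ℝ := 181 / 256

/-- The test point: `1/p₀ = (62 + 41 i)/64`. -/
def p0 : ℂ := 1 / ((62 + 41 * Complex.I) / 64)

/-- its conjugate -/
def q0 : ℂ := 1 / ((62 - 41 * Complex.I) / 64)

/-- Inequalities of `h` and of its inverse `k` at one point `z` (`w = h z`), with the inverse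
only used at order 1 and 3 at the origin. -/
structure Sys0 (z w m13 m33 D : ℂ) : Prop where
  f : ∀ x1 x3 xp : ℂ, ‖QF c0 m13 m33 z z w w D D D x1 x3 xp 0‖ ≤ KF x1 x3 xp 0 z z
  g : ∀ y1 y3 : ℂ, ‖y1 ^ 2 * (2 * (c0 : ℂ)) + 2 * y1 * y3 * m13 + y3 ^ 2 * m33‖
    ≤ 2 * ‖y1 + c0 * y3‖ ^ 2 + 2 / 3 * ‖y3‖ ^ 2

/-- Inequalities of `h` and of its inverse `k` at one point `z` (`w = h z`). -/
structure Sys1 (z w m13 m33 D : ℂ) : Prop where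
  f : ∀ x1 x3 xp : ℂ, ‖QF c0 m13 m33 z z w w D D D x1 x3 xp 0‖ ≤ KF x1 x3 xp 0 z z
  g : ∀ y1 y3 yp : ℂ, ‖QF c0 m13 m33 z z w w D D D y1 y3 yp 0‖
    ≤ KF (y1 + c0 * y3) y3 yp 0 w w

/-- Inequalities of `h` and of its inverse `k` at two points. -/
structure Sys2 (p q wp wq m13 m33 Dpp Dqq Dpq : ℂ) : Prop where
  f : ∀ x1 x3 xp xq : ℂ, ‖QF c0 m13 m33 p q wp wq Dpp Dqq Dpq x1 x3 xp xq‖
    ≤ KF x1 x3 xp xq p q
  g : ∀ y1 y3 yp yq : ℂ, ‖QF c0 m13 m33 p q wp wq Dpp Dqq Dpq y1 y3 yp yq‖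
    ≤ KF (y1 + c0 * y3) y3 yp yq wp wq

/-- Numerical statement 0: the point `w = h(t p₀)` does not meet the unit circle. -/
def Stage0Statement : Prop :=
  ∀ (t : ℝ), 0 < t → t ≤ 1 → ∀ w m13 m33 D : ℂ, Sys0 (t * p0) w m13 m33 D → ‖w‖ ≠ 1

/-- Numerical statement 0a: the point `w = h(p₀)` does not lie in a certain annulus. -/
def Stage0aStatement : Prop :=
  ∀ w m13 m33 D : ℂ, Sys0 p0 w m13 m33 D → 64 / 65 ≤ ‖w‖ → ‖w‖ ≤ 1 → False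

/-- Numerical statement 1: localisation of `1/w`, `w = h(p₀)`. -/
def Stage1Statement : Prop :=
  ∀ w m13 m33 D : ℂ, Sys1 p0 w m13 m33 D → w ≠ 0 → ‖w‖ ≤ 64 / 65 →
    67 / 128 ≤ (1 / w).re ∧ (1 / w).re ≤ 5 / 8 ∧ 33 / 32 ≤ (1 / w).im ∧ (1 / w).im ≤ 37 / 32

/-- Numerical statement 2: the contradiction for the pair `p₀, q₀`. -/
def Stage2Statement : Prop :=
  ∀ wp wq m13 m33 Dpp Dqq Dpq : ℂ, Sys2 p0 q0 wp wq m13 m33 Dpp Dqq Dpq →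
    Dpq = Complex.log (((wp - wq) * (p0 + q0)) / ((wp + wq) * (p0 - q0))) →
    67 / 128 ≤ (1 / wp).re → (1 / wp).re ≤ 5 / 8 → 33 / 32 ≤ (1 / wp).im →
    (1 / wp).im ≤ 37 / 32 →
    67 / 128 ≤ (1 / wq).re → (1 / wq).re ≤ 5 / 8 → -(37 / 32) ≤ (1 / wq).im →
    (1 / wq).im ≤ -(33 / 32) → False

end

end Pool.Agent.Lib.Pd7a79b
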