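import Pool.Agent.Lib.Pd7a79b.GoluzinGen
import Pool.Agent.Lib.Pd7a79b.Iface

set_option autoImplicit false

open Complex Metric Set Filter Topology MeasureTheory

namespace Pool.Agent.Lib.Pd7a79b

/-- The inequality in the two-point form. -/
theorem goluzin_two {R : ℝ} {h : ℂ → ℂ} (hR : 1 < R) (hd : DifferentiableOn ℂ h (ball 0 R))
    (hi : InjOn h (ball 0 R)) (hodd : OddOn R h) {c m13 m33 : ℂ} {H H2 Y1 Y3 : ℂ → ℂ}
    (hE : Expansion R h c m13 m33 H H2 Y1 Y3) {p q : ℂ} (hp : p ∈ ball (0 : ℂ) 1)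
    (hq : q ∈ ball (0 : ℂ) 1) (hp0 : p ≠ 0) (hq0 : q ≠ 0) (x1 x3 xp xq : ℂ) :
    ‖QF c m13 m33 p q (h p) (h q) (LA R h p p) (LA R h q q) (LA R h p q) x1 x3 xp xq‖ ≤
      KF x1 x3 xp xq p q := by
  have h1 := goluzin_general (ι := Fin 2) hR hd hi hodd hE x1 x3 ![xp, xq] (ζ := ![p, q])
    (by
      intro i
      fin_cases i
      · exact hp
      · exact hq)
    (by
      intro i
      fin_cases i
      · exact hp0
      · exact hq0)
  have hR0 : 0 < R := by linarith
  have hsym : LA R h q p = LA R h p q :=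
    LA_symm hR0 hd hi hodd (ball_subset_ball hR.le hq) (ball_subset_ball hR.le hp)
  have e1 : ∀ k, mom x1 x3 ![xp, xq] ![p, q] k = (if k = 0 then x1 else 0) +
      (if k = 1 then x3 else 0) + xp * p ^ (2 * k + 1) + xq * q ^ (2 * k + 1) := by
    intro k
    simp [mom, Fin.sum_univ_two, add_assoc]
  simp only [e1] at h1
  unfold KF
  refine le_trans (le_of_eq ?_) h1
  congr 1
  simp only [Fin.sum_univ_two, Matrix.cons_val_zero, Matrix.cons_val_one, hsym]
  unfold QF phi1 phi3
  ring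

theorem goluzin_statement : GoluzinStatement := by
  intro R hR h hd hi hodd h1
  have hR0 : 0 < R := by linarith
  have h0 : (0 : ℂ) ∈ ball (0 : ℂ) R := mem_ball_self hR0
  obtain ⟨c, m13, m33, H, H2, Y1, Y3, hE⟩ := exists_expansion hR0 hd hi hodd h1
  refine ⟨c, m13, m33, fun p q => LA R h p q, ?_⟩
  have hsub : ball (0 : ℂ) 1 ⊆ ball 0 R := ball_subset_ball hR.le
  have hcont : ∀ {Y : ℂ → ℂ}, DifferentiableOn ℂ Y (ball 0 R) → ContinuousAt Y 0 :=
    fun hY => hY.continuousOn.continuousAt (isOpen_ball.mem_nhds h0)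
  have hnear : ∀ᶠ z in 𝓝[≠] (0 : ℂ), z ∈ ball (0 : ℂ) R ∧ z ≠ 0 := by
    have : ∀ᶠ z in 𝓝 (0 : ℂ), z ∈ ball (0 : ℂ) R := isOpen_ball.mem_nhds h0
    exact (this.filter_mono nhdsWithin_le_nhds).and eventually_mem_nhdsWithin
  have hdslope : ∀ p ∈ ball (0 : ℂ) 1, ∀ q ∈ ball (0 : ℂ) 1,
      Complex.exp (LA R h p q) = dslope h p q / dslope h (-p) q := by
    intro p hp q hq
    have := (LA_spec hR0 hd hi hodd (hsub hp)).2.2 q (hsub hq)
    rw [this]
    rfl
  constructor
  · -- asym1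
    have hY := hcont hE.hY1
    have hlim : Tendsto (fun z : ℂ => Y1 z - m13) (𝓝[≠] 0) (𝓝 0) := by
      have h2 : ContinuousAt (fun z : ℂ => Y1 z - m13) 0 := hY.sub continuousAt_const
      have := h2.tendsto.mono_left (nhdsWithin_le_nhds (s := {(0 : ℂ)}ᶜ))
      rwa [hE.Y1_zero, sub_self] at this
    apply hlim.congr'
    filter_upwards [hnear] with z hz
    have e1 := hE.phi1_eq z hz.1 hz.2
    have hz0 := hz.2
    rw [e1]
    field_simp
    ring
  · -- asym3
    have hY := hcont hE.hY3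
    have hlim : Tendsto (fun z : ℂ => Y3 z - m33) (𝓝[≠] 0) (𝓝 0) := by
      have h2 : ContinuousAt (fun z : ℂ => Y3 z - m33) 0 := hY.sub continuousAt_const
      have := h2.tendsto.mono_left (nhdsWithin_le_nhds (s := {(0 : ℂ)}ᶜ))
      rwa [hE.Y3_zero, sub_self] at this
    apply hlim.congr'
    filter_upwards [hnear] with z hz
    have e1 := hE.phi3_eq z hz.1 hz.2
    have hz0 := hz.2
    rw [e1]
    field_simp
    ring
  · -- expD
    intro p hp q hq hp0 hq0 hpq hpq'
    rw [hdslope p hp q hq, dslope_of_ne _ (Ne.symm hpq), dslope_of_ne _ (by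
      intro h2
      apply hpq'
      rw [h2, neg_neg]), slope_def_field, slope_def_field, hodd p (hsub hp)]
    have n1 : q - p ≠ 0 := sub_ne_zero.mpr (Ne.symm hpq)
    have n2 : p - q ≠ 0 := sub_ne_zero.mpr hpq
    have n3 : q - -p ≠ 0 := by
      intro h2
      apply hpq'
      linear_combination h2
    have n4 : h q - h p ≠ 0 := by
      intro h2
      exact hpq (hi (hsub hp) (hsub hq) (sub_eq_zero.mp h2).symm)
    have n5 : h q - -h p ≠ 0 := by
      intro h2
      have : q = -p := hi (hsub hq) (neg_mem_ball (hsub hp)) (by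
        rw [hodd p (hsub hp)]
        exact sub_eq_zero.mp h2)
      exact hpq' (by rw [this, neg_neg])
    have n6 : h p + h q ≠ 0 := by
      intro h2
      apply n5
      linear_combination h2
    rw [div_div_div_eq, div_eq_div_iff (mul_ne_zero n1 n5) (mul_ne_zero n6 n2)]
    ring
  · -- expDD
    intro p hp hp0
    have hneg : p ≠ -p := by
      intro h2
      apply hp0
      exact self_eq_neg.mp h2
    rw [hdslope p hp p hp, dslope_same, dslope_of_ne _ hneg, slope_def_field,
      hodd p (hsub hp)]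
    have n1 := hE.h_ne p (hsub hp) hp0
    have n2 : p - -p ≠ 0 := sub_ne_zero.mpr hneg
    have n3 : h p - -h p ≠ 0 := by
      rw [sub_neg_eq_add, ← two_mul]
      exact mul_ne_zero two_ne_zero n1
    field_simp
  · -- ineq
    intro p hp q hq hp0 hq0 x1 x3 xp xq
    exact goluzin_two hR hd hi hodd hE hp hq hp0 hq0 x1 x3 xp xq

end Pool.Agent.Lib.Pd7a79b
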