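import Pool.Agent.Lib.Pd7a79b.Odd

set_option autoImplicit false

open Complex Metric Set Filter Topology MeasureTheory

namespace Pool.Agent.Lib.Pd7a79b

variable {R : ℝ} {h : ℂ → ℂ}

/-- the ratio of divided differences -/
noncomputable def rat (h : ℂ → ℂ) (a z : ℂ) : ℂ := dslope h a z / dslope h (-a) z

/-- logarithmic derivative of `rat` in `z` -/
noncomputable def gA (h : ℂ → ℂ) (a z : ℂ) : ℂ :=
  deriv (dslope h a) z / dslope h a z - deriv (dslope h (-a)) z / dslope h (-a) z

theorem gA_diff (hd : DifferentiableOn ℂ h (ball 0 R)) (hi : InjOn h (ball 0 R)) {a : ℂ}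
    (ha : a ∈ ball (0 : ℂ) R) : DifferentiableOn ℂ (gA h a) (ball 0 R) := by
  have ha' := neg_mem_ball ha
  apply DifferentiableOn.sub
  · exact ((dslope_diff hd ha).deriv isOpen_ball).div (dslope_diff hd ha)
      fun z hz => dslope_ne_zero hd hi ha hz
  · exact ((dslope_diff hd ha').deriv isOpen_ball).div (dslope_diff hd ha')
      fun z hz => dslope_ne_zero hd hi ha' hz

theorem rat_ne_zero (hd : DifferentiableOn ℂ h (ball 0 R)) (hi : InjOn h (ball 0 R)) {a z : ℂ}
    (ha : a ∈ ball (0 : ℂ) R) (hz : z ∈ ball (0 : ℂ) R) : rat h a z ≠ 0 :=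
  div_ne_zero (dslope_ne_zero hd hi ha hz) (dslope_ne_zero hd hi (neg_mem_ball ha) hz)

theorem rat_hasDeriv (hd : DifferentiableOn ℂ h (ball 0 R)) (hi : InjOn h (ball 0 R)) {a z : ℂ}
    (ha : a ∈ ball (0 : ℂ) R) (hz : z ∈ ball (0 : ℂ) R) :
    HasDerivAt (rat h a) (rat h a z * gA h a z) z := by
  have ha' := neg_mem_ball ha
  have h1 := ((dslope_diff hd ha).differentiableAt (isOpen_ball.mem_nhds hz)).hasDerivAt
  have h2 := ((dslope_diff hd ha').differentiableAt (isOpen_ball.mem_nhds hz)).hasDerivAt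
  have n1 := dslope_ne_zero hd hi ha hz
  have n2 := dslope_ne_zero hd hi ha' hz
  have h3 := h1.fun_div h2 n2
  apply h3.congr_deriv
  simp only [rat, gA]
  field_simp

theorem dslope_comm (h : ℂ → ℂ) (a z : ℂ) : dslope h a z = dslope h z a := by
  by_cases haz : z = a
  · rw [haz]
  · rw [dslope_of_ne _ haz, dslope_of_ne _ (Ne.symm haz), slope_comm]

theorem dslope_neg_neg (hodd : OddOn R h) {a z : ℂ}
    (ha : a ∈ ball (0 : ℂ) R) (hz : z ∈ ball (0 : ℂ) R) :
    dslope h (-a) (-z) = dslope h a z := by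
  by_cases haz : z = a
  · subst haz
    rw [dslope_same, dslope_same]
    have h2 : (fun w => h (-w)) =ᶠ[𝓝 z] fun w => - h w := by
      filter_upwards [isOpen_ball.mem_nhds hz] with w hw using hodd w hw
    have h3 := h2.deriv_eq
    rw [deriv_comp_neg, deriv.fun_neg] at h3
    exact neg_injective h3
  · rw [dslope_of_ne _ haz, dslope_of_ne _ (fun h => haz (neg_injective h)), slope_def_field,
      slope_def_field, hodd a ha, hodd z hz]
    rw [show -h z - -h a = -(h z - h a) by ring, show -z - -a = -(z - a) by ring,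
      neg_div_neg_eq]

theorem rat_zero_right (hodd : OddOn R h) {a : ℂ} (h0 : (0 : ℂ) ∈ ball (0 : ℂ) R)
    (ha : a ∈ ball (0 : ℂ) R) (hne : dslope h a 0 ≠ 0) :
    rat h a 0 = 1 := by
  unfold rat
  have := dslope_neg_neg hodd ha h0
  rw [neg_zero] at this
  rw [this, div_self hne]

theorem rat_symm (hodd : OddOn R h) {a z : ℂ}
    (ha : a ∈ ball (0 : ℂ) R) (hz : z ∈ ball (0 : ℂ) R) : rat h a z = rat h z a := by
  unfold rat
  rw [dslope_comm h a z]
  congr 1
  have := dslope_neg_neg hodd ha (neg_mem_ball hz)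
  rw [neg_neg] at this
  rw [this, dslope_comm]

/-- Existence of the logarithm in the second variable. -/
theorem exists_log (hR : 0 < R) (hd : DifferentiableOn ℂ h (ball 0 R))
    (hi : InjOn h (ball 0 R)) (hodd : OddOn R h) {a : ℂ}
    (ha : a ∈ ball (0 : ℂ) R) : ∃ A : ℂ → ℂ, A 0 = 0 ∧
      (∀ z ∈ ball (0 : ℂ) R, HasDerivAt A (gA h a z) z) ∧
      (∀ z ∈ ball (0 : ℂ) R, Complex.exp (A z) = rat h a z) := by
  have h0 : (0 : ℂ) ∈ ball (0 : ℂ) R := mem_ball_self hR
  obtain ⟨A, hA, hA0⟩ := ((gA_diff hd hi ha).isExactOn_ball).with_val_at 0 0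
  refine ⟨A, hA, hA0, ?_⟩
  have hder : ∀ z ∈ ball (0 : ℂ) R, HasDerivAt (fun z => Complex.exp (- A z) * rat h a z) 0 z := by
    intro z hz
    have h1 := ((hA0 z hz).fun_neg.cexp).fun_mul (rat_hasDeriv hd hi ha hz)
    exact h1.congr_deriv (by ring)
  have hconst : ∀ z ∈ ball (0 : ℂ) R, Complex.exp (- A z) * rat h a z =
      Complex.exp (- A 0) * rat h a 0 := by
    intro z hz
    exact (convex_ball (0 : ℂ) R).is_const_of_fderivWithin_eq_zero
      (𝕜 := ℂ) (f := fun z => Complex.exp (- A z) * rat h a z)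
      (fun w hw => (hder w hw).differentiableAt.differentiableWithinAt)
      (fun w hw => by
        rw [(hder w hw).hasFDerivAt.hasFDerivWithinAt.fderivWithin
          (isOpen_ball.uniqueDiffWithinAt hw)]
        ext
        simp) hz h0
  intro z hz
  have h1 := hconst z hz
  rw [hA, neg_zero, Complex.exp_zero, one_mul,
    rat_zero_right hodd h0 ha (dslope_ne_zero hd hi ha h0), Complex.exp_neg] at h1
  have h2 := Complex.exp_ne_zero (A z)
  field_simp at h1
  exact h1.symm

open Classical in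
/-- The logarithm. -/
noncomputable def LA (R : ℝ) (h : ℂ → ℂ) (a : ℂ) : ℂ → ℂ :=
  if H : ∃ A : ℂ → ℂ, A 0 = 0 ∧
      (∀ z ∈ ball (0 : ℂ) R, HasDerivAt A (gA h a z) z) ∧
      (∀ z ∈ ball (0 : ℂ) R, Complex.exp (A z) = rat h a z) then H.choose else 0

theorem LA_spec (hR : 0 < R) (hd : DifferentiableOn ℂ h (ball 0 R))
    (hi : InjOn h (ball 0 R)) (hodd : OddOn R h) {a : ℂ}
    (ha : a ∈ ball (0 : ℂ) R) : LA R h a 0 = 0 ∧
      (∀ z ∈ ball (0 : ℂ) R, HasDerivAt (LA R h a) (gA h a z) z) ∧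
      (∀ z ∈ ball (0 : ℂ) R, Complex.exp (LA R h a z) = rat h a z) := by
  have H := exists_log hR hd hi hodd ha
  unfold LA
  rw [dif_pos H]
  exact H.choose_spec

/-- joint continuity of the divided difference -/
theorem dslope_cont (hd : DifferentiableOn ℂ h (ball 0 R)) :
    ContinuousOn (fun x : ℂ × ℂ => dslope h x.1 x.2) (ball (0 : ℂ) R ×ˢ ball (0 : ℂ) R) := by
  rintro ⟨a, b⟩ ⟨ha, hb⟩
  simp only at ha hb
  apply ContinuousAt.continuousWithinAt
  by_cases hab : b = a
  · subst hab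
    have hana : AnalyticAt ℂ h b := (hd.analyticOnNhd isOpen_ball) b hb
    have hstrict := hana.hasStrictDerivAt
    have hdc : ContinuousAt (deriv h) b :=
      (hd.deriv isOpen_ball).continuousOn.continuousAt (isOpen_ball.mem_nhds hb)
    -- use epsilon
    rw [Metric.continuousAt_iff']
    intro ε hε
    have hs := hstrict.isLittleO
    have hs' := hs.def (show (0 : ℝ) < ε / 2 by positivity)
    have hdc' : ∀ᶠ x : ℂ × ℂ in 𝓝 (b, b), dist (deriv h x.1) (deriv h b) < ε := by
      have h1 : ContinuousAt (fun x : ℂ × ℂ => deriv h x.1) (b, b) :=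
        ContinuousAt.comp (f := fun x : ℂ × ℂ => x.1) (x := (b, b)) hdc continuousAt_fst
      exact (Metric.continuousAt_iff'.mp h1) ε hε
    filter_upwards [hs', hdc'] with x hx1 hx2
    rw [dslope_same]
    by_cases hx : x.2 = x.1
    · rw [hx, dslope_same]
      exact hx2
    · rw [dslope_of_ne _ hx, slope_def_field, dist_eq_norm]
      have hx' : x.1 - x.2 ≠ 0 := sub_ne_zero.mpr (Ne.symm hx)
      have hx'' : x.2 - x.1 ≠ 0 := sub_ne_zero.mpr hx
      have h2 : (h x.2 - h x.1) / (x.2 - x.1) - deriv h b =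
          (h x.1 - h x.2 - (x.1 - x.2) • deriv h b) / (x.1 - x.2) := by
        rw [smul_eq_mul]
        field_simp
        ring
      rw [h2, norm_div]
      have hn : 0 < ‖x.1 - x.2‖ := norm_pos_iff.mpr hx'
      rw [div_lt_iff₀ hn]
      have h3 : ‖h x.1 - h x.2 - (x.1 - x.2) • deriv h b‖ ≤ ε / 2 * ‖x.1 - x.2‖ := by
        simpa using hx1
      apply h3.trans_lt
      apply mul_lt_mul_of_pos_right _ hn
      linarith
  · have h1 : (fun x : ℂ × ℂ => dslope h x.1 x.2) =ᶠ[𝓝 (a, b)]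
        fun x : ℂ × ℂ => (h x.2 - h x.1) / (x.2 - x.1) := by
      have hne : ∀ᶠ x : ℂ × ℂ in 𝓝 (a, b), x.2 - x.1 ≠ 0 := by
        apply ContinuousAt.eventually_ne (by fun_prop)
        exact sub_ne_zero.mpr hab
      filter_upwards [hne] with x hx
      rw [dslope_of_ne _ (sub_ne_zero.mp hx), slope_def_field]
    apply ContinuousAt.congr _ h1.symm
    have hca : ContinuousAt h a := hd.continuousOn.continuousAt (isOpen_ball.mem_nhds ha)
    have hcb : ContinuousAt h b := hd.continuousOn.continuousAt (isOpen_ball.mem_nhds hb)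
    have c1 : ContinuousAt (fun x : ℂ × ℂ => h x.1) (a, b) :=
      ContinuousAt.comp (f := fun x : ℂ × ℂ => x.1) (x := (a, b)) hca continuousAt_fst
    have c2 : ContinuousAt (fun x : ℂ × ℂ => h x.2) (a, b) :=
      ContinuousAt.comp (f := fun x : ℂ × ℂ => x.2) (x := (a, b)) hcb continuousAt_snd
    exact (c2.sub c1).div (by fun_prop) (sub_ne_zero.mpr hab)

theorem rat_cont (hd : DifferentiableOn ℂ h (ball 0 R)) (hi : InjOn h (ball 0 R)) :
    ContinuousOn (fun x : ℂ × ℂ => rat h x.1 x.2) (ball (0 : ℂ) R ×ˢ ball (0 : ℂ) R) := by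
  apply ContinuousOn.div (dslope_cont hd)
  · apply ContinuousOn.comp (g := fun x : ℂ × ℂ => dslope h x.1 x.2)
      (f := fun x : ℂ × ℂ => (-x.1, x.2)) (dslope_cont hd)
    · fun_prop
    · rintro x ⟨hx1, hx2⟩
      exact ⟨neg_mem_ball hx1, hx2⟩
  · rintro x ⟨hx1, hx2⟩
    exact dslope_ne_zero hd hi (neg_mem_ball hx1) hx2

/-- Symmetry of the logarithms. -/
theorem LA_symm (hR : 0 < R) (hd : DifferentiableOn ℂ h (ball 0 R))
    (hi : InjOn h (ball 0 R)) (hodd : OddOn R h) {a b : ℂ}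
    (ha : a ∈ ball (0 : ℂ) R) (hb : b ∈ ball (0 : ℂ) R) : LA R h a b = LA R h b a := by
  have h0 : (0 : ℂ) ∈ ball (0 : ℂ) R := mem_ball_self hR
  set U : Set (ℂ × ℂ) := ball (0 : ℂ) R ×ˢ ball (0 : ℂ) R with hU
  have hUconv : Convex ℝ U := (convex_ball _ _).prod (convex_ball _ _)
  have hUo : IsOpen U := isOpen_ball.prod isOpen_ball
  have hUne : U.Nonempty := ⟨(0, 0), h0, h0⟩
  have hUs : IsSimplyConnected U := by
    have := hUconv.contractibleSpace hUne
    exact (inferInstance : SimplyConnectedSpace U)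
  obtain ⟨L, hLc, hLe⟩ := Complex.exists_continuousOn_eqOn_exp_comp hUs hUo (rat_cont hd hi) (by
    rintro ⟨x, ⟨hx1, hx2⟩, hx3⟩
    exact rat_ne_zero hd hi hx1 hx2 hx3)
  have hrat0 : ∀ x ∈ ball (0 : ℂ) R, rat h x 0 = 1 := fun x hx =>
    rat_zero_right hodd h0 hx (dslope_ne_zero hd hi hx h0)
  -- L x y = L 0 0 + LA x y
  have hkey : ∀ x ∈ ball (0 : ℂ) R, ∀ y ∈ ball (0 : ℂ) R, L (x, y) - L (0, 0) = LA R h x y := by
    intro x hx y hy
    -- first L (x, 0) = L (0, 0)
    have hpc : IsPreconnected (ball (0 : ℂ) R) := (convex_ball (0 : ℂ) R).isPreconnected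
    have e1 : L (x, 0) - L (0, 0) = 0 := by
      apply log_unique hpc (f := fun x => L (x, 0) - L (0, 0)) (x₀ := 0) _ _ h0 (by simp) x hx
      · apply ContinuousOn.sub _ continuousOn_const
        exact hLc.comp (by fun_prop) fun w hw => ⟨hw, h0⟩
      · intro w hw
        rw [Complex.exp_sub]
        have a1 := hLe (show (w, (0 : ℂ)) ∈ U from ⟨hw, h0⟩)
        have a2 := hLe (show ((0 : ℂ), (0 : ℂ)) ∈ U from ⟨h0, h0⟩)
        simp only [Function.comp] at a1 a2
        rw [a1, a2, hrat0 w hw, hrat0 0 h0, div_one]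
    obtain ⟨s1, s2, s3⟩ := LA_spec hR hd hi hodd hx
    have e2 : L (x, y) - L (x, 0) - LA R h x y = 0 := by
      apply log_unique hpc (f := fun y => L (x, y) - L (x, 0) - LA R h x y) (x₀ := 0) _ _ h0
        (by simp [s1]) y hy
      · apply ContinuousOn.sub
        · apply ContinuousOn.sub _ continuousOn_const
          exact hLc.comp (by fun_prop) fun w hw => ⟨hx, hw⟩
        · exact fun w hw => (s2 w hw).continuousAt.continuousWithinAt
      · intro w hw
        rw [Complex.exp_sub, Complex.exp_sub]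
        have a1 := hLe (show (x, w) ∈ U from ⟨hx, hw⟩)
        have a2 := hLe (show (x, (0 : ℂ)) ∈ U from ⟨hx, h0⟩)
        simp only [Function.comp] at a1 a2
        rw [a1, a2, hrat0 x hx, div_one, s3 w hw, div_self (rat_ne_zero hd hi hx hw)]
    linear_combination e2 + e1
  -- symmetry of L
  have hsym : L (a, b) - L (b, a) = 0 := by
    apply log_unique hUconv.isPreconnected
      (f := fun x : ℂ × ℂ => L (x.1, x.2) - L (x.2, x.1)) (x₀ := (0, 0)) _ _
      ⟨h0, h0⟩ (by simp) (a, b) ⟨ha, hb⟩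
    · apply ContinuousOn.sub
      · exact hLc
      · exact hLc.comp (by fun_prop) fun w hw => ⟨hw.2, hw.1⟩
    · rintro w ⟨hw1, hw2⟩
      rw [Complex.exp_sub]
      have a1 := hLe (show (w.1, w.2) ∈ U from ⟨hw1, hw2⟩)
      have a2 := hLe (show (w.2, w.1) ∈ U from ⟨hw2, hw1⟩)
      simp only [Function.comp] at a1 a2
      rw [a1, a2, rat_symm hodd hw1 hw2, div_self (rat_ne_zero hd hi hw2 hw1)]
  rw [← hkey a ha b hb, ← hkey b hb a ha]
  linear_combination hsym

/-- oddness of the logarithm -/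
theorem LA_odd (hR : 0 < R) (hd : DifferentiableOn ℂ h (ball 0 R))
    (hi : InjOn h (ball 0 R)) (hodd : OddOn R h) {a : ℂ}
    (ha : a ∈ ball (0 : ℂ) R) : OddOn R (LA R h a) := by
  have h0 : (0 : ℂ) ∈ ball (0 : ℂ) R := mem_ball_self hR
  obtain ⟨s1, s2, s3⟩ := LA_spec hR hd hi hodd ha
  intro z hz
  have hcont : ContinuousOn (LA R h a) (ball (0 : ℂ) R) :=
    fun w hw => (s2 w hw).continuousAt.continuousWithinAt
  have hk : LA R h a (-z) + LA R h a z = 0 := by
    apply log_unique (convex_ball (0 : ℂ) R).isPreconnected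
      (f := fun z => LA R h a (-z) + LA R h a z) (x₀ := 0) _ _ h0 (by simp [s1]) z hz
    · apply ContinuousOn.add _ hcont
      exact hcont.comp (by fun_prop) fun w hw => neg_mem_ball hw
    · intro w hw
      rw [Complex.exp_add, s3 w hw, s3 (-w) (neg_mem_ball hw)]
      unfold rat
      have n1 := dslope_ne_zero hd hi ha hw
      have n2 := dslope_ne_zero hd hi (neg_mem_ball ha) hw
      have e1 := dslope_neg_neg hodd ha hw
      have e2 := dslope_neg_neg hodd ha (neg_mem_ball hw)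
      rw [neg_neg] at e2
      rw [e1, ← e2]
      field_simp
  linear_combination hk

end Pool.Agent.Lib.Pd7a79b
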