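import Pool.Agent.Lib.Pd7a79b.Abs

set_option autoImplicit false

open Complex Metric Set Filter Topology MeasureTheory

namespace Pool.Agent.Lib.Pd7a79b

/-- evenness on a ball -/
def EvenOn (R : ℝ) (E : ℂ → ℂ) : Prop := ∀ z ∈ ball (0 : ℂ) R, E (-z) = E z

/-- oddness on a ball -/
def OddOn (R : ℝ) (E : ℂ → ℂ) : Prop := ∀ z ∈ ball (0 : ℂ) R, E (-z) = -E z

variable {R : ℝ}

theorem neg_mem_ball {z : ℂ} (hz : z ∈ ball (0 : ℂ) R) : -z ∈ ball (0 : ℂ) R := by
  rw [mem_ball_zero_iff] at hz ⊢
  rwa [norm_neg]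

theorem odd_factor (hR : 0 < R) {O : ℂ → ℂ} (hO : DifferentiableOn ℂ O (ball 0 R))
    (hodd : OddOn R O) : ∃ E : ℂ → ℂ, DifferentiableOn ℂ E (ball 0 R) ∧ EvenOn R E ∧
      (∀ z, O z = z * E z) ∧ E 0 = deriv O 0 := by
  have h0 : (0 : ℂ) ∈ ball (0 : ℂ) R := mem_ball_self hR
  have hO0 : O 0 = 0 := by
    have := hodd 0 h0
    rw [neg_zero] at this
    exact self_eq_neg.mp this
  refine ⟨dslope O 0, dslope_diff hO h0, ?_, ?_, dslope_same O 0⟩
  · intro z hz
    by_cases hz0 : z = 0
    · rw [hz0, neg_zero]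
    · rw [dslope_of_ne _ (neg_ne_zero.mpr hz0), dslope_of_ne _ hz0, slope_def_field,
        slope_def_field, hodd z hz, hO0]
      simp only [sub_zero, neg_div_neg_eq]
  · intro z
    have := sub_eq_mul_dslope O 0 z
    rw [hO0, sub_zero, sub_zero] at this
    exact this

theorem even_factor (hR : 0 < R) {E : ℂ → ℂ} (hE : DifferentiableOn ℂ E (ball 0 R))
    (heven : EvenOn R E) : ∃ F : ℂ → ℂ, DifferentiableOn ℂ F (ball 0 R) ∧ EvenOn R F ∧
      (∀ z, E z = E 0 + z ^ 2 * F z) := by
  have h0 : (0 : ℂ) ∈ ball (0 : ℂ) R := mem_ball_self hR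
  have hOd := dslope_diff hE h0
  have hodd0 : ∀ z ∈ ball (0 : ℂ) R, z ≠ 0 → dslope E 0 (-z) = - dslope E 0 z := by
    intro z hz hz0
    rw [dslope_of_ne _ (neg_ne_zero.mpr hz0), dslope_of_ne _ hz0, slope_def_field,
        slope_def_field, heven z hz]
    simp only [sub_zero]
    rw [div_neg]
  have hodd : OddOn R (dslope E 0) := by
    intro z hz
    by_cases hz0 : z = 0
    · subst hz0
      -- derivative at zero vanishes
      have h1 : deriv E 0 = 0 := by
        have h2 : (fun z => E (-z)) =ᶠ[𝓝 0] E := by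
          filter_upwards [isOpen_ball.mem_nhds h0] with z hz using heven z hz
        have h3 := h2.deriv_eq
        rw [deriv_comp_neg, neg_zero] at h3
        exact self_eq_neg.mp h3.symm
      rw [neg_zero, dslope_same, h1, neg_zero]
    · exact hodd0 z hz hz0
  obtain ⟨F, hF1, hF2, hF3, -⟩ := odd_factor hR hOd hodd
  refine ⟨F, hF1, hF2, ?_⟩
  intro z
  have := sub_eq_mul_dslope E 0 z
  rw [sub_zero, hF3 z] at this
  linear_combination this

/-- coefficient functionals for `z (b + z² Y(z))` -/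
theorem coeff_one {ρ : ℝ} (hρ : 1 < ρ) {A Y : ℂ → ℂ} {b : ℂ}
    (hY : DifferentiableOn ℂ Y (ball 0 ρ)) (hA : ∀ z, A z = z * (b + z ^ 2 * Y z)) :
    Real.circleAverage (fun z => A z * z⁻¹) 0 1 = b := by
  have h1 : Real.circleAverage (fun z => A z * z⁻¹) 0 1 =
      Real.circleAverage (fun z => b + z ^ 2 * Y z) 0 1 := by
    apply Real.circleAverage_congr_sphere
    intro z hz
    have hz0 : z ≠ 0 := by
      rintro rfl
      simp at hz
    simp only
    rw [hA]
    field_simp
  have hdc : DiffContOnCl ℂ (fun z => b + z ^ 2 * Y z) (ball 0 |1|) := by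
    apply DifferentiableOn.diffContOnCl
    rw [abs_one, closure_ball _ one_ne_zero]
    have hY' := hY.mono (closedBall_sub_ball hρ)
    fun_prop
  rw [h1, hdc.circleAverage]
  simp

theorem cavg_inv_sq : Real.circleAverage (fun z : ℂ => (z⁻¹) ^ 2) 0 1 = 0 := by
  have := cavg_pow_mul_inv_pow 0 2
  simpa using this

theorem coeff_three {ρ : ℝ} (hρ : 1 < ρ) {A Y : ℂ → ℂ} {b : ℂ}
    (hY : DifferentiableOn ℂ Y (ball 0 ρ)) (hA : ∀ z, A z = z * (b + z ^ 2 * Y z)) :
    Real.circleAverage (fun z => A z * (z⁻¹) ^ 3) 0 1 = Y 0 := by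
  have h1 : Real.circleAverage (fun z => A z * (z⁻¹) ^ 3) 0 1 =
      Real.circleAverage (fun z => b * (z⁻¹) ^ 2 + Y z) 0 1 := by
    apply Real.circleAverage_congr_sphere
    intro z hz
    have hz0 : z ≠ 0 := by
      rintro rfl
      simp at hz
    simp only
    rw [hA]
    field_simp
  have hc1 : CircleIntegrable (fun z : ℂ => b * (z⁻¹) ^ 2) 0 1 := by
    apply ContinuousOn.circleIntegrable zero_le_one
    apply ContinuousOn.mul continuousOn_const
    apply ContinuousOn.pow
    apply ContinuousOn.inv₀ continuousOn_id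
    intro z hz h0
    simp only [id] at h0
    rw [h0] at hz
    simp at hz
  have hc2 : CircleIntegrable Y 0 1 :=
    (hY.continuousOn.mono (sphere_sub_ball hρ)).circleIntegrable zero_le_one
  have hdc : DiffContOnCl ℂ Y (ball 0 |1|) := by
    apply DifferentiableOn.diffContOnCl
    rw [abs_one, closure_ball _ one_ne_zero]
    exact hY.mono (closedBall_sub_ball hρ)
  have h2 : Real.circleAverage (fun z : ℂ => b * (z⁻¹) ^ 2) 0 1 = 0 := by
    have := Real.circleAverage_fun_smul (a := b) (f := fun z : ℂ => (z⁻¹) ^ 2) (c := 0) (R := 1)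
    simp only [smul_eq_mul] at this
    rw [this, cavg_inv_sq, mul_zero]
  rw [h1, Real.circleAverage_fun_add hc1 hc2, h2, zero_add, hdc.circleAverage]

/-- A continuous function with `exp f = 1` on a convex set vanishing at a point vanishes. -/
theorem log_unique {X : Type*} [TopologicalSpace X] {S : Set X} (hS : IsPreconnected S)
    {f : X → ℂ} (hf : ContinuousOn f S) (h1 : ∀ x ∈ S, Complex.exp (f x) = 1) {x₀ : X}
    (hx₀ : x₀ ∈ S) (hfx : f x₀ = 0) : ∀ x ∈ S, f x = 0 := by
  have him : ContinuousOn (fun x => (f x).im) S := Complex.continuous_im.comp_continuousOn hf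
  have hre : ∀ x ∈ S, (f x).re = 0 := by
    intro x hx
    have := congrArg norm (h1 x hx)
    rw [Complex.norm_exp, norm_one, Real.exp_eq_one_iff] at this
    exact this
  have hno : ∀ x ∈ S, |(f x).im| ≠ Real.pi := by
    intro x hx habs
    have h2 : f x = (f x).im * I := by
      apply Complex.ext
      · simp [hre x hx]
      · simp
    have h3 := h1 x hx
    rw [h2] at h3
    rcases abs_eq Real.pi_pos.le |>.mp habs with h4 | h4
    · rw [h4, Complex.exp_pi_mul_I] at h3
      norm_num at h3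
    · rw [h4] at h3
      push_cast at h3
      rw [neg_mul, Complex.exp_neg, Complex.exp_pi_mul_I] at h3
      norm_num at h3
  intro x hx
  have hlt : |(f x).im| < Real.pi := by
    by_contra hcon
    push Not at hcon
    have hiv := hS.intermediate_value hx₀ hx (him.abs)
    have hmem : Real.pi ∈ Icc (|(f x₀).im|) (|(f x).im|) := by
      rw [hfx]
      simp only [Complex.zero_im, abs_zero]
      exact ⟨Real.pi_pos.le, hcon⟩
    obtain ⟨y, hy, hy2⟩ := hiv hmem
    exact hno y hy hy2
  have h5 : Complex.log (Complex.exp (f x)) = f x := by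
    rw [abs_lt] at hlt
    exact Complex.log_exp hlt.1 hlt.2.le
  rw [h1 x hx, Complex.log_one] at h5
  exact h5.symm

end Pool.Agent.Lib.Pd7a79b
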