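import Pool.Agent.Lib.Pd7a79b.AreaLog

set_option autoImplicit false

open Complex Metric Set Filter Topology MeasureTheory

namespace Pool.Agent.Lib.Pd7a79b

/-- termwise circle average -/
theorem hasSum_cavg {u : ℕ → ℂ → ℂ} {S : ℂ → ℂ} {B : ℕ → ℝ}
    (hu : ∀ n, ContinuousOn (u n) (sphere (0 : ℂ) 1)) (hB : Summable B)
    (hb : ∀ n, ∀ z ∈ sphere (0 : ℂ) 1, ‖u n z‖ ≤ B n)
    (hS : ∀ z ∈ sphere (0 : ℂ) 1, HasSum (fun n => u n z) (S z)) :
    HasSum (fun n => Real.circleAverage (u n) 0 1) (Real.circleAverage S 0 1) := by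
  simp only [Real.circleAverage_def]
  apply HasSum.const_smul
  apply intervalIntegral.hasSum_integral_of_dominated_convergence (fun n _ => B n)
  · intro n
    apply Continuous.aestronglyMeasurable
    exact (hu n).comp_continuous (continuous_circleMap 0 1) (fun t => by simp)
  · intro n
    apply Eventually.of_forall
    intro t _
    exact hb n _ (by simp)
  · exact Eventually.of_forall fun t _ => hB
  · exact intervalIntegrable_const
  · apply Eventually.of_forall
    intro t _
    exact hS _ (by simp)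

theorem cavg_pow (n : ℕ) : Real.circleAverage (fun z : ℂ => z ^ n) 0 1 = if n = 0 then 1 else 0 := by
  have : DiffContOnCl ℂ (fun z : ℂ => z ^ n) (ball 0 |1|) := by
    apply DifferentiableOn.diffContOnCl
    fun_prop
  rw [this.circleAverage]
  by_cases hn : n = 0
  · simp [hn]
  · simp [hn]

theorem conj_eq_inv_of_sphere {z : ℂ} (hz : z ∈ sphere (0 : ℂ) 1) : (starRingEnd ℂ) z = z⁻¹ := by
  have hz1 : ‖z‖ = 1 := by simpa using hz
  rw [Complex.inv_def, Complex.normSq_eq_norm_sq, hz1]
  simp

theorem conj_cavg (f : ℂ → ℂ) : (starRingEnd ℂ) (Real.circleAverage f 0 1) =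
    Real.circleAverage (fun z => (starRingEnd ℂ) (f z)) 0 1 := by
  rw [Real.circleAverage_def, Real.circleAverage_def, Complex.real_smul, Complex.real_smul,
    map_mul, Complex.conj_ofReal]
  congr 1
  rw [intervalIntegral.integral_of_le Real.two_pi_pos.le,
    intervalIntegral.integral_of_le Real.two_pi_pos.le]
  exact integral_conj.symm

theorem cavg_pow_mul_inv_pow (n m : ℕ) :
    Real.circleAverage (fun z : ℂ => z ^ n * (z⁻¹) ^ m) 0 1 = if n = m then 1 else 0 := by
  rcases le_or_gt m n with h | h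
  · have h1 : Real.circleAverage (fun z : ℂ => z ^ n * (z⁻¹) ^ m) 0 1 =
        Real.circleAverage (fun z : ℂ => z ^ (n - m)) 0 1 := by
      apply Real.circleAverage_congr_sphere
      intro z hz
      have hz0 : z ≠ 0 := by
        rintro rfl
        simp at hz
      simp only
      rw [inv_pow, ← div_eq_mul_inv, pow_sub₀ z hz0 h, div_eq_mul_inv]
    rw [h1, cavg_pow]
    by_cases h2 : n = m
    · simp [h2]
    · rw [if_neg h2, if_neg (by omega)]
  · rw [← Real.circleAverage_zero_one_congr_inv]
    have h1 : Real.circleAverage (fun z : ℂ => (z⁻¹) ^ n * ((z⁻¹)⁻¹) ^ m) 0 1 =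
        Real.circleAverage (fun z : ℂ => z ^ (m - n)) 0 1 := by
      apply Real.circleAverage_congr_sphere
      intro z hz
      have hz0 : z ≠ 0 := by
        rintro rfl
        simp at hz
      simp only
      rw [inv_inv, inv_pow, mul_comm, ← div_eq_mul_inv, pow_sub₀ z hz0 h.le, div_eq_mul_inv]
    rw [h1, cavg_pow, if_neg (by omega), if_neg (by omega)]

/-- Coefficient extraction for a power series on the circle. -/
theorem cavg_coeff {p : ℕ → ℂ} {G : ℂ → ℂ} (hp : Summable fun n => ‖p n‖)
    (hG : ∀ z ∈ sphere (0 : ℂ) 1, HasSum (fun n => p n * z ^ n) (G z)) (m : ℕ) :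
    Real.circleAverage (fun z => G z * (z⁻¹) ^ m) 0 1 = p m := by
  have h1 := hasSum_cavg (u := fun n z => p n * (z ^ n * (z⁻¹) ^ m))
    (S := fun z => G z * (z⁻¹) ^ m) (B := fun n => ‖p n‖) ?_ hp ?_ ?_
  · have h2 : ∀ n, Real.circleAverage (fun z => p n * (z ^ n * (z⁻¹) ^ m)) 0 1 =
        if n = m then p m else 0 := by
      intro n
      have := Real.circleAverage_fun_smul (a := p n) (f := fun z : ℂ => z ^ n * (z⁻¹) ^ m)
        (c := 0) (R := 1)
      simp only [smul_eq_mul] at this
      rw [this, cavg_pow_mul_inv_pow]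
      split_ifs with h3
      · rw [h3, mul_one]
      · rw [mul_zero]
    simp only [h2] at h1
    exact h1.unique (hasSum_ite_eq m (p m))
  · intro n
    apply ContinuousOn.mul continuousOn_const
    apply ContinuousOn.mul (by fun_prop)
    apply ContinuousOn.pow
    apply ContinuousOn.inv₀ continuousOn_id
    intro z hz h0
    simp only [id] at h0
    rw [h0] at hz
    simp at hz
  · intro n z hz
    have hz1 : ‖z‖ = 1 := by simpa using hz
    simp [hz1]
  · intro z hz
    have := (hG z hz).mul_right ((z⁻¹) ^ m)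
    simpa [mul_assoc] using this

/-- The pairing in terms of power series. -/
theorem BB_hasSum {p : ℕ → ℂ} {G G' : ℂ → ℂ} (hp : Summable fun n => ‖p n‖)
    (hp' : Summable fun n : ℕ => (n : ℝ) * ‖p n‖)
    (hGc : ContinuousOn G (sphere (0 : ℂ) 1))
    (hG : ∀ z ∈ sphere (0 : ℂ) 1, HasSum (fun n => p n * z ^ n) (G z))
    (hG' : ∀ z ∈ sphere (0 : ℂ) 1, HasSum (fun n => n * p n * z ^ n) (z * G' z)) :
    HasSum (fun n => ((n * ‖p n‖ ^ 2 : ℝ) : ℂ)) (BB G G') := by
  have h1 := hasSum_cavg (u := fun n z => (starRingEnd ℂ) (G z) * (n * p n * z ^ n))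
    (S := fun z => (starRingEnd ℂ) (G z) * (z * G' z))
    (B := fun n => (∑' k, ‖p k‖) * (n * ‖p n‖)) ?_ (hp'.mul_left _) ?_ ?_
  · have h2 : ∀ n, Real.circleAverage (fun z => (starRingEnd ℂ) (G z) * (n * p n * z ^ n)) 0 1 =
        ((n * ‖p n‖ ^ 2 : ℝ) : ℂ) := by
      intro n
      have h3 : Real.circleAverage (fun z => (starRingEnd ℂ) (G z) * (n * p n * z ^ n)) 0 1 =
          Real.circleAverage (fun z => (n * p n) • (starRingEnd ℂ) (G z * (z⁻¹) ^ n)) 0 1 := by
        apply Real.circleAverage_congr_sphere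
        intro z hz
        rw [abs_one] at hz
        simp only [smul_eq_mul]
        rw [← conj_eq_inv_of_sphere hz, map_mul, map_pow, Complex.conj_conj]
        ring
      rw [h3, Real.circleAverage_fun_smul, ← conj_cavg, cavg_coeff hp hG, smul_eq_mul]
      push_cast
      rw [mul_assoc, Complex.mul_conj, Complex.normSq_eq_norm_sq]
      push_cast
      rfl
    simp only [h2] at h1
    exact h1
  · intro n
    apply ContinuousOn.mul (Complex.continuous_conj.comp_continuousOn hGc)
    fun_prop
  · intro n z hz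
    have hz1 : ‖z‖ = 1 := by simpa using hz
    rw [norm_mul, norm_mul, norm_mul, norm_pow, hz1, one_pow, mul_one, Complex.norm_conj]
    apply mul_le_mul
    · rw [← (hG z hz).tsum_eq]
      calc ‖∑' n, p n * z ^ n‖ ≤ ∑' n, ‖p n * z ^ n‖ := by
            apply norm_tsum_le_tsum_norm
            simpa [hz1] using hp
        _ = ∑' n, ‖p n‖ := by simp [hz1]
    · simp
    · positivity
    · exact tsum_nonneg fun _ => norm_nonneg _
  · intro z hz
    exact (hG' z hz).mul_left _

/-- Positivity of the pairing on functions holomorphic on a neighbourhood of the closed disc. -/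
theorem BB_nonneg {ρ : ℝ} (hρ : 1 < ρ) {G : ℂ → ℂ} (hG : DifferentiableOn ℂ G (ball 0 ρ)) :
    0 ≤ (BB G (deriv G)).re := by
  set p : ℕ → ℂ := fun n => (n.factorial : ℂ)⁻¹ * iteratedDeriv n G 0 with hp
  have hser : ∀ z ∈ ball (0 : ℂ) ρ, HasSum (fun n => p n * z ^ n) (G z) := by
    intro z hz
    have := Complex.hasSum_taylorSeries_on_ball hG hz
    simp only [sub_zero, smul_eq_mul] at this
    apply this.congr_fun
    intro n
    rw [hp]
    ring
  have hder : DifferentiableOn ℂ (deriv G) (ball 0 ρ) := hG.deriv isOpen_ball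
  have hser' : ∀ z ∈ ball (0 : ℂ) ρ, HasSum (fun n : ℕ => (((n + 1 : ℕ) : ℂ) * p (n + 1)) * z ^ n)
      (deriv G z) := by
    intro z hz
    have := Complex.hasSum_taylorSeries_on_ball hder hz
    simp only [sub_zero, smul_eq_mul] at this
    apply this.congr_fun
    intro n
    rw [hp, ← iteratedDeriv_succ']
    simp only
    rw [Nat.factorial_succ]
    have h1 : ((n + 1 : ℕ) : ℂ) ≠ 0 := by exact_mod_cast Nat.succ_ne_zero n
    have h2 : (n.factorial : ℂ) ≠ 0 := by exact_mod_cast Nat.factorial_ne_zero n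
    push_cast
    push_cast at h1
    field_simp
  have hser'' : ∀ z ∈ ball (0 : ℂ) ρ, HasSum (fun n : ℕ => (n : ℂ) * p n * z ^ n)
      (z * deriv G z) := by
    intro z hz
    have h1 := (hser' z hz).mul_left z
    have h2 : HasSum (fun n : ℕ => (((n + 1 : ℕ) : ℂ) * p (n + 1)) * z ^ (n + 1))
      (z * deriv G z) := by
      apply h1.congr_fun
      intro n
      ring
    have h3 := (hasSum_nat_add_iff (f := fun n : ℕ => (n : ℂ) * p n * z ^ n) 1).mp h2
    simpa using h3
  obtain ⟨r, hr1, hr2⟩ := exists_between hρ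
  have hrb : (r : ℂ) ∈ ball (0 : ℂ) ρ := by
    rw [mem_ball_zero_iff, Complex.norm_real, Real.norm_of_nonneg (by linarith)]
    exact hr2
  have hs1 : Summable fun n => ‖p n‖ := by
    have h1 := (hser r hrb).summable.norm
    apply h1.of_nonneg_of_le (fun _ => norm_nonneg _)
    intro n
    rw [norm_mul (p n), norm_pow, Complex.norm_real, Real.norm_of_nonneg (by linarith)]
    exact le_mul_of_one_le_right (norm_nonneg _) (one_le_pow₀ hr1.le)
  have hs2 : Summable fun n : ℕ => (n : ℝ) * ‖p n‖ := by
    have h1 := (hser'' r hrb).summable.norm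
    apply h1.of_nonneg_of_le (fun _ => by positivity)
    intro n
    rw [norm_mul ((n : ℂ) * p n), norm_mul (n : ℂ), norm_pow, Complex.norm_real,
      Real.norm_of_nonneg (by linarith), Complex.norm_natCast]
    exact le_mul_of_one_le_right (by positivity) (one_le_pow₀ hr1.le)
  have hsub := sphere_sub_ball hρ
  have h1 := BB_hasSum hs1 hs2 (hG.continuousOn.mono hsub) (fun z hz => hser z (hsub hz))
    (fun z hz => hser'' z (hsub hz))
  have h2 := Complex.reCLM.hasSum h1
  simp only [Complex.reCLM_apply, Complex.ofReal_re] at h2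
  exact h2.nonneg fun n => by positivity

end Pool.Agent.Lib.Pd7a79b
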