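import Pool.Agent.Lib.Pd7a79b.Wind

set_option autoImplicit false

open Complex Metric Set Filter Topology Polynomial

namespace Pool.Agent.Lib.Pd7a79b

variable {h : ℂ → ℂ} {R : ℝ}

/-- `M` has all its roots in the image of the open unit disc. -/
def RootsIn (h : ℂ → ℂ) (M : ℂ[X]) : Prop := M ≠ 0 ∧ ∀ r, M.IsRoot r → r ∈ h '' ball (0 : ℂ) 1

theorem RootsIn.eval_ne (hR : 1 < R) (hi : InjOn h (ball 0 R)) {M : ℂ[X]} (hM : RootsIn h M)
    {z : ℂ} (hz : z ∈ sphere (0 : ℂ) 1) : M.eval (h z) ≠ 0 := by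
  intro h0
  obtain ⟨a, ha, haz⟩ := hM.2 (h z) h0
  have : a = z := hi (ball_subset_ball hR.le ha) (sphere_sub_ball hR hz) haz
  rw [this] at ha
  simp at ha hz
  linarith

theorem RootsIn.mul {M N : ℂ[X]} (hM : RootsIn h M) (hN : RootsIn h N) :
    RootsIn h (M * N) := by
  refine ⟨mul_ne_zero hM.1 hN.1, fun r hr => ?_⟩
  rw [IsRoot.def, eval_mul] at hr
  rcases mul_eq_zero.mp hr with h1 | h1
  · exact hM.2 r h1
  · exact hN.2 r h1

theorem rat_hasDerivAt {h : ℂ → ℂ} {z h' : ℂ} (hz : HasDerivAt h h' z) (N M : ℂ[X])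
    (hM : M.eval (h z) ≠ 0) :
    HasDerivAt (fun w => N.eval (h w) / M.eval (h w))
      (h' * (N.derivative.eval (h z) * M.eval (h z) - N.eval (h z) * M.derivative.eval (h z)) /
        M.eval (h z) ^ 2) z := by
  have h1 : HasDerivAt (fun w => N.eval (h w)) (N.derivative.eval (h z) * h') z :=
    (N.hasDerivAt (h z)).comp z hz
  have h2 : HasDerivAt (fun w => M.eval (h w)) (M.derivative.eval (h z) * h') z :=
    (M.hasDerivAt (h z)).comp z hz
  have h3 := h1.fun_div h2 hM
  exact h3.congr_deriv (by ring)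

theorem rat_wind (hR : 1 < R) (hd : DifferentiableOn ℂ h (ball 0 R))
    (hi : InjOn h (ball 0 R)) (N M : ℂ[X]) (hM : RootsIn h M)
    (hdeg : N.natDegree ≤ M.natDegree) (c : ℂ)
    (hc : ∀ z ∈ sphere (0 : ℂ) 1, N.eval (h z) / M.eval (h z) ≠ c) :
    ∃ k : ℕ, ∮ z in C(0, 1), deriv (fun w => N.eval (h w) / M.eval (h w)) z /
      (N.eval (h z) / M.eval (h z) - c) = - (2 * Real.pi * I * (k : ℕ)) := by
  set Q : ℂ[X] := N - C c * M with hQdef
  have hMne : ∀ z ∈ sphere (0 : ℂ) 1, M.eval (h z) ≠ 0 := fun z hz => hM.eval_ne hR hi hz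
  have hQne : ∀ z ∈ sphere (0 : ℂ) 1, Q.eval (h z) ≠ 0 := by
    intro z hz h0
    apply hc z hz
    rw [hQdef, eval_sub, eval_mul, eval_C] at h0
    rw [div_eq_iff (hMne z hz)]
    linear_combination h0
  obtain ⟨k1, hk1, -, hI1⟩ := circle_poly hR hd hi Q hQne
  obtain ⟨k2, -, hk2, hI2⟩ := circle_poly hR hd hi M hMne
  have hk2' := hk2 hM.2
  have hQdeg : Q.natDegree ≤ M.natDegree := by
    apply (natDegree_sub_le _ _).trans
    exact max_le hdeg ((natDegree_C_mul_le _ _))
  refine ⟨k2 - k1, ?_⟩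
  have hle : k1 ≤ k2 := by omega
  have hcont : ∀ P : ℂ[X], (∀ z ∈ sphere (0 : ℂ) 1, P.eval (h z) ≠ 0) →
      CircleIntegrable (fun z => deriv h z * (P.derivative.eval (h z) / P.eval (h z))) 0 1 := by
    intro P hP
    apply ContinuousOn.circleIntegrable zero_le_one
    have hh : ContinuousOn h (sphere (0 : ℂ) 1) := hd.continuousOn.mono (sphere_sub_ball hR)
    apply ContinuousOn.mul
    · exact (hd.deriv isOpen_ball).continuousOn.mono (sphere_sub_ball hR)
    · apply ContinuousOn.div
      · exact P.derivative.continuous.comp_continuousOn hh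
      · exact P.continuous.comp_continuousOn hh
      · exact hP
  have heq : EqOn (fun z => deriv (fun w => N.eval (h w) / M.eval (h w)) z /
      (N.eval (h z) / M.eval (h z) - c))
      (fun z => deriv h z * (Q.derivative.eval (h z) / Q.eval (h z)) -
        deriv h z * (M.derivative.eval (h z) / M.eval (h z))) (sphere 0 1) := by
    intro z hz
    have hzd : HasDerivAt h (deriv h z) z :=
      (hd.differentiableAt (isOpen_ball.mem_nhds (sphere_sub_ball hR hz))).hasDerivAt
    have hMz := hMne z hz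
    have hQz := hQne z hz
    simp only
    rw [(rat_hasDerivAt hzd N M hMz).deriv]
    have h5 : N.eval (h z) / M.eval (h z) - c = Q.eval (h z) / M.eval (h z) := by
      rw [hQdef, eval_sub, eval_mul, eval_C]
      field_simp
    rw [h5]
    have h6 : Q.derivative.eval (h z) = N.derivative.eval (h z) - c * M.derivative.eval (h z) := by
      rw [hQdef]
      simp
    have h7 : N.eval (h z) = Q.eval (h z) + c * M.eval (h z) := by
      rw [hQdef, eval_sub, eval_mul, eval_C]
      ring
    rw [h6, h7]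
    field_simp
    ring
  rw [circleIntegral.integral_congr zero_le_one heq,
    circleIntegral.integral_sub (hcont Q hQne) (hcont M hMne), hI1, hI2, Nat.cast_sub hle]
  ring

end Pool.Agent.Lib.Pd7a79b
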