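import Pool.Agent.Lib.Pd7a79b.Check

/-!
# Soundness of the Taylor model operations
-/

set_option autoImplicit false

open Complex

namespace Pool.Agent.Lib.Pd7a79b

theorem le_cdg {x y : Int} (hy : 0 < y) : (x : ℝ) / y ≤ (cdg x y : ℝ) := by
  have hyR : (0 : ℝ) < y := by exact_mod_cast hy
  have h1 := Int.emod_add_mul_ediv (-x) y
  have h2 := Int.emod_nonneg (-x) hy.ne'
  have h3 : (-x) / y * y ≤ -x := by nlinarith
  have h4 : (((-x) / y : Int) : ℝ) * y ≤ -x := by exact_mod_cast h3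
  unfold cdg
  rw [div_le_iff₀ hyR]
  push_cast
  linarith

section
variable {v w : ℂ} {R1 R2 : Int}

theorem SC_neC : (SC : ℂ) ≠ 0 := by exact_mod_cast SC_posZ.ne'

theorem Rep.one : Rep v w TM.one 1 := by
  unfold Rep TM.one
  have : (⟨SC, 0⟩ : Z2).toC = (SC : ℂ) := by apply Complex.ext <;> simp
  simp [this, Z2.toC_zero]

theorem Rep.zero : Rep v w TM.zero 0 := by
  unfold Rep TM.zero
  simp [Z2.toC_zero]

theorem Rep.invd (hR : Rad v w R1 R2) {t : TM} {f : ℂ} (i : Z2) (hf : Rep v w t f) :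
    Rep v w (TM.invd i t) (1 - i.toC / SC * f) := by
  have := Rep.sub (Rep.one (v := v) (w := w)) ((hf.scal i).shr hR)
  rw [show i.toC / (SC : ℂ) * f = i.toC * f / SC by ring]
  exact this

theorem Rep.inv (hR : Rad v w R1 R2) {t : TM} {f : ℂ} {i : Z2} (hf : Rep v w t f)
    (hok : TM.invOK R1 R2 i t = true) : f ≠ 0 ∧ Rep v w (TM.inv R1 R2 i t) (1 / f) := by
  unfold TM.invOK at hok
  have hok' : (TM.invd i t).mag R1 R2 < SC := by simpa using hok
  have hd := Rep.invd hR i hf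
  have hm := mag_bound hR hd
  set D : ℂ := 1 - i.toC / SC * f with hD
  set m : Int := (TM.invd i t).mag R1 R2 with hmdef
  have hmR : (m : ℝ) < SC := by exact_mod_cast hok'
  have hDlt : ‖D‖ < 1 := by
    have : (SC : ℝ) * ‖D‖ < SC * 1 := by linarith
    exact lt_of_mul_lt_mul_left this SC_pos.le
  have hDne : 1 - D ≠ 0 := by
    intro h0
    have : D = 1 := by linear_combination -h0
    rw [this] at hDlt
    simp at hDlt
  have hIf : i.toC / SC * f = 1 - D := by rw [hD]; ring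
  have hf0 : f ≠ 0 := by
    intro h0
    rw [h0, mul_zero] at hIf
    exact hDne hIf.symm
  have hI0 : i.toC / SC ≠ 0 := by
    intro h0
    rw [h0, zero_mul] at hIf
    exact hDne hIf.symm
  refine ⟨hf0, ?_⟩
  have hr := (hd.scal i).shr hR
  have key : 1 / f = i.toC * D / SC + i.toC / SC + i.toC / SC * D ^ 2 / (1 - D) := by
    have h1 : 1 / f = (i.toC / SC) / (1 - D) := by
      rw [eq_div_iff hDne, ← hIf]
      have := SC_neC
      field_simp
    rw [h1]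
    field_simp
    ring
  unfold Rep at hr ⊢
  simp only [TM.inv, Z2.toC_add]
  rw [← hmdef, key]
  have e : (SC : ℂ) * (i.toC * D / SC + i.toC / SC + i.toC / SC * D ^ 2 / (1 - D))
      - ((((TM.invd i t).scal i).shr).a.toC + i.toC + (((TM.invd i t).scal i).shr).b.toC * v
        + (((TM.invd i t).scal i).shr).c.toC * w)
      = ((SC : ℂ) * (i.toC * D / SC) - ((((TM.invd i t).scal i).shr).a.toC
        + (((TM.invd i t).scal i).shr).b.toC * v
        + (((TM.invd i t).scal i).shr).c.toC * w)) + i.toC * D ^ 2 / (1 - D) := by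
    have := SC_neC
    field_simp
    ring
  rw [e]
  refine (norm_add_le _ _).trans ?_
  push_cast
  refine add_le_add hr ?_
  have hpos : (0 : Int) < SC * (SC - m) := mul_pos SC_posZ (by linarith)
  refine le_trans ?_ (le_cdg hpos)
  have hm0 : (0 : ℝ) ≤ m := le_trans (mul_nonneg SC_pos.le (norm_nonneg _)) hm
  have h1D : (1 : ℝ) - ‖D‖ ≤ ‖1 - D‖ := by
    have := norm_sub_norm_le (1 : ℂ) D
    simpa using this
  have hDm : ‖D‖ ≤ (m : ℝ) / SC := by
    rw [le_div_iff₀ SC_pos]; linarith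
  rw [norm_div, norm_mul, norm_pow]
  have hlow : (SC - m : ℝ) / SC ≤ ‖1 - D‖ := by
    have : (SC - m : ℝ) / SC = 1 - m / SC := by
      rw [sub_div, div_self SC_ne]
    rw [this]; linarith
  have hlow0 : (0 : ℝ) < (SC - m : ℝ) / SC := div_pos (by linarith) SC_pos
  calc ‖i.toC‖ * ‖D‖ ^ 2 / ‖1 - D‖ ≤ (i.ub : ℝ) * ((m : ℝ) / SC) ^ 2 / ((SC - m : ℝ) / SC) := by
        apply div_le_div₀ _ _ hlow0 hlow
        · exact mul_nonneg i.ub_nonneg (by positivity)
        · exact mul_le_mul i.norm_le_ub (by gcongr) (by positivity) i.ub_nonneg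
    _ = ((i.ub * (m * m) : Int) : ℝ) / ((SC * (SC - m) : Int) : ℝ) := by
        push_cast
        have h2 : (SC : ℝ) - m ≠ 0 := (sub_pos.2 hmR).ne'
        have h3 := SC_ne
        field_simp

/-- the Horner polynomial -/
noncomputable def Lh (f : ℂ) : List ℕ → ℂ
  | [] => 0
  | j :: l => 1 / (j : ℂ) - f * Lh f l

theorem Rep.invnat (j : ℕ) (hj : 0 < j) :
    Rep v w ⟨⟨SC / (j : Int), 0⟩, Z2.zero, Z2.zero, 1⟩ (1 / (j : ℂ)) := by
  unfold Rep
  simp only [Z2.toC_zero, zero_mul, add_zero, Int.cast_one]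
  have hjZ : (0 : Int) < j := by exact_mod_cast hj
  have hjR : (0 : ℝ) < j := by exact_mod_cast hj
  have h1 := Int.emod_add_mul_ediv SC (j : Int)
  have h2 := Int.emod_nonneg SC hjZ.ne'
  have h3 := Int.emod_lt_of_pos SC hjZ
  have h4 : SC / (j : Int) * j ≤ SC := by nlinarith
  have h5 : SC ≤ (SC / (j : Int) + 1) * j := by nlinarith
  have h4' : ((SC / (j : Int) : Int) : ℝ) * j ≤ SC := by exact_mod_cast h4
  have h5' : (SC : ℝ) ≤ (((SC / (j : Int) : Int) : ℝ) + 1) * j := by exact_mod_cast h5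
  have e : (SC : ℂ) * (1 / (j : ℂ)) - (⟨SC / (j : Int), 0⟩ : Z2).toC
      = (((SC : ℝ) / j - ((SC / (j : Int) : Int) : ℝ) : ℝ) : ℂ) := by
    have : (⟨SC / (j : Int), 0⟩ : Z2).toC = (((SC / (j : Int) : Int) : ℝ) : ℂ) := by
      apply Complex.ext <;> simp
    rw [this]
    push_cast
    ring
  rw [e, Complex.norm_real, Real.norm_eq_abs, abs_le]
  constructor
  · have : ((SC / (j : Int) : Int) : ℝ) ≤ (SC : ℝ) / j := by rwa [le_div_iff₀ hjR]
    linarith
  · have : (SC : ℝ) / j ≤ ((SC / (j : Int) : Int) : ℝ) + 1 := by rwa [div_le_iff₀ hjR]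
    linarith

theorem Rep.logH (hR : Rad v w R1 R2) {u : TM} {f : ℂ} (hf : Rep v w u f) :
    ∀ l : List ℕ, (∀ j ∈ l, 0 < j) → Rep v w (TM.logH R1 R2 u l) (Lh f l)
  | [], _ => Rep.zero
  | j :: l, h => by
    have h1 := Rep.logH hR hf l (fun i hi => h i (List.mem_cons_of_mem _ hi))
    have h2 : 0 < j := h j List.mem_cons_self
    exact (Rep.invnat j h2).sub (Rep.mul hR hf h1)

theorem logTaylor_eq (f : ℂ) : logTaylor 9 f = f * Lh f [1, 2, 3, 4, 5, 6, 7, 8] := by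
  simp only [logTaylor, Finset.sum_range_succ, Finset.sum_range_zero, Lh]
  push_cast
  ring

theorem Rep.log1p (hR : Rad v w R1 R2) {u : TM} {f : ℂ} (hf : Rep v w u f)
    (hm : u.mag R1 R2 * 4 ≤ SC) : ‖f‖ ≤ 1 / 4 ∧ Rep v w (TM.log1p R1 R2 u) (Complex.log (1 + f)) := by
  have hmag := mag_bound hR hf
  have hmR : (u.mag R1 R2 : ℝ) * 4 ≤ SC := by exact_mod_cast hm
  have hf4 : ‖f‖ ≤ 1 / 4 := by
    have : (SC : ℝ) * ‖f‖ ≤ SC * (1 / 4) := by linarith
    exact le_of_mul_le_mul_left this SC_pos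
  refine ⟨hf4, ?_⟩
  have hf1 : ‖f‖ < 1 := by linarith
  have hL := Rep.logH hR hf [1, 2, 3, 4, 5, 6, 7, 8] (by
    intro j hj
    simp only [List.mem_cons, List.mem_nil_iff, or_false] at hj
    omega)
  have hML := Rep.mul hR hf hL
  have herr := norm_log_sub_logTaylor_le 8 hf1
  rw [show (8 + 1 : ℕ) = 9 from rfl, logTaylor_eq] at herr
  have herr2 : ‖log (1 + f) - f * Lh f [1, 2, 3, 4, 5, 6, 7, 8]‖ ≤ (1 / 4) ^ 9 * (4 / 3) / 9 := by
    refine herr.trans ?_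
    have h1 : ‖f‖ ^ 9 ≤ (1 / 4) ^ 9 := by gcongr
    have h2 : (1 - ‖f‖)⁻¹ ≤ 4 / 3 := by
      rw [inv_le_comm₀ (by linarith) (by norm_num)]
      linarith
    have h3 : (0 : ℝ) ≤ (1 - ‖f‖)⁻¹ := inv_nonneg.2 (by linarith)
    have h4 : ‖f‖ ^ 9 * (1 - ‖f‖)⁻¹ ≤ (1 / 4) ^ 9 * (4 / 3) :=
      mul_le_mul h1 h2 h3 (by positivity)
    have : ((8 : ℕ) : ℝ) + 1 = 9 := by norm_num
    rw [this]
    exact div_le_div_of_nonneg_right h4 (by norm_num)
  unfold Rep at hML ⊢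
  simp only [TM.log1p]
  have e : (SC : ℂ) * log (1 + f) - ((u.mul R1 R2 (TM.logH R1 R2 u [1, 2, 3, 4, 5, 6, 7, 8])).a.toC
      + (u.mul R1 R2 (TM.logH R1 R2 u [1, 2, 3, 4, 5, 6, 7, 8])).b.toC * v
      + (u.mul R1 R2 (TM.logH R1 R2 u [1, 2, 3, 4, 5, 6, 7, 8])).c.toC * w)
      = ((SC : ℂ) * (f * Lh f [1, 2, 3, 4, 5, 6, 7, 8])
        - ((u.mul R1 R2 (TM.logH R1 R2 u [1, 2, 3, 4, 5, 6, 7, 8])).a.toC
      + (u.mul R1 R2 (TM.logH R1 R2 u [1, 2, 3, 4, 5, 6, 7, 8])).b.toC * v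
      + (u.mul R1 R2 (TM.logH R1 R2 u [1, 2, 3, 4, 5, 6, 7, 8])).c.toC * w))
      + (SC : ℂ) * (log (1 + f) - f * Lh f [1, 2, 3, 4, 5, 6, 7, 8]) := by ring
  rw [e]
  refine (norm_add_le _ _).trans ?_
  push_cast
  refine add_le_add hML ?_
  rw [norm_mul, SC_normC]
  have : (SC : ℝ) * ‖log (1 + f) - f * Lh f [1, 2, 3, 4, 5, 6, 7, 8]‖
      ≤ SC * ((1 / 4) ^ 9 * (4 / 3) / 9) := mul_le_mul_of_nonneg_left herr2 SC_pos.le
  refine this.trans ?_
  norm_num [SC]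

/-- One-sided representation of a real number. -/
def RRep (v w : ℂ) (t : RT) (x : ℝ) : Prop :=
  x ≤ (t.A : ℝ) + (t.G.toC * v + t.H.toC * w).re + (t.E : ℝ)

theorem RRep.zero : RRep v w RT.zero 0 := by
  simp [RRep, RT.zero, Z2.toC_zero]

theorem RRep.cst {n : Int} {x : ℝ} (h : x ≤ n) : RRep v w (RT.cst n) x := by
  simpa [RRep, RT.cst, Z2.toC_zero] using h

theorem RRep.add {s t : RT} {x y : ℝ} (hx : RRep v w s x) (hy : RRep v w t y) :
    RRep v w (s.add t) (x + y) := by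
  unfold RRep at *
  simp only [RT.add, Z2.toC_add]
  push_cast
  have : ((s.G.toC + t.G.toC) * v + (s.H.toC + t.H.toC) * w).re
      = (s.G.toC * v + s.H.toC * w).re + (t.G.toC * v + t.H.toC * w).re := by
    rw [← Complex.add_re]; congr 1; ring
  rw [this]
  linarith

theorem RRep.smul {t : RT} {x : ℝ} {n : Int} (hn : 0 ≤ n) (hx : RRep v w t x) :
    RRep v w (RT.smul n t) (n * x) := by
  unfold RRep at *
  simp only [RT.smul, Z2.toC_smul]
  push_cast
  have hnR : (0 : ℝ) ≤ n := by exact_mod_cast hn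
  have : ((n : ℂ) * t.G.toC * v + (n : ℂ) * t.H.toC * w).re
      = (n : ℝ) * (t.G.toC * v + t.H.toC * w).re := by
    rw [show (n : ℂ) * t.G.toC * v + (n : ℂ) * t.H.toC * w
      = ((n : ℝ) : ℂ) * (t.G.toC * v + t.H.toC * w) by push_cast; ring, Complex.re_ofReal_mul]
  rw [this]
  nlinarith [mul_le_mul_of_nonneg_left hx hnR]

theorem RRep.mono {t : RT} {x y : ℝ} (h : x ≤ y) (hy : RRep v w t y) : RRep v w t x :=
  le_trans h hy

theorem sqTM_sound (hR : Rad v w R1 R2) {t : TM} {f : ℂ} (hf : Rep v w t f) :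
    RRep v w (sqTM R1 R2 t) ((SC : ℝ) ^ 2 * ‖f‖ ^ 2) := by
  have he := hf.e_nonneg
  have hl := lin_bound hR t
  have hl0 := lin_nonneg hR t
  have ha := t.a.norm_le_ub
  unfold Rep at hf
  set A := t.a.toC with hA
  set L := t.b.toC * v + t.c.toC * w with hL
  set E := (SC : ℂ) * f - (A + t.b.toC * v + t.c.toC * w) with hE
  have hF : (SC : ℂ) * f = A + L + E := by rw [hE, hL]; ring
  have hn : (SC : ℝ) ^ 2 * ‖f‖ ^ 2 = ‖A + L + E‖ ^ 2 := by
    rw [← hF, norm_mul, SC_normC]; ring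
  have hn2 : ‖A + L + E‖ ^ 2 = ‖A‖ ^ 2 + 2 * ((starRingEnd ℂ) A * L).re + ‖L‖ ^ 2
      + 2 * ((starRingEnd ℂ) (A + L) * E).re + ‖E‖ ^ 2 := by
    rw [← Complex.normSq_eq_norm_sq, ← Complex.normSq_eq_norm_sq, ← Complex.normSq_eq_norm_sq,
      ← Complex.normSq_eq_norm_sq]
    simp only [Complex.normSq_apply, Complex.add_re, Complex.add_im, Complex.mul_re,
      Complex.conj_re, Complex.conj_im]
    ring
  have h1 : ((starRingEnd ℂ) (A + L) * E).re ≤ ((t.a.ub : ℝ) + (t.lin R1 R2 : ℝ)) * (t.e : ℝ) := by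
    refine (Complex.re_le_norm _).trans ?_
    rw [norm_mul, Complex.norm_conj]
    exact mul_le_mul ((norm_add_le _ _).trans (add_le_add ha hl)) hf (norm_nonneg _)
      (add_nonneg t.a.ub_nonneg hl0)
  have h2 : ‖L‖ ^ 2 ≤ (t.lin R1 R2 : ℝ) * (t.lin R1 R2 : ℝ) := by
    rw [sq]; exact mul_le_mul hl hl (norm_nonneg _) hl0
  have h3 : ‖E‖ ^ 2 ≤ (t.e : ℝ) * (t.e : ℝ) := by
    rw [sq]; exact mul_le_mul hf hf (norm_nonneg _) he
  unfold RRep
  simp only [sqTM, Z2.toC_smul, Z2.toC_cmul, Z2.nsq_eq]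
  rw [hn, hn2]
  have h4 : (((2 : Int) : ℂ) * ((starRingEnd ℂ) t.a.toC * t.b.toC) * v
      + ((2 : Int) : ℂ) * ((starRingEnd ℂ) t.a.toC * t.c.toC) * w).re
      = 2 * ((starRingEnd ℂ) A * L).re := by
    rw [show ((2 : Int) : ℂ) * ((starRingEnd ℂ) t.a.toC * t.b.toC) * v
      + ((2 : Int) : ℂ) * ((starRingEnd ℂ) t.a.toC * t.c.toC) * w
      = ((2 : ℝ) : ℂ) * ((starRingEnd ℂ) A * L) by rw [hL]; push_cast; ring,
      Complex.re_ofReal_mul]
  rw [h4]
  push_cast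
  linarith

/-- real part of a Taylor model -/
theorem reRT_sound {t : TM} {f : ℂ} (hf : Rep v w t f) :
    RRep v w (reRT t) ((SC : ℝ) * f.re) := by
  unfold Rep at hf
  unfold RRep
  simp only [reRT]
  have h1 : ((SC : ℂ) * f - (t.a.toC + t.b.toC * v + t.c.toC * w)).re ≤ (t.e : ℝ) :=
    (Complex.re_le_norm _).trans hf
  have h2 : ((SC : ℂ) * f - (t.a.toC + t.b.toC * v + t.c.toC * w)).re
      = (SC : ℝ) * f.re - ((t.a.re : ℝ) + (t.b.toC * v + t.c.toC * w).re) := by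
    rw [show (SC : ℂ) * f - (t.a.toC + t.b.toC * v + t.c.toC * w)
      = ((SC : ℝ) : ℂ) * f - (t.a.toC + (t.b.toC * v + t.c.toC * w)) by push_cast; ring,
      Complex.sub_re, Complex.re_ofReal_mul, Complex.add_re]
    simp
  rw [h2] at h1
  linarith

end

end Pool.Agent.Lib.Pd7a79b
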