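import Pool.Agent.Lib.Pd7a79b.Sound1
import Pool.Agent.Lib.Pd7a79b.Iface

/-!
# Soundness of the kernel sums
-/

set_option autoImplicit false

open Complex

namespace Pool.Agent.Lib.Pd7a79b

/-- coordinates of a test functional -/
noncomputable def zc (x1 x3 xp xq p q : ℂ) (n : ℕ) : ℂ :=
  (if n = 0 then x1 else 0) + (if n = 1 then x3 else 0)
      + xp * p ^ (2 * n + 1) + xq * q ^ (2 * n + 1)

/-- tails of the kernel form -/
noncomputable def TS (x1 x3 xp xq p q : ℂ) (k : ℕ) : ℝ :=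
  ∑' j : ℕ, 2 / (2 * ((j + k : ℕ) : ℝ) + 1) * ‖zc x1 x3 xp xq p q (j + k)‖ ^ 2

theorem KF_eq_TS (x1 x3 xp xq p q : ℂ) : KF x1 x3 xp xq p q = TS x1 x3 xp xq p q 0 := by
  unfold KF TS zc
  simp

theorem geo_bound {p : ℂ} (hp : ‖p‖ < 1) (C : ℝ) :
    HasSum (fun j : ℕ => C * (‖p‖ ^ 4) ^ j) (C / (1 - ‖p‖ ^ 4)) := by
  have h1 : ‖p‖ ^ 4 < 1 := pow_lt_one₀ (norm_nonneg _) hp (by norm_num)
  have := (hasSum_geometric_of_lt_one (by positivity : (0 : ℝ) ≤ ‖p‖ ^ 4) h1).mul_left C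
  rw [div_eq_mul_inv]
  exact this

theorem term_bound (x1 x3 xp xq p q : ℂ) (k : ℕ) (hk : 2 ≤ k) (j : ℕ) :
    2 / (2 * ((j + k : ℕ) : ℝ) + 1) * ‖zc x1 x3 xp xq p q (j + k)‖ ^ 2
      ≤ (4 / (2 * k + 1) * (‖xp‖ ^ 2 * ‖p ^ (2 * k + 1)‖ ^ 2)) * (‖p‖ ^ 4) ^ j
        + (4 / (2 * k + 1) * (‖xq‖ ^ 2 * ‖q ^ (2 * k + 1)‖ ^ 2)) * (‖q‖ ^ 4) ^ j := by
  have hz : zc x1 x3 xp xq p q (j + k) = xp * p ^ (2 * (j + k) + 1) + xq * q ^ (2 * (j + k) + 1) := by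
    unfold zc
    rw [if_neg (by omega), if_neg (by omega)]
    ring
  rw [hz]
  have h1 : (2 : ℝ) / (2 * ((j + k : ℕ) : ℝ) + 1) ≤ 2 / (2 * k + 1) := by
    apply div_le_div_of_nonneg_left (by norm_num) (by positivity)
    push_cast
    have : (0 : ℝ) ≤ j := by positivity
    linarith
  have h2 : ‖xp * p ^ (2 * (j + k) + 1) + xq * q ^ (2 * (j + k) + 1)‖ ^ 2
      ≤ 2 * (‖xp * p ^ (2 * (j + k) + 1)‖ ^ 2 + ‖xq * q ^ (2 * (j + k) + 1)‖ ^ 2) := by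
    have h := norm_add_le (xp * p ^ (2 * (j + k) + 1)) (xq * q ^ (2 * (j + k) + 1))
    have h' := pow_le_pow_left₀ (norm_nonneg _) h 2
    nlinarith [sq_nonneg (‖xp * p ^ (2 * (j + k) + 1)‖ - ‖xq * q ^ (2 * (j + k) + 1)‖)]
  have h3 : ∀ (x r : ℂ), ‖x * r ^ (2 * (j + k) + 1)‖ ^ 2
      = ‖x‖ ^ 2 * ‖r ^ (2 * k + 1)‖ ^ 2 * (‖r‖ ^ 4) ^ j := by
    intro x r
    rw [norm_mul, norm_pow, norm_pow]
    ring
  calc _ ≤ 2 / (2 * (k : ℝ) + 1) * (2 * (‖xp * p ^ (2 * (j + k) + 1)‖ ^ 2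
        + ‖xq * q ^ (2 * (j + k) + 1)‖ ^ 2)) :=
        mul_le_mul h1 h2 (by positivity) (by positivity)
    _ = _ := by
        rw [h3, h3]
        ring

theorem summable_zc (x1 x3 xp xq p q : ℂ) (hp : ‖p‖ < 1) (hq : ‖q‖ < 1) (k : ℕ) :
    Summable (fun j : ℕ => 2 / (2 * ((j + k : ℕ) : ℝ) + 1) * ‖zc x1 x3 xp xq p q (j + k)‖ ^ 2) := by
  have h2 : Summable (fun j : ℕ =>
      2 / (2 * ((j + 2 : ℕ) : ℝ) + 1) * ‖zc x1 x3 xp xq p q (j + 2)‖ ^ 2) := by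
    apply Summable.of_nonneg_of_le (fun j => by positivity)
      (fun j => term_bound x1 x3 xp xq p q 2 le_rfl j)
    exact (geo_bound hp _).summable.add (geo_bound hq _).summable
  have h0 : Summable (fun n : ℕ => 2 / (2 * (n : ℝ) + 1) * ‖zc x1 x3 xp xq p q n‖ ^ 2) :=
    (summable_nat_add_iff 2).1 (by simpa using h2)
  exact (summable_nat_add_iff k).2 h0

theorem TS_succ (x1 x3 xp xq p q : ℂ) (hp : ‖p‖ < 1) (hq : ‖q‖ < 1) (k : ℕ) :
    TS x1 x3 xp xq p q k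
      = 2 / (2 * (k : ℝ) + 1) * ‖zc x1 x3 xp xq p q k‖ ^ 2 + TS x1 x3 xp xq p q (k + 1) := by
  unfold TS
  rw [(summable_zc x1 x3 xp xq p q hp hq k).tsum_eq_zero_add]
  congr 1
  · simp
  · apply tsum_congr
    intro j
    rw [show j + 1 + k = j + (k + 1) by ring]

theorem TS_tail (x1 x3 xp xq p q : ℂ) (hp : ‖p‖ < 1) (hq : ‖q‖ < 1) (k : ℕ) (hk : 2 ≤ k) :
    TS x1 x3 xp xq p q k
      ≤ (4 / (2 * k + 1) * (‖xp‖ ^ 2 * ‖p ^ (2 * k + 1)‖ ^ 2)) / (1 - ‖p‖ ^ 4)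
        + (4 / (2 * k + 1) * (‖xq‖ ^ 2 * ‖q ^ (2 * k + 1)‖ ^ 2)) / (1 - ‖q‖ ^ 4) := by
  have hs := (geo_bound hp (4 / (2 * k + 1) * (‖xp‖ ^ 2 * ‖p ^ (2 * k + 1)‖ ^ 2))).add
    (geo_bound hq (4 / (2 * k + 1) * (‖xq‖ ^ 2 * ‖q ^ (2 * k + 1)‖ ^ 2)))
  rw [← hs.tsum_eq]
  exact (summable_zc x1 x3 xp xq p q hp hq k).tsum_le_tsum
    (fun j => term_bound x1 x3 xp xq p q k hk j) hs.summable

theorem TS_tail1 (x1 x3 xp p q : ℂ) (hp : ‖p‖ < 1) (hq : ‖q‖ < 1) (k : ℕ) (hk : 2 ≤ k) :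
    TS x1 x3 xp 0 p q k
      ≤ (2 / (2 * k + 1) * (‖xp‖ ^ 2 * ‖p ^ (2 * k + 1)‖ ^ 2)) / (1 - ‖p‖ ^ 4) := by
  have hs := geo_bound hp (2 / (2 * k + 1) * (‖xp‖ ^ 2 * ‖p ^ (2 * k + 1)‖ ^ 2))
  rw [← hs.tsum_eq]
  refine (summable_zc x1 x3 xp 0 p q hp hq k).tsum_le_tsum (fun j => ?_) hs.summable
  have hz : zc x1 x3 xp 0 p q (j + k) = xp * p ^ (2 * (j + k) + 1) := by
    unfold zc
    rw [if_neg (by omega), if_neg (by omega)]
    ring
  rw [hz]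
  have h1 : (2 : ℝ) / (2 * ((j + k : ℕ) : ℝ) + 1) ≤ 2 / (2 * k + 1) := by
    apply div_le_div_of_nonneg_left (by norm_num) (by positivity)
    push_cast
    have : (0 : ℝ) ≤ j := by positivity
    linarith
  have h3 : ‖xp * p ^ (2 * (j + k) + 1)‖ ^ 2
      = ‖xp‖ ^ 2 * ‖p ^ (2 * k + 1)‖ ^ 2 * (‖p‖ ^ 4) ^ j := by
    rw [norm_mul, norm_pow, norm_pow]
    ring
  calc _ ≤ 2 / (2 * (k : ℝ) + 1) * ‖xp * p ^ (2 * (j + k) + 1)‖ ^ 2 :=
        mul_le_mul_of_nonneg_right h1 (by positivity)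
    _ = _ := by
        rw [h3]
        ring

theorem tail1_bound {p : ℂ} {k : ℕ} {s M m : Int} {P : ℝ} (hs : 0 ≤ s) (hP : 0 ≤ P)
    (hM : (SC : ℝ) * P ≤ M) (hm : (SC : ℝ) * ‖p‖ ≤ m) (hm1 : m < SC) :
    (SC : ℝ) ^ 2 * 6291456 * (s * P ^ 2 / ((2 * k + 1) * (1 - ‖p‖ ^ 4)))
      ≤ (tail1 k s M m : ℝ) := by
  have hm0 : (0 : ℝ) ≤ m := le_trans (mul_nonneg SC_pos.le (norm_nonneg _)) hm
  have hm0Z : 0 ≤ m := by exact_mod_cast hm0
  have hm1R : (m : ℝ) < SC := by exact_mod_cast hm1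
  have hsR : (0 : ℝ) ≤ s := by exact_mod_cast hs
  have hm4 : m * m * (m * m) < SC4 := by
    unfold SC4
    have h1 : m * m < SC * SC := by nlinarith
    have h2 : 0 ≤ m * m := by positivity
    nlinarith
  have hpos : 0 < (2 * (k : Int) + 1) * (SC4 - m * m * (m * m)) :=
    mul_pos (by positivity) (by linarith)
  have hm4R : (m : ℝ) ^ 4 < (SC : ℝ) ^ 4 := by
    have : ((m * m * (m * m) : Int) : ℝ) < ((SC4 : Int) : ℝ) := by exact_mod_cast hm4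
    unfold SC4 at this
    push_cast at this
    nlinarith
  refine le_trans ?_ (le_cdg hpos)
  have hp4 : ‖p‖ ^ 4 ≤ (m : ℝ) ^ 4 / (SC : ℝ) ^ 4 := by
    rw [← div_pow]
    have : ‖p‖ ≤ (m : ℝ) / SC := by rw [le_div_iff₀ SC_pos]; linarith
    gcongr
  have h1 : (0 : ℝ) < 1 - (m : ℝ) ^ 4 / (SC : ℝ) ^ 4 := by
    rw [sub_pos, div_lt_one (by have := SC_pos; positivity)]
    exact hm4R
  have h2 : 1 - (m : ℝ) ^ 4 / (SC : ℝ) ^ 4 ≤ 1 - ‖p‖ ^ 4 := by linarith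
  have h3 : (SC : ℝ) ^ 2 * P ^ 2 ≤ (M : ℝ) ^ 2 := by
    rw [← mul_pow]
    exact pow_le_pow_left₀ (mul_nonneg SC_pos.le hP) hM 2
  have hk0 : (0 : ℝ) < 2 * k + 1 := by positivity
  have hS := SC_pos
  calc (SC : ℝ) ^ 2 * 6291456 * (s * P ^ 2 / ((2 * k + 1) * (1 - ‖p‖ ^ 4)))
      = 6291456 * s * ((SC : ℝ) ^ 2 * P ^ 2) / ((2 * k + 1) * (1 - ‖p‖ ^ 4)) := by ring
    _ ≤ 6291456 * s * ((M : ℝ) ^ 2) / ((2 * k + 1) * (1 - (m : ℝ) ^ 4 / (SC : ℝ) ^ 4)) := by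
        gcongr
    _ = ((6291456 * s * (M * M) * SC4 : Int) : ℝ)
          / (((2 * (k : Int) + 1) * (SC4 - m * m * (m * m)) : Int) : ℝ) := by
        unfold SC4
        push_cast
        have h5 : (SC : ℝ) ^ 4 - (m : ℝ) ^ 4 ≠ 0 := (sub_pos.2 hm4R).ne'
        have h6 : (SC : ℝ) * SC * (SC * SC) - m * m * (m * m) ≠ 0 := by
          intro h; apply h5; rw [← h]; ring
        have h7 := SC_ne
        rw [div_eq_div_iff (mul_pos hk0 h1).ne' (mul_ne_zero hk0.ne' h6)]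
        field_simp

section
variable {v w : ℂ} {R1 R2 : Int}

theorem hdc_eq (k : ℕ) (x : V4) :
    (hdc k x).toC = (if k = 0 then x.a1.toC else 0) + (if k = 1 then x.a3.toC else 0) := by
  match k with
  | 0 => simp [hdc]
  | 1 => simp [hdc]
  | (n + 2) => simp [hdc, Z2.toC_zero]

theorem coord_sound {p q : ℂ} {k : ℕ} {pp pq : TM}
    (hp : Rep v w pp (p ^ (2 * k + 1))) (hq : Rep v w pq (q ^ (2 * k + 1))) (x : V4) :
    Rep v w (coord k x pp pq) (zc x.a1.toC x.a3.toC x.ap.toC x.aq.toC p q k) := by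
  have h := ((hp.scal x.ap).add (hq.scal x.aq)).addc (Z2.smul SC (hdc k x))
  have e : zc x.a1.toC x.a3.toC x.ap.toC x.aq.toC p q k
      = x.ap.toC * p ^ (2 * k + 1) + x.aq.toC * q ^ (2 * k + 1)
        + (Z2.smul SC (hdc k x)).toC / SC := by
    rw [Z2.toC_smul, mul_div_cancel_left₀ _ SC_neC, hdc_eq]
    unfold zc
    ring
  rw [e]
  exact h

theorem coord1_sound {p : ℂ} (q : ℂ) {k : ℕ} {pp : TM}
    (hp : Rep v w pp (p ^ (2 * k + 1))) (x : V4) :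
    Rep v w (coord1 k x pp) (zc x.a1.toC x.a3.toC x.ap.toC 0 p q k) := by
  have h := (hp.scal x.ap).addc (Z2.smul SC (hdc k x))
  have e : zc x.a1.toC x.a3.toC x.ap.toC 0 p q k
      = x.ap.toC * p ^ (2 * k + 1) + (Z2.smul SC (hdc k x)).toC / SC := by
    rw [Z2.toC_smul, mul_div_cancel_left₀ _ SC_neC, hdc_eq]
    unfold zc
    ring
  rw [e]
  exact h

theorem sumVec1_sound (hR : Rad v w R1 R2) {p : ℂ} (q : ℂ) {k : ℕ} {pp : TM}
    (hp : Rep v w pp (p ^ (2 * k + 1))) :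
    ∀ X : List V4, RRep v w (sumVec1 R1 R2 k pp X)
      ((SC : ℝ) ^ 2 * (X.map fun x => ‖zc x.a1.toC x.a3.toC x.ap.toC 0 p q k‖ ^ 2).sum)
  | [] => by simpa [sumVec1] using (RRep.zero (v := v) (w := w))
  | x :: l => by
    have h1 := sqTM_sound hR (coord1_sound q hp x)
    have h2 := sumVec1_sound hR q hp l
    simp only [sumVec1, List.map_cons, List.sum_cons, mul_add]
    exact h1.add h2

theorem sumVec_sound (hR : Rad v w R1 R2) {p q : ℂ} {k : ℕ} {pp pq : TM}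
    (hp : Rep v w pp (p ^ (2 * k + 1))) (hq : Rep v w pq (q ^ (2 * k + 1))) :
    ∀ X : List V4, RRep v w (sumVec R1 R2 k pp pq X)
      ((SC : ℝ) ^ 2 * (X.map fun x => ‖zc x.a1.toC x.a3.toC x.ap.toC x.aq.toC p q k‖ ^ 2).sum)
  | [] => by simpa [sumVec] using (RRep.zero (v := v) (w := w))
  | x :: l => by
    have h1 := sqTM_sound hR (coord_sound hp hq x)
    have h2 := sumVec_sound hR hp hq l
    simp only [sumVec, List.map_cons, List.sum_cons, mul_add]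
    exact h1.add h2

theorem wt_bound (k : ℕ) : (6291456 : ℝ) / (2 * k + 1) ≤ (wt k : ℝ) := by
  have h : (0 : Int) < 2 * (k : Int) + 1 := by positivity
  have := le_cdg (x := 6291456) h
  push_cast at this
  exact this

theorem wt_nonneg (k : ℕ) : 0 ≤ wt k := by
  have h := wt_bound k
  have : (0 : ℝ) ≤ (wt k : ℝ) := le_trans (by positivity) h
  exact_mod_cast this

theorem sum_map_mul (X : List V4) (c : ℝ) (f : V4 → ℝ) :
    (X.map fun x => c * f x).sum = c * (X.map f).sum := by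
  induction X with
  | nil => simp
  | cons x l ih => simp [ih, mul_add]

theorem sum_map_add (X : List V4) (f g : V4 → ℝ) :
    (X.map fun x => f x + g x).sum = (X.map f).sum + (X.map g).sum := by
  induction X with
  | nil => simp
  | cons x l ih => simp [ih]; ring

theorem sum_map_le (X : List V4) (f g : V4 → ℝ) (h : ∀ x ∈ X, f x ≤ g x) :
    (X.map f).sum ≤ (X.map g).sum := List.sum_le_sum h

theorem sum_map_nonneg (X : List V4) (f : V4 → ℝ) (h : ∀ x, 0 ≤ f x) :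
    0 ≤ (X.map f).sum := by
  induction X with
  | nil => simp
  | cons x l ih => simp; exact add_nonneg (h x) ih

theorem sqp_eq (X : List V4) : ((sqp X : Int) : ℝ) = (X.map fun x => ‖x.ap.toC‖ ^ 2).sum := by
  unfold sqp
  induction X with
  | nil => simp
  | cons x l ih => simp [ih, Z2.nsq_eq]

theorem sqq_eq (X : List V4) : ((sqq X : Int) : ℝ) = (X.map fun x => ‖x.aq.toC‖ ^ 2).sum := by
  unfold sqq
  induction X with
  | nil => simp
  | cons x l ih => simp [ih, Z2.nsq_eq]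

theorem sqp_nonneg (X : List V4) : 0 ≤ sqp X := by
  have : (0 : ℝ) ≤ (sqp X : ℝ) := by
    rw [sqp_eq]; exact sum_map_nonneg X _ (fun x => by positivity)
  exact_mod_cast this

theorem sqq_nonneg (X : List V4) : 0 ≤ sqq X := by
  have : (0 : ℝ) ≤ (sqq X : ℝ) := by
    rw [sqq_eq]; exact sum_map_nonneg X _ (fun x => by positivity)
  exact_mod_cast this

theorem kern_sound (hR : Rad v w R1 R2) {p q : ℂ} {mp mq : Int} {p2 q2 : TM}
    (hp : (SC : ℝ) * ‖p‖ ≤ mp) (hmp : mp < SC) (hq : (SC : ℝ) * ‖q‖ ≤ mq) (hmq : mq < SC)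
    (h2p : Rep v w p2 (p ^ 2)) (h2q : Rep v w q2 (q ^ 2)) (X : List V4) :
    ∀ (n k : ℕ) (pp pq : TM), 2 ≤ n + k → Rep v w pp (p ^ (2 * k + 1)) →
      Rep v w pq (q ^ (2 * k + 1)) →
      RRep v w (kern R1 R2 X mp mq p2 q2 n k pp pq)
        ((SC : ℝ) ^ 2 * 3145728 *
          (X.map fun x => TS x.a1.toC x.a3.toC x.ap.toC x.aq.toC p q k).sum) := by
  have hmpR : (mp : ℝ) < SC := by exact_mod_cast hmp
  have hmqR : (mq : ℝ) < SC := by exact_mod_cast hmq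
  have hp1 : ‖p‖ < 1 := by
    have : (SC : ℝ) * ‖p‖ < SC * 1 := by linarith
    exact lt_of_mul_lt_mul_left this SC_pos.le
  have hq1 : ‖q‖ < 1 := by
    have : (SC : ℝ) * ‖q‖ < SC * 1 := by linarith
    exact lt_of_mul_lt_mul_left this SC_pos.le
  have hp4 : 0 < 1 - ‖p‖ ^ 4 := by
    have := pow_lt_one₀ (norm_nonneg p) hp1 (by norm_num : (4 : ℕ) ≠ 0)
    linarith
  have hq4 : 0 < 1 - ‖q‖ ^ 4 := by
    have := pow_lt_one₀ (norm_nonneg q) hq1 (by norm_num : (4 : ℕ) ≠ 0)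
    linarith
  intro n
  induction n with
  | zero =>
    intro k pp pq hk hpp hpq
    rw [zero_add] at hk
    simp only [kern]
    apply RRep.cst
    have h1 := tail1_bound (k := k) (sqp_nonneg X) (norm_nonneg _) (mag_bound hR hpp) hp hmp
    have h2 := tail1_bound (k := k) (sqq_nonneg X) (norm_nonneg _) (mag_bound hR hpq) hq hmq
    have h3 : (X.map fun x => TS x.a1.toC x.a3.toC x.ap.toC x.aq.toC p q k).sum
        ≤ (X.map fun x => (4 / (2 * k + 1) * (‖x.ap.toC‖ ^ 2 * ‖p ^ (2 * k + 1)‖ ^ 2))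
              / (1 - ‖p‖ ^ 4)
            + (4 / (2 * k + 1) * (‖x.aq.toC‖ ^ 2 * ‖q ^ (2 * k + 1)‖ ^ 2)) / (1 - ‖q‖ ^ 4)).sum :=
      sum_map_le X _ _ (fun x _ => TS_tail _ _ _ _ p q hp1 hq1 k hk)
    have h4 : (X.map fun x => (4 / (2 * k + 1) * (‖x.ap.toC‖ ^ 2 * ‖p ^ (2 * k + 1)‖ ^ 2))
              / (1 - ‖p‖ ^ 4)
            + (4 / (2 * k + 1) * (‖x.aq.toC‖ ^ 2 * ‖q ^ (2 * k + 1)‖ ^ 2)) / (1 - ‖q‖ ^ 4)).sum
        = 4 * ((sqp X : ℝ) * ‖p ^ (2 * k + 1)‖ ^ 2 / ((2 * k + 1) * (1 - ‖p‖ ^ 4)))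
          + 4 * ((sqq X : ℝ) * ‖q ^ (2 * k + 1)‖ ^ 2 / ((2 * k + 1) * (1 - ‖q‖ ^ 4))) := by
      rw [sum_map_add, sqp_eq, sqq_eq]
      have e1 : (X.map fun x => (4 / (2 * (k : ℝ) + 1) * (‖x.ap.toC‖ ^ 2 * ‖p ^ (2 * k + 1)‖ ^ 2))
              / (1 - ‖p‖ ^ 4))
          = X.map fun x => (4 * ‖p ^ (2 * k + 1)‖ ^ 2 / ((2 * k + 1) * (1 - ‖p‖ ^ 4)))
              * ‖x.ap.toC‖ ^ 2 := by
        apply List.map_congr_left
        intro x _
        field_simp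
      have e2 : (X.map fun x => (4 / (2 * (k : ℝ) + 1) * (‖x.aq.toC‖ ^ 2 * ‖q ^ (2 * k + 1)‖ ^ 2))
              / (1 - ‖q‖ ^ 4))
          = X.map fun x => (4 * ‖q ^ (2 * k + 1)‖ ^ 2 / ((2 * k + 1) * (1 - ‖q‖ ^ 4)))
              * ‖x.aq.toC‖ ^ 2 := by
        apply List.map_congr_left
        intro x _
        field_simp
      rw [e1, e2, sum_map_mul, sum_map_mul]
      ring
    rw [h4] at h3
    push_cast
    have h5 := mul_le_mul_of_nonneg_left h3 (by positivity : (0 : ℝ) ≤ (SC : ℝ) ^ 2 * 3145728)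
    refine h5.trans ?_
    linarith
  | succ n ih =>
    intro k pp pq hk hpp hpq
    have hpp' : Rep v w (pp.mul R1 R2 p2) (p ^ (2 * (k + 1) + 1)) := by
      have := Rep.mul hR hpp h2p
      rwa [show p ^ (2 * k + 1) * p ^ 2 = p ^ (2 * (k + 1) + 1) by ring] at this
    have hpq' : Rep v w (pq.mul R1 R2 q2) (q ^ (2 * (k + 1) + 1)) := by
      have := Rep.mul hR hpq h2q
      rwa [show q ^ (2 * k + 1) * q ^ 2 = q ^ (2 * (k + 1) + 1) by ring] at this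
    have h1 := ih (k + 1) _ _ (by omega) hpp' hpq'
    have h2 := RRep.smul (wt_nonneg k) (sumVec_sound hR hpp hpq X)
    simp only [kern]
    refine RRep.mono ?_ (h2.add h1)
    have h3 : (X.map fun x => TS x.a1.toC x.a3.toC x.ap.toC x.aq.toC p q k)
        = X.map fun x => (2 / (2 * (k : ℝ) + 1) *
            ‖zc x.a1.toC x.a3.toC x.ap.toC x.aq.toC p q k‖ ^ 2
          + TS x.a1.toC x.a3.toC x.ap.toC x.aq.toC p q (k + 1)) := by
      apply List.map_congr_left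
      intro x _
      exact TS_succ _ _ _ _ p q hp1 hq1 k
    rw [h3, sum_map_add, sum_map_mul]
    have h4 : (0 : ℝ) ≤ (SC : ℝ) ^ 2 *
        (X.map fun x => ‖zc x.a1.toC x.a3.toC x.ap.toC x.aq.toC p q k‖ ^ 2).sum :=
      mul_nonneg (by positivity) (sum_map_nonneg X _ (fun x => by positivity))
    have h5 := mul_le_mul_of_nonneg_right (wt_bound k) h4
    have h6 : (SC : ℝ) ^ 2 * 3145728 * (2 / (2 * (k : ℝ) + 1) *
          (X.map fun x => ‖zc x.a1.toC x.a3.toC x.ap.toC x.aq.toC p q k‖ ^ 2).sum)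
        = 6291456 / (2 * (k : ℝ) + 1) * ((SC : ℝ) ^ 2 *
        (X.map fun x => ‖zc x.a1.toC x.a3.toC x.ap.toC x.aq.toC p q k‖ ^ 2).sum) := by ring
    rw [mul_add, h6]
    linarith

theorem kernF_sound (hR : Rad v w R1 R2) {p q : ℂ} {P Q : TM} (hp : Rep v w P p)
    (hq : Rep v w Q q) (hok : kernOK R1 R2 P Q = true) (n : ℕ) (hn : 2 ≤ n) (X : List V4) :
    RRep v w (kernF R1 R2 n X P Q) ((SC : ℝ) ^ 2 * 3145728 *
      (X.map fun x => KF x.a1.toC x.a3.toC x.ap.toC x.aq.toC p q).sum) := by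
  unfold kernOK at hok
  rw [Bool.and_eq_true, decide_eq_true_eq, decide_eq_true_eq] at hok
  have h2p : Rep v w (P.mul R1 R2 P) (p ^ 2) := by rw [sq]; exact Rep.mul hR hp hp
  have h2q : Rep v w (Q.mul R1 R2 Q) (q ^ 2) := by rw [sq]; exact Rep.mul hR hq hq
  have := kern_sound hR (mag_bound hR hp) hok.1 (mag_bound hR hq) hok.2 h2p h2q X n 0 P Q
    (by omega) (by simpa using hp) (by simpa using hq)
  unfold kernF
  simp only [KF_eq_TS]
  exact this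

theorem kern1_sound (hR : Rad v w R1 R2) {p : ℂ} {mp : Int} {p2 : TM}
    (hp : (SC : ℝ) * ‖p‖ ≤ mp) (hmp : mp < SC)
    (h2p : Rep v w p2 (p ^ 2)) (X : List V4) :
    ∀ (n k : ℕ) (pp : TM), 2 ≤ n + k → Rep v w pp (p ^ (2 * k + 1)) →
      RRep v w (kern1 R1 R2 X mp p2 n k pp)
        ((SC : ℝ) ^ 2 * 3145728 *
          (X.map fun x => TS x.a1.toC x.a3.toC x.ap.toC 0 p p k).sum) := by
  have hmpR : (mp : ℝ) < SC := by exact_mod_cast hmp
  have hp1 : ‖p‖ < 1 := by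
    have : (SC : ℝ) * ‖p‖ < SC * 1 := by linarith
    exact lt_of_mul_lt_mul_left this SC_pos.le
  have hp4 : 0 < 1 - ‖p‖ ^ 4 := by
    have := pow_lt_one₀ (norm_nonneg p) hp1 (by norm_num : (4 : ℕ) ≠ 0)
    linarith
  intro n
  induction n with
  | zero =>
    intro k pp hk hpp
    rw [zero_add] at hk
    simp only [kern1]
    apply RRep.cst
    have h1 := tail1_bound (k := k) (sqp_nonneg X) (norm_nonneg _) (mag_bound hR hpp) hp hmp
    have h3 : (X.map fun x => TS x.a1.toC x.a3.toC x.ap.toC 0 p p k).sum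
        ≤ (X.map fun x => (2 / (2 * k + 1) * (‖x.ap.toC‖ ^ 2 * ‖p ^ (2 * k + 1)‖ ^ 2))
              / (1 - ‖p‖ ^ 4)).sum :=
      sum_map_le X _ _ (fun x _ => TS_tail1 _ _ _ p p hp1 hp1 k hk)
    have h4 : (X.map fun x => (2 / (2 * k + 1) * (‖x.ap.toC‖ ^ 2 * ‖p ^ (2 * k + 1)‖ ^ 2))
              / (1 - ‖p‖ ^ 4)).sum
        = 2 * ((sqp X : ℝ) * ‖p ^ (2 * k + 1)‖ ^ 2 / ((2 * k + 1) * (1 - ‖p‖ ^ 4))) := by
      rw [sqp_eq]
      have e1 : (X.map fun x => (2 / (2 * (k : ℝ) + 1) * (‖x.ap.toC‖ ^ 2 * ‖p ^ (2 * k + 1)‖ ^ 2))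
              / (1 - ‖p‖ ^ 4))
          = X.map fun x => (2 * ‖p ^ (2 * k + 1)‖ ^ 2 / ((2 * k + 1) * (1 - ‖p‖ ^ 4)))
              * ‖x.ap.toC‖ ^ 2 := by
        apply List.map_congr_left
        intro x _
        field_simp
      rw [e1, sum_map_mul]
      ring
    rw [h4] at h3
    have h5 := mul_le_mul_of_nonneg_left h3 (by positivity : (0 : ℝ) ≤ (SC : ℝ) ^ 2 * 3145728)
    refine h5.trans ?_
    linarith
  | succ n ih =>
    intro k pp hk hpp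
    have hpp' : Rep v w (pp.mul R1 R2 p2) (p ^ (2 * (k + 1) + 1)) := by
      have := Rep.mul hR hpp h2p
      rwa [show p ^ (2 * k + 1) * p ^ 2 = p ^ (2 * (k + 1) + 1) by ring] at this
    have h1 := ih (k + 1) _ (by omega) hpp'
    have h2 := RRep.smul (wt_nonneg k) (sumVec1_sound hR p hpp X)
    simp only [kern1]
    refine RRep.mono ?_ (h2.add h1)
    have h3 : (X.map fun x => TS x.a1.toC x.a3.toC x.ap.toC 0 p p k)
        = X.map fun x => (2 / (2 * (k : ℝ) + 1) *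
            ‖zc x.a1.toC x.a3.toC x.ap.toC 0 p p k‖ ^ 2
          + TS x.a1.toC x.a3.toC x.ap.toC 0 p p (k + 1)) := by
      apply List.map_congr_left
      intro x _
      exact TS_succ _ _ _ _ p p hp1 hp1 k
    rw [h3, sum_map_add, sum_map_mul]
    have h4 : (0 : ℝ) ≤ (SC : ℝ) ^ 2 *
        (X.map fun x => ‖zc x.a1.toC x.a3.toC x.ap.toC 0 p p k‖ ^ 2).sum :=
      mul_nonneg (by positivity) (sum_map_nonneg X _ (fun x => by positivity))
    have h5 := mul_le_mul_of_nonneg_right (wt_bound k) h4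
    have h6 : (SC : ℝ) ^ 2 * 3145728 * (2 / (2 * (k : ℝ) + 1) *
          (X.map fun x => ‖zc x.a1.toC x.a3.toC x.ap.toC 0 p p k‖ ^ 2).sum)
        = 6291456 / (2 * (k : ℝ) + 1) * ((SC : ℝ) ^ 2 *
        (X.map fun x => ‖zc x.a1.toC x.a3.toC x.ap.toC 0 p p k‖ ^ 2).sum) := by ring
    rw [mul_add, h6]
    linarith

theorem kernS_sound (hR : Rad v w R1 R2) {p : ℂ} {P : TM} (hp : Rep v w P p)
    (hok : P.mag R1 R2 < SC) (n : ℕ) (hn : 2 ≤ n) (X : List V4) :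
    RRep v w (kernS R1 R2 n X P) ((SC : ℝ) ^ 2 * 3145728 *
      (X.map fun x => KF x.a1.toC x.a3.toC x.ap.toC 0 p p).sum) := by
  have h2p : Rep v w (P.mul R1 R2 P) (p ^ 2) := by rw [sq]; exact Rep.mul hR hp hp
  have := kern1_sound hR (mag_bound hR hp) hok h2p X n 0 P (by omega) (by simpa using hp)
  unfold kernS
  simp only [KF_eq_TS]
  exact this

theorem kernE_sound (Y : List V4) :
    RRep v w (kernE Y) ((SC : ℝ) ^ 2 * 3145728 *
      (Y.map fun y => 2 * ‖y.a1.toC‖ ^ 2 + 2 / 3 * ‖y.a3.toC‖ ^ 2).sum) := by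
  unfold kernE
  apply RRep.cst
  apply le_of_eq
  have : (((Y.map fun y => 6 * y.a1.nsq + 2 * y.a3.nsq).sum : Int) : ℝ)
      = 3 * (Y.map fun y => 2 * ‖y.a1.toC‖ ^ 2 + 2 / 3 * ‖y.a3.toC‖ ^ 2).sum := by
    induction Y with
    | nil => simp
    | cons x l ih =>
      simp only [List.map_cons, List.sum_cons]
      rw [Int.cast_add, ih]
      push_cast
      rw [Z2.nsq_eq, Z2.nsq_eq]
      ring
  rw [Int.cast_mul, this]
  push_cast
  ring

end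

end Pool.Agent.Lib.Pd7a79b
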