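import Pool.Agent.Lib.Pd7a79b.Sound2

/-!
# Soundness of the leaf checks
-/

set_option autoImplicit false

open Complex

namespace Pool.Agent.Lib.Pd7a79b

/-- the quadratic form as a function of the symmetric sums -/
noncomputable def QS (m13 m33 f1p f3p f1q f3q Dpp Dqq Dpq : ℂ) (s : Sym) : ℂ :=
  s.s11.toC * (2 * (c0 : ℂ)) + 2 * s.s13.toC * m13 + s.s33.toC * m33
    + 2 * (s.s1p.toC * f1p + s.s1q.toC * f1q)
    + 2 * (s.s3p.toC * f3p + s.s3q.toC * f3q)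
    + s.spp.toC * Dpp + s.sqq.toC * Dqq + 2 * s.spq.toC * Dpq

theorem QS_zero (m13 m33 f1p f3p f1q f3q Dpp Dqq Dpq : ℂ) :
    QS m13 m33 f1p f3p f1q f3q Dpp Dqq Dpq Sym.zero = 0 := by
  simp [QS, Sym.zero, Z2.toC_zero]

theorem QS_add (m13 m33 f1p f3p f1q f3q Dpp Dqq Dpq : ℂ) (s t : Sym) :
    QS m13 m33 f1p f3p f1q f3q Dpp Dqq Dpq (s.add t)
      = QS m13 m33 f1p f3p f1q f3q Dpp Dqq Dpq s
        + QS m13 m33 f1p f3p f1q f3q Dpp Dqq Dpq t := by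
  simp only [QS, Sym.add, Z2.toC_add]
  ring

theorem QS_outer (m13 m33 p q hp hq Dpp Dqq Dpq : ℂ) (x : V4) :
    QS m13 m33 (phi1 p hp) (phi3 c0 p hp) (phi1 q hq) (phi3 c0 q hq) Dpp Dqq Dpq (Sym.outer x)
      = QF c0 m13 m33 p q hp hq Dpp Dqq Dpq x.a1.toC x.a3.toC x.ap.toC x.aq.toC := by
  simp only [QS, QF, Sym.outer, Z2.toC_mul]
  ring

theorem phi1_eq (z w : ℂ) : phi1 z w = 2 * (1 / z - 1 / w) := by
  unfold phi1; ring

theorem phi3_eq (z w : ℂ) : 3 * phi3 c0 z w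
    = 2 * ((1 / z) * ((1 / z) * (1 / z)) - (1 / w) * ((1 / w) * (1 / w)))
      - (543 / 128) * (1 / w) := by
  unfold phi3 c0
  push_cast
  ring

theorem KF_homog (n : ℝ) (x1 x3 xp xq p q : ℂ) :
    KF (n * x1) (n * x3) (n * xp) (n * xq) p q = n ^ 2 * KF x1 x3 xp xq p q := by
  unfold KF
  rw [← tsum_mul_left]
  apply tsum_congr
  intro k
  have : (if k = 0 then (n : ℂ) * x1 else 0) + (if k = 1 then (n : ℂ) * x3 else 0)
      + (n : ℂ) * xp * p ^ (2 * k + 1) + (n : ℂ) * xq * q ^ (2 * k + 1)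
      = (n : ℂ) * ((if k = 0 then x1 else 0) + (if k = 1 then x3 else 0)
      + xp * p ^ (2 * k + 1) + xq * q ^ (2 * k + 1)) := by
    split_ifs <;> ring
  rw [this, norm_mul, mul_pow, Complex.norm_real, Real.norm_eq_abs, sq_abs]
  ring

section
variable {v w : ℂ} {R1 R2 : Int}

theorem tphi1_sound {U V : TM} {z y : ℂ} (hU : Rep v w U (1 / z)) (hV : Rep v w V (1 / y)) :
    Rep v w (tphi1 U V) (phi1 z y) := by
  have h := (hU.sub hV).scal ⟨2, 0⟩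
  rw [phi1_eq]
  have e : (⟨2, 0⟩ : Z2).toC = 2 := by apply Complex.ext <;> simp
  rw [e] at h
  exact h

theorem tphi3_sound (hR : Rad v w R1 R2) {U V : TM} {z y : ℂ} (hU : Rep v w U (1 / z))
    (hV : Rep v w V (1 / y)) : Rep v w (tphi3 R1 R2 U V) (3 * phi3 c0 z y) := by
  have hU3 := Rep.mul hR hU (Rep.mul hR hU hU)
  have hV3 := Rep.mul hR hV (Rep.mul hR hV hV)
  have h := ((hU3.sub hV3).scal ⟨2, 0⟩).sub ((hV.scal ⟨4664334483456, 0⟩).shr hR)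
  rw [phi3_eq]
  have e : (⟨2, 0⟩ : Z2).toC = 2 := by apply Complex.ext <;> simp
  have e2 : (⟨4664334483456, 0⟩ : Z2).toC * (1 / y) / SC = 543 / 128 * (1 / y) := by
    have : (⟨4664334483456, 0⟩ : Z2).toC = (4664334483456 : ℂ) := by
      apply Complex.ext <;> simp
    rw [this]
    have h3 : ((SC : Int) : ℂ) = 1099511627776 := by norm_num [SC]
    rw [h3]
    ring
  rw [e, e2] at h
  exact h

theorem mpart_sound (s : Sym) {f1p f3p f1q f3q lg : TM} {F1p F3p F1q F3q Dpq : ℂ}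
    (h1 : Rep v w f1p F1p) (h2 : Rep v w f3p (3 * F3p)) (h3 : Rep v w f1q F1q)
    (h4 : Rep v w f3q (3 * F3q))
    (h5 : Rep v w (lg.scal (Z2.smul 6 s.spq)) ((Z2.smul 6 s.spq).toC * Dpq)) :
    Rep v w (mpart s f1p f3p f1q f3q lg)
      (3 * (s.s11.toC * (2 * (c0 : ℂ)) + 2 * (s.s1p.toC * F1p + s.s1q.toC * F1q)
        + 2 * (s.s3p.toC * F3p + s.s3q.toC * F3q) + 2 * s.spq.toC * Dpq)) := by
  have h := (((((h1.scal (Z2.smul 6 s.s1p)).add (h2.scal (Z2.smul 2 s.s3p))).add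
    (h3.scal (Z2.smul 6 s.s1q))).add (h4.scal (Z2.smul 2 s.s3q))).add h5).addc
      (Z2.smul 4664334483456 s.s11)
  unfold mpart
  have e : (3 * (s.s11.toC * (2 * (c0 : ℂ)) + 2 * (s.s1p.toC * F1p + s.s1q.toC * F1q)
        + 2 * (s.s3p.toC * F3p + s.s3q.toC * F3q) + 2 * s.spq.toC * Dpq))
      = (Z2.smul 6 s.s1p).toC * F1p + (Z2.smul 2 s.s3p).toC * (3 * F3p)
        + (Z2.smul 6 s.s1q).toC * F1q + (Z2.smul 2 s.s3q).toC * (3 * F3q)
        + (Z2.smul 6 s.spq).toC * Dpq + (Z2.smul 4664334483456 s.s11).toC / SC := by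
    simp only [Z2.toC_smul]
    have h3 : ((SC : Int) : ℂ) = 1099511627776 := by norm_num [SC]
    rw [h3]
    unfold c0
    push_cast
    ring
  rw [e]
  exact h

/-- a priori bounds -/
structure APri (m13 m33 Dpp Dqq : ℂ) : Prop where
  h13 : ‖m13‖ ≤ 3 / 2
  h33 : ‖m33‖ ≤ 1
  hpp : ‖Dpp‖ ≤ 2
  hqq : ‖Dqq‖ ≤ 2

theorem re_mul_le (a b : ℂ) (A B : ℝ) (ha : ‖a‖ ≤ A) (hb : ‖b‖ ≤ B) : (a * b).re ≤ A * B := by
  refine (Complex.re_le_norm _).trans ?_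
  rw [norm_mul]
  exact mul_le_mul ha hb (norm_nonneg _) (le_trans (norm_nonneg _) ha)

theorem QS_le {m13 m33 Dpp Dqq : ℂ} (hA : APri m13 m33 Dpp Dqq) (F1p F3p F1q F3q Dpq : ℂ)
    (s : Sym) :
    3 * (QS m13 m33 F1p F3p F1q F3q Dpp Dqq Dpq s).re ≤
      (3 * (s.s11.toC * (2 * (c0 : ℂ)) + 2 * (s.s1p.toC * F1p + s.s1q.toC * F1q)
        + 2 * (s.s3p.toC * F3p + s.s3q.toC * F3q) + 2 * s.spq.toC * Dpq)).re
      + (resid s : ℝ) := by
  have h1 := re_mul_le _ _ _ _ s.s13.norm_le_ub hA.h13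
  have h2 := re_mul_le _ _ _ _ s.s33.norm_le_ub hA.h33
  have h3 := re_mul_le _ _ _ _ s.spp.norm_le_ub hA.hpp
  have h4 := re_mul_le _ _ _ _ s.sqq.norm_le_ub hA.hqq
  have e : QS m13 m33 F1p F3p F1q F3q Dpp Dqq Dpq s
      = (s.s11.toC * (2 * (c0 : ℂ)) + 2 * (s.s1p.toC * F1p + s.s1q.toC * F1q)
        + 2 * (s.s3p.toC * F3p + s.s3q.toC * F3q) + 2 * s.spq.toC * Dpq)
        + ((2 : ℝ) : ℂ) * (s.s13.toC * m13) + s.s33.toC * m33 + s.spp.toC * Dpp
        + s.sqq.toC * Dqq := by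
    unfold QS
    push_cast
    ring
  rw [e, show (3 : ℂ) = ((3 : ℝ) : ℂ) by push_cast; rfl, Complex.re_ofReal_mul]
  simp only [Complex.add_re, Complex.re_ofReal_mul]
  unfold resid
  push_cast
  have hA' := Complex.add_re (s.s11.toC * (2 * (c0 : ℂ))) 0
  simp only [Complex.add_re] at *
  linarith

theorem total_sound {s : Sym} {m : TM} {kf kg : RT} {M : ℂ} {Q F G : ℝ}
    (hm : Rep v w m M) (hQ : 3 * Q ≤ M.re + (resid s : ℝ))
    (hF : RRep v w kf ((SC : ℝ) ^ 2 * 3145728 * F)) (hG : RRep v w kg ((SC : ℝ) ^ 2 * 3145728 * G))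
    (hpos : 0 ≤ Q + 65536 * (F + G)) : RRep v w (total s m kf kg) 0 := by
  unfold total
  have h1 : RRep v w (RT.cst (resid s * SC)) ((resid s : ℝ) * SC) := by
    apply RRep.cst; push_cast; exact le_rfl
  have h2 := RRep.smul (n := 16 * SC) (by decide) ((reRT_sound hm).add h1)
  refine RRep.mono ?_ (h2.add (hF.add hG))
  push_cast
  have h3 : (0 : ℝ) ≤ 48 * (SC : ℝ) ^ 2 * (Q + 65536 * (F + G)) := by positivity
  have h4 : 16 * (SC : ℝ) ^ 2 * (3 * Q) ≤ 16 * (SC : ℝ) ^ 2 * (M.re + (resid s : ℝ)) :=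
    mul_le_mul_of_nonneg_left hQ (by positivity)
  nlinarith

end

/-- the point `(V, W)` lies in the box -/
structure InBx (b : Bx) (V W : ℂ) : Prop where
  h1 : |(SC : ℝ) * V.re - b.x1| ≤ b.r1
  h2 : |(SC : ℝ) * V.im - b.x2| ≤ b.r2
  h3 : |(SC : ℝ) * W.re - b.x3| ≤ b.r3
  h4 : |(SC : ℝ) * W.im - b.x4| ≤ b.r4

/-- displacement -/
noncomputable def disp (x y : Int) (V : ℂ) : ℂ := V - (⟨x, y⟩ : Z2).toC / SC

theorem disp_re (x y : Int) (V : ℂ) : (SC : ℝ) * (disp x y V).re = (SC : ℝ) * V.re - x := by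
  unfold disp
  have : ((SC : Int) : ℂ) = (((SC : Int) : ℝ) : ℂ) := by push_cast; rfl
  rw [this, Complex.sub_re, Complex.div_ofReal_re]
  have := SC_ne
  simp only [Z2.toC_re]
  field_simp

theorem disp_im (x y : Int) (V : ℂ) : (SC : ℝ) * (disp x y V).im = (SC : ℝ) * V.im - y := by
  unfold disp
  have : ((SC : Int) : ℂ) = (((SC : Int) : ℝ) : ℂ) := by push_cast; rfl
  rw [this, Complex.sub_im, Complex.div_ofReal_im]
  have := SC_ne
  simp only [Z2.toC_im]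
  field_simp

theorem varV_sound (x y : Int) (V w : ℂ) : Rep (disp x y V) w (varV x y) V := by
  unfold Rep varV
  have e : (⟨SC, 0⟩ : Z2).toC = (SC : ℂ) := by apply Complex.ext <;> simp
  simp only [e, Z2.toC_zero, zero_mul, add_zero]
  unfold disp
  have := SC_neC
  rw [mul_sub, mul_div_cancel₀ _ this]
  simp

theorem varW_sound (x y : Int) (W v : ℂ) : Rep v (disp x y W) (varW x y) W := by
  unfold Rep varW
  have e : (⟨SC, 0⟩ : Z2).toC = (SC : ℂ) := by apply Complex.ext <;> simp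
  simp only [e, Z2.toC_zero, zero_mul, add_zero]
  unfold disp
  have := SC_neC
  rw [mul_sub, mul_div_cancel₀ _ this]
  simp

theorem norm_le_ub_of {z : ℂ} {r s : Int} (h1 : |(SC : ℝ) * z.re| ≤ r)
    (h2 : |(SC : ℝ) * z.im| ≤ s) : (SC : ℝ) * ‖z‖ ≤ ((⟨r, s⟩ : Z2).ub : ℝ) := by
  refine le_trans ?_ (Z2.norm_le_ub ⟨r, s⟩)
  have h3 : (SC : ℝ) * ‖z‖ = ‖(SC : ℂ) * z‖ := by rw [norm_mul, SC_normC]
  rw [h3, Complex.norm_def, Complex.norm_def]
  apply Real.sqrt_le_sqrt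
  rw [Complex.normSq_apply, Complex.normSq_apply]
  have hre : ((SC : ℂ) * z).re = (SC : ℝ) * z.re := by
    have : ((SC : Int) : ℂ) = (((SC : Int) : ℝ) : ℂ) := by push_cast; rfl
    rw [this, Complex.re_ofReal_mul]
  have him : ((SC : ℂ) * z).im = (SC : ℝ) * z.im := by
    have : ((SC : Int) : ℂ) = (((SC : Int) : ℝ) : ℂ) := by push_cast; rfl
    rw [this, Complex.im_ofReal_mul]
  rw [hre, him]
  simp only [Z2.toC_re, Z2.toC_im]
  have h4 := mul_self_le_mul_self (abs_nonneg _) h1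
  have h5 := mul_self_le_mul_self (abs_nonneg _) h2
  rw [abs_mul_abs_self] at h4 h5
  linarith

theorem rad_of_box {b : Bx} {V W : ℂ} (hin : InBx b V W) (hok : b.ok = true) :
    Rad (disp b.x1 b.x2 V) (disp b.x3 b.x4 W) b.R1 b.R2 := by
  unfold Bx.ok at hok
  simp only [Bool.and_eq_true, decide_eq_true_eq] at hok
  have hv : (SC : ℝ) * ‖disp b.x1 b.x2 V‖ ≤ (b.R1 : ℝ) :=
    norm_le_ub_of (by rw [disp_re]; exact hin.h1) (by rw [disp_im]; exact hin.h2)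
  have hw : (SC : ℝ) * ‖disp b.x3 b.x4 W‖ ≤ (b.R2 : ℝ) :=
    norm_le_ub_of (by rw [disp_re]; exact hin.h3) (by rw [disp_im]; exact hin.h4)
  have h1 : (b.R1 : ℝ) ≤ SC := by exact_mod_cast hok.1.2
  have h2 : (b.R2 : ℝ) ≤ SC := by exact_mod_cast hok.2
  refine ⟨hv, hw, ?_, ?_⟩
  · have : (SC : ℝ) * ‖disp b.x1 b.x2 V‖ ≤ SC * 1 := by linarith
    exact le_of_mul_le_mul_left this SC_pos
  · have : (SC : ℝ) * ‖disp b.x3 b.x4 W‖ ≤ SC * 1 := by linarith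
    exact le_of_mul_le_mul_left this SC_pos

theorem neg_sound {b : Bx} {V W : ℂ} (hin : InBx b V W) {t : RT} (hneg : b.neg t = true)
    (ht : RRep (disp b.x1 b.x2 V) (disp b.x3 b.x4 W) t 0) : False := by
  unfold Bx.neg at hneg
  rw [decide_eq_true_eq] at hneg
  unfold RRep at ht
  have hnegR : (((t.A + t.E) * SC + ((t.G.re.natAbs : Int) * b.r1 + (t.G.im.natAbs : Int) * b.r2
    + (t.H.re.natAbs : Int) * b.r3 + (t.H.im.natAbs : Int) * b.r4) : Int) : ℝ) < 0 := by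
    exact_mod_cast hneg
  have hab : ∀ n : Int, (((n.natAbs : Int)) : ℝ) = |(n : ℝ)| := by
    intro n
    rw [Int.natCast_natAbs]; push_cast; rfl
  rw [Int.cast_add, Int.cast_mul, Int.cast_add, Int.cast_add, Int.cast_add, Int.cast_add,
    Int.cast_mul, Int.cast_mul, Int.cast_mul, Int.cast_mul, hab, hab, hab, hab] at hnegR
  set v := disp b.x1 b.x2 V
  set w := disp b.x3 b.x4 W
  have e : (SC : ℝ) * (t.G.toC * v + t.H.toC * w).re
      = (t.G.re : ℝ) * ((SC : ℝ) * v.re) - (t.G.im : ℝ) * ((SC : ℝ) * v.im)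
        + ((t.H.re : ℝ) * ((SC : ℝ) * w.re) - (t.H.im : ℝ) * ((SC : ℝ) * w.im)) := by
    simp only [Complex.add_re, Complex.mul_re, Z2.toC_re, Z2.toC_im]
    ring
  have k1 : (t.G.re : ℝ) * ((SC : ℝ) * v.re) ≤ |(t.G.re : ℝ)| * b.r1 := by
    refine (le_abs_self _).trans ?_
    rw [abs_mul]
    exact mul_le_mul_of_nonneg_left (by rw [disp_re]; exact hin.h1) (abs_nonneg _)
  have k2 : -((t.G.im : ℝ) * ((SC : ℝ) * v.im)) ≤ |(t.G.im : ℝ)| * b.r2 := by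
    refine (neg_le_abs _).trans ?_
    rw [abs_mul]
    exact mul_le_mul_of_nonneg_left (by rw [disp_im]; exact hin.h2) (abs_nonneg _)
  have k3 : (t.H.re : ℝ) * ((SC : ℝ) * w.re) ≤ |(t.H.re : ℝ)| * b.r3 := by
    refine (le_abs_self _).trans ?_
    rw [abs_mul]
    exact mul_le_mul_of_nonneg_left (by rw [disp_re]; exact hin.h3) (abs_nonneg _)
  have k4 : -((t.H.im : ℝ) * ((SC : ℝ) * w.im)) ≤ |(t.H.im : ℝ)| * b.r4 := by
    refine (neg_le_abs _).trans ?_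
    rw [abs_mul]
    exact mul_le_mul_of_nonneg_left (by rw [disp_im]; exact hin.h4) (abs_nonneg _)
  have h0 : 0 ≤ (SC : ℝ) * ((t.A : ℝ) + (t.G.toC * v + t.H.toC * w).re + (t.E : ℝ)) :=
    mul_nonneg SC_pos.le ht
  have h1 : (SC : ℝ) * ((t.A : ℝ) + (t.G.toC * v + t.H.toC * w).re + (t.E : ℝ))
      = ((t.A : ℝ) + t.E) * SC + (SC : ℝ) * (t.G.toC * v + t.H.toC * w).re := by ring
  rw [h1, e] at h0
  linarith

/-- sums over lists of vectors -/
theorem sumF_pos (m13 m33 f1p f3p f1q f3q Dpp Dqq Dpq : ℂ) (F : V4 → ℝ) :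
    ∀ X : List V4, (∀ x ∈ X, 0 ≤ (QS m13 m33 f1p f3p f1q f3q Dpp Dqq Dpq
      (Sym.outer (fvec x))).re + 65536 * F x) →
      0 ≤ (QS m13 m33 f1p f3p f1q f3q Dpp Dqq Dpq (symF X)).re + 65536 * (X.map F).sum
  | [], _ => by simp [symF, QS_zero]
  | x :: l, h => by
    have h1 := h x List.mem_cons_self
    have h2 := sumF_pos m13 m33 f1p f3p f1q f3q Dpp Dqq Dpq F l
      (fun y hy => h y (List.mem_cons_of_mem _ hy))
    simp only [symF, QS_add, Complex.add_re, List.map_cons, List.sum_cons]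
    linarith

theorem sumG_pos (m13 m33 f1p f3p f1q f3q Dpp Dqq Dpq : ℂ) (G : V4 → ℝ) :
    ∀ X : List V4, (∀ x ∈ X, 0 ≤ (QS m13 m33 f1p f3p f1q f3q Dpp Dqq Dpq
      (Sym.outer (gvec x))).re + 65536 * G x) →
      0 ≤ (QS m13 m33 f1p f3p f1q f3q Dpp Dqq Dpq (symG X)).re + 65536 * (X.map G).sum
  | [], _ => by simp [symG, QS_zero]
  | x :: l, h => by
    have h1 := h x List.mem_cons_self
    have h2 := sumG_pos m13 m33 f1p f3p f1q f3q Dpp Dqq Dpq G l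
      (fun y hy => h y (List.mem_cons_of_mem _ hy))
    simp only [symG, QS_add, Complex.add_re, List.map_cons, List.sum_cons]
    linarith

theorem neg_norm_le_re (z : ℂ) {K : ℝ} (h : ‖z‖ ≤ K) : 0 ≤ z.re + K := by
  have := abs_re_le_norm z
  have := neg_abs_le z.re
  linarith

end Pool.Agent.Lib.Pd7a79b
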