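import Pool.Agent.Lib.Pd7a79b.Sound3

/-!
# Soundness of the leaf checks (continued) and of the trees
-/

set_option autoImplicit false

open Complex

namespace Pool.Agent.Lib.Pd7a79b

theorem toC_eq_zero {x : Z2} (h1 : x.re = 0) (h2 : x.im = 0) : x.toC = 0 := by
  apply Complex.ext <;> simp [h1, h2]

theorem noq_iff {X : List V4} (h : noq X = true) : ∀ x ∈ X, x.aq.toC = 0 := by
  intro x hx
  unfold noq at h
  rw [List.all_eq_true] at h
  have := h x hx
  rw [Bool.and_eq_true, decide_eq_true_eq, decide_eq_true_eq] at this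
  exact toC_eq_zero this.1 this.2

theorem nop_iff {X : List V4} (h : nop X = true) : ∀ x ∈ X, x.ap.toC = 0 := by
  intro x hx
  unfold nop at h
  rw [List.all_eq_true] at h
  have := h x hx
  rw [Bool.and_eq_true, decide_eq_true_eq, decide_eq_true_eq] at this
  exact toC_eq_zero this.1 this.2

theorem symF_spq : ∀ X : List V4, (∀ x ∈ X, x.aq.toC = 0) → (symF X).spq.toC = 0
  | [], _ => by simp [symF, Sym.zero, Z2.toC_zero]
  | x :: l, h => by
    have h1 := h x List.mem_cons_self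
    have h2 := symF_spq l (fun y hy => h y (List.mem_cons_of_mem _ hy))
    simp only [symF, Sym.add, Z2.toC_add, Sym.outer, Z2.toC_mul, fvec, Z2.toC_smul, h1, h2]
    ring

theorem symG_spq : ∀ X : List V4, (∀ x ∈ X, x.aq.toC = 0) → (symG X).spq.toC = 0
  | [], _ => by simp [symG, Sym.zero, Z2.toC_zero]
  | x :: l, h => by
    have h1 := h x List.mem_cons_self
    have h2 := symG_spq l (fun y hy => h y (List.mem_cons_of_mem _ hy))
    simp only [symG, Sym.add, Z2.toC_add, Sym.outer, Z2.toC_mul, gvec, Z2.toC_smul, h1, h2]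
    ring

theorem fvec1 (x : V4) : (fvec x).a1.toC = ((256 : ℝ) : ℂ) * x.a1.toC := by
  simp [fvec, Z2.toC_smul]
theorem fvec3 (x : V4) : (fvec x).a3.toC = ((256 : ℝ) : ℂ) * x.a3.toC := by
  simp [fvec, Z2.toC_smul]
theorem fvecp (x : V4) : (fvec x).ap.toC = ((256 : ℝ) : ℂ) * x.ap.toC := by
  simp [fvec, Z2.toC_smul]
theorem fvecq (x : V4) : (fvec x).aq.toC = ((256 : ℝ) : ℂ) * x.aq.toC := by
  simp [fvec, Z2.toC_smul]
theorem gvec1 (x : V4) : (gvec x).a1.toC + (c0 : ℂ) * (gvec x).a3.toC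
    = ((256 : ℝ) : ℂ) * x.a1.toC := by
  simp only [gvec, Z2.toC_smul, Z2.toC_sub, c0]
  push_cast
  ring
theorem gvec3 (x : V4) : (gvec x).a3.toC = ((256 : ℝ) : ℂ) * x.a3.toC := by
  simp [gvec, Z2.toC_smul]
theorem gvecp (x : V4) : (gvec x).ap.toC = ((256 : ℝ) : ℂ) * x.ap.toC := by
  simp [gvec, Z2.toC_smul]
theorem gvecq (x : V4) : (gvec x).aq.toC = ((256 : ℝ) : ℂ) * x.aq.toC := by
  simp [gvec, Z2.toC_smul]

/-- positivity for vectors of the first kind, two points -/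
theorem posF {p q wp wq m13 m33 Dpp Dqq Dpq : ℂ}
    (hf : ∀ x1 x3 xp xq : ℂ, ‖QF c0 m13 m33 p q wp wq Dpp Dqq Dpq x1 x3 xp xq‖
      ≤ KF x1 x3 xp xq p q) (x : V4) :
    0 ≤ (QS m13 m33 (phi1 p wp) (phi3 c0 p wp) (phi1 q wq) (phi3 c0 q wq) Dpp Dqq Dpq
      (Sym.outer (fvec x))).re + 65536 * KF x.a1.toC x.a3.toC x.ap.toC x.aq.toC p q := by
  rw [QS_outer]
  apply neg_norm_le_re
  refine (hf _ _ _ _).trans ?_
  rw [fvec1, fvec3, fvecp, fvecq, KF_homog]
  norm_num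

/-- positivity for vectors of the second kind, two points -/
theorem posG {p q wp wq m13 m33 Dpp Dqq Dpq : ℂ}
    (hg : ∀ y1 y3 yp yq : ℂ, ‖QF c0 m13 m33 p q wp wq Dpp Dqq Dpq y1 y3 yp yq‖
      ≤ KF (y1 + c0 * y3) y3 yp yq wp wq) (x : V4) :
    0 ≤ (QS m13 m33 (phi1 p wp) (phi3 c0 p wp) (phi1 q wq) (phi3 c0 q wq) Dpp Dqq Dpq
      (Sym.outer (gvec x))).re + 65536 * KF x.a1.toC x.a3.toC x.ap.toC x.aq.toC wp wq := by
  rw [QS_outer]
  apply neg_norm_le_re
  refine (hg _ _ _ _).trans ?_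
  rw [gvec1, gvec3, gvecp, gvecq, KF_homog]
  norm_num

/-- positivity for vectors of the first kind, one point -/
theorem posF1 {z w m13 m33 D : ℂ}
    (hf : ∀ x1 x3 xp : ℂ, ‖QF c0 m13 m33 z z w w D D D x1 x3 xp 0‖
      ≤ KF x1 x3 xp 0 z z) (x : V4) (hx : x.aq.toC = 0) :
    0 ≤ (QS m13 m33 (phi1 z w) (phi3 c0 z w) (phi1 z w) (phi3 c0 z w) D D D
      (Sym.outer (fvec x))).re + 65536 * KF x.a1.toC x.a3.toC x.ap.toC 0 z z := by
  rw [QS_outer]
  apply neg_norm_le_re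
  have h0 : (fvec x).aq.toC = 0 := by rw [fvecq, hx, mul_zero]
  rw [h0]
  refine (hf _ _ _).trans ?_
  rw [fvec1, fvec3, fvecp, show (0 : ℂ) = ((256 : ℝ) : ℂ) * 0 by ring, KF_homog]
  norm_num

/-- positivity for vectors of the second kind, one point -/
theorem posG1 {z w m13 m33 D : ℂ}
    (hg : ∀ y1 y3 yp : ℂ, ‖QF c0 m13 m33 z z w w D D D y1 y3 yp 0‖
      ≤ KF (y1 + c0 * y3) y3 yp 0 w w) (x : V4) (hx : x.aq.toC = 0) :
    0 ≤ (QS m13 m33 (phi1 z w) (phi3 c0 z w) (phi1 z w) (phi3 c0 z w) D D D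
      (Sym.outer (gvec x))).re + 65536 * KF x.a1.toC x.a3.toC x.ap.toC 0 w w := by
  rw [QS_outer]
  apply neg_norm_le_re
  have h0 : (gvec x).aq.toC = 0 := by rw [gvecq, hx, mul_zero]
  rw [h0]
  refine (hg _ _ _).trans ?_
  rw [gvec1, gvec3, gvecp, show (0 : ℂ) = ((256 : ℝ) : ℂ) * 0 by ring, KF_homog]
  norm_num

/-- positivity for vectors of the second kind, exit type -/
theorem posE {z w m13 m33 D : ℂ}
    (hg : ∀ y1 y3 : ℂ, ‖y1 ^ 2 * (2 * (c0 : ℂ)) + 2 * y1 * y3 * m13 + y3 ^ 2 * m33‖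
      ≤ 2 * ‖y1 + c0 * y3‖ ^ 2 + 2 / 3 * ‖y3‖ ^ 2) (x : V4) (hx : x.aq.toC = 0)
    (hxp : x.ap.toC = 0) :
    0 ≤ (QS m13 m33 (phi1 z w) (phi3 c0 z w) (phi1 z w) (phi3 c0 z w) D D D
      (Sym.outer (gvec x))).re + 65536 * (2 * ‖x.a1.toC‖ ^ 2 + 2 / 3 * ‖x.a3.toC‖ ^ 2) := by
  rw [QS_outer]
  apply neg_norm_le_re
  have h0 : (gvec x).aq.toC = 0 := by rw [gvecq, hx, mul_zero]
  have h1 : (gvec x).ap.toC = 0 := by rw [gvecp, hxp, mul_zero]
  rw [h0, h1]
  have e : QF c0 m13 m33 z z w w D D D (gvec x).a1.toC (gvec x).a3.toC 0 0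
      = (gvec x).a1.toC ^ 2 * (2 * (c0 : ℂ)) + 2 * (gvec x).a1.toC * (gvec x).a3.toC * m13
        + (gvec x).a3.toC ^ 2 * m33 := by
    unfold QF; ring
  rw [e]
  refine (hg _ _).trans ?_
  rw [gvec1, gvec3, norm_mul, norm_mul, Complex.norm_real]
  norm_num
  apply le_of_eq
  ring

/-- `U₀` -/
noncomputable def U0 : ℂ := U0z.toC / SC

theorem U0_val : U0 = 31 / 32 + 41 / 64 * Complex.I := by
  unfold U0
  have : ((SC : Int) : ℂ) = (((SC : Int) : ℝ) : ℂ) := by push_cast; rfl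
  rw [this]
  apply Complex.ext
  · rw [Complex.div_ofReal_re]; simp [U0z, SC]; norm_num
  · rw [Complex.div_ofReal_im]; simp [U0z, SC]; norm_num

theorem U0_conj : (starRingEnd ℂ) U0 = 31 / 32 - 41 / 64 * Complex.I := by
  rw [U0_val, map_add, map_mul, Complex.conj_I]
  have h1 : (starRingEnd ℂ) (31 / 32 : ℂ) = 31 / 32 := by
    rw [show (31 / 32 : ℂ) = ((31 / 32 : ℝ) : ℂ) by push_cast; rfl, Complex.conj_ofReal]
  have h2 : (starRingEnd ℂ) (41 / 64 : ℂ) = 41 / 64 := by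
    rw [show (41 / 64 : ℂ) = ((41 / 64 : ℝ) : ℂ) by push_cast; rfl, Complex.conj_ofReal]
  rw [h1, h2]
  ring

theorem ratio_eq {p q wp wq : ℂ} (hp : 1 / p = 31 / 32 + 41 / 64 * Complex.I)
    (hq : 1 / q = 31 / 32 - 41 / 64 * Complex.I) (hp0 : p ≠ 0) (hq0 : q ≠ 0)
    (hwp : wp ≠ 0) (hwq : wq ≠ 0) (hs : 1 / wp + 1 / wq ≠ 0) :
    ((wp - wq) * (p + q)) / ((wp + wq) * (p - q))
      = ((124 / 41 : ℝ) : ℂ) * (-(Complex.I / 2) *
          ((1 / wp - 1 / wq) * (1 / (1 / wp + 1 / wq)))) := by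
  have hI := Complex.I_sq
  have h1 : p * (31 / 32 + 41 / 64 * Complex.I) = 1 := by rw [← hp]; field_simp
  have h2 : q * (31 / 32 - 41 / 64 * Complex.I) = 1 := by rw [← hq]; field_simp
  have ha : (31 / 32 + 41 / 64 * Complex.I : ℂ) ≠ 0 := right_ne_zero_of_mul_eq_one h1
  have hb : (31 / 32 - 41 / 64 * Complex.I : ℂ) ≠ 0 := right_ne_zero_of_mul_eq_one h2
  have h3 : p + q = (62 / 41) * Complex.I * (p - q) := by
    apply mul_right_cancel₀ (mul_ne_zero ha hb)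
    have e1 : (p + q) * ((31 / 32 + 41 / 64 * Complex.I) * (31 / 32 - 41 / 64 * Complex.I))
        = 31 / 16 := by
      linear_combination (31 / 32 - 41 / 64 * Complex.I) * h1
        + (31 / 32 + 41 / 64 * Complex.I) * h2
    have e2 : (p - q) * ((31 / 32 + 41 / 64 * Complex.I) * (31 / 32 - 41 / 64 * Complex.I))
        = -(41 / 32) * Complex.I := by
      linear_combination (31 / 32 - 41 / 64 * Complex.I) * h1
        - (31 / 32 + 41 / 64 * Complex.I) * h2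
    rw [e1, mul_assoc, e2]
    linear_combination (31 / 16) * hI
  have h4 : p - q ≠ 0 := by
    intro h0
    have e2 : (p - q) * ((31 / 32 + 41 / 64 * Complex.I) * (31 / 32 - 41 / 64 * Complex.I))
        = -(41 / 32) * Complex.I := by
      linear_combination (31 / 32 - 41 / 64 * Complex.I) * h1
        - (31 / 32 + 41 / 64 * Complex.I) * h2
    rw [h0, zero_mul] at e2
    have : (-(41 / 32) * Complex.I : ℂ) ≠ 0 :=
      mul_ne_zero (by norm_num) Complex.I_ne_zero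
    exact this e2.symm
  have h5 : wp + wq ≠ 0 := by
    intro h0
    apply hs
    rw [div_add_div _ _ hwp hwq, show 1 * wq + wp * 1 = wp + wq by ring, h0, zero_div]
  have h6 : (1 / wp - 1 / wq) * (1 / (1 / wp + 1 / wq)) = (wq - wp) / (wp + wq) := by
    have h7 : (1 / wp + 1 / wq) = (wp + wq) / (wp * wq) := by
      rw [div_add_div _ _ hwp hwq]; ring
    rw [h7, one_div_div]
    field_simp
  rw [h6, h3]
  push_cast
  field_simp
  ring

/-- Common part of the one-point leaves. -/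
theorem mpart1_sound {v w' : ℂ} {R1 R2 : Int} (hR : Rad v w' R1 R2) {z w D : ℂ} {U V : TM}
    (hU : Rep v w' U (1 / z)) (hV : Rep v w' V (1 / w)) {X Y : List V4}
    (hX : noq X = true) (hY : noq Y = true) :
    Rep v w' (mpart ((symF X).add (symG Y)) (tphi1 U V) (tphi3 R1 R2 U V) (tphi1 U V)
        (tphi3 R1 R2 U V) TM.zero)
      (3 * (((symF X).add (symG Y)).s11.toC * (2 * (c0 : ℂ))
        + 2 * (((symF X).add (symG Y)).s1p.toC * phi1 z w
            + ((symF X).add (symG Y)).s1q.toC * phi1 z w)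
        + 2 * (((symF X).add (symG Y)).s3p.toC * phi3 c0 z w
            + ((symF X).add (symG Y)).s3q.toC * phi3 c0 z w)
        + 2 * ((symF X).add (symG Y)).spq.toC * D)) := by
  have hs : ((symF X).add (symG Y)).spq.toC = 0 := by
    simp only [Sym.add, Z2.toC_add, symF_spq X (noq_iff hX), symG_spq Y (noq_iff hY), add_zero]
  apply mpart_sound _ (tphi1_sound hU hV) (tphi3_sound hR hU hV) (tphi1_sound hU hV)
    (tphi3_sound hR hU hV)
  have h := Rep.scal (Z2.smul 6 ((symF X).add (symG Y)).spq) (Rep.zero (v := v) (w := w'))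
  have e : (Z2.smul 6 ((symF X).add (symG Y)).spq).toC * D
      = (Z2.smul 6 ((symF X).add (symG Y)).spq).toC * 0 := by
    rw [Z2.toC_smul, hs]; ring
  rw [e]
  exact h

theorem leaf0_sound {b : Bx} {X Y : List V4} (h : leaf0 b X Y = true) {z w m13 m33 D s : ℂ}
    (hz : 1 / z = s * U0) (hin : InBx b (1 / w) s) (hA : APri m13 m33 D D)
    (hsys : Sys0 z w m13 m33 D) : False := by
  unfold leaf0 at h
  simp only [Bool.and_eq_true, decide_eq_true_eq] at h
  obtain ⟨⟨⟨⟨⟨⟨hok, hinv⟩, hmag⟩, hX⟩, hY⟩, hYp⟩, hneg⟩ := h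
  have hR := rad_of_box hin hok
  have hV := varV_sound b.x1 b.x2 (1 / w) (disp b.x3 b.x4 s)
  have hS := varW_sound b.x3 b.x4 s (disp b.x1 b.x2 (1 / w))
  have hU : Rep (disp b.x1 b.x2 (1 / w)) (disp b.x3 b.x4 s)
      (((varW b.x3 b.x4).scal U0z).shr) (1 / z) := by
    have := (hS.scal U0z).shr hR
    rw [hz]
    have e : s * U0 = U0z.toC * s / SC := by unfold U0; ring
    rw [e]
    exact this
  have hzr := (Rep.inv hR hU hinv).2
  rw [one_div_one_div] at hzr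
  have hm := mpart1_sound (D := D) hR hU hV hX hY
  have hQ := QS_le hA (phi1 z w) (phi3 c0 z w) (phi1 z w) (phi3 c0 z w) D
    ((symF X).add (symG Y))
  have hF := kernS_sound hR hzr hmag KF0 (by decide) X
  have hG := kernE_sound (v := disp b.x1 b.x2 (1 / w)) (w := disp b.x3 b.x4 s) Y
  have pF := sumF_pos m13 m33 (phi1 z w) (phi3 c0 z w) (phi1 z w) (phi3 c0 z w) D D D
    (fun x => KF x.a1.toC x.a3.toC x.ap.toC 0 z z) X
    (fun x hx => posF1 hsys.f x (noq_iff hX x hx))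
  have pG := sumG_pos m13 m33 (phi1 z w) (phi3 c0 z w) (phi1 z w) (phi3 c0 z w) D D D
    (fun x => 2 * ‖x.a1.toC‖ ^ 2 + 2 / 3 * ‖x.a3.toC‖ ^ 2) Y
    (fun x hx => posE hsys.g x (noq_iff hY x hx) (nop_iff hYp x hx))
  refine neg_sound hin hneg (total_sound hm hQ hF hG ?_)
  rw [QS_add, Complex.add_re]
  linarith

theorem leaf1_sound {b : Bx} {ex : Bool} {X Y : List V4} (h : leaf1 b ex X Y = true)
    {z w m13 m33 D s : ℂ}
    (hz : 1 / z = U0) (hin : InBx b (1 / w) s) (hA : APri m13 m33 D D)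
    (hsys0 : Sys0 z w m13 m33 D) (hsys : Sys1 z w m13 m33 D) : False := by
  unfold leaf1 at h
  simp only [Bool.and_eq_true, decide_eq_true_eq] at h
  obtain ⟨⟨⟨⟨⟨hok, hinv⟩, hmag⟩, hX⟩, hY⟩, hrest⟩ := h
  have hR := rad_of_box hin hok
  have hV := varV_sound b.x1 b.x2 (1 / w) (disp b.x3 b.x4 s)
  have hU : Rep (disp b.x1 b.x2 (1 / w)) (disp b.x3 b.x4 s) (TM.const U0z) (1 / z) := by
    rw [hz]
    exact Rep.const U0z
  have hzr := (Rep.inv hR hU hinv).2
  rw [one_div_one_div] at hzr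
  have hm := mpart1_sound (D := D) hR hU hV hX hY
  have hQ := QS_le hA (phi1 z w) (phi3 c0 z w) (phi1 z w) (phi3 c0 z w) D
    ((symF X).add (symG Y))
  have hF := kernS_sound hR hzr hmag KF0 (by decide) X
  have pF := sumF_pos m13 m33 (phi1 z w) (phi3 c0 z w) (phi1 z w) (phi3 c0 z w) D D D
    (fun x => KF x.a1.toC x.a3.toC x.ap.toC 0 z z) X
    (fun x hx => posF1 hsys.f x (noq_iff hX x hx))
  cases ex with
  | true =>
    simp only [Bool.and_eq_true] at hrest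
    have hG := kernE_sound (v := disp b.x1 b.x2 (1 / w)) (w := disp b.x3 b.x4 s) Y
    have pG := sumG_pos m13 m33 (phi1 z w) (phi3 c0 z w) (phi1 z w) (phi3 c0 z w) D D D
      (fun x => 2 * ‖x.a1.toC‖ ^ 2 + 2 / 3 * ‖x.a3.toC‖ ^ 2) Y
      (fun x hx => posE hsys0.g x (noq_iff hY x hx) (nop_iff hrest.1 x hx))
    refine neg_sound hin hrest.2 (total_sound hm hQ hF hG ?_)
    rw [QS_add, Complex.add_re]
    linarith
  | false =>
    simp only [Bool.and_eq_true, decide_eq_true_eq] at hrest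
    obtain ⟨⟨hinv2, hmag2⟩, hneg⟩ := hrest
    have hhr := (Rep.inv hR hV hinv2).2
    rw [one_div_one_div] at hhr
    have hG := kernS_sound hR hhr hmag2 KG0 (by decide) Y
    have pG := sumG_pos m13 m33 (phi1 z w) (phi3 c0 z w) (phi1 z w) (phi3 c0 z w) D D D
      (fun x => KF x.a1.toC x.a3.toC x.ap.toC 0 w w) Y
      (fun x hx => posG1 hsys.g x (noq_iff hY x hx))
    refine neg_sound hin hneg (total_sound hm hQ hF hG ?_)
    rw [QS_add, Complex.add_re]
    linarith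

theorem log_LK : |(SC : ℝ) * Real.log (124 / 41) - (LK : ℝ)| ≤ 1048576 := by
  have hx0 : (0 : ℝ) ≤ 83 / 165 := by norm_num
  have hx1 : (83 / 165 : ℝ) < 1 := by norm_num
  have h1 := Real.sum_range_le_log_div hx0 hx1 12
  have h2 := Real.log_div_le_sum_range_add hx0 hx1 12
  have e : ((1 : ℝ) + 83 / 165) / (1 - 83 / 165) = 124 / 41 := by norm_num
  rw [e] at h1 h2
  rw [abs_le]
  unfold SC LK
  constructor
  · have : (1216839962612 - 1048576 : ℝ) / 1099511627776 / 2 ≤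
        ∑ i ∈ Finset.range 12, (83 / 165 : ℝ) ^ (2 * i + 1) / (2 * i + 1) := by
      simp only [Finset.sum_range_succ, Finset.sum_range_zero]
      norm_num
    push_cast
    linarith
  · have : ∑ i ∈ Finset.range 12, (83 / 165 : ℝ) ^ (2 * i + 1) / (2 * i + 1)
        + (83 / 165 : ℝ) ^ (2 * 12 + 1) / (1 - (83 / 165) ^ 2)
        ≤ (1216839962612 + 1048576 : ℝ) / 1099511627776 / 2 := by
      simp only [Finset.sum_range_succ, Finset.sum_range_zero]
      norm_num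
    push_cast
    linarith

theorem lg_add_sound {v w : ℂ} {t : TM} {f : ℂ} (h : Rep v w t f) :
    Rep v w (TM.mk (t.a.add ⟨LK, 0⟩) t.b t.c (t.e + 1048576))
      ((Real.log (124 / 41) : ℂ) + f) := by
  unfold Rep at *
  simp only [Z2.toC_add]
  have e1 : (⟨LK, 0⟩ : Z2).toC = ((LK : ℝ) : ℂ) := by apply Complex.ext <;> simp
  rw [e1]
  have e : (SC : ℂ) * ((Real.log (124 / 41) : ℂ) + f)
      - (t.a.toC + ((LK : ℝ) : ℂ) + t.b.toC * v + t.c.toC * w)
      = ((SC : ℂ) * f - (t.a.toC + t.b.toC * v + t.c.toC * w))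
        + (((SC : ℝ) * Real.log (124 / 41) - (LK : ℝ) : ℝ) : ℂ) := by
    push_cast; ring
  rw [e]
  refine (norm_add_le _ _).trans ?_
  push_cast
  refine add_le_add h ?_
  have := log_LK
  rw [← Real.norm_eq_abs, ← Complex.norm_real] at this
  push_cast at this
  exact this

theorem leaf2_sound {b : Bx} {X Y : List V4} (h : leaf2 b X Y = true)
    {p q wp wq m13 m33 Dpp Dqq Dpq : ℂ}
    (hp : 1 / p = U0) (hq : 1 / q = (starRingEnd ℂ) U0) (hin : InBx b (1 / wp) (1 / wq))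
    (hA : APri m13 m33 Dpp Dqq) (hsys : Sys2 p q wp wq m13 m33 Dpp Dqq Dpq)
    (hD : Dpq = Complex.log (((wp - wq) * (p + q)) / ((wp + wq) * (p - q)))) : False := by
  unfold leaf2 at h
  simp only [Bool.and_eq_true, decide_eq_true_eq] at h
  obtain ⟨⟨⟨⟨⟨⟨⟨⟨⟨hok, hi1⟩, hi2⟩, hi3⟩, hi4⟩, hi5⟩, hk1⟩, hk2⟩, hu⟩, hneg⟩ := h
  have hR := rad_of_box hin hok
  have hV := varV_sound b.x1 b.x2 (1 / wp) (disp b.x3 b.x4 (1 / wq))
  have hW := varW_sound b.x3 b.x4 (1 / wq) (disp b.x1 b.x2 (1 / wp))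
  have hU : Rep (disp b.x1 b.x2 (1 / wp)) (disp b.x3 b.x4 (1 / wq)) (TM.const U0z) (1 / p) := by
    rw [hp]
    exact Rep.const U0z
  have hUc : Rep (disp b.x1 b.x2 (1 / wp)) (disp b.x3 b.x4 (1 / wq)) (TM.const U0zc)
      (1 / q) := by
    rw [hq]
    have e : (starRingEnd ℂ) U0 = U0zc.toC / SC := by
      unfold U0
      have : ((SC : Int) : ℂ) = (((SC : Int) : ℝ) : ℂ) := by push_cast; rfl
      rw [this, map_div₀, Complex.conj_ofReal]
      congr 1
      apply Complex.ext <;> simp [U0z, U0zc]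
    rw [e]
    exact Rep.const U0zc
  obtain ⟨hp0, hpr⟩ := Rep.inv hR hU hi1
  obtain ⟨hq0, hqr⟩ := Rep.inv hR hUc hi2
  obtain ⟨hV0, hVr⟩ := Rep.inv hR hV hi3
  obtain ⟨hW0, hWr⟩ := Rep.inv hR hW hi4
  have hd := hV.add hW
  obtain ⟨hd0, hdr⟩ := Rep.inv hR hd hi5
  rw [one_div_one_div] at hpr hqr hVr hWr
  have hu0 := (((Rep.mul hR (hV.sub hW) hdr).scal ⟨0, -549755813888⟩).shr hR).sub
    (Rep.one (v := disp b.x1 b.x2 (1 / wp)) (w := disp b.x3 b.x4 (1 / wq)))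
  obtain ⟨hun, hlog⟩ := Rep.log1p hR hu0 hu
  have hlog' := lg_add_sound hlog
  -- identify the logarithm
  have hwp : wp ≠ 0 := by
    intro h0; apply hV0; rw [h0]; simp
  have hwq : wq ≠ 0 := by
    intro h0; apply hW0; rw [h0]; simp
  have hpne : p ≠ 0 := by
    intro h0; apply hp0; rw [h0]; simp
  have hqne : q ≠ 0 := by
    intro h0; apply hq0; rw [h0]; simp
  set u : ℂ := (⟨0, -549755813888⟩ : Z2).toC *
      ((1 / wp - 1 / wq) * (1 / (1 / wp + 1 / wq))) / SC - 1 with hudef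
  have hu1 : 1 + u ≠ 0 := by
    intro h0
    have : u = -1 := by linear_combination h0
    rw [this] at hun
    norm_num at hun
  have hratio : ((wp - wq) * (p + q)) / ((wp + wq) * (p - q)) = ((124 / 41 : ℝ) : ℂ) * (1 + u) := by
    have e1 : (⟨0, -549755813888⟩ : Z2).toC / (SC : ℂ) = -(Complex.I / 2) := by
      have : ((SC : Int) : ℂ) = (((SC : Int) : ℝ) : ℂ) := by push_cast; rfl
      rw [this]
      apply Complex.ext
      · rw [Complex.div_ofReal_re]; simp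
      · rw [Complex.div_ofReal_im]; simp [SC]; norm_num
    have e2 : 1 + u = -(Complex.I / 2) * ((1 / wp - 1 / wq) * (1 / (1 / wp + 1 / wq))) := by
      rw [hudef, ← e1]; ring
    rw [e2]
    exact ratio_eq (by rw [hp, U0_val]) (by rw [hq, U0_conj]) hpne hqne hwp hwq hd0
  have hDeq : Dpq = (Real.log (124 / 41) : ℂ) + Complex.log (1 + u) := by
    rw [hD, hratio, Complex.log_ofReal_mul (by norm_num) hu1]
  rw [← hDeq] at hlog'
  have hm := mpart_sound ((symF X).add (symG Y)) (tphi1_sound hU hV) (tphi3_sound hR hU hV)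
    (tphi1_sound hUc hW) (tphi3_sound hR hUc hW)
    (hlog'.scal (Z2.smul 6 ((symF X).add (symG Y)).spq))
  have hQ := QS_le hA (phi1 p wp) (phi3 c0 p wp) (phi1 q wq) (phi3 c0 q wq) Dpq
    ((symF X).add (symG Y))
  have hF := kernF_sound hR hpr hqr hk1 KF0 (by decide) X
  have hG := kernF_sound hR hVr hWr hk2 KG0 (by decide) Y
  have pF := sumF_pos m13 m33 (phi1 p wp) (phi3 c0 p wp) (phi1 q wq) (phi3 c0 q wq) Dpp Dqq Dpq
    (fun x => KF x.a1.toC x.a3.toC x.ap.toC x.aq.toC p q) X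
    (fun x _ => posF hsys.f x)
  have pG := sumG_pos m13 m33 (phi1 p wp) (phi3 c0 p wp) (phi1 q wq) (phi3 c0 q wq) Dpp Dqq Dpq
    (fun x => KF x.a1.toC x.a3.toC x.ap.toC x.aq.toC wp wq) Y
    (fun x _ => posG hsys.g x)
  refine neg_sound hin hneg (total_sound hm hQ hF hG ?_)
  rw [QS_add, Complex.add_re]
  linarith

end Pool.Agent.Lib.Pd7a79b
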