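import Pool.Agent.Lib.Pd7a79b.Sound4
import Pool.Agent.Lib.Pd7a79b.Data0
import Pool.Agent.Lib.Pd7a79b.Data0a
import Pool.Agent.Lib.Pd7a79b.Data1
import Pool.Agent.Lib.Pd7a79b.Data2

/-!
# Trees, a priori bounds and the numerical statements
-/

set_option autoImplicit false

open Complex

namespace Pool.Agent.Lib.Pd7a79b

theorem half_spec (r : Int) : (r : ℝ) ≤ 2 * (Bx.half r : ℝ) := by
  unfold Bx.half
  have h1 := Int.emod_add_mul_ediv (r + 1) 2
  have h2 := Int.emod_lt_of_pos (r + 1) (by norm_num : (0 : Int) < 2)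
  have h3 : r ≤ 2 * ((r + 1) / 2) := by omega
  exact_mod_cast h3

theorem split_one {t : ℝ} {x r : Int} (h : |t - x| ≤ r) :
    |t - ((x - Bx.half r : Int) : ℝ)| ≤ (Bx.half r : ℝ) ∨
      |t - ((x + Bx.half r : Int) : ℝ)| ≤ (Bx.half r : ℝ) := by
  have h2 := half_spec r
  rw [abs_le] at h
  push_cast
  rcases le_total t x with hle | hle
  · left
    rw [abs_le]
    constructor <;> linarith [h.1, h.2]
  · right
    rw [abs_le]
    constructor <;> linarith [h.1, h.2]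

theorem split_box {b : Bx} {V W : ℂ} (h : InBx b V W) (d : ℕ) :
    InBx (b.lo d) V W ∨ InBx (b.hi d) V W := by
  match d with
  | 0 =>
    rcases split_one h.h1 with h' | h'
    · exact Or.inl ⟨h', h.h2, h.h3, h.h4⟩
    · exact Or.inr ⟨h', h.h2, h.h3, h.h4⟩
  | 1 =>
    rcases split_one h.h2 with h' | h'
    · exact Or.inl ⟨h.h1, h', h.h3, h.h4⟩
    · exact Or.inr ⟨h.h1, h', h.h3, h.h4⟩
  | 2 =>
    rcases split_one h.h3 with h' | h'
    · exact Or.inl ⟨h.h1, h.h2, h', h.h4⟩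
    · exact Or.inr ⟨h.h1, h.h2, h', h.h4⟩
  | (n + 3) =>
    rcases split_one h.h4 with h' | h'
    · exact Or.inl ⟨h.h1, h.h2, h.h3, h'⟩
    · exact Or.inr ⟨h.h1, h.h2, h.h3, h'⟩

theorem check_sound {sk : Bx → Bool} {lf : Bx → Bool → List V4 → List V4 → Bool} {V W : ℂ}
    (hsk : ∀ b, sk b = true → InBx b V W → False)
    (hlf : ∀ b ex X Y, lf b ex X Y = true → InBx b V W → False) :
    ∀ (T : Tree) (b : Bx), T.check sk lf b = true → InBx b V W → False
  | .skip, b, h, hin => hsk b h hin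
  | .leaf ex X Y, b, h, hin => hlf b ex X Y h hin
  | .node d l r, b, h, hin => by
    simp only [Tree.check, Bool.and_eq_true] at h
    rcases split_box hin d with h' | h'
    · exact check_sound hsk hlf l _ h.1 h'
    · exact check_sound hsk hlf r _ h.2 h'

theorem natAbs_cast (n : Int) : (((n.natAbs : Int)) : ℝ) = |(n : ℝ)| := by
  rw [Int.natCast_natAbs]; push_cast; rfl

theorem fmax_bound {b : Bx} {V W : ℂ} (h : InBx b V W) :
    (SC : ℝ) ^ 2 * ‖V‖ ^ 2 ≤ (b.fmax : ℝ) := by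
  have h1 := h.h1
  have h2 := h.h2
  have k1 : |(SC : ℝ) * V.re| ≤ |(b.x1 : ℝ)| + b.r1 := by
    have := abs_add_le ((SC : ℝ) * V.re - b.x1) b.x1
    rw [sub_add_cancel] at this
    linarith
  have k2 : |(SC : ℝ) * V.im| ≤ |(b.x2 : ℝ)| + b.r2 := by
    have := abs_add_le ((SC : ℝ) * V.im - b.x2) b.x2
    rw [sub_add_cancel] at this
    linarith
  unfold Bx.fmax
  simp only
  push_cast [natAbs_cast]
  have k1' := mul_self_le_mul_self (abs_nonneg _) k1
  have k2' := mul_self_le_mul_self (abs_nonneg _) k2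
  rw [abs_mul_abs_self] at k1' k2'
  rw [← Complex.normSq_eq_norm_sq, Complex.normSq_apply]
  have e1 : ((b.x1.natAbs : ℤ) : ℝ) = |(b.x1 : ℝ)| := natAbs_cast b.x1
  have e2 : ((b.x2.natAbs : ℤ) : ℝ) = |(b.x2 : ℝ)| := natAbs_cast b.x2
  nlinarith

theorem fmin_aux {t : ℝ} {x r : Int} (h : |t - x| ≤ r) :
    ((max 0 ((x.natAbs : Int) - r) : Int) : ℝ) * ((max 0 ((x.natAbs : Int) - r) : Int) : ℝ)
      ≤ t * t := by
  have hm : ((max 0 ((x.natAbs : Int) - r) : Int) : ℝ) ≤ |t| := by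
    rw [Int.cast_max]
    apply max_le
    · simp
    · rw [Int.cast_sub, natAbs_cast]
      have := abs_sub_abs_le_abs_sub (x : ℝ) t
      rw [abs_sub_comm] at this
      linarith
  have h0 : (0 : ℝ) ≤ ((max 0 ((x.natAbs : Int) - r) : Int) : ℝ) := by
    rw [Int.cast_max]; simp
  have := mul_self_le_mul_self h0 hm
  rwa [abs_mul_abs_self] at this

theorem fmin_bound {b : Bx} {V W : ℂ} (h : InBx b V W) :
    (b.fmin : ℝ) ≤ (SC : ℝ) ^ 2 * ‖V‖ ^ 2 := by
  have h1 := fmin_aux h.h1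
  have h2 := fmin_aux h.h2
  unfold Bx.fmin
  simp only
  rw [Int.cast_add, Int.cast_mul, Int.cast_mul]
  rw [← Complex.normSq_eq_norm_sq, Complex.normSq_apply]
  nlinarith

/-! ### a priori bounds -/

theorem norm_p0_sq : ‖p0‖ ^ 2 = 4096 / 5525 := by
  have h : ‖((62 + 41 * Complex.I) / 64 : ℂ)‖ ^ 2 = 5525 / 4096 := by
    rw [← Complex.normSq_eq_norm_sq, Complex.normSq_apply]
    have hre : ((62 + 41 * Complex.I) / 64 : ℂ).re = 62 / 64 := by
      rw [show (64 : ℂ) = ((64 : ℝ) : ℂ) by push_cast; rfl, Complex.div_ofReal_re]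
      simp
    have him : ((62 + 41 * Complex.I) / 64 : ℂ).im = 41 / 64 := by
      rw [show (64 : ℂ) = ((64 : ℝ) : ℂ) by push_cast; rfl, Complex.div_ofReal_im]
      simp
    rw [hre, him]
    norm_num
  unfold p0
  rw [norm_div, div_pow, h, norm_one]
  norm_num

theorem one_div_p0 : 1 / p0 = U0 := by
  unfold p0
  rw [one_div_one_div, U0_val]
  ring

theorem one_div_q0 : 1 / q0 = (starRingEnd ℂ) U0 := by
  unfold q0
  rw [one_div_one_div, U0_conj]
  ring

theorem TS_zero_of (x1 x3 p q : ℂ) (k : ℕ) (hk : 2 ≤ k) : TS x1 x3 0 0 p q k = 0 := by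
  unfold TS
  have : ∀ j : ℕ, 2 / (2 * ((j + k : ℕ) : ℝ) + 1) * ‖zc x1 x3 0 0 p q (j + k)‖ ^ 2 = 0 := by
    intro j
    have : zc x1 x3 0 0 p q (j + k) = 0 := by
      unfold zc
      rw [if_neg (by omega), if_neg (by omega)]
      ring
    rw [this]
    simp
  simp only [this]
  simp

theorem KF_two (x1 x3 p q : ℂ) (hp : ‖p‖ < 1) (hq : ‖q‖ < 1) :
    KF x1 x3 0 0 p q = 2 * ‖x1‖ ^ 2 + 2 / 3 * ‖x3‖ ^ 2 := by
  rw [KF_eq_TS, TS_succ _ _ _ _ p q hp hq 0, TS_succ _ _ _ _ p q hp hq 1,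
    TS_zero_of _ _ _ _ _ le_rfl]
  simp [zc]
  norm_num

/-- bound of the diagonal kernel -/
theorem KF_diag {z : ℂ} {ρ : ℝ} (hz : ‖z‖ ^ 2 ≤ ρ) (hρ : ρ < 1) :
    KF 0 0 1 0 z z ≤ 2 * ρ + 2 / 3 * ρ ^ 3 + 2 / 5 * ρ ^ 5 + 2 / 7 * ρ ^ 7 / (1 - ρ ^ 2) := by
  have hz1 : ‖z‖ < 1 := by
    by_contra h
    push Not at h
    have : 1 ≤ ‖z‖ ^ 2 := one_le_pow₀ h
    linarith
  have hρ0 : 0 ≤ ρ := le_trans (by positivity) hz
  rw [KF_eq_TS, TS_succ _ _ _ _ z z hz1 hz1 0, TS_succ _ _ _ _ z z hz1 hz1 1,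
    TS_succ _ _ _ _ z z hz1 hz1 2]
  have ht := TS_tail1 0 0 1 z z hz1 hz1 3 (by norm_num)
  have e0 : zc 0 0 1 0 z z 0 = z := by simp [zc]
  have e1 : zc 0 0 1 0 z z 1 = z ^ 3 := by simp [zc]
  have e2 : zc 0 0 1 0 z z 2 = z ^ 5 := by simp [zc]
  have p3 : ‖z ^ 3‖ ^ 2 ≤ ρ ^ 3 := by
    rw [norm_pow, ← pow_mul, mul_comm, pow_mul]; gcongr
  have p5 : ‖z ^ 5‖ ^ 2 ≤ ρ ^ 5 := by
    rw [norm_pow, ← pow_mul, mul_comm, pow_mul]; gcongr
  have p7 : ‖z ^ 7‖ ^ 2 ≤ ρ ^ 7 := by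
    rw [norm_pow, ← pow_mul, mul_comm, pow_mul]; gcongr
  have p4 : ‖z‖ ^ 4 ≤ ρ ^ 2 := by
    rw [show (4 : ℕ) = 2 * 2 by norm_num, pow_mul]; gcongr
  have hρ2 : 0 < 1 - ρ ^ 2 := by
    have : ρ ^ 2 < 1 := pow_lt_one₀ hρ0 hρ (by norm_num)
    linarith
  have ht2 : TS 0 0 1 0 z z (2 + 1) ≤ 2 / 7 * ρ ^ 7 / (1 - ρ ^ 2) := by
    refine ht.trans ?_
    rw [norm_one]
    have e7 : (2 * 3 + 1 : ℕ) = 7 := by norm_num
    rw [e7]
    have : (2 : ℝ) / (2 * ((3 : ℕ) : ℝ) + 1) = 2 / 7 := by norm_num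
    rw [this]
    apply div_le_div₀ (by positivity) _ hρ2 (by linarith)
    nlinarith
  rw [e0, e1, e2]
  have c0' : (2 : ℝ) / (2 * ((0 : ℕ) : ℝ) + 1) = 2 := by norm_num
  have c1' : (2 : ℝ) / (2 * ((0 + 1 : ℕ) : ℝ) + 1) = 2 / 3 := by norm_num
  have c2' : (2 : ℝ) / (2 * ((1 + 1 : ℕ) : ℝ) + 1) = 2 / 5 := by norm_num
  have c1'' : (2 : ℝ) / (2 * ((1 : ℕ) : ℝ) + 1) = 2 / 3 := by norm_num
  have c2'' : (2 : ℝ) / (2 * ((2 : ℕ) : ℝ) + 1) = 2 / 5 := by norm_num
  rw [c0', c1'', c2'']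
  linarith

theorem KF_flip (x1 xp z : ℂ) (hz : ‖z‖ < 1) :
    KF x1 0 xp 0 z z + KF x1 0 (-xp) 0 z z = 4 * ‖x1‖ ^ 2 + 2 * ‖xp‖ ^ 2 * KF 0 0 1 0 z z := by
  have hTS : ∀ y : ℂ, TS x1 0 y 0 z z 1 = ‖y‖ ^ 2 * TS 0 0 1 0 z z 1 := by
    intro y
    unfold TS
    rw [← tsum_mul_left]
    apply tsum_congr
    intro j
    have : zc x1 0 y 0 z z (j + 1) = y * zc 0 0 1 0 z z (j + 1) := by
      unfold zc
      rw [if_neg (by omega)]
      simp
    rw [this, norm_mul, mul_pow]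
    ring
  rw [KF_eq_TS, KF_eq_TS, KF_eq_TS, TS_succ _ _ _ _ z z hz hz 0, TS_succ _ _ _ _ z z hz hz 0,
    TS_succ _ _ _ _ z z hz hz 0, hTS, hTS, norm_neg]
  have e1 : zc x1 0 xp 0 z z 0 = x1 + xp * z := by simp [zc]
  have e2 : zc x1 0 (-xp) 0 z z 0 = x1 - xp * z := by simp [zc]; ring
  have e3 : zc 0 0 1 0 z z 0 = z := by simp [zc]
  rw [e1, e2, e3]
  have par : ‖x1 + xp * z‖ ^ 2 + ‖x1 - xp * z‖ ^ 2 = 2 * (‖x1‖ ^ 2 + ‖xp * z‖ ^ 2) := by
    have := parallelogram_law_with_norm ℝ x1 (xp * z)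
    nlinarith
  have hm : ‖xp * z‖ ^ 2 = ‖xp‖ ^ 2 * ‖z‖ ^ 2 := by rw [norm_mul, mul_pow]
  rw [hm] at par
  norm_num
  nlinarith

/-- The basic consequences of the first inequality at one point. -/
theorem basic_bounds {z w m13 m33 D : ℂ} {L : ℝ} (hz : ‖z‖ < 1)
    (hL : KF 0 0 1 0 z z ≤ L)
    (hf : ∀ x1 x3 xp : ℂ, ‖QF c0 m13 m33 z z w w D D D x1 x3 xp 0‖ ≤ KF x1 x3 xp 0 z z) :
    ‖m13‖ ≤ 4 / 3 ∧ ‖m33‖ ≤ 2 / 3 ∧ ‖D‖ ≤ L ∧
      ∀ y : ℝ, 0 < y → ‖phi1 z w‖ ≤ (4 + 2 * y ^ 2 * L) / (4 * y) := by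
  refine ⟨?_, ?_, ?_, ?_⟩
  · have h1 := hf 1 1 0
    have h2 := hf 1 (-1) 0
    rw [KF_two _ _ _ _ hz hz] at h1 h2
    have e : (4 : ℂ) * m13 = QF c0 m13 m33 z z w w D D D 1 1 0 0
        - QF c0 m13 m33 z z w w D D D 1 (-1) 0 0 := by unfold QF; ring
    have h3 : ‖(4 : ℂ) * m13‖ ≤ 4 * (4 / 3) := by
      rw [e]
      refine (norm_sub_le _ _).trans ?_
      rw [norm_neg, norm_one] at h2
      rw [norm_one] at h1
      linarith
    rw [norm_mul] at h3
    norm_num at h3 ⊢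
    linarith
  · have h1 := hf 0 1 0
    rw [KF_two _ _ _ _ hz hz] at h1
    have e : QF c0 m13 m33 z z w w D D D 0 1 0 0 = m33 := by unfold QF; ring
    rw [e] at h1
    simpa using h1
  · have h1 := hf 0 0 1
    have e : QF c0 m13 m33 z z w w D D D 0 0 1 0 = D := by unfold QF; ring
    rw [e] at h1
    exact h1.trans hL
  · intro y hy
    have h1 := hf 1 0 y
    have h2 := hf 1 0 (-y)
    have h3 := KF_flip 1 y z hz
    have e : (4 * (y : ℂ)) * phi1 z w = QF c0 m13 m33 z z w w D D D 1 0 y 0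
        - QF c0 m13 m33 z z w w D D D 1 0 (-y) 0 := by unfold QF; ring
    have h4 : ‖(4 * (y : ℂ)) * phi1 z w‖ ≤ 4 + 2 * y ^ 2 * L := by
      rw [e]
      refine (norm_sub_le _ _).trans ?_
      have hy2 : ‖(y : ℂ)‖ ^ 2 = y ^ 2 := by
        rw [Complex.norm_real, Real.norm_eq_abs, sq_abs]
      rw [hy2, norm_one] at h3
      have : 2 * y ^ 2 * KF 0 0 1 0 z z ≤ 2 * y ^ 2 * L :=
        mul_le_mul_of_nonneg_left hL (by positivity)
      linarith
    rw [norm_mul, norm_mul, Complex.norm_real, Real.norm_of_nonneg hy.le] at h4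
    rw [le_div_iff₀ (by positivity)]
    have : ‖(4 : ℂ)‖ = 4 := by norm_num
    rw [this] at h4
    linarith

theorem KF_two_of_p0 {z : ℂ} (hz : ‖z‖ ^ 2 ≤ 4096 / 5525) : ‖z‖ < 1 ∧ KF 0 0 1 0 z z ≤ 2 := by
  constructor
  · by_contra h
    push Not at h
    have : 1 ≤ ‖z‖ ^ 2 := one_le_pow₀ h
    linarith
  · refine (KF_diag hz (by norm_num)).trans ?_
    norm_num

theorem sys0_of_sys1 {z w m13 m33 D : ℂ} (hw : ‖w‖ < 1) (h : Sys1 z w m13 m33 D) :
    Sys0 z w m13 m33 D := by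
  refine ⟨h.f, ?_⟩
  intro y1 y3
  have h1 := h.g y1 y3 0
  rw [KF_two _ _ _ _ hw hw] at h1
  have e : QF c0 m13 m33 z z w w D D D y1 y3 0 0
      = y1 ^ 2 * (2 * (c0 : ℂ)) + 2 * y1 * y3 * m13 + y3 ^ 2 * m33 := by unfold QF; ring
  rw [e] at h1
  exact h1

theorem SC_val : (SC : ℝ) = 1099511627776 := by norm_num [SC]
theorem RO_val : (RO : ℝ) = 1116691496960 := by norm_num [RO]

theorem stage0 : Stage0Statement := by
  intro t ht0 ht1 w m13 m33 D hsys hw
  set z : ℂ := t * p0 with hzdef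
  have htn : ‖z‖ = t * ‖p0‖ := by
    rw [hzdef, norm_mul, Complex.norm_real, Real.norm_of_nonneg ht0.le]
  have hp0 := norm_p0_sq
  have hz2 : ‖z‖ ^ 2 = t ^ 2 * (4096 / 5525) := by rw [htn, mul_pow, hp0]
  have hz2' : ‖z‖ ^ 2 ≤ 4096 / 5525 := by
    rw [hz2]
    have : t ^ 2 ≤ 1 := pow_le_one₀ ht0.le ht1
    nlinarith
  obtain ⟨hz1, hL⟩ := KF_two_of_p0 hz2'
  have hV : ‖1 / w‖ = 1 := by rw [norm_div, norm_one, hw, div_one]
  rcases lt_or_ge t (2 / 3) with hlt | hge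
  · -- analytic bound
    have hz3 : ‖z‖ ^ 2 ≤ 33 / 100 := by
      rw [hz2]
      have : t ^ 2 ≤ 4 / 9 := by nlinarith
      nlinarith
    have hL2 : KF 0 0 1 0 z z ≤ 7 / 10 := (KF_diag hz3 (by norm_num)).trans (by norm_num)
    obtain ⟨_, _, _, hphi⟩ := basic_bounds hz1 hL2 hsys.f
    have h1 := hphi (17 / 10) (by norm_num)
    have h2 : ‖phi1 z w‖ ≤ 12 / 10 := h1.trans (by norm_num)
    rw [phi1_eq, norm_mul] at h2
    have h3 : ‖1 / z - 1 / w‖ ≤ 6 / 10 := by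
      have : ‖(2 : ℂ)‖ = 2 := by norm_num
      rw [this] at h2
      linarith
    have h4 : ‖1 / z‖ ≤ 16 / 10 := by
      have := norm_sub_norm_le (1 / z) (1 / w)
      linarith
    have hz0 : 0 < ‖z‖ := by
      rw [htn]
      have : 0 < ‖p0‖ := by
        by_contra h
        push Not at h
        have h5 : ‖p0‖ = 0 := le_antisymm h (norm_nonneg _)
        rw [h5] at hp0
        norm_num at hp0
      positivity
    rw [norm_div, norm_one, div_le_iff₀ hz0] at h4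
    nlinarith
  · -- certificate
    obtain ⟨h13, h33, hD, _⟩ := basic_bounds hz1 hL hsys.f
    have hA : APri m13 m33 D D := ⟨by linarith, by linarith, hD, hD⟩
    have hz : 1 / z = ((1 / t : ℝ) : ℂ) * U0 := by
      rw [hzdef, ← one_div_p0]
      push_cast
      rw [one_div_mul_one_div]
    have hin : InBx root0 (1 / w) ((1 / t : ℝ) : ℂ) := by
      have hre := abs_re_le_norm (1 / w)
      have him := abs_im_le_norm (1 / w)
      rw [hV] at hre him
      have ht2 : 1 / t ≤ 3 / 2 := by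
        rw [div_le_div_iff₀ ht0 (by norm_num)]; linarith
      have ht3 : 1 ≤ 1 / t := by
        rw [le_div_iff₀ ht0]; linarith
      constructor
      · simp only [root0, Int.cast_zero, sub_zero, abs_mul, abs_of_pos SC_pos]
        nlinarith [SC_pos]
      · simp only [root0, Int.cast_zero, sub_zero, abs_mul, abs_of_pos SC_pos]
        nlinarith [SC_pos]
      · simp only [root0, Complex.ofReal_re]
        push_cast
        rw [SC_val, abs_le]
        constructor <;> linarith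
      · simp [root0]
    refine check_sound (V := 1 / w) (W := ((1 / t : ℝ) : ℂ)) ?_ ?_ tree0 root0 tree0_ok hin
    · intro b hb hinb
      unfold skip0 at hb
      rw [Bool.or_eq_true, decide_eq_true_eq, decide_eq_true_eq] at hb
      rcases hb with hb | hb
      · have h1 := fmax_bound hinb
        rw [hV, one_pow, mul_one] at h1
        have h2 : (b.fmax : ℝ) < ((SC * SC : Int) : ℝ) := by exact_mod_cast hb
        push_cast at h2
        nlinarith
      · have h1 := fmin_bound hinb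
        rw [hV, one_pow, mul_one] at h1
        have h2 : ((SC * SC : Int) : ℝ) < (b.fmin : ℝ) := by exact_mod_cast hb
        push_cast at h2
        nlinarith
    · intro b ex X Y hb hinb
      exact leaf0_sound hb hz hinb hA hsys

theorem stage0a : Stage0aStatement := by
  intro w m13 m33 D hsys hw1 hw2
  obtain ⟨hz1, hL⟩ := KF_two_of_p0 (le_of_eq norm_p0_sq)
  obtain ⟨h13, h33, hD, _⟩ := basic_bounds hz1 hL hsys.f
  have hA : APri m13 m33 D D := ⟨by linarith, by linarith, hD, hD⟩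
  have hwpos : 0 < ‖w‖ := lt_of_lt_of_le (by norm_num) hw1
  have hV1 : 1 ≤ ‖1 / w‖ := by
    rw [norm_div, norm_one, le_div_iff₀ hwpos]; linarith
  have hV2 : ‖1 / w‖ ≤ 65 / 64 := by
    rw [norm_div, norm_one, div_le_div_iff₀ hwpos (by norm_num)]
    rw [div_le_iff₀ (by norm_num)] at hw1
    linarith
  have hz : 1 / p0 = (1 : ℂ) * U0 := by rw [one_mul, one_div_p0]
  have hin : InBx root0a (1 / w) 1 := by
    have hre := (abs_re_le_norm (1 / w)).trans hV2
    have him := (abs_im_le_norm (1 / w)).trans hV2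
    constructor
    · simp only [root0a, Int.cast_zero, sub_zero, abs_mul, abs_of_pos SC_pos]
      rw [SC_val, RO_val]; linarith
    · simp only [root0a, Int.cast_zero, sub_zero, abs_mul, abs_of_pos SC_pos]
      rw [SC_val, RO_val]; linarith
    · simp [root0a]
    · simp [root0a]
  refine check_sound (V := 1 / w) (W := 1) ?_ ?_ tree0a root0a tree0a_ok hin
  · intro b hb hinb
    unfold skip0a at hb
    rw [Bool.or_eq_true, decide_eq_true_eq, decide_eq_true_eq] at hb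
    rcases hb with hb | hb
    · have h1 := fmax_bound hinb
      have h2 : (b.fmax : ℝ) < ((SC * SC : Int) : ℝ) := by exact_mod_cast hb
      push_cast at h2
      have h3 : 1 ≤ ‖1 / w‖ ^ 2 := one_le_pow₀ hV1
      have h4 : (SC : ℝ) ^ 2 * 1 ≤ (SC : ℝ) ^ 2 * ‖1 / w‖ ^ 2 :=
        mul_le_mul_of_nonneg_left h3 (by positivity)
      nlinarith
    · have h1 := fmin_bound hinb
      have h2 : ((RO * RO : Int) : ℝ) < (b.fmin : ℝ) := by exact_mod_cast hb
      push_cast at h2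
      have h3 : ‖1 / w‖ ^ 2 ≤ (65 / 64) ^ 2 := pow_le_pow_left₀ (norm_nonneg _) hV2 2
      rw [RO_val] at h2
      rw [SC_val] at h1
      have h4 : (1099511627776 : ℝ) ^ 2 * ‖1 / w‖ ^ 2
          ≤ (1099511627776 : ℝ) ^ 2 * (65 / 64) ^ 2 :=
        mul_le_mul_of_nonneg_left h3 (by positivity)
      norm_num at h1 h2 h4
      linarith
  · intro b ex X Y hb hinb
    exact leaf0_sound hb hz hinb hA hsys

theorem root_close {z w : ℂ} (hz : 1 / z = U0) (h : ‖phi1 z w‖ ≤ 2) :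
    InBx root1 (1 / w) 0 := by
  rw [phi1_eq, norm_mul] at h
  have h3 : ‖1 / z - 1 / w‖ ≤ 1 := by
    have : ‖(2 : ℂ)‖ = 2 := by norm_num
    rw [this] at h
    linarith
  have hre := (abs_re_le_norm (1 / z - 1 / w)).trans h3
  have him := (abs_im_le_norm (1 / z - 1 / w)).trans h3
  rw [Complex.sub_re, hz] at hre
  rw [Complex.sub_im, hz] at him
  have e1 : U0.re = 31 / 32 := by rw [U0_val]; simp
  have e2 : U0.im = 41 / 64 := by rw [U0_val]; simp
  rw [e1, abs_le] at hre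
  rw [e2, abs_le] at him
  constructor
  · simp only [root1]
    push_cast
    rw [SC_val, abs_le]
    constructor <;> linarith [hre.1, hre.2]
  · simp only [root1]
    push_cast
    rw [SC_val, abs_le]
    constructor <;> linarith [him.1, him.2]
  · simp [root1]
  · simp [root1]

theorem stage1 : Stage1Statement := by
  intro w m13 m33 D hsys hw0 hw2
  by_contra hcon
  have hw1 : ‖w‖ < 1 := lt_of_le_of_lt hw2 (by norm_num)
  have hsys0 := sys0_of_sys1 hw1 hsys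
  obtain ⟨hz1, hL⟩ := KF_two_of_p0 (le_of_eq norm_p0_sq)
  obtain ⟨h13, h33, hD, hphi⟩ := basic_bounds hz1 hL hsys.f
  have hA : APri m13 m33 D D := ⟨by linarith, by linarith, hD, hD⟩
  have h1 := hphi 1 (by norm_num)
  have h2 : ‖phi1 p0 w‖ ≤ 2 := h1.trans (by norm_num)
  have hin := root_close one_div_p0 h2
  have hwpos : 0 < ‖w‖ := norm_pos_iff.2 hw0
  have hV1 : 65 / 64 ≤ ‖1 / w‖ := by
    rw [norm_div, norm_one, div_le_div_iff₀ (by norm_num) hwpos]
    rw [le_div_iff₀ (by norm_num)] at hw2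
    linarith
  refine check_sound (V := 1 / w) (W := 0) ?_ ?_ tree1 root1 tree1_ok hin
  · intro b hb hinb
    unfold skip1 at hb
    rw [Bool.or_eq_true, decide_eq_true_eq] at hb
    rcases hb with hb | hb
    · have h1 := fmax_bound hinb
      have h2 : (b.fmax : ℝ) < ((RO * RO : Int) : ℝ) := by exact_mod_cast hb
      push_cast at h2
      have h3 : (65 / 64 : ℝ) ^ 2 ≤ ‖1 / w‖ ^ 2 := pow_le_pow_left₀ (by norm_num) hV1 2
      rw [RO_val] at h2
      rw [SC_val] at h1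
      have h4 : (1099511627776 : ℝ) ^ 2 * (65 / 64) ^ 2
          ≤ (1099511627776 : ℝ) ^ 2 * ‖1 / w‖ ^ 2 :=
        mul_le_mul_of_nonneg_left h3 (by positivity)
      norm_num at h1 h2 h4
      linarith
    · unfold inRect at hb
      simp only [Bool.and_eq_true, decide_eq_true_eq] at hb
      obtain ⟨⟨⟨a1, a2⟩, a3⟩, a4⟩ := hb
      have b1 := abs_le.1 hinb.h1
      have b2 := abs_le.1 hinb.h2
      rw [SC_val] at b1 b2
      have a1' : (575525617664 : ℝ) ≤ (b.x1 : ℝ) - b.r1 := by exact_mod_cast a1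
      have a2' : (b.x1 : ℝ) + b.r1 ≤ (687194767360 : ℝ) := by exact_mod_cast a2
      have a3' : (1133871366144 : ℝ) ≤ (b.x2 : ℝ) - b.r2 := by exact_mod_cast a3
      have a4' : (b.x2 : ℝ) + b.r2 ≤ (1271310319616 : ℝ) := by exact_mod_cast a4
      apply hcon
      refine ⟨?_, ?_, ?_, ?_⟩
      · linarith [b1.1, b1.2]
      · linarith [b1.1, b1.2]
      · linarith [b2.1, b2.2]
      · linarith [b2.1, b2.2]
  · intro b ex X Y hb hinb
    exact leaf1_sound hb one_div_p0 hinb hA hsys0 hsys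

theorem stage2 : Stage2Statement := by
  intro wp wq m13 m33 Dpp Dqq Dpq hsys hD h1 h2 h3 h4 h5 h6 h7 h8
  have hq0n : ‖q0‖ ^ 2 = 4096 / 5525 := by
    have e : q0 = (starRingEnd ℂ) p0 := by
      unfold q0 p0
      rw [map_div₀, map_div₀, map_add, map_mul, Complex.conj_I, map_one]
      have a1 : (starRingEnd ℂ) (62 : ℂ) = 62 := Complex.conj_ofNat 62
      have a2 : (starRingEnd ℂ) (41 : ℂ) = 41 := Complex.conj_ofNat 41
      have a3 : (starRingEnd ℂ) (64 : ℂ) = 64 := Complex.conj_ofNat 64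
      rw [a1, a2, a3]
      ring
    rw [e, Complex.norm_conj, norm_p0_sq]
  obtain ⟨hz1, hL⟩ := KF_two_of_p0 (le_of_eq norm_p0_sq)
  obtain ⟨hz1', hL'⟩ := KF_two_of_p0 (le_of_eq hq0n)
  have hfp : ∀ x1 x3 xp : ℂ, ‖QF c0 m13 m33 p0 p0 wp wp Dpp Dpp Dpp x1 x3 xp 0‖
      ≤ KF x1 x3 xp 0 p0 p0 := by
    intro x1 x3 xp
    have h := hsys.f x1 x3 xp 0
    have e1 : QF c0 m13 m33 p0 q0 wp wq Dpp Dqq Dpq x1 x3 xp 0
        = QF c0 m13 m33 p0 p0 wp wp Dpp Dpp Dpp x1 x3 xp 0 := by unfold QF; ring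
    have e2 : KF x1 x3 xp 0 p0 q0 = KF x1 x3 xp 0 p0 p0 := by
      unfold KF; simp
    rw [e1, e2] at h
    exact h
  have hfq : ∀ x1 x3 xp : ℂ, ‖QF c0 m13 m33 q0 q0 wq wq Dqq Dqq Dqq x1 x3 xp 0‖
      ≤ KF x1 x3 xp 0 q0 q0 := by
    intro x1 x3 xp
    have h := hsys.f x1 x3 0 xp
    have e1 : QF c0 m13 m33 p0 q0 wp wq Dpp Dqq Dpq x1 x3 0 xp
        = QF c0 m13 m33 q0 q0 wq wq Dqq Dqq Dqq x1 x3 xp 0 := by unfold QF; ring
    have e2 : KF x1 x3 0 xp p0 q0 = KF x1 x3 xp 0 q0 q0 := by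
      unfold KF; simp
    rw [e1, e2] at h
    exact h
  obtain ⟨h13, h33, hDp, _⟩ := basic_bounds hz1 hL hfp
  obtain ⟨_, _, hDq, _⟩ := basic_bounds hz1' hL' hfq
  have hA : APri m13 m33 Dpp Dqq := ⟨by linarith, by linarith, hDp, hDq⟩
  have hin : InBx root2 (1 / wp) (1 / wq) := by
    constructor
    · simp only [root2]
      push_cast
      rw [SC_val, abs_le]
      constructor <;> linarith
    · simp only [root2]
      push_cast
      rw [SC_val, abs_le]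
      constructor <;> linarith
    · simp only [root2]
      push_cast
      rw [SC_val, abs_le]
      constructor <;> linarith
    · simp only [root2]
      push_cast
      rw [SC_val, abs_le]
      constructor <;> linarith
  refine check_sound (V := 1 / wp) (W := 1 / wq) ?_ ?_ tree2 root2 tree2_ok hin
  · intro b hb _
    simp [skipN] at hb
  · intro b ex X Y hb hinb
    exact leaf2_sound hb one_div_p0 one_div_q0 hinb hA hsys hD

end Pool.Agent.Lib.Pd7a79b
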