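import Pool.Agent.Lib.Pd7a79b.Inj

set_option autoImplicit false

open Complex Metric Set Filter Topology

namespace Pool.Agent.Lib.Pd7a79b

variable {h : ℂ → ℂ} {R : ℝ}

theorem closedBall_sub_ball (hR : 1 < R) : closedBall (0 : ℂ) 1 ⊆ ball 0 R :=
  closedBall_subset_ball hR

theorem sphere_sub_ball (hR : 1 < R) : sphere (0 : ℂ) 1 ⊆ ball 0 R :=
  (sphere_subset_closedBall).trans (closedBall_subset_ball hR)

theorem circle_int_zero {f : ℂ → ℂ} (hR : 1 < R) (hf : DifferentiableOn ℂ f (ball 0 R)) :
    ∮ z in C(0, 1), f z = 0 := by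
  apply DiffContOnCl.circleIntegral_eq_zero zero_le_one
  apply DifferentiableOn.diffContOnCl
  rw [closure_ball _ one_ne_zero]
  exact hf.mono (closedBall_sub_ball hR)

/-- local differentiability version on closed ball -/
theorem circle_int_zero' {f : ℂ → ℂ} (hf : ∀ z ∈ closedBall (0 : ℂ) 1, DifferentiableAt ℂ f z) :
    ∮ z in C(0, 1), f z = 0 := by
  apply DiffContOnCl.circleIntegral_eq_zero zero_le_one
  apply DifferentiableOn.diffContOnCl
  rw [closure_ball _ one_ne_zero]
  exact fun z hz => (hf z hz).differentiableWithinAt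

theorem circle_logderiv_out (hR : 1 < R) (hd : DifferentiableOn ℂ h (ball 0 R)) {r : ℂ}
    (hr : ∀ z ∈ closedBall (0 : ℂ) 1, h z ≠ r) :
    ∮ z in C(0, 1), deriv h z / (h z - r) = 0 := by
  apply circle_int_zero'
  intro z hz
  have hzR := closedBall_sub_ball hR hz
  have h1 : DifferentiableAt ℂ h z := hd.differentiableAt (isOpen_ball.mem_nhds hzR)
  have h2 : DifferentiableAt ℂ (deriv h) z :=
    ((hd.deriv isOpen_ball).differentiableAt (isOpen_ball.mem_nhds hzR))
  exact h2.div (h1.sub_const r) (sub_ne_zero.mpr (hr z hz))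

/-- The divided difference is nonvanishing -/
theorem dslope_ne_zero (hd : DifferentiableOn ℂ h (ball 0 R)) (hi : InjOn h (ball 0 R)) {a z : ℂ}
    (ha : a ∈ ball (0 : ℂ) R) (hz : z ∈ ball (0 : ℂ) R) : dslope h a z ≠ 0 := by
  by_cases h1 : z = a
  · subst h1
    rw [dslope_same]
    exact deriv_ne_zero_of_injOn isOpen_ball hd hi hz
  · rw [dslope_of_ne _ h1, slope_def_field]
    apply div_ne_zero
    · intro h2
      exact h1 (hi hz ha (sub_eq_zero.mp h2))
    · exact sub_ne_zero.mpr h1

theorem dslope_diff (hd : DifferentiableOn ℂ h (ball 0 R)) {a : ℂ}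
    (ha : a ∈ ball (0 : ℂ) R) : DifferentiableOn ℂ (dslope h a) (ball 0 R) :=
  (Complex.differentiableOn_dslope (isOpen_ball.mem_nhds ha)).mpr hd

theorem deriv_eq_dslope (hd : DifferentiableOn ℂ h (ball 0 R)) {a z : ℂ}
    (ha : a ∈ ball (0 : ℂ) R) (hz : z ∈ ball (0 : ℂ) R) :
    deriv h z = dslope h a z + (z - a) * deriv (dslope h a) z := by
  have h1 : h = fun w => h a + (w - a) * dslope h a w := by
    funext w
    have := sub_smul_dslope h a w
    rw [smul_eq_mul] at this
    rw [this]; ring
  have h2 : HasDerivAt (dslope h a) (deriv (dslope h a) z) z :=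
    ((dslope_diff hd ha).differentiableAt (isOpen_ball.mem_nhds hz)).hasDerivAt
  have h3 : HasDerivAt (fun w => h a + (w - a) * dslope h a w)
      (dslope h a z + (z - a) * deriv (dslope h a) z) z := by
    have h4 := (((hasDerivAt_id z).sub_const a).mul h2).const_add (h a)
    simpa using h4
  rw [← h1] at h3
  exact h3.deriv

theorem sub_eq_mul_dslope (h : ℂ → ℂ) (a z : ℂ) : h z - h a = (z - a) * dslope h a z := by
  have := sub_smul_dslope h a z
  rw [smul_eq_mul] at this
  exact this.symm

theorem circle_logderiv_in (hR : 1 < R) (hd : DifferentiableOn ℂ h (ball 0 R))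
    (hi : InjOn h (ball 0 R)) {a : ℂ} (ha : a ∈ ball (0 : ℂ) 1) :
    ∮ z in C(0, 1), deriv h z / (h z - h a) = 2 * Real.pi * I := by
  have haR : a ∈ ball (0 : ℂ) R := ball_subset_ball hR.le ha
  have h1 : EqOn (fun z => deriv h z / (h z - h a))
      (fun z => (z - a)⁻¹ + deriv (dslope h a) z / dslope h a z) (sphere 0 1) := by
    intro z hz
    have hzR := sphere_sub_ball hR hz
    have hza : z - a ≠ 0 := by
      intro h2
      rw [sub_eq_zero.mp h2] at hz
      simp at hz ha
      linarith
    have h3 := dslope_ne_zero hd hi haR hzR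
    simp only
    rw [deriv_eq_dslope hd haR hzR, sub_eq_mul_dslope]
    field_simp
  rw [circleIntegral.integral_congr zero_le_one h1, circleIntegral.integral_add]
  · rw [circleIntegral.integral_sub_inv_of_mem_ball ha]
    rw [circle_int_zero hR, add_zero]
    apply DifferentiableOn.div
    · exact (dslope_diff hd haR).deriv isOpen_ball
    · exact dslope_diff hd haR
    · intro z hz
      exact dslope_ne_zero hd hi haR hz
  · rw [circleIntegrable_sub_inv_iff]
    right
    intro h2
    simp at h2 ha
    linarith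
  · apply ContinuousOn.circleIntegrable zero_le_one
    apply DifferentiableOn.continuousOn (𝕜 := ℂ)
    have : DifferentiableOn ℂ (fun z => deriv (dslope h a) z / dslope h a z) (ball 0 R) := by
      apply DifferentiableOn.div
      · exact (dslope_diff hd haR).deriv isOpen_ball
      · exact dslope_diff hd haR
      · intro z hz
        exact dslope_ne_zero hd hi haR hz
    exact this.mono (sphere_sub_ball hR)

open Classical in
/-- winding number of the image circle about a multiset of points off the image circle. -/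
theorem circle_sum (hR : 1 < R) (hd : DifferentiableOn ℂ h (ball 0 R))
    (hi : InjOn h (ball 0 R)) (s : Multiset ℂ) (hs : ∀ r ∈ s, ∀ z ∈ sphere (0 : ℂ) 1, h z ≠ r) :
    ContinuousOn (fun z => deriv h z * (s.map fun r => 1 / (h z - r)).sum) (sphere (0 : ℂ) 1) ∧
    ∮ z in C(0, 1), deriv h z * (s.map fun r => 1 / (h z - r)).sum =
      2 * Real.pi * I * (s.countP (· ∈ h '' ball (0 : ℂ) 1) : ℕ) := by
  induction s using Multiset.induction_on with
  | empty =>
    simp only [Multiset.map_zero, Multiset.sum_zero, mul_zero, Multiset.countP_zero,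
      Nat.cast_zero]
    exact ⟨continuousOn_const, by simp [circleIntegral]⟩
  | cons r s ih =>
    obtain ⟨ih1, ih2⟩ := ih (fun q hq => hs q (Multiset.mem_cons_of_mem hq))
    have hr := hs r (Multiset.mem_cons_self r s)
    have hc : ContinuousOn (fun z => deriv h z / (h z - r)) (sphere (0 : ℂ) 1) := by
      apply ContinuousOn.div
      · exact (hd.deriv isOpen_ball).continuousOn.mono (sphere_sub_ball hR)
      · exact (hd.continuousOn.mono (sphere_sub_ball hR)).sub continuousOn_const
      · intro z hz
        exact sub_ne_zero.mpr (hr z hz)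
    have h1 : (fun z => deriv h z * ((r ::ₘ s).map fun r => 1 / (h z - r)).sum) =
        fun z => deriv h z / (h z - r) + deriv h z * (s.map fun r => 1 / (h z - r)).sum := by
      funext z
      rw [Multiset.map_cons, Multiset.sum_cons]
      ring
    rw [h1]
    refine ⟨hc.add ih1, ?_⟩
    rw [circleIntegral.integral_add (hc.circleIntegrable zero_le_one)
      (ih1.circleIntegrable zero_le_one), ih2, Multiset.countP_cons]
    by_cases hrm : r ∈ h '' ball (0 : ℂ) 1
    · obtain ⟨a, ha, rfl⟩ := hrm
      rw [circle_logderiv_in hR hd hi ha, if_pos (mem_image_of_mem h ha)]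
      push_cast
      ring
    · rw [if_neg hrm, circle_logderiv_out hR hd, zero_add, add_zero]
      intro z hz hzr
      rw [mem_closedBall] at hz
      rcases hz.lt_or_eq with h2 | h2
      · exact hrm ⟨z, mem_ball.mpr h2, hzr⟩
      · exact hr z (mem_sphere.mpr h2) hzr

/-- For a polynomial `Q` nonvanishing on the image circle, winding number of `Q ∘ h`. -/
theorem circle_poly (hR : 1 < R) (hd : DifferentiableOn ℂ h (ball 0 R))
    (hi : InjOn h (ball 0 R)) (Q : Polynomial ℂ) (hQ : ∀ z ∈ sphere (0 : ℂ) 1, Q.eval (h z) ≠ 0) :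
    ∃ k : ℕ, k ≤ Q.natDegree ∧
      ((∀ r, Q.IsRoot r → r ∈ h '' ball (0 : ℂ) 1) → k = Q.natDegree) ∧
      ∮ z in C(0, 1), deriv h z * (Q.derivative.eval (h z) / Q.eval (h z)) =
        2 * Real.pi * I * (k : ℕ) := by
  classical
  have hs : ∀ r ∈ Q.roots, ∀ z ∈ sphere (0 : ℂ) 1, h z ≠ r := by
    intro r hr z hz hzr
    have h1 := Polynomial.isRoot_of_mem_roots hr
    apply hQ z hz
    rw [hzr]
    exact h1
  have hQ0 : Q ≠ 0 := by
    rintro rfl
    exact hQ 1 (by simp) (by simp)
  obtain ⟨-, h2⟩ := circle_sum hR hd hi Q.roots hs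
  refine ⟨Q.roots.countP (· ∈ h '' ball (0 : ℂ) 1), ?_, ?_, ?_⟩
  · exact (Multiset.countP_le_card _ _).trans (Polynomial.card_roots' Q)
  · intro hall
    rw [(IsAlgClosed.splits Q).natDegree_eq_card_roots]
    rw [Multiset.countP_eq_card]
    intro r hr
    exact hall r (Polynomial.isRoot_of_mem_roots hr)
  · rw [← h2]
    apply circleIntegral.integral_congr zero_le_one
    intro z hz
    simp only
    rw [(IsAlgClosed.splits Q).eval_derivative_div_eval_of_ne_zero (hQ z hz)]

end Pool.Agent.Lib.Pd7a79b
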